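import Pool.Agent.Lib.MP_9cae81_R.Defs
import Pool.Agent.Lib.MP_9cae81_R.B1

section

open Finset Filter MeasureTheory
open scoped BigOperators Topology

namespace Pool.Agent.Lib.MP_9cae81_R

theorem E1_sum_fr {n : ℕ} (F : Finset (Cl (Fin n))) :
    0 ≤ ∑ a, fr F a ∧ ∑ a, fr F a ≤ n := by
  constructor
  · refine Finset.sum_nonneg fun a _ => ?_
    rcases fr_zero_or_one F a with h | h <;> rw [h]
    exact zero_le_one
  · rw [Fintype.sum_prod_type]
    calc ∑ v : Fin n, ∑ s : Bool, fr F (v, s) ≤ ∑ v : Fin n, (1 : ℝ) := by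
          refine Finset.sum_le_sum fun v _ => ?_
          rw [Fintype.sum_bool]
          have := fr_add_ng F (v, true)
          simpa [ng] using this
      _ = n := by simp

/-- `fN F` is in `[0, 1/2]`. -/
theorem fN_range {n : ℕ} (hn : 1 ≤ n) (F : Finset (Cl (Fin n))) : 0 ≤ fN F ∧ fN F ≤ 1 / 2 := by
  have hn' : (0 : ℝ) < n := by exact_mod_cast hn
  obtain ⟨h1, h2⟩ := E1_sum_fr F
  unfold fN
  refine ⟨by positivity, ?_⟩
  rw [div_le_iff₀ (by positivity)]
  linarith

/-- `m2 F = fN (le2 F)`. -/
theorem m2_range {n : ℕ} (hn : 1 ≤ n) (F : Finset (Cl (Fin n))) :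
    0 ≤ m2 F ∧ m2 F ≤ 1 / 2 ∧ m2 F = fN (le2 F) := by
  have h : m2 F = fN (le2 F) := rfl
  exact ⟨h ▸ (fN_range hn _).1, h ▸ (fN_range hn _).2, h⟩

theorem E1_key {n : ℕ} (hn : 1 ≤ n) (F : Finset (Cl (Fin n))) : (1 - un F) * m2 F ≤ fN F := by
  have hn' : (0 : ℝ) < n := by exact_mod_cast hn
  unfold m2 fN
  rw [← mul_div_assoc, Finset.mul_sum]
  gcongr with a _
  exact fr_le2 F a

/-- `fT F` lies in `[0,1/2]`. -/
theorem fT_range {n : ℕ} (hn : 1 ≤ n) (F : Finset (Cl (Fin n))) :
    0 ≤ fT F ∧ fT F ≤ 1 / 2 ∧ fT F ≤ fN F := by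
  have h1 := E1_key hn F
  have h2 := fN_range hn F
  have h3 := m2_range hn F
  have h4 : 0 ≤ (1 - un F) * m2 F := mul_nonneg (by linarith [un_le_one F]) h3.1
  unfold fT
  exact ⟨by linarith, by linarith, by linarith⟩

/-- `fN F = av F - un F`. -/
theorem fN_av {n : ℕ} (hn : 1 ≤ n) (F : Finset (Cl (Fin n))) :
    fN F = av F - un F ∧ fN F ≤ av F ∧ un F ≤ av F ∧ 0 ≤ av F ∧ av F ≤ 1 := by
  have hn' : (0 : ℝ) < n := by exact_mod_cast hn
  have h1 : fN F = av F - un F := by
    unfold fN av fr
    rw [Finset.sum_sub_distrib, Finset.sum_const, Finset.card_univ]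
    simp only [Fintype.card_prod, Fintype.card_fin, Fintype.card_bool, nsmul_eq_mul]
    push_cast
    field_simp
  have h2 := fN_range hn F
  have h3 := un_nonneg F
  have h4 : av F ≤ 1 := by
    unfold av
    rw [div_le_one (by positivity)]
    calc ∑ b, un (insert (cu b) F) ≤ ∑ _b : Lt (Fin n), (1 : ℝ) :=
          Finset.sum_le_sum fun b _ => un_le_one _
      _ = 2 * n := by
          simp [Fintype.card_prod, Fintype.card_fin, Fintype.card_bool]
          ring
  exact ⟨h1, by linarith, by linarith [h2.1], by linarith [h2.1], h4⟩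

/-- Immediate from the previous facts. -/
theorem m2_av {n : ℕ} (hn : 1 ≤ n) (F : Finset (Cl (Fin n))) :
    fN F * ((1 - un F) * m2 F) ≤ m2 F * av F ∧ un F * m2 F ≤ m2 F * av F ∧ 0 ≤ un F * m2 F ∧
      m2 F * av F ≤ 1 := by
  have h1 := fN_av hn F
  have h2 := fN_range hn F
  have h3 := m2_range hn F
  have h4 := un_nonneg F
  have h5 := un_le_one F
  refine ⟨?_, ?_, mul_nonneg h4 h3.1, ?_⟩
  · have e1 : fN F * ((1 - un F) * m2 F) ≤ fN F * m2 F := by
      have : (1 - un F) * m2 F ≤ m2 F := by nlinarith [h3.1]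
      exact mul_le_mul_of_nonneg_left this h2.1
    have e2 : fN F * m2 F ≤ av F * m2 F := mul_le_mul_of_nonneg_right h1.2.1 h3.1
    linarith [mul_comm (av F) (m2 F)]
  · rw [mul_comm (m2 F) (av F)]
    exact mul_le_mul_of_nonneg_right h1.2.2.1 h3.1
  · have : m2 F * av F ≤ 1 * 1 := mul_le_mul (by linarith [h3.2.1]) h1.2.2.2.2 h1.2.2.2.1 zero_le_one
    linarith

end Pool.Agent.Lib.MP_9cae81_R
end

section

open Finset Filter MeasureTheory
open scoped BigOperators Topology

namespace Pool.Agent.Lib.MP_9cae81_R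

variable {ι : Type} [Fintype ι] [DecidableEq ι]

/-- The weights sum to one. -/
theorem EE_const (q : ι → ℝ) (a : ℝ) : EE q (fun _ => a) = a := by
  have h : ∑ F : Finset ι, wt q F = 1 := by
    have h1 : ∏ c : ι, ((1 - Real.exp (-(q c))) + Real.exp (-(q c))) = 1 := by
      simp
    rw [Finset.prod_add] at h1
    rw [← h1, ← Finset.powerset_univ]
    refine Finset.sum_congr rfl fun F _ => ?_
    unfold wt
    rw [← Finset.prod_filter_mul_prod_filter_not Finset.univ (fun c => c ∈ F)]
    congr 1
    · rw [show Finset.univ.filter (fun c => c ∈ F) = F by ext; simp]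
      exact Finset.prod_congr rfl fun c hc => by simp [hc]
    · rw [show Finset.univ.filter (fun c => c ∉ F) = Finset.univ \ F by ext; simp]
      exact Finset.prod_congr rfl fun c hc => by simp at hc; simp [hc]
  unfold EE
  rw [← Finset.sum_mul, h, one_mul]

/-- The weight of the other coordinates. -/
noncomputable def A1_rest (q : ι → ℝ) (c : ι) (F : Finset ι) : ℝ :=
  ∏ d ∈ Finset.univ.erase c, if d ∈ F then 1 - Real.exp (-(q d)) else Real.exp (-(q d))

theorem A1_wt (q : ι → ℝ) (c : ι) (F : Finset ι) :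
    wt q F = (if c ∈ F then 1 - Real.exp (-(q c)) else Real.exp (-(q c))) * A1_rest q c F := by
  unfold wt A1_rest
  exact (Finset.mul_prod_erase Finset.univ
    (fun d => if d ∈ F then 1 - Real.exp (-(q d)) else Real.exp (-(q d))) (Finset.mem_univ c)).symm

theorem A1_rest_insert (q : ι → ℝ) (c : ι) (F : Finset ι) :
    A1_rest q c (insert c F) = A1_rest q c F := by
  unfold A1_rest
  refine Finset.prod_congr rfl fun d hd => ?_
  have : d ≠ c := (Finset.mem_erase.1 hd).1
  simp [this]

theorem A1_sum_pair (c : ι) (h : Finset ι → ℝ) :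
    ∑ F : Finset ι, h F = ∑ F ∈ Finset.univ.filter (fun F : Finset ι => c ∉ F),
      (h (insert c F) + h F) := by
  rw [Finset.sum_add_distrib, ← Finset.sum_filter_add_sum_filter_not Finset.univ
    (fun F : Finset ι => c ∈ F) h]
  congr 1
  refine Finset.sum_nbij' (fun F => F.erase c) (fun F => insert c F) ?_ ?_ ?_ ?_ ?_
  · intro F hF; simp
  · intro F hF; simp
  · intro F hF; simp at hF; exact Finset.insert_erase hF
  · intro F hF; simp at hF; exact Finset.erase_insert hF
  · intro F hF; simp at hF; rw [Finset.insert_erase hF]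

/-- Expectation written over the sets without `c`. -/
theorem A1_EE (q : ι → ℝ) (c : ι) (g : Finset ι → ℝ) :
    EE q g = ∑ F ∈ Finset.univ.filter (fun F : Finset ι => c ∉ F),
      A1_rest q c F * ((1 - Real.exp (-(q c))) * g (insert c F) + Real.exp (-(q c)) * g F) := by
  unfold EE
  rw [A1_sum_pair c]
  refine Finset.sum_congr rfl fun F hF => ?_
  have hF' : c ∉ F := by simpa using hF
  rw [A1_wt q c (insert c F), A1_wt q c F, A1_rest_insert]
  simp [hF']
  ring

/-- Resampling one coordinate. -/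
theorem EE_split (q : ι → ℝ) (c : ι) (g : Finset ι → ℝ) :
    EE q g = (1 - Real.exp (-(q c))) * EE q (fun F => g (insert c F)) +
      Real.exp (-(q c)) * EE q (fun F => g (F.erase c)) := by
  rw [A1_EE q c g, A1_EE q c (fun F => g (insert c F)), A1_EE q c (fun F => g (F.erase c)),
    Finset.mul_sum, Finset.mul_sum, ← Finset.sum_add_distrib]
  refine Finset.sum_congr rfl fun F hF => ?_
  have hF' : c ∉ F := by simpa using hF
  simp only [Finset.insert_idem, Finset.erase_insert hF', Finset.erase_eq_of_notMem hF']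
  ring

/-- Conditioning on the presence of one coordinate. -/
theorem EE_mem (q : ι → ℝ) (c : ι) (g : Finset ι → ℝ) :
    EE q (fun F => if c ∈ F then g F else 0) =
      (1 - Real.exp (-(q c))) * EE q (fun F => g (insert c F)) := by
  rw [EE_split q c (fun F => if c ∈ F then g F else 0)]
  have h2 : EE q (fun F => if c ∈ F.erase c then g (F.erase c) else 0) = 0 := by
    simp [EE]
  rw [h2]
  simp

/-- Conditioning on the presence of a set. -/
theorem EE_subset (q : ι → ℝ) (W : Finset ι) (g : Finset ι → ℝ) :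
    EE q (fun F => if W ⊆ F then g F else 0) =
      (∏ c ∈ W, (1 - Real.exp (-(q c)))) * EE q (fun F => g (F ∪ W)) := by
  induction W using Finset.induction_on generalizing g with
  | empty => simp
  | insert c W hc ih =>
    have h1 : (fun F : Finset ι => if insert c W ⊆ F then g F else 0) =
        fun F => if c ∈ F then (if W ⊆ F then g F else 0) else 0 := by
      funext F
      by_cases h : c ∈ F <;> by_cases h' : W ⊆ F <;> simp [Finset.insert_subset_iff, h, h']
    rw [h1, EE_mem, Finset.prod_insert hc]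
    have h2 : (fun F : Finset ι => if W ⊆ insert c F then g (insert c F) else 0) =
        fun F => if W ⊆ F then g (insert c F) else 0 := by
      funext F
      have : W ⊆ insert c F ↔ W ⊆ F := by
        constructor
        · intro h d hd
          rcases Finset.mem_insert.1 (h hd) with h' | h'
          · exact absurd (h' ▸ hd) hc
          · exact h'
        · exact fun h => h.trans (Finset.subset_insert _ _)
      simp [this]
    rw [h2, ih (fun F => g (insert c F)), mul_assoc]
    congr 2
    congr 1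
    funext F
    rw [Finset.union_insert]

end Pool.Agent.Lib.MP_9cae81_R
end

section

open Finset Filter MeasureTheory
open scoped BigOperators Topology

namespace Pool.Agent.Lib.MP_9cae81_R

variable {ι : Type} [Fintype ι] [DecidableEq ι]

theorem A2_expect_diff (q : ι → ℝ) (c : ι) (g : Finset ι → ℝ) :
    EE q (fun F => g (insert c F) - g F) =
      ∑ F ∈ Finset.univ.filter (fun F : Finset ι => c ∉ F),
        A1_rest q c F * (Real.exp (-(q c)) * (g (insert c F) - g F)) := by
  rw [A1_EE q c]
  refine Finset.sum_congr rfl fun F hF => ?_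
  simp only [Finset.insert_idem]
  ring

/-- The generator formula: derivative along the direction `r` of the intensities. -/
theorem EE_hasDerivAt (q r : ι → ℝ) (g : Finset ι → ℝ) (s : ℝ) :
    HasDerivAt (fun t => EE (fun c => q c + t * r c) g)
      (∑ c, r c * EE (fun c => q c + s * r c) (fun F => g (insert c F) - g F)) s := by
  have hfac : ∀ (F : Finset ι) (c : ι), HasDerivAt
      (fun t => if c ∈ F then 1 - Real.exp (-(q c + t * r c)) else Real.exp (-(q c + t * r c)))
      (if c ∈ F then r c * Real.exp (-(q c + s * r c)) else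
        -(r c * Real.exp (-(q c + s * r c)))) s := by
    intro F c
    have h0 : HasDerivAt (fun t => Real.exp (-(q c + t * r c)))
        (-(r c * Real.exp (-(q c + s * r c)))) s := by
      have h1 : HasDerivAt (fun t : ℝ => -(q c + t * r c)) (-(r c)) s := by
        have h2 := ((hasDerivAt_id' s).mul_const (r c)).const_add (q c)
        have h3 := h2.fun_neg
        simpa using h3
      have := h1.exp
      convert this using 1
      ring
    by_cases h : c ∈ F
    · simp only [h, if_true]
      have := h0.const_sub 1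
      simpa using this
    · simp only [h, if_false]
      exact h0
  have hwt : ∀ F : Finset ι, HasDerivAt (fun t => wt (fun c => q c + t * r c) F)
      (∑ c, (if c ∈ F then r c * Real.exp (-(q c + s * r c)) else
        -(r c * Real.exp (-(q c + s * r c)))) * A1_rest (fun c => q c + s * r c) c F) s := by
    intro F
    have := HasDerivAt.fun_finsetProd (u := (Finset.univ : Finset ι))
      (f := fun c t => if c ∈ F then 1 - Real.exp (-(q c + t * r c)) else
        Real.exp (-(q c + t * r c)))
      (f' := fun c => if c ∈ F then r c * Real.exp (-(q c + s * r c)) else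
        -(r c * Real.exp (-(q c + s * r c)))) (x := s) (fun c _ => hfac F c)
    refine this.congr_deriv ?_
    refine Finset.sum_congr rfl fun c _ => ?_
    unfold A1_rest
    rw [smul_eq_mul, mul_comm]
  have hE : HasDerivAt (fun t => EE (fun c => q c + t * r c) g)
      (∑ F : Finset ι, (∑ c, (if c ∈ F then r c * Real.exp (-(q c + s * r c)) else
        -(r c * Real.exp (-(q c + s * r c)))) * A1_rest (fun c => q c + s * r c) c F) * g F) s := by
    unfold EE
    exact HasDerivAt.fun_sum fun F _ => (hwt F).mul_const (g F)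
  refine hE.congr_deriv ?_
  simp only [Finset.sum_mul]
  rw [Finset.sum_comm]
  refine Finset.sum_congr rfl fun c _ => ?_
  rw [A2_expect_diff, A1_sum_pair c, Finset.mul_sum]
  refine Finset.sum_congr rfl fun F hF => ?_
  have hF' : c ∉ F := by simpa using hF
  rw [A1_rest_insert]
  simp [hF']
  ring

end Pool.Agent.Lib.MP_9cae81_R
end

section

open Finset Filter MeasureTheory
open scoped BigOperators Topology

namespace Pool.Agent.Lib.MP_9cae81_R

variable {V : Type} [DecidableEq V] [Fintype V]

/-- Derivative of the probability that `F ∪ W` is unsatisfiable along a line in `(u,v,w)`.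
Proof: `qq (u + t du) (v + t dv) (w + t dw) c = qq u v w c + t * qq du dv dw c`; by `EE_hasDerivAt`
the derivative is `∑ c, qq du dv dw c * EE (un (insert c F ∪ W) - un (F ∪ W))`; split the sum over
`Cl V` (`Fintype.sum_sum_type`, `Fintype.sum_prod_type`), use `insert c F ∪ W = insert c (F ∪ W)`,
the definition of `fr`, `un_pair`, `un_triple`, and `(∑ a, f a) ^ 2 = ∑ a, ∑ b, f a * f b` and the
analogous formula for the cube. -/
theorem un_hasDerivAt (W : Finset (Cl V)) (u v w du dv dw s : ℝ) :
    HasDerivAt (fun t => EE (qq (u + t * du) (v + t * dv) (w + t * dw)) (fun F => un (F ∪ W)))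
      (EE (qq (u + s * du) (v + s * dv) (w + s * dw)) (fun F =>
        du * (∑ a, fr (F ∪ W) a) + dv * (∑ a, fr (F ∪ W) a) ^ 2 +
          dw * (∑ a, fr (F ∪ W) a) ^ 3)) s := by
  have hq : ∀ t : ℝ, qq (V := V) (u + t * du) (v + t * dv) (w + t * dw) =
      fun c => qq (V := V) u v w c + t * qq (V := V) du dv dw c := by
    intro t
    funext c
    rcases c with c | c | c <;> rfl
  have key := EE_hasDerivAt (qq (V := V) u v w) (qq (V := V) du dv dw)
    (fun F : Finset (Cl V) => un (F ∪ W)) s
  have hfun : (fun t => EE (qq (u + t * du) (v + t * dv) (w + t * dw))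
      (fun F : Finset (Cl V) => un (F ∪ W))) =
      fun t => EE (fun c => qq (V := V) u v w c + t * qq (V := V) du dv dw c)
        (fun F : Finset (Cl V) => un (F ∪ W)) := by
    funext t
    rw [hq t]
  rw [hfun]
  refine key.congr_deriv ?_
  rw [hq s]
  have e1 : ∀ c : Cl V, qq (V := V) du dv dw c *
      EE (fun c => qq (V := V) u v w c + s * qq (V := V) du dv dw c)
        (fun F : Finset (Cl V) => un (insert c F ∪ W) - un (F ∪ W)) =
      EE (fun c => qq (V := V) u v w c + s * qq (V := V) du dv dw c)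
        (fun F : Finset (Cl V) => qq (V := V) du dv dw c * (un (insert c F ∪ W) - un (F ∪ W))) :=
    fun c => (EE_mul_left _ _ _).symm
  rw [Finset.sum_congr rfl fun c _ => e1 c,
    ← EE_sum _ Finset.univ (fun (c : Cl V) (F : Finset (Cl V)) =>
      qq (V := V) du dv dw c * (un (insert c F ∪ W) - un (F ∪ W)))]
  congr 1
  funext F
  have e2 : ∀ c : Cl V, insert c F ∪ W = insert c (F ∪ W) := fun c => Finset.insert_union c F W
  have e3 : ∑ c : Cl V, qq (V := V) du dv dw c * (un (insert c F ∪ W) - un (F ∪ W)) =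
      (∑ a : Lt V, du * (un (insert (cu a) (F ∪ W)) - un (F ∪ W))) +
      ((∑ p : Lt V × Lt V, dv * (un (insert (cp p.1 p.2) (F ∪ W)) - un (F ∪ W))) +
      ∑ t : Lt V × Lt V × Lt V, dw * (un (insert (ct t.1 t.2.1 t.2.2) (F ∪ W)) - un (F ∪ W))) := by
    rw [Finset.sum_congr rfl fun c _ => by rw [e2 c]]
    erw [Fintype.sum_sum_type, Fintype.sum_sum_type]
    rfl
  rw [e3]
  have e4 : ∑ a : Lt V, du * (un (insert (cu a) (F ∪ W)) - un (F ∪ W)) =
      du * ∑ a, fr (F ∪ W) a := by
    rw [Finset.mul_sum]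
    rfl
  have e5 : ∑ p : Lt V × Lt V, dv * (un (insert (cp p.1 p.2) (F ∪ W)) - un (F ∪ W)) =
      dv * (∑ a, fr (F ∪ W) a) ^ 2 := by
    rw [Fintype.sum_prod_type, pow_two, Finset.sum_mul_sum, Finset.mul_sum]
    refine Finset.sum_congr rfl fun a _ => ?_
    rw [Finset.mul_sum]
    refine Finset.sum_congr rfl fun b _ => ?_
    rw [un_pair]
  have e6 : ∑ t : Lt V × Lt V × Lt V, dw * (un (insert (ct t.1 t.2.1 t.2.2) (F ∪ W)) - un (F ∪ W)) =
      dw * (∑ a, fr (F ∪ W) a) ^ 3 := by
    rw [Fintype.sum_prod_type]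
    have e7 : (∑ a, fr (F ∪ W) a) ^ 3 =
        ∑ a, ∑ b, ∑ c, fr (F ∪ W) a * fr (F ∪ W) b * fr (F ∪ W) c := by
      rw [pow_succ, pow_two, Finset.sum_mul_sum, Finset.sum_mul]
      refine Finset.sum_congr rfl fun a _ => ?_
      rw [Finset.sum_mul_sum]
    rw [e7, Finset.mul_sum]
    refine Finset.sum_congr rfl fun a _ => ?_
    rw [Fintype.sum_prod_type, Finset.mul_sum]
    refine Finset.sum_congr rfl fun b _ => ?_
    rw [Finset.mul_sum]
    refine Finset.sum_congr rfl fun c _ => ?_
    rw [un_triple]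
  rw [e4, e5, e6]
  ring

end Pool.Agent.Lib.MP_9cae81_R
end

section

open Finset Filter MeasureTheory
open scoped BigOperators Topology

namespace Pool.Agent.Lib.MP_9cae81_R

/-- Derivative of `ZZ` along a line: `un_hasDerivAt` with `W = ∅`, `u = l/(2n)`, `du = dl/(2n)`,
`v = x/(4n)`, `dv = dx/(4n)`, `w = y/(8n²)`, `dw = dy/(8n²)`: `(l + t dl)/(2n) = u + t du` etc.,
`du * ∑ fr = dl * fN`, `dv * (∑ fr)^2 = dx * n * fN^2`, `dw * (∑ fr)^3 = dy * n * fN^3`. -/
theorem ZZ_line {n : ℕ} (hn : 1 ≤ n) (l x y dl dx dy s : ℝ) :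
    HasDerivAt (fun t => ZZ n (l + t * dl) (x + t * dx) (y + t * dy))
      (dl * ZL n (l + s * dl) (x + s * dx) (y + s * dy) +
        dx * ZX n (l + s * dl) (x + s * dx) (y + s * dy) +
        dy * ZY n (l + s * dl) (x + s * dx) (y + s * dy)) s := by
  have hn' : (n : ℝ) ≠ 0 := by positivity
  have h := un_hasDerivAt (V := Fin n) ∅ (l / (2 * n)) (x / (4 * n)) (y / (8 * (n : ℝ) ^ 2))
    (dl / (2 * n)) (dx / (4 * n)) (dy / (8 * (n : ℝ) ^ 2)) s
  have hq : ∀ t : ℝ, qq (V := Fin n) (l / (2 * n) + t * (dl / (2 * n))) (x / (4 * n) + t * (dx / (4 * n)))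
      (y / (8 * (n : ℝ) ^ 2) + t * (dy / (8 * (n : ℝ) ^ 2))) = qs n (l + t * dl) (x + t * dx) (y + t * dy) := by
    intro t
    unfold qs
    congr 1 <;> ring
  simp only [hq, Finset.union_empty] at h
  have hfun : (fun t => ZZ n (l + t * dl) (x + t * dx) (y + t * dy)) =
      fun t => EE (qs n (l + t * dl) (x + t * dx) (y + t * dy)) (fun F => un F) := rfl
  rw [hfun]
  convert h using 1
  have h1 : (fun F : Finset (Cl (Fin n)) => dl / (2 * n) * (∑ a, fr F a) + dx / (4 * n) * (∑ a, fr F a) ^ 2 +
      dy / (8 * (n : ℝ) ^ 2) * (∑ a, fr F a) ^ 3) =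
      fun F => (dl * fN F + dx * n * fN F ^ 2) + dy * n * fN F ^ 3 := by
    ext F
    unfold fN
    field_simp
    ring
  rw [h1, EE_add _ (fun F => dl * fN F + dx * n * fN F ^ 2) (fun F => dy * n * fN F ^ 3),
    EE_add _ (fun F => dl * fN F) (fun F => dx * n * fN F ^ 2), EE_mul_left _ dl, EE_mul_left _ (dx * n),
    EE_mul_left _ (dy * n)]
  unfold ZL ZX ZY
  ring

/-- Expectations depend continuously on the parameters (finite sums of products of continuous
functions; case distinction on the type of the clause for `qs`). -/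
theorem EE_cont (n : ℕ) (g : Finset (Cl (Fin n)) → ℝ) :
    Continuous (fun p : ℝ × ℝ × ℝ => EE (qs n p.1 p.2.1 p.2.2) g) := by
  unfold EE
  refine continuous_finsetSum _ fun F _ => Continuous.mul ?_ continuous_const
  unfold wt
  refine continuous_finsetProd _ fun c _ => ?_
  have hc : Continuous (fun p : ℝ × ℝ × ℝ => qs n p.1 p.2.1 p.2.2 c) := by
    unfold qs
    rcases c with c | c | c
    · show Continuous (fun p : ℝ × ℝ × ℝ => p.1 / (2 * (n : ℝ)))
      fun_prop
    · show Continuous (fun p : ℝ × ℝ × ℝ => p.2.1 / (4 * (n : ℝ)))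
      fun_prop
    · show Continuous (fun p : ℝ × ℝ × ℝ => p.2.2 / (8 * (n : ℝ) ^ 2))
      fun_prop
  split_ifs
  · exact continuous_const.sub (Real.continuous_exp.comp hc.neg)
  · exact Real.continuous_exp.comp hc.neg

/-- `qs` is nonnegative for nonnegative parameters. -/
theorem qs_nonneg (n : ℕ) {l x y : ℝ} (hl : 0 ≤ l) (hx : 0 ≤ x) (hy : 0 ≤ y) (c : Cl (Fin n)) :
    0 ≤ qs n l x y c :=
  qq_nonneg (by positivity) (by positivity) (by positivity) c

/-- Derivative in `y` of the probability with added unit clauses `L`: `un_hasDerivAt` with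
`W = us L`, `du = dv = 0`, `dw = 1/(8 n²)`; average over `L`. -/
theorem ZB_dy {n : ℕ} (hn : 1 ≤ n) (j : ℕ) (l x y : ℝ) :
    HasDerivAt (fun t => ZB n j l x t) (n * ZBf 3 n j l x y) y := by
  have hn' : (n : ℝ) ≠ 0 := by positivity
  have hL : ∀ L : Fin j → Lt (Fin n), HasDerivAt (fun t => EE (qs n l x t) (fun F => un (F ∪ us L)))
      (n * EE (qs n l x y) (fun F => fN (F ∪ us L) ^ 3)) y := by
    intro L
    have h := un_hasDerivAt (V := Fin n) (us L) (l / (2 * n)) (x / (4 * n)) 0 0 0 (1 / (8 * (n : ℝ) ^ 2)) y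
    have hq : ∀ t : ℝ, qq (V := Fin n) (l / (2 * n) + t * 0) (x / (4 * n) + t * 0)
        (0 + t * (1 / (8 * (n : ℝ) ^ 2))) = qs n l x t := by
      intro t
      unfold qs
      congr 1 <;> ring
    simp only [hq] at h
    convert h using 1
    rw [← EE_mul_left]
    congr 1
    ext F
    unfold fN
    field_simp
    ring
  have h2 := HasDerivAt.fun_sum (u := (Finset.univ : Finset (Fin j → Lt (Fin n)))) (fun L _ => hL L)
  have h3 := h2.div_const ((2 * (n : ℝ)) ^ j)
  refine HasDerivAt.congr_deriv (f := fun t => ZB n j l x t) h3 ?_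
  unfold ZBf
  rw [← Finset.mul_sum]
  ring

/-- The same in `x`. -/
theorem ZB_dx {n : ℕ} (hn : 1 ≤ n) (j : ℕ) (l x y : ℝ) :
    HasDerivAt (fun t => ZB n j l t y) (n * ZBf 2 n j l x y) x := by
  have hn' : (n : ℝ) ≠ 0 := by positivity
  have hL : ∀ L : Fin j → Lt (Fin n), HasDerivAt (fun t => EE (qs n l t y) (fun F => un (F ∪ us L)))
      (n * EE (qs n l x y) (fun F => fN (F ∪ us L) ^ 2)) x := by
    intro L
    have h := un_hasDerivAt (V := Fin n) (us L) (l / (2 * n)) 0 (y / (8 * (n : ℝ) ^ 2)) 0 (1 / (4 * n)) 0 x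
    have hq : ∀ t : ℝ, qq (V := Fin n) (l / (2 * n) + t * 0) (0 + t * (1 / (4 * (n : ℝ))))
        (y / (8 * (n : ℝ) ^ 2) + t * 0) = qs n l t y := by
      intro t
      unfold qs
      congr 1 <;> ring
    simp only [hq] at h
    convert h using 1
    rw [← EE_mul_left]
    congr 1
    ext F
    unfold fN
    field_simp
    ring
  have h2 := HasDerivAt.fun_sum (u := (Finset.univ : Finset (Fin j → Lt (Fin n)))) (fun L _ => hL L)
  have h3 := h2.div_const ((2 * (n : ℝ)) ^ j)
  refine HasDerivAt.congr_deriv (f := fun t => ZB n j l t y) h3 ?_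
  unfold ZBf
  rw [← Finset.mul_sum]
  ring

end Pool.Agent.Lib.MP_9cae81_R
end

section

open Finset Filter MeasureTheory
open scoped BigOperators Topology

namespace Pool.Agent.Lib.MP_9cae81_R

private theorem E4_card (n : ℕ) : (Fintype.card (Lt (Fin n)) : ℝ) = 2 * n := by
  rw [Fintype.card_prod, Fintype.card_fin, Fintype.card_bool]
  push_cast
  ring

private theorem E4_cardL (n j : ℕ) : (Fintype.card (Fin j → Lt (Fin n)) : ℝ) = (2 * n) ^ j := by
  rw [Fintype.card_fun, Fintype.card_fin, Nat.cast_pow, E4_card]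

private theorem E4_pow (n : ℕ) (hn : 1 ≤ n) (j : ℕ) : (0 : ℝ) < (2 * n) ^ j := by
  have : (1 : ℝ) ≤ n := by exact_mod_cast hn
  positivity

private theorem E4_fN_pow {n : ℕ} (hn : 1 ≤ n) (e : ℕ) (F : Finset (Cl (Fin n))) :
    0 ≤ fN F ^ e ∧ fN F ^ e ≤ 1 := by
  obtain ⟨h1, h2⟩ := fN_range hn F
  exact ⟨pow_nonneg h1 e, pow_le_one₀ h1 (by linarith)⟩

/-- Monotonicity of `ZZ`: the derivative along the segment, `ZZ_line` with `dl, dx, dy ≥ 0`, is
nonnegative on `[0,1]` (all intensities are nonnegative there). -/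
theorem ZZ_mono {n : ℕ} (hn : 1 ≤ n) {l x y l' x' y' : ℝ} (hl : 0 ≤ l) (hx : 0 ≤ x) (hy : 0 ≤ y)
    (hl' : l ≤ l') (hx' : x ≤ x') (hy' : y ≤ y') : ZZ n l x y ≤ ZZ n l' x' y' := by
  have hd := fun s => ZZ_line hn l x y (l' - l) (x' - x) (y' - y) s
  have hmono : MonotoneOn (fun t => ZZ n (l + t * (l' - l)) (x + t * (x' - x)) (y + t * (y' - y)))
      (Set.Icc 0 1) := by
    refine monotoneOn_of_deriv_nonneg (convex_Icc 0 1)
      (fun s _ => (hd s).continuousAt.continuousWithinAt)
      (fun s _ => (hd s).differentiableAt.differentiableWithinAt) fun s hs => ?_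
    rw [interior_Icc] at hs
    rw [(hd s).deriv]
    have a1 : 0 ≤ l' - l := by linarith
    have a2 : 0 ≤ x' - x := by linarith
    have a3 : 0 ≤ y' - y := by linarith
    have b1 : 0 ≤ l + s * (l' - l) := by have := mul_nonneg hs.1.le a1; linarith
    have b2 : 0 ≤ x + s * (x' - x) := by have := mul_nonneg hs.1.le a2; linarith
    have b3 : 0 ≤ y + s * (y' - y) := by have := mul_nonneg hs.1.le a3; linarith
    have hq := qs_nonneg n b1 b2 b3
    have c1 : 0 ≤ ZL n (l + s * (l' - l)) (x + s * (x' - x)) (y + s * (y' - y)) :=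
      EE_nonneg hq fun F => (fN_range hn F).1
    have c2 : 0 ≤ ZX n (l + s * (l' - l)) (x + s * (x' - x)) (y + s * (y' - y)) :=
      mul_nonneg (Nat.cast_nonneg n) (EE_nonneg hq fun F => (E4_fN_pow hn 2 F).1)
    have c3 : 0 ≤ ZY n (l + s * (l' - l)) (x + s * (x' - x)) (y + s * (y' - y)) :=
      mul_nonneg (Nat.cast_nonneg n) (EE_nonneg hq fun F => (E4_fN_pow hn 3 F).1)
    exact add_nonneg (add_nonneg (mul_nonneg a1 c1) (mul_nonneg a2 c2)) (mul_nonneg a3 c3)
  have h := hmono (Set.left_mem_Icc.mpr zero_le_one) (Set.right_mem_Icc.mpr zero_le_one) zero_le_one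
  have e1 : ∀ a b : ℝ, a + 1 * (b - a) = b := fun a b => by ring
  have e0 : ∀ a b : ℝ, a + 0 * (b - a) = a := fun a b => by ring
  simp only [e0, e1] at h
  exact h

/-- `0 ≤ ZZ ≤ 1`. -/
theorem ZZ_range {n : ℕ} (hn : 1 ≤ n) {l x y : ℝ} (hl : 0 ≤ l) (hx : 0 ≤ x) (hy : 0 ≤ y) :
    0 ≤ ZZ n l x y ∧ ZZ n l x y ≤ 1 := by
  have hq := qs_nonneg n hl hx hy
  refine ⟨EE_nonneg hq un_nonneg, ?_⟩
  have h := EE_mono hq (h := fun _ => (1 : ℝ)) (un_le_one (V := Fin n))
  rw [EE_const] at h
  exact h

private theorem E4_us_cons {n j : ℕ} (b : Lt (Fin n)) (L : Fin j → Lt (Fin n)) :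
    us (Fin.cons b L : Fin (j + 1) → Lt (Fin n)) = insert (cu b) (us L) := by
  ext c
  unfold us
  simp only [Finset.mem_image, Finset.mem_univ, true_and, Finset.mem_insert]
  constructor
  · rintro ⟨i, rfl⟩
    refine Fin.cases ?_ (fun i => ?_) i
    · left; simp
    · right; exact ⟨i, by simp⟩
  · rintro (rfl | ⟨i, rfl⟩)
    · exact ⟨0, by simp⟩
    · exact ⟨i.succ, by simp⟩

/-- `ZB n (j+1) - ZB n j = ZBf 1 n j`: split a sequence of `j + 1` literals into `j` literals and the
last one `b` (`Fin.snocEquiv` or `Fin.consEquiv` or induction); `us` of it is `insert (cu b) (us L)`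
and `(∑ b, (un (insert (cu b) (F ∪ us L)) - un (F ∪ us L))) / (2n) = fN (F ∪ us L)`. -/
theorem ZB_succ {n : ℕ} (hn : 1 ≤ n) (j : ℕ) (l x y : ℝ) :
    ZB n (j + 1) l x y - ZB n j l x y = ZBf 1 n j l x y := by
  have hT : (2 * (n : ℝ)) ≠ 0 := by
    have : (1 : ℝ) ≤ n := by exact_mod_cast hn
    positivity
  have key : ∀ G : Finset (Cl (Fin n)), ∑ b, un (insert (cu b) G) = (2 * n) * (fN G + un G) := by
    intro G
    have h := (fN_av hn G).1
    rw [h, sub_add_cancel]
    unfold av
    field_simp
  have hsum : ∑ L : Fin (j + 1) → Lt (Fin n), EE (qs n l x y) (fun F => un (F ∪ us L)) =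
      (2 * n) * (∑ L : Fin j → Lt (Fin n), EE (qs n l x y) (fun F => fN (F ∪ us L)) +
        ∑ L : Fin j → Lt (Fin n), EE (qs n l x y) (fun F => un (F ∪ us L))) := by
    rw [← (Fin.consEquiv (fun _ : Fin (j + 1) => Lt (Fin n))).sum_comp, Fintype.sum_prod_type,
      Finset.sum_comm, ← Finset.sum_add_distrib, Finset.mul_sum]
    refine Finset.sum_congr rfl fun L _ => ?_
    rw [← EE_add, ← EE_mul_left, ← EE_sum]
    congr 1
    funext F
    rw [← key]
    refine Finset.sum_congr rfl fun b _ => ?_
    change un (F ∪ us (Fin.cons b L : Fin (j + 1) → Lt (Fin n))) = _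
    rw [E4_us_cons, Finset.union_insert]
  unfold ZB ZBf
  rw [hsum]
  simp only [pow_one]
  field_simp
  ring

/-- `ZBf e n j` is in `[0, 1]` for nonnegative parameters. -/
theorem ZBf_range {n : ℕ} (hn : 1 ≤ n) (e j : ℕ) {l x y : ℝ} (hl : 0 ≤ l) (hx : 0 ≤ x)
    (hy : 0 ≤ y) : 0 ≤ ZBf e n j l x y ∧ ZBf e n j l x y ≤ 1 := by
  have hq := qs_nonneg n hl hx hy
  unfold ZBf
  refine ⟨div_nonneg (Finset.sum_nonneg fun L _ => EE_nonneg hq fun F => (E4_fN_pow hn e _).1)
    (E4_pow n hn j).le, ?_⟩
  rw [div_le_one (E4_pow n hn j)]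
  calc ∑ L : Fin j → Lt (Fin n), EE (qs n l x y) (fun F => fN (F ∪ us L) ^ e)
      ≤ ∑ L : Fin j → Lt (Fin n), (1 : ℝ) := by
        refine Finset.sum_le_sum fun L _ => ?_
        have h := EE_mono hq (g := fun F => fN (F ∪ us L) ^ e) (h := fun _ => (1 : ℝ))
          (fun F => (E4_fN_pow hn e _).2)
        rw [EE_const] at h
        exact h
    _ = (2 * n) ^ j := by
        rw [Finset.sum_const, Finset.card_univ, nsmul_eq_mul, mul_one, E4_cardL]

private theorem E4_ZB_zero {n : ℕ} (l x y : ℝ) : ZB n 0 l x y = ZZ n l x y := by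
  unfold ZB ZZ
  rw [pow_zero, div_one, Fintype.sum_unique]
  congr 1
  funext F
  have : us (default : Fin 0 → Lt (Fin n)) = ∅ := by
    unfold us
    simp
  rw [this, Finset.union_empty]

private theorem E4_ZB_le {n : ℕ} (hn : 1 ≤ n) (j : ℕ) {l x y : ℝ} (hl : 0 ≤ l) (hx : 0 ≤ x)
    (hy : 0 ≤ y) : ZB n j l x y ≤ 1 := by
  have hq := qs_nonneg n hl hx hy
  unfold ZB
  rw [div_le_one (E4_pow n hn j)]
  calc ∑ L : Fin j → Lt (Fin n), EE (qs n l x y) (fun F => un (F ∪ us L))
      ≤ ∑ L : Fin j → Lt (Fin n), (1 : ℝ) := by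
        refine Finset.sum_le_sum fun L _ => ?_
        have h := EE_mono hq (g := fun F => un (F ∪ us L)) (h := fun _ => (1 : ℝ))
          (fun F => un_le_one _)
        rw [EE_const] at h
        exact h
    _ = (2 * n) ^ j := by
        rw [Finset.sum_const, Finset.card_univ, nsmul_eq_mul, mul_one, E4_cardL]

private theorem E4_ZB_mono {n : ℕ} (hn : 1 ≤ n) {j k : ℕ} (hjk : j ≤ k) {l x y : ℝ} (hl : 0 ≤ l)
    (hx : 0 ≤ x) (hy : 0 ≤ y) : ZB n j l x y ≤ ZB n k l x y := by
  induction k, hjk using Nat.le_induction with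
  | base => exact le_refl _
  | succ k _ ih =>
    have h1 := ZB_succ hn k l x y
    have h2 := (ZBf_range hn 1 k hl hx hy).1
    linarith

/-- `ZB n 0 = ZZ`, monotonicity in `j` (`ZB_succ`, `ZBf_range`) and `ZB ≤ 1`. -/
theorem ZB_mono {n : ℕ} (hn : 1 ≤ n) {j k : ℕ} (hjk : j ≤ k) {l x y : ℝ} (hl : 0 ≤ l) (hx : 0 ≤ x)
    (hy : 0 ≤ y) : ZB n j l x y ≤ ZB n k l x y ∧ ZB n k l x y ≤ 1 ∧ ZB n 0 l x y = ZZ n l x y ∧
      ZZ n l x y ≤ ZB n k l x y := by
  refine ⟨E4_ZB_mono hn hjk hl hx hy, E4_ZB_le hn k hl hx hy, E4_ZB_zero l x y, ?_⟩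
  rw [← E4_ZB_zero]
  exact E4_ZB_mono hn (Nat.zero_le k) hl hx hy

/-- Continuity of `ZB n j` and `ZBf e n j` in the parameters (`EE_cont`). -/
theorem ZB_cont (n j : ℕ) : Continuous (fun p : ℝ × ℝ × ℝ => ZB n j p.1 p.2.1 p.2.2) := by
  unfold ZB
  exact (continuous_finset_sum _ fun L _ => EE_cont n _).div_const _

theorem ZBf_cont (e n j : ℕ) : Continuous (fun p : ℝ × ℝ × ℝ => ZBf e n j p.1 p.2.1 p.2.2) := by
  unfold ZBf
  exact (continuous_finset_sum _ fun L _ => EE_cont n _).div_const _

end Pool.Agent.Lib.MP_9cae81_R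
end

section

open Finset Filter MeasureTheory
open scoped BigOperators Topology

namespace Pool.Agent.Lib.MP_9cae81_R

variable {V : Type} [DecidableEq V] [Fintype V]

theorem D2_ng_ne (a : Lt V) : ng a ≠ a := by
  intro h
  have := congrArg Prod.snd h
  simp [ng] at this

theorem D2_ng_fst (a : Lt V) : (ng a).1 = a.1 := rfl

theorem D2_ng_inj {a b : Lt V} (h : ng a = ng b) : a = b := by
  rw [← ng_ng a, ← ng_ng b, h]

/-- One of the two orientations. -/
def D2_cl (a b : Lt V) (o : Bool) : Cl V := if o then cp (ng a) b else cp b (ng a)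

theorem D2_cl_inj {m : ℕ} (y tg : Fin m → Lt V) (hy : Function.Injective y)
    (hd : ∀ i j, i ≠ j → ¬ (ng (y i) = tg j ∧ tg i = ng (y j))) (o : Fin m → Bool) :
    Function.Injective (fun i => D2_cl (y i) (tg i) (o i)) := by
  intro i j hij
  by_contra hne
  simp only [D2_cl] at hij
  rcases hi : o i with _ | _ <;> rcases hj : o j with _ | _ <;>
    simp only [hi, hj, cp, if_true, if_false, Sum.inr.injEq, Sum.inl.injEq, Prod.mk.injEq,
      Bool.false_eq_true, reduceIte] at hij
  · exact hne (hy (D2_ng_inj hij.2))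
  · exact hd j i (Ne.symm hne) ⟨hij.1.symm, hij.2.symm⟩
  · exact hd i j hne hij
  · exact hne (hy (D2_ng_inj hij.1))

theorem D2_sat (a b : Lt V) (o : Bool) (σ : V → Bool) (h : clT σ (cu (ng a))) :
    clT σ (D2_cl a b o) := by
  unfold D2_cl
  have h' : σ (ng a).1 = (ng a).2 := h
  rcases o with _ | _
  · exact Or.inr h'
  · exact Or.inl h'

theorem D2_core {u v w : ℝ} (hu : 0 ≤ u) (hv : 0 ≤ v) (hw : 0 ≤ w)
    {g : Finset (Cl V) → ℝ} (hg : Sem g) (hg0 : ∀ F, 0 ≤ g F) {m : ℕ} (y tg : Fin m → Lt V)
    (hy : Function.Injective y)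
    (hd : ∀ i j, i ≠ j → ¬ (ng (y i) = tg j ∧ tg i = ng (y j))) :
    EE (qq u v w) (fun F => open Classical in
        if ∀ i, edge F (y i) (tg i) then g F else 0) ≤
      (2 * v) ^ m * EE (qq u v w) (fun F => g (F ∪ us (fun i => ng (y i)))) := by
  classical
  set W : (Fin m → Bool) → Finset (Cl V) :=
    fun o => Finset.univ.image (fun i => D2_cl (y i) (tg i) (o i)) with hW
  have hq : ∀ c, 0 ≤ qq u v w c := qq_nonneg (V := V) hu hv hw
  have h1 : ∀ F : Finset (Cl V), (if ∀ i, edge F (y i) (tg i) then g F else 0) ≤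
      ∑ o : Fin m → Bool, if W o ⊆ F then g F else 0 := by
    intro F
    split_ifs with h
    · have hex : ∀ i, ∃ b : Bool, D2_cl (y i) (tg i) b ∈ F := by
        intro i
        rcases h i with h' | h'
        · exact ⟨true, by simpa [D2_cl] using h'⟩
        · exact ⟨false, by simpa [D2_cl] using h'⟩
      choose o ho using hex
      have hWo : W o ⊆ F := by
        intro c hc
        rw [hW] at hc
        simp only [Finset.mem_image, Finset.mem_univ, true_and] at hc
        obtain ⟨i, rfl⟩ := hc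
        exact ho i
      calc g F = if W o ⊆ F then g F else 0 := by rw [if_pos hWo]
        _ ≤ _ := Finset.single_le_sum (f := fun o => if W o ⊆ F then g F else 0)
            (fun o _ => by split_ifs <;> [exact hg0 F; exact le_refl _]) (Finset.mem_univ o)
    · exact Finset.sum_nonneg fun o _ => by split_ifs <;> [exact hg0 F; exact le_refl _]
  have hE0 : 0 ≤ EE (qq u v w) (fun F => g (F ∪ us (fun i => ng (y i)))) :=
    EE_nonneg hq fun F => hg0 _
  have h2 : ∀ o, EE (qq u v w) (fun F => if W o ⊆ F then g F else 0) ≤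
      v ^ m * EE (qq u v w) (fun F => g (F ∪ us (fun i => ng (y i)))) := by
    intro o
    rw [EE_subset]
    have hprod : ∏ c ∈ W o, (1 - Real.exp (-(qq u v w c))) = (1 - Real.exp (-v)) ^ m := by
      rw [hW]
      simp only
      rw [Finset.prod_image (fun i _ j _ h => D2_cl_inj y tg hy hd o h)]
      rw [Finset.prod_congr rfl (g := fun _ => 1 - Real.exp (-v))]
      · simp
      · intro i _
        unfold D2_cl
        split_ifs <;> rfl
    rw [hprod]
    have h3 : 0 ≤ 1 - Real.exp (-v) := by
      have : Real.exp (-v) ≤ 1 := Real.exp_le_one_iff.2 (by linarith)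
      linarith
    have h4 : 1 - Real.exp (-v) ≤ v := by
      have := Real.add_one_le_exp (-v)
      linarith
    refine mul_le_mul (pow_le_pow_left₀ h3 h4 m) ?_ (EE_nonneg hq fun F => hg0 _) (pow_nonneg hv m)
    refine EE_mono hq fun F => hg _ _ ?_
    intro σ hσ c hc
    rcases Finset.mem_union.1 hc with hc | hc
    · exact hσ c (Finset.mem_union_left _ hc)
    · rw [hW] at hc
      simp only [Finset.mem_image, Finset.mem_univ, true_and] at hc
      obtain ⟨i, rfl⟩ := hc
      refine D2_sat _ _ _ σ (hσ _ (Finset.mem_union_right _ ?_))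
      unfold us
      exact Finset.mem_image_of_mem _ (Finset.mem_univ i)
  calc EE (qq u v w) (fun F => if ∀ i, edge F (y i) (tg i) then g F else 0)
      ≤ EE (qq u v w) (fun F => ∑ o : Fin m → Bool, if W o ⊆ F then g F else 0) := EE_mono hq h1
    _ = ∑ o : Fin m → Bool, EE (qq u v w) (fun F => if W o ⊆ F then g F else 0) :=
        EE_sum (qq u v w) Finset.univ (fun o F => if W o ⊆ F then g F else 0)
    _ ≤ ∑ o : Fin m → Bool, v ^ m * EE (qq u v w) (fun F => g (F ∪ us (fun i => ng (y i)))) :=
        Finset.sum_le_sum fun o _ => h2 o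
    _ = _ := by
        simp only [Finset.sum_const, Finset.card_univ, Fintype.card_fun, Fintype.card_bool,
          Fintype.card_fin, nsmul_eq_mul]
        push_cast
        rw [mul_pow]
        ring

/-- Targets of the edges. -/
def D2_tg {k : ℕ} (y : Fin (k + 1) → Lt V) (t : Lt V) : Fin (k + 1) → Lt V :=
  Fin.snoc (α := fun _ => Lt V) (fun i : Fin k => y i.succ) t

theorem D2_path_iff {k : ℕ} (F : Finset (Cl V)) (y : Fin (k + 1) → Lt V) (t : Lt V) :
    (isPath F y ∧ edge F (y (Fin.last k)) t) ↔ ∀ i, edge F (y i) (D2_tg y t i) := by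
  constructor
  · rintro ⟨h1, h2⟩ i
    refine Fin.lastCases ?_ (fun j => ?_) i
    · simpa [D2_tg] using h2
    · simpa [D2_tg] using h1 j
  · intro h
    refine ⟨fun i => ?_, ?_⟩
    · simpa [D2_tg] using h i.castSucc
    · simpa [D2_tg] using h (Fin.last k)

theorem D2_dist {k : ℕ} (y : Fin (k + 1) → Lt V) (hy : Function.Injective (fun i => (y i).1))
    (t : Lt V) (i j : Fin (k + 1)) (hij : i ≠ j) :
    ¬ (ng (y i) = D2_tg y t j ∧ D2_tg y t i = ng (y j)) := by
  have key : ∀ (i : Fin (k + 1)) (j : Fin k), ng (y i) ≠ D2_tg y t j.castSucc := by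
    intro i j h
    have h' : ng (y i) = y j.succ := by simpa [D2_tg] using h
    have h1 : (y i).1 = (y j.succ).1 := by
      have := congrArg Prod.fst h'
      simpa [ng] using this
    have h2 : i = j.succ := hy h1
    rw [h2] at h'
    exact D2_ng_ne _ h'
  rintro ⟨h1, h2⟩
  by_cases hj : j = Fin.last k
  · have hi : i ≠ Fin.last k := fun h => hij (h.trans hj.symm)
    obtain ⟨i', rfl⟩ := Fin.exists_castSucc_eq.2 hi
    exact key j i' h2.symm
  · obtain ⟨j', rfl⟩ := Fin.exists_castSucc_eq.2 hj
    exact key i j' h1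

/-- Probability of a closed chain jointly with an increasing event.

Proof.  The event is the union, over the choices of one of the two orientations for each of the
`k + 1` edges (edge `i < k`: `cp (ng (y i)) (y (i+1))` or `cp (y (i+1)) (ng (y i))`; closing edge:
`cp (ng (y k)) (ng (y s))` or the reversed pair), of the events `W ⊆ F`; so the left side is at most
the sum over the `2^(k+1)` choices of `EE (if W ⊆ F then g F else 0)
= (∏_{c ∈ W} (1 - exp(-v))) EE (g (F ∪ W))` by `EE_subset`.  The `k + 1` clauses of `W` are distinct: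
the variables of clause `i < k` are those of `y i, y (i+1)`, different pairs for different `i`, and
the closing clause consists of two literals `ng (y ·)` while clause `i` contains the literal
`y (i+1)`.  Hence the product is `(1 - exp(-v))^(k+1) ≤ v^(k+1)`.  Every assignment satisfying
`F ∪ us (ng ∘ y)` satisfies `F ∪ W` (clause `i` contains `ng (y i)`), so
`g (F ∪ W) ≤ g (F ∪ us (ng ∘ y))` by `hg`.  (One may also remove the edges one at a time with
`EE_mem`, from the last to the first.) -/
theorem path_prob {u v w : ℝ} (hu : 0 ≤ u) (hv : 0 ≤ v) (hw : 0 ≤ w)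
    {g : Finset (Cl V) → ℝ} (hg : Sem g) (hg0 : ∀ F, 0 ≤ g F) {k : ℕ} (y : Fin (k + 1) → Lt V)
    (hy : Function.Injective (fun i => (y i).1)) (s : Fin (k + 1)) :
    EE (qq u v w) (fun F => open Classical in
        if isPath F y ∧ edge F (y (Fin.last k)) (ng (y s)) then g F else 0) ≤
      (2 * v) ^ (k + 1) * EE (qq u v w) (fun F => g (F ∪ us (fun i => ng (y i)))) := by
  classical
  have hy' : Function.Injective y := fun i j h => hy (by simp only [h])
  have h := D2_core hu hv hw hg hg0 y (D2_tg y (ng (y s))) hy' (D2_dist y hy _)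
  refine le_trans (le_of_eq ?_) h
  congr 1
  funext F
  exact if_congr (D2_path_iff F y _) rfl rfl

theorem D2_edge_insert (F : Finset (Cl V)) (r a b : Lt V) :
    edge (insert (cu r) F) a b ↔ edge F a b := by
  unfold edge
  have h : ∀ p q : Lt V, cp p q ∈ insert (cu r) F ↔ cp p q ∈ F := by
    intro p q
    rw [Finset.mem_insert]
    constructor
    · rintro (h | h)
      · simp [cp, cu] at h
      · exact h
    · exact Or.inr
  rw [h, h]

/-- The same for a chain ending against a unit clause `cu r`: there is one more clause `cu r` in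
`W`, with probability `1 - exp(-u) ≤ u`; the closing clause `{ng (y k), ng r}` contains
`ng (y k)`, and its variables differ from those of the other clauses. -/
theorem path_prob_unit {u v w : ℝ} (hu : 0 ≤ u) (hv : 0 ≤ v) (hw : 0 ≤ w)
    {g : Finset (Cl V) → ℝ} (hg : Sem g) (hg0 : ∀ F, 0 ≤ g F) {k : ℕ} (y : Fin (k + 1) → Lt V)
    (hy : Function.Injective (fun i => (y i).1)) (r : Lt V) (hr : ∀ i, (y i).1 ≠ r.1) :
    EE (qq u v w) (fun F => open Classical in
        if isPath F y ∧ cu r ∈ F ∧ edge F (y (Fin.last k)) (ng r) then g F else 0) ≤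
      (2 * v) ^ (k + 1) * u *
        EE (qq u v w) (fun F => g (insert (cu r) (F ∪ us (fun i => ng (y i))))) := by
  classical
  have hq : ∀ c, 0 ≤ qq u v w c := qq_nonneg (V := V) hu hv hw
  have hy' : Function.Injective y := fun i j h => hy (by simp only [h])
  have hg' : Sem (fun F : Finset (Cl V) => g (insert (cu r) F)) := by
    intro F F' h
    refine hg _ _ fun σ hσ c hc => ?_
    rcases Finset.mem_insert.1 hc with rfl | hc
    · exact hσ _ (Finset.mem_insert_self _ _)
    · exact h σ (fun c hc => hσ c (Finset.mem_insert_of_mem hc)) c hc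
  have h := D2_core hu hv hw hg' (fun F => hg0 _) y (D2_tg y (ng r)) hy' (D2_dist y hy _)
  have h1 : EE (qq u v w) (fun F =>
        if isPath F y ∧ cu r ∈ F ∧ edge F (y (Fin.last k)) (ng r) then g F else 0) =
      EE (qq u v w) (fun F => if cu r ∈ F then
        (if isPath F y ∧ edge F (y (Fin.last k)) (ng r) then g F else 0) else 0) := by
    congr 1
    funext F
    by_cases h1 : cu r ∈ F
    · simp [h1]
    · simp [h1]
  rw [h1, EE_mem]
  have h2 : EE (qq u v w) (fun F => if isPath (insert (cu r) F) y ∧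
        edge (insert (cu r) F) (y (Fin.last k)) (ng r) then g (insert (cu r) F) else 0) =
      EE (qq u v w) (fun F => if ∀ i, edge F (y i) (D2_tg y (ng r) i) then
        g (insert (cu r) F) else 0) := by
    congr 1
    funext F
    refine if_congr ?_ rfl rfl
    rw [← D2_path_iff, D2_edge_insert]
    unfold isPath
    simp only [D2_edge_insert]
  have hqr : qq u v w (cu r : Cl V) = u := rfl
  rw [h2, hqr]
  have h3 : 0 ≤ 1 - Real.exp (-u) := by
    have : Real.exp (-u) ≤ 1 := Real.exp_le_one_iff.2 (by linarith)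
    linarith
  have h4 : 1 - Real.exp (-u) ≤ u := by
    have := Real.add_one_le_exp (-u)
    linarith
  have h5 : 0 ≤ EE (qq u v w) (fun F => if ∀ i, edge F (y i) (D2_tg y (ng r) i) then
        g (insert (cu r) F) else 0) :=
    EE_nonneg hq fun F => by split_ifs <;> [exact hg0 _; exact le_refl _]
  calc (1 - Real.exp (-u)) * EE (qq u v w) (fun F => if ∀ i, edge F (y i) (D2_tg y (ng r) i) then
        g (insert (cu r) F) else 0)
      ≤ u * ((2 * v) ^ (k + 1) *
        EE (qq u v w) (fun F => g (insert (cu r) (F ∪ us (fun i => ng (y i)))))) :=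
        mul_le_mul h4 h h5 hu
    _ = _ := by ring

end Pool.Agent.Lib.MP_9cae81_R
end

section

open Finset Filter MeasureTheory
open scoped BigOperators Topology

namespace Pool.Agent.Lib.MP_9cae81_R

variable {ι κ : Type} [Fintype ι] [DecidableEq ι] [Fintype κ] [DecidableEq κ]

/-- Probability of avoiding the complement of `A`. -/
theorem A3_sub (q : ι → ℝ) (A : Finset ι) :
    EE q (fun F => if F ⊆ A then 1 else 0) = Real.exp (-∑ c ∈ Finset.univ \ A, q c) := by
  have h1 : EE q (fun F => if F ⊆ A then 1 else 0) = ∑ F ∈ A.powerset, wt q F := by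
    unfold EE
    rw [← Finset.sum_filter_add_sum_filter_not Finset.univ (fun F : Finset ι => F ⊆ A)]
    have h0 : ∑ F ∈ Finset.univ.filter (fun F : Finset ι => ¬ F ⊆ A),
        wt q F * (if F ⊆ A then 1 else 0) = 0 :=
      Finset.sum_eq_zero fun F hF => by
        have : ¬ F ⊆ A := by simpa using hF
        simp [this]
    rw [h0, add_zero]
    rw [show Finset.univ.filter (fun F : Finset ι => F ⊆ A) = A.powerset by ext; simp]
    exact Finset.sum_congr rfl fun F hF => by
      have : F ⊆ A := by simpa using hF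
      simp [this]
  have h2 : ∏ c ∈ A, ((1 - Real.exp (-(q c))) + Real.exp (-(q c))) = 1 := by simp
  rw [Finset.prod_add] at h2
  have h3 : ∀ F ∈ A.powerset, wt q F =
      ((∏ c ∈ F, (1 - Real.exp (-(q c)))) * ∏ c ∈ A \ F, Real.exp (-(q c))) *
        Real.exp (-∑ c ∈ Finset.univ \ A, q c) := by
    intro F hF
    have hFA : F ⊆ A := by simpa using hF
    unfold wt
    rw [← Finset.prod_sdiff (Finset.subset_univ A), mul_comm]
    congr 1
    · rw [← Finset.prod_sdiff hFA, mul_comm]
      congr 1
      · exact Finset.prod_congr rfl fun c hc => by simp [hc]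
      · exact Finset.prod_congr rfl fun c hc => by
          have : c ∉ F := (Finset.mem_sdiff.1 hc).2
          simp [this]
    · rw [← Finset.sum_neg_distrib, Real.exp_sum]
      exact Finset.prod_congr rfl fun c hc => by
        have : c ∉ F := fun h => (Finset.mem_sdiff.1 hc).2 (hFA h)
        simp [this]
  rw [h1, Finset.sum_congr rfl h3, ← Finset.sum_mul, h2, one_mul]

theorem A3_key (q : ι → ℝ) (φ : ι → Option κ) (S : Finset κ) :
    EE q (fun F => if pimg φ F ⊆ S then 1 else 0) =
      EE (fun k => ∑ c, if φ c = some k then q c else 0) (fun G => if G ⊆ S then 1 else 0) := by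
  have h1 : (fun F : Finset ι => if pimg φ F ⊆ S then (1 : ℝ) else 0) =
      fun F => if F ⊆ Finset.univ.filter (fun c => ∀ k, φ c = some k → k ∈ S) then 1 else 0 := by
    funext F
    have : pimg φ F ⊆ S ↔ F ⊆ Finset.univ.filter (fun c => ∀ k, φ c = some k → k ∈ S) := by
      constructor
      · intro h c hc
        simp only [Finset.mem_filter, Finset.mem_univ, true_and]
        intro k hk
        exact h (by simp only [pimg, Finset.mem_filter, Finset.mem_univ, true_and]
                    exact ⟨c, hc, hk⟩)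
      · intro h k hk
        simp only [pimg, Finset.mem_filter, Finset.mem_univ, true_and] at hk
        obtain ⟨c, hc, hck⟩ := hk
        have := h hc
        simp only [Finset.mem_filter, Finset.mem_univ, true_and] at this
        exact this k hck
    simp [this]
  rw [h1, A3_sub, A3_sub]
  congr 2
  rw [Finset.sum_comm]
  rw [← Finset.sum_subset (Finset.subset_univ
    (Finset.univ \ Finset.univ.filter (fun c => ∀ k, φ c = some k → k ∈ S)))]
  · refine Finset.sum_congr rfl fun c hc => ?_
    simp only [Finset.mem_sdiff, Finset.mem_univ, true_and, Finset.mem_filter, not_forall] at hc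
    obtain ⟨k, hk, hkS⟩ := hc
    rw [Finset.sum_eq_single k]
    · simp [hk]
    · intro k' _ hne
      have : ¬ (φ c = some k') := by
        rw [hk]; intro h; exact hne (Option.some.inj h).symm
      simp [this]
    · intro h
      exact absurd (by simp [hkS]) h
  · intro c _ hc
    refine Finset.sum_eq_zero fun k hk => ?_
    simp only [Finset.mem_sdiff, Finset.mem_univ, true_and, Finset.mem_filter, not_not] at hc
    have hkS : k ∉ S := (Finset.mem_sdiff.1 hk).2
    have : ¬ (φ c = some k) := fun h => hkS (hc k h)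
    simp [this]

/-- Merging: the image of the random set under a partial map is again an independent-inclusion
random set; intensities add up. -/
theorem EE_pimg (q : ι → ℝ) (φ : ι → Option κ) (g : Finset κ → ℝ) :
    EE q (fun F => g (pimg φ F)) =
      EE (fun k => ∑ c, if φ c = some k then q c else 0) g := by
  set q' : κ → ℝ := fun k => ∑ c, if φ c = some k then q c else 0 with hq'
  have hp : ∀ S : Finset κ, EE q (fun F => if pimg φ F = S then 1 else 0) =
      EE q' (fun G => if G = S then 1 else 0) := by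
    intro S
    induction S using Finset.strongInduction with
    | H S ih =>
      have e1 : ∀ G : Finset κ, (if G ⊆ S then (1 : ℝ) else 0) =
          ∑ S' ∈ S.powerset, if G = S' then 1 else 0 := by
        intro G
        rw [Finset.sum_ite_eq]
        simp
      have k1 := A3_key q φ S
      simp only [e1] at k1
      rw [EE_sum q S.powerset (fun S' F => if pimg φ F = S' then (1 : ℝ) else 0),
        EE_sum _ S.powerset (fun S' G => if G = S' then (1 : ℝ) else 0)] at k1
      rw [← Finset.insert_erase (Finset.mem_powerset_self S),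
        Finset.sum_insert (Finset.notMem_erase _ _),
        Finset.sum_insert (Finset.notMem_erase _ _)] at k1
      have k2 : ∑ S' ∈ S.powerset.erase S, EE q (fun F => if pimg φ F = S' then (1 : ℝ) else 0) =
          ∑ S' ∈ S.powerset.erase S, EE q' (fun G => if G = S' then (1 : ℝ) else 0) := by
        refine Finset.sum_congr rfl fun S' hS' => ?_
        have := Finset.mem_erase.1 hS'
        exact ih S' (Finset.ssubset_iff_subset_ne.2 ⟨Finset.mem_powerset.1 this.2, this.1⟩)
      linarith [k1, k2]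
  have e2 : ∀ G : Finset κ, g G = ∑ S : Finset κ, g S * (if G = S then 1 else 0) := by
    intro G
    simp
  calc EE q (fun F => g (pimg φ F))
      = EE q (fun F => ∑ S : Finset κ, g S * (if pimg φ F = S then 1 else 0)) := by
        congr 1; funext F; exact e2 _
    _ = ∑ S : Finset κ, g S * EE q (fun F => if pimg φ F = S then 1 else 0) := by
        rw [EE_sum]
        exact Finset.sum_congr rfl fun S _ => EE_mul_left _ _ _
    _ = ∑ S : Finset κ, g S * EE q' (fun G => if G = S then 1 else 0) := by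
        exact Finset.sum_congr rfl fun S _ => by rw [hp S]
    _ = EE q' (fun G => ∑ S : Finset κ, g S * (if G = S then 1 else 0)) := by
        rw [EE_sum]
        exact Finset.sum_congr rfl fun S _ => (EE_mul_left _ _ _).symm
    _ = EE q' g := by
        congr 1; funext G; exact (e2 G).symm

end Pool.Agent.Lib.MP_9cae81_R
end
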