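import Pool.Agent.Lib.MP_9cae81_R.Defs
import Pool.Agent.Lib.MP_9cae81_R.Mg.G009
import Pool.Agent.Lib.MP_9cae81_R.B1
import Pool.Agent.Lib.MP_9cae81_R.A4

section

open Finset Filter MeasureTheory
open scoped BigOperators Topology

namespace Pool.Agent.Lib.MP_9cae81_R

variable {V : Type} [DecidableEq V]

private def D1_G (F : Finset (Cl V)) (a : Lt V) (k : ℕ) (y : Fin (k + 1) → Lt V) : Prop :=
  y 0 = a ∧ Function.Injective (fun i => (y i).1) ∧ isPath F y

private def D1_S (F : Finset (Cl V)) (a z : Lt V) : Prop :=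
  ∃ (k : ℕ) (y : Fin (k + 1) → Lt V), D1_G F a k y ∧ y (Fin.last k) = z

private theorem D1_edge_contra {F : Finset (Cl V)} {z z' : Lt V} (h : edge F z z') :
    edge F (ng z') (ng z) := by
  unfold edge at *
  rw [ng_ng]
  exact h.symm

private theorem D1_var {z w : Lt V} (h : z.1 = w.1) : z = w ∨ z = ng w := by
  obtain ⟨v, b⟩ := z
  obtain ⟨v', b'⟩ := w
  simp only at h
  subst h
  cases b <;> cases b' <;> simp [ng]

private theorem D1_ne_ng (a : Lt V) : a ≠ ng a := by
  intro h
  have := congrArg Prod.snd h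
  simp [ng] at this

private theorem D1_mem_a (F : Finset (Cl V)) (a : Lt V) : D1_S F a a := by
  refine ⟨0, fun _ => a, ⟨rfl, fun i j _ => Subsingleton.elim (α := Fin 1) i j, ?_⟩, rfl⟩
  intro i
  exact i.elim0

private theorem D1_init {F : Finset (Cl V)} {a : Lt V} {k : ℕ} {y : Fin (k + 1) → Lt V}
    (h : D1_G F a k y) (s : Fin (k + 1)) : D1_S F a (y s) := by
  obtain ⟨h0, hi, hp⟩ := h
  have hs : (s : ℕ) + 1 ≤ k + 1 := s.2
  refine ⟨s, fun i => y (Fin.castLE hs i), ⟨?_, ?_, ?_⟩, ?_⟩
  · rw [← h0]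
    rfl
  · intro i j hij
    have := hi hij
    exact Fin.castLE_injective hs this
  · intro i
    have hk : (i : ℕ) < k := by have := i.2; omega
    have := hp ⟨i, hk⟩
    exact this
  · rfl

private theorem D1_closed {F : Finset (Cl V)} {a : Lt V}
    (hno : ∀ (k : ℕ) (y : Fin (k + 1) → Lt V), D1_G F a k y →
      ∀ s, ¬ edge F (y (Fin.last k)) (ng (y s)))
    {z z' : Lt V} (hz : D1_S F a z) (he : edge F z z') : D1_S F a z' := by
  obtain ⟨k, y, hG, hl⟩ := hz
  by_cases hv : ∃ s, (y s).1 = z'.1
  · obtain ⟨s, hs⟩ := hv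
    rcases D1_var hs.symm with h | h
    · rw [h]
      exact D1_init hG s
    · exfalso
      apply hno k y hG s
      rw [hl, ← h]
      exact he
  · push Not at hv
    obtain ⟨h0, hi, hp⟩ := hG
    refine ⟨k + 1, Fin.snoc (α := fun _ => Lt V) y z', ⟨?_, ?_, ?_⟩, ?_⟩
    · have : (0 : Fin (k + 1 + 1)) = (0 : Fin (k + 1)).castSucc := rfl
      rw [this, Fin.snoc_castSucc, h0]
    · intro i j
      refine Fin.lastCases ?_ ?_ i
      · refine Fin.lastCases ?_ ?_ j
        · intro _; rfl
        · intro j' h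
          simp only [Fin.snoc_last, Fin.snoc_castSucc] at h
          exact absurd h.symm (hv j')
      · intro i'
        refine Fin.lastCases ?_ ?_ j
        · intro h
          simp only [Fin.snoc_last, Fin.snoc_castSucc] at h
          exact absurd h (hv i')
        · intro j' h
          simp only [Fin.snoc_castSucc] at h
          rw [hi h]
    · intro i
      refine Fin.lastCases ?_ ?_ i
      · rw [Fin.succ_last, Fin.snoc_last, Fin.snoc_castSucc, hl]
        exact he
      · intro i'
        rw [Fin.succ_castSucc, Fin.snoc_castSucc, Fin.snoc_castSucc]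
        exact hp i'
    · rw [Fin.snoc_last]

private theorem D1_cons {F : Finset (Cl V)} {a : Lt V}
    (hno : ∀ (k : ℕ) (y : Fin (k + 1) → Lt V), D1_G F a k y →
      ∀ s, ¬ edge F (y (Fin.last k)) (ng (y s)))
    {z : Lt V} (hz : D1_S F a z) (hz' : D1_S F a (ng z)) : False := by
  obtain ⟨k, y, hG, hl⟩ := hz'
  have key : ∀ i : Fin (k + 1), D1_S F a (ng (y i)) := by
    intro i
    induction i using Fin.reverseInduction with
    | last => rw [hl, ng_ng]; exact hz
    | cast i ih => exact D1_closed hno ih (D1_edge_contra (hG.2.2 i))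
  have h0 := key 0
  rw [hG.1] at h0
  obtain ⟨k', y', hG', hl'⟩ := h0
  have h1 : (y' (Fin.last k')).1 = (y' 0).1 := by rw [hl', hG'.1]; rfl
  have h2 := hG'.2.1 h1
  rw [h2, hG'.1] at hl'
  exact D1_ne_ng a hl'

/-- **Chain lemma.**  Proof.  Suppose `cu (ng a) ∉ F` and no chain as in the second alternative
exists.  Let `S` be the set of literals `z` such that there are `k` and `y : Fin (k+1) → Lt V` with
`y 0 = a`, distinct variables, `isPath F y` and `y (last k) = z`.
(1) `S` is closed: if `z ∈ S` by `y` and `edge F z z'`, then either the variable of `z'` is new and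
`Fin.snoc y z'` shows `z' ∈ S`; or it is the variable of `y s` for some `s`: then `z' = y s`, which
is in `S` (initial segment of `y`), or `z' = ng (y s)`, excluded by assumption.
(2) `S` is consistent: edges are contrapositive (`edge F z z' ↔ edge F (ng z') (ng z)`).  If `z` and
`ng z` were in `S`, the chain from `a` to `ng z` reversed is a chain of edges from `z` to `ng a`, so
by (1) `ng a ∈ S`; but a chain with distinct variables from `a` cannot end in `ng a`.
(3) no unit clause `cu r ∈ F` has `ng r ∈ S`: for the chain `y` ending in `ng r`, if `k = 0` then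
`ng r = a`, i.e. `cu (ng a) ∈ F`; if `k ≥ 1` the last edge goes to `ng r` and the variable of `r` is
not among those of the chain without its last entry: excluded (second alternative with `r`).
Now let `σ` be a model of `le2 F` and `σ' v = b` if `(v, b) ∈ S`, `σ' v = σ v` if neither `(v,true)`
nor `(v,false)` is in `S`.  `σ'` satisfies `a ∈ S`, all unit clauses (by (3)) and all 2-clauses
`{p, q}` of `F`: if one of the variables of `p, q` is touched by `S`, say that of `p`: either
`p ∈ S`, or `ng p ∈ S` and then `edge F (ng p) q` gives `q ∈ S`; if none is touched, `σ` satisfies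
it.  So `insert (cu a) (le2 F)` is satisfiable, a contradiction. -/
theorem chain_lemma (F : Finset (Cl V)) (hsat : SatF (le2 F)) (a : Lt V)
    (h : ¬ SatF (insert (cu a) (le2 F))) :
    cu (ng a) ∈ F ∨ ∃ (k : ℕ) (y : Fin (k + 1) → Lt V), y 0 = a ∧
      Function.Injective (fun i => (y i).1) ∧ isPath F y ∧
      ((∃ s : Fin (k + 1), edge F (y (Fin.last k)) (ng (y s))) ∨
        (∃ r : Lt V, (∀ i, (y i).1 ≠ r.1) ∧ cu r ∈ F ∧ edge F (y (Fin.last k)) (ng r))) := by
  by_contra hcon
  push Not at hcon
  obtain ⟨hA, hB⟩ := hcon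
  have hno : ∀ (k : ℕ) (y : Fin (k + 1) → Lt V), D1_G F a k y →
      ∀ s, ¬ edge F (y (Fin.last k)) (ng (y s)) := by
    intro k y hG s he
    exact (hB k y hG.1 hG.2.1 hG.2.2).1 s he
  have hun : ∀ r : Lt V, cu r ∈ F → ¬ D1_S F a (ng r) := by
    rintro r hr ⟨k, y, hG, hl⟩
    rcases k with _ | k
    · apply hA
      have h1 : a = ng r := by rw [← hG.1, ← hl]; rfl
      rw [h1, ng_ng]
      exact hr
    · have hG' : D1_G F a k (fun i => y i.castSucc) := by
        refine ⟨hG.1, fun i j hij => ?_, fun i => ?_⟩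
        · exact Fin.castSucc_injective _ (hG.2.1 hij)
        · exact hG.2.2 i.castSucc
      have h2 := (hB k _ hG'.1 hG'.2.1 hG'.2.2).2 r
      apply h2
      · intro i hi
        have h3 : (y i.castSucc).1 = (y (Fin.last (k + 1))).1 := by
          rw [hl]
          exact hi
        exact (Fin.castSucc_lt_last i).ne (hG.2.1 h3)
      · exact hr
      · have h4 := hG.2.2 (Fin.last k)
        rw [Fin.succ_last, hl] at h4
        exact h4
  obtain ⟨σ, hσ⟩ := hsat
  classical
  apply h
  obtain ⟨τ, hτ⟩ : ∃ τ : V → Bool, τ = fun v => if D1_S F a (v, true) then true else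
      if D1_S F a (v, false) then false else σ v := ⟨_, rfl⟩
  have hτS : ∀ z : Lt V, D1_S F a z → τ z.1 = z.2 := by
    rintro ⟨v, b⟩ hz
    rw [hτ]
    cases b
    · have hn : ¬ D1_S F a (v, true) := fun h' => D1_cons hno hz h'
      simp only [hn, hz, if_true, if_false]
    · simp only [hz, if_true]
  have hτN : ∀ z : Lt V, ¬ D1_S F a z → ¬ D1_S F a (ng z) → τ z.1 = σ z.1 := by
    rintro ⟨v, b⟩ hz hz'
    rw [hτ]
    cases b
    · have hn : ¬ D1_S F a (v, true) := hz'
      simp only [hn, hz, if_false]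
    · have hn : ¬ D1_S F a (v, false) := hz'
      simp only [hn, hz, if_false]
  refine ⟨τ, fun c hc => ?_⟩
  rcases Finset.mem_insert.mp hc with rfl | hc
  · exact hτS a (D1_mem_a F a)
  · have hcF : c ∈ F := (Finset.mem_filter.mp hc).1
    have hcs : short c := (Finset.mem_filter.mp hc).2
    have hc2 := hσ c hc
    rcases c with r | ⟨p, q⟩ | t
    · by_cases h1 : D1_S F a r
      · exact hτS r h1
      · have h2 := hun r hcF
        show τ r.1 = r.2
        rw [hτN r h1 h2]
        exact hc2
    · show τ p.1 = p.2 ∨ τ q.1 = q.2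
      by_cases h1 : D1_S F a p
      · exact Or.inl (hτS p h1)
      by_cases h2 : D1_S F a (ng p)
      · right
        apply hτS
        apply D1_closed hno h2
        left
        rw [ng_ng]
        exact hcF
      by_cases h3 : D1_S F a q
      · exact Or.inr (hτS q h3)
      by_cases h4 : D1_S F a (ng q)
      · left
        apply hτS
        apply D1_closed hno h4
        right
        rw [ng_ng]
        exact hcF
      rw [hτN p h1 h2, hτN q h3 h4]
      exact hc2
    · exact absurd hcs id

end Pool.Agent.Lib.MP_9cae81_R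
end

section

open Finset Filter MeasureTheory
open scoped BigOperators Topology

namespace Pool.Agent.Lib.MP_9cae81_R

variable {V : Type} [DecidableEq V] [Fintype V]

/-- Closed chains. -/
noncomputable def D3_P1 (g : Finset (Cl V) → ℝ) {k : ℕ} (y : Fin (k + 1) → Lt V) (s : Fin (k + 1))
    (F : Finset (Cl V)) : ℝ := open Classical in
  if isPath F y ∧ edge F (y (Fin.last k)) (ng (y s)) then g F else 0

/-- Chains ending at a unit clause. -/
noncomputable def D3_P2 (g : Finset (Cl V) → ℝ) {k : ℕ} (y : Fin (k + 1) → Lt V) (r : Lt V)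
    (F : Finset (Cl V)) : ℝ := open Classical in
  if isPath F y ∧ cu r ∈ F ∧ edge F (y (Fin.last k)) (ng r) then g F else 0

/-- Terms with repeated variables dropped. -/
noncomputable def D3_P3 (g : Finset (Cl V) → ℝ) {k : ℕ} (y : Fin (k + 1) → Lt V) (r : Lt V)
    (F : Finset (Cl V)) : ℝ := open Classical in
  if ∀ i, (y i).1 ≠ r.1 then D3_P2 g y r F else 0

/-- All terms of a chain. -/
noncomputable def D3_Q (g : Finset (Cl V) → ℝ) {k : ℕ} (y : Fin (k + 1) → Lt V)
    (F : Finset (Cl V)) : ℝ := open Classical in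
  if Function.Injective (fun i => (y i).1) then
    ∑ s, D3_P1 g y s F + ∑ r, D3_P3 g y r F else 0

theorem D3_P1_nonneg {g : Finset (Cl V) → ℝ} (hg0 : ∀ F, 0 ≤ g F) {k : ℕ}
    (y : Fin (k + 1) → Lt V) (s : Fin (k + 1)) (F : Finset (Cl V)) : 0 ≤ D3_P1 g y s F := by
  unfold D3_P1
  split_ifs
  · exact hg0 F
  · exact le_refl _

theorem D3_P3_nonneg {g : Finset (Cl V) → ℝ} (hg0 : ∀ F, 0 ≤ g F) {k : ℕ}
    (y : Fin (k + 1) → Lt V) (r : Lt V) (F : Finset (Cl V)) : 0 ≤ D3_P3 g y r F := by
  unfold D3_P3 D3_P2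
  split_ifs
  · exact hg0 F
  · exact le_refl _
  · exact le_refl _

theorem D3_Q_nonneg {g : Finset (Cl V) → ℝ} (hg0 : ∀ F, 0 ≤ g F) {k : ℕ}
    (y : Fin (k + 1) → Lt V) (F : Finset (Cl V)) : 0 ≤ D3_Q g y F := by
  unfold D3_Q
  split_ifs
  · exact add_nonneg (Finset.sum_nonneg fun s _ => D3_P1_nonneg hg0 y s F)
      (Finset.sum_nonneg fun r _ => D3_P3_nonneg hg0 y r F)
  · exact le_refl _

theorem D3_pointwise {g : Finset (Cl V) → ℝ} (hg0 : ∀ F, 0 ≤ g F) (a : Lt V)
    (F : Finset (Cl V)) :
    fr (le2 F) a * g F ≤ (if cu (ng a) ∈ F then g F else 0) +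
      ∑ k ∈ Finset.range (Fintype.card V), ∑ z : Fin k → Lt V,
        D3_Q g (Fin.cons a z : Fin (k + 1) → Lt V) F := by
  classical
  have hS : 0 ≤ ∑ k ∈ Finset.range (Fintype.card V), ∑ z : Fin k → Lt V,
        D3_Q g (Fin.cons a z : Fin (k + 1) → Lt V) F :=
    Finset.sum_nonneg fun k _ => Finset.sum_nonneg fun z _ => D3_Q_nonneg hg0 _ F
  have hI : 0 ≤ (if cu (ng a) ∈ F then g F else 0) := by
    split_ifs
    · exact hg0 F
    · exact le_refl _
  rcases fr_zero_or_one (le2 F) a with h0 | h1
  · rw [h0, zero_mul]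
    exact add_nonneg hI hS
  rw [h1, one_mul]
  have hun : SatF (le2 F) ∧ ¬ SatF (insert (cu a) (le2 F)) := by
    unfold fr at h1
    rcases un_zero_or_one (le2 F) with h | h
    · have h' : un (insert (cu a) (le2 F)) = 1 := by linarith
      constructor
      · by_contra hc
        unfold un at h
        rw [if_neg hc] at h
        norm_num at h
      · intro hc
        unfold un at h'
        rw [if_pos hc] at h'
        norm_num at h'
    · have := un_le_one (insert (cu a) (le2 F))
      linarith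
  rcases chain_lemma F hun.1 a hun.2 with hc | ⟨k, y, hy0, hyi, hp, hend⟩
  · rw [if_pos hc]
    linarith
  · have hk : k ∈ Finset.range (Fintype.card V) := by
      have := Fintype.card_le_of_injective _ hyi
      simp only [Fintype.card_fin] at this
      exact Finset.mem_range.2 (by omega)
    have hyc : (Fin.cons a (Fin.tail y) : Fin (k + 1) → Lt V) = y := by
      rw [← hy0]
      exact Fin.cons_self_tail y
    have hQ : g F ≤ D3_Q g y F := by
      unfold D3_Q
      rw [if_pos hyi]
      rcases hend with ⟨s, hs⟩ | ⟨r, hr, hrF, hre⟩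
      · have h2 : D3_P1 g y s F = g F := by
          unfold D3_P1
          rw [if_pos ⟨hp, hs⟩]
        have h3 : D3_P1 g y s F ≤ ∑ s, D3_P1 g y s F :=
          Finset.single_le_sum (f := fun s => D3_P1 g y s F)
            (fun s _ => D3_P1_nonneg hg0 y s F) (Finset.mem_univ s)
        have h4 : 0 ≤ ∑ r, D3_P3 g y r F := Finset.sum_nonneg fun r _ => D3_P3_nonneg hg0 y r F
        linarith
      · have h2 : D3_P3 g y r F = g F := by
          unfold D3_P3 D3_P2
          rw [if_pos hr, if_pos ⟨hp, hrF, hre⟩]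
        have h3 : D3_P3 g y r F ≤ ∑ r, D3_P3 g y r F :=
          Finset.single_le_sum (f := fun r => D3_P3 g y r F)
            (fun r _ => D3_P3_nonneg hg0 y r F) (Finset.mem_univ r)
        have h4 : 0 ≤ ∑ s, D3_P1 g y s F := Finset.sum_nonneg fun s _ => D3_P1_nonneg hg0 y s F
        linarith
    have h5 : D3_Q g y F ≤ ∑ z : Fin k → Lt V, D3_Q g (Fin.cons a z : Fin (k + 1) → Lt V) F := by
      have := Finset.single_le_sum
        (f := fun z : Fin k → Lt V => D3_Q g (Fin.cons a z : Fin (k + 1) → Lt V) F)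
        (fun z _ => D3_Q_nonneg hg0 _ F) (Finset.mem_univ (Fin.tail y))
      simpa only [hyc] using this
    have h6 : ∑ z : Fin k → Lt V, D3_Q g (Fin.cons a z : Fin (k + 1) → Lt V) F ≤
        ∑ k ∈ Finset.range (Fintype.card V), ∑ z : Fin k → Lt V,
        D3_Q g (Fin.cons a z : Fin (k + 1) → Lt V) F :=
      Finset.single_le_sum (f := fun k => ∑ z : Fin k → Lt V,
        D3_Q g (Fin.cons a z : Fin (k + 1) → Lt V) F)
        (fun k _ => Finset.sum_nonneg fun z _ => D3_Q_nonneg hg0 _ F) hk
    linarith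

theorem D3_EQ {u v w : ℝ} (hu : 0 ≤ u) (hv : 0 ≤ v) (hw : 0 ≤ w)
    {g : Finset (Cl V) → ℝ} (hg : Sem g) (hg0 : ∀ F, 0 ≤ g F) {k : ℕ} (y : Fin (k + 1) → Lt V) :
    EE (qq u v w) (D3_Q g y) ≤ (2 * v) ^ (k + 1) *
        (((k : ℝ) + 1) * EE (qq u v w) (fun F => g (F ∪ us (fun i => ng (y i)))) +
          u * ∑ r : Lt V, EE (qq u v w) (fun F => g (insert (cu r)
            (F ∪ us (fun i => ng (y i)))))) := by
  classical
  have hq : ∀ c, 0 ≤ qq u v w c := qq_nonneg (V := V) hu hv hw
  have hE1 : 0 ≤ EE (qq u v w) (fun F => g (F ∪ us (fun i => ng (y i)))) :=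
    EE_nonneg hq fun F => hg0 _
  have hE2 : ∀ r, 0 ≤ EE (qq u v w) (fun F => g (insert (cu r) (F ∪ us (fun i => ng (y i))))) :=
    fun r => EE_nonneg hq fun F => hg0 _
  by_cases hyi : Function.Injective (fun i => (y i).1)
  · have h1 : EE (qq u v w) (D3_Q g y) = ∑ s, EE (qq u v w) (D3_P1 g y s) +
        ∑ r, EE (qq u v w) (D3_P3 g y r) := by
      have h2 : D3_Q g y = fun F => (∑ s, D3_P1 g y s F) + ∑ r, D3_P3 g y r F := by
        funext F
        unfold D3_Q
        rw [if_pos hyi]
      rw [h2, EE_add, EE_sum, EE_sum]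
    rw [h1]
    have h3 : ∑ s, EE (qq u v w) (D3_P1 g y s) ≤ ∑ _s : Fin (k + 1), (2 * v) ^ (k + 1) *
        EE (qq u v w) (fun F => g (F ∪ us (fun i => ng (y i)))) := by
      refine Finset.sum_le_sum fun s _ => ?_
      exact path_prob hu hv hw hg hg0 y hyi s
    have h4 : ∑ r, EE (qq u v w) (D3_P3 g y r) ≤ ∑ r : Lt V, (2 * v) ^ (k + 1) * u *
        EE (qq u v w) (fun F => g (insert (cu r) (F ∪ us (fun i => ng (y i))))) := by
      refine Finset.sum_le_sum fun r _ => ?_
      by_cases hr : ∀ i, (y i).1 ≠ r.1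
      · have h5 : D3_P3 g y r = D3_P2 g y r := by
          funext F
          unfold D3_P3
          rw [if_pos hr]
        rw [h5]
        exact path_prob_unit hu hv hw hg hg0 y hyi r hr
      · have h5 : D3_P3 g y r = fun _ => 0 := by
          funext F
          unfold D3_P3
          rw [if_neg hr]
        rw [h5, EE_const]
        exact mul_nonneg (mul_nonneg (pow_nonneg (by linarith) _) hu) (hE2 r)
    have h6 : ∑ _s : Fin (k + 1), (2 * v) ^ (k + 1) *
        EE (qq u v w) (fun F => g (F ∪ us (fun i => ng (y i)))) = (2 * v) ^ (k + 1) *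
        (((k : ℝ) + 1) * EE (qq u v w) (fun F => g (F ∪ us (fun i => ng (y i))))) := by
      simp only [Finset.sum_const, Finset.card_univ, Fintype.card_fin, nsmul_eq_mul]
      push_cast
      ring
    have h7 : ∑ r : Lt V, (2 * v) ^ (k + 1) * u *
        EE (qq u v w) (fun F => g (insert (cu r) (F ∪ us (fun i => ng (y i))))) =
        (2 * v) ^ (k + 1) * (u * ∑ r : Lt V, EE (qq u v w) (fun F => g (insert (cu r)
            (F ∪ us (fun i => ng (y i)))))) := by
      rw [← Finset.mul_sum]
      ring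
    rw [mul_add]
    linarith
  · have h1 : D3_Q g y = fun _ => 0 := by
      funext F
      unfold D3_Q
      rw [if_neg hyi]
    rw [h1, EE_const]
    refine mul_nonneg (pow_nonneg (by linarith) _) (add_nonneg (mul_nonneg (by positivity) hE1)
      (mul_nonneg hu (Finset.sum_nonneg fun r _ => hE2 r)))

/-- **Union bound over chains.**  Proof.  `fr (le2 F) a = 1` iff `le2 F` is satisfiable and
`insert (cu a) (le2 F)` is not (else `0`); by `chain_lemma` this is at most
`1{cu (ng a) ∈ F} + ∑_{k < |V|} ∑_z [y = Fin.cons a z has distinct variables]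
(∑_s 1{isPath, closed at s} + ∑_r [r new] 1{isPath, cu r ∈ F, closing edge to ng r})`
(distinct variables force `k + 1 ≤ |V|`).  Multiply by `g F ≥ 0`, take `EE`, and use `EE_mem`
(`1 - exp(-u) ≤ u`; `insert`), `path_prob` (the same bound for the `k+1` values of `s`) and
`path_prob_unit`; the terms with repeated variables on the right are nonnegative. -/
theorem union_bound {u v w : ℝ} (hu : 0 ≤ u) (hv : 0 ≤ v) (hw : 0 ≤ w)
    {g : Finset (Cl V) → ℝ} (hg : Sem g) (hg0 : ∀ F, 0 ≤ g F) (a : Lt V) :
    EE (qq u v w) (fun F => fr (le2 F) a * g F) ≤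
      u * EE (qq u v w) (fun F => g (insert (cu (ng a)) F)) +
      ∑ k ∈ Finset.range (Fintype.card V), (2 * v) ^ (k + 1) * ∑ z : Fin k → Lt V,
        (((k : ℝ) + 1) * EE (qq u v w)
            (fun F => g (F ∪ us (fun i => ng ((Fin.cons a z : Fin (k + 1) → Lt V) i)))) +
          u * ∑ r : Lt V, EE (qq u v w) (fun F => g (insert (cu r)
            (F ∪ us (fun i => ng ((Fin.cons a z : Fin (k + 1) → Lt V) i)))))) := by
  classical
  have hq : ∀ c, 0 ≤ qq u v w c := qq_nonneg (V := V) hu hv hw
  refine le_trans (EE_mono hq (D3_pointwise hg0 a)) ?_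
  rw [EE_add, EE_sum]
  refine add_le_add ?_ (Finset.sum_le_sum fun k _ => ?_)
  · rw [EE_mem]
    have hqr : qq u v w (cu (ng a) : Cl V) = u := rfl
    rw [hqr]
    have h4 : 1 - Real.exp (-u) ≤ u := by
      have := Real.add_one_le_exp (-u)
      linarith
    exact mul_le_mul_of_nonneg_right h4 (EE_nonneg hq fun F => hg0 _)
  · rw [EE_sum, Finset.mul_sum]
    exact Finset.sum_le_sum fun z _ => D3_EQ hu hv hw hg hg0 _

end Pool.Agent.Lib.MP_9cae81_R
end

section

open Finset Filter MeasureTheory
open scoped BigOperators Topology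

namespace Pool.Agent.Lib.MP_9cae81_R

variable {V W : Type} [DecidableEq V] [Fintype V] [DecidableEq W] [Fintype W]

/-- The law of the short clauses: `EE_filter` with `P = short`; `if short c then qq u v w c else 0`
equals `qq u v 0 c`. -/
theorem EE_le2 (u v w : ℝ) (g : Finset (Cl V) → ℝ) :
    EE (qq u v w) (fun F => g (le2 F)) = EE (qq u v 0) g := by
  have h1 := EE_filter (qq u v w : Cl V → ℝ) short g
  have h2 : (fun c : Cl V => if short c then qq u v w c else 0) = qq u v 0 := by
    funext c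
    rcases c with c | c | c
    · simp [short, qq]
    · simp [short, qq]
    · simp [short, qq]
  rw [h2] at h1
  exact h1

/-- The equivalence of the clauses. -/
private def B3_eq (e : V ≃ W) : Cl V ≃ Cl W :=
  let eL : Lt V ≃ Lt W := Equiv.prodCongr e (Equiv.refl Bool)
  Equiv.sumCongr eL (Equiv.sumCongr (Equiv.prodCongr eL eL) (Equiv.prodCongr eL (Equiv.prodCongr eL eL)))

omit [DecidableEq V] [Fintype V] [DecidableEq W] [Fintype W] in
private theorem B3_clT (e : V ≃ W) (σ : W → Bool) (c : Cl V) : clT σ (B3_eq e c) ↔ clT (fun v => σ (e v)) c := by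
  rcases c with c | c | c
  · exact Iff.rfl
  · exact Iff.rfl
  · exact Iff.rfl

omit [DecidableEq V] [Fintype V] [DecidableEq W] [Fintype W] in
private theorem B3_qq (e : V ≃ W) (u v w : ℝ) (c : Cl V) : qq u v w (B3_eq e c) = qq u v w c := by
  rcases c with c | c | c
  · rfl
  · rfl
  · rfl

omit [DecidableEq V] [Fintype V] [DecidableEq W] [Fintype W] in
private theorem B3_sat (e : V ≃ W) (F : Finset (Cl V)) : SatF (F.map (B3_eq e).toEmbedding) ↔ SatF F := by
  constructor
  · rintro ⟨σ, hσ⟩
    refine ⟨fun v => σ (e v), fun c hc => ?_⟩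
    rw [← B3_clT]
    exact hσ _ (Finset.mem_map.2 ⟨c, hc, rfl⟩)
  · rintro ⟨σ, hσ⟩
    refine ⟨fun x => σ (e.symm x), fun c hc => ?_⟩
    obtain ⟨c', hc', rfl⟩ := Finset.mem_map.1 hc
    show clT _ (B3_eq e c')
    rw [B3_clT]
    have h : (fun v => σ (e.symm (e v))) = σ := by
      funext v
      rw [Equiv.symm_apply_apply]
    rw [h]
    exact hσ c' hc'

/-- The expectation depends on the variable set only through its cardinality: `EE_equiv` for the
equivalence of `Cl V` and `Cl W` induced by `e` (`Equiv.sumCongr`, `Equiv.prodCongr`), which keeps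
`qq u v w` and satisfiability (assignments correspond through `σ ↦ σ ∘ e.symm`). -/
theorem EE_un_equiv (e : V ≃ W) (u v w : ℝ) :
    EE (qq u v w) (un : Finset (Cl V) → ℝ) = EE (qq u v w) (un : Finset (Cl W) → ℝ) := by
  rw [← EE_equiv (B3_eq e) (qq u v w) (un : Finset (Cl W) → ℝ)]
  have h1 : (fun c : Cl V => qq u v w (B3_eq e c)) = qq u v w := by
    funext c
    exact B3_qq e u v w c
  have h2 : (fun F : Finset (Cl V) => un (F.map (B3_eq e).toEmbedding)) = un := by
    funext F
    unfold un
    rw [B3_sat]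
  rw [h1, h2]

end Pool.Agent.Lib.MP_9cae81_R
end
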