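import Pool.Agent.Lib.MP_9cae81_R.Defs
import Pool.Agent.Lib.MP_9cae81_R.Mg.G009
import Pool.Agent.Lib.MP_9cae81_R.Mg.G011

section

open Finset Filter MeasureTheory
open scoped BigOperators Topology

namespace Pool.Agent.Lib.MP_9cae81_R

private theorem E5_cardL (n j : ℕ) : (Fintype.card (Fin j → Lt (Fin n)) : ℝ) = (2 * n) ^ j := by
  rw [Fintype.card_fun, Fintype.card_fin, Nat.cast_pow, Fintype.card_prod, Fintype.card_fin,
    Fintype.card_bool]
  push_cast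
  ring

private theorem E5_pow (n : ℕ) (hn : 1 ≤ n) (j : ℕ) : (0 : ℝ) < (2 * n) ^ j := by
  have : (1 : ℝ) ≤ n := by exact_mod_cast hn
  positivity

/-- Comparison of averages. -/
private theorem E5_cmp {n : ℕ} (hn : 1 ≤ n) (e j : ℕ) {l x y a b : ℝ} (hl : 0 ≤ l) (hx : 0 ≤ x)
    (hy : 0 ≤ y) (h : ∀ f : ℝ, 0 ≤ f → f ≤ a + b * f ^ e) :
    ZBf 1 n j l x y ≤ a + b * ZBf e n j l x y := by
  have hq := qs_nonneg n hl hx hy
  have hP := E5_pow n hn j
  have h1 : ∑ L : Fin j → Lt (Fin n), EE (qs n l x y) (fun F => fN (F ∪ us L) ^ 1) ≤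
      ∑ L : Fin j → Lt (Fin n), (a + b * EE (qs n l x y) (fun F => fN (F ∪ us L) ^ e)) := by
    refine Finset.sum_le_sum fun L _ => ?_
    have h2 : a + b * EE (qs n l x y) (fun F => fN (F ∪ us L) ^ e) =
        EE (qs n l x y) (fun F => a + b * fN (F ∪ us L) ^ e) := by
      rw [EE_add, EE_const, EE_mul_left]
    rw [h2]
    refine EE_mono hq fun F => ?_
    rw [pow_one]
    exact h _ (fN_range hn _).1
  rw [Finset.sum_add_distrib, ← Finset.mul_sum, Finset.sum_const, Finset.card_univ, nsmul_eq_mul,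
    E5_cardL] at h1
  unfold ZBf
  rw [div_le_iff₀ hP]
  refine h1.trans (le_of_eq ?_)
  field_simp

private theorem E5_py (l x : ℝ) : Continuous (fun y : ℝ => ((l, x, y) : ℝ × ℝ × ℝ)) := by
  fun_prop

private theorem E5_px (l y : ℝ) : Continuous (fun x : ℝ => ((l, x, y) : ℝ × ℝ × ℝ)) := by
  fun_prop

private theorem E5_cy (n e j : ℕ) (l x : ℝ) : Continuous (fun y => ZBf e n j l x y) := by
  have h := (ZBf_cont e n j).comp (E5_py l x)
  rw [Function.comp_def] at h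
  exact h

private theorem E5_cx (n e j : ℕ) (l y : ℝ) : Continuous (fun x => ZBf e n j l x y) := by
  have h := (ZBf_cont e n j).comp (E5_px l y)
  rw [Function.comp_def] at h
  exact h

private theorem E5_iy {n : ℕ} (hn : 1 ≤ n) (j : ℕ) {l x Y : ℝ} (hl : 0 ≤ l) (hx : 0 ≤ x)
    (hY : 0 ≤ Y) : ∫ y in (0 : ℝ)..Y, ZBf 3 n j l x y ≤ 1 / n := by
  have hn0 : (0 : ℝ) < n := by exact_mod_cast hn
  have h1 := intervalIntegral.integral_eq_sub_of_hasDerivAt (a := 0) (b := Y)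
    (fun y _ => ZB_dy hn j l x y)
    (((E5_cy n 3 j l x).const_mul (n : ℝ)).intervalIntegrable 0 Y)
  rw [intervalIntegral.integral_const_mul] at h1
  have h2 := (ZB_mono hn (le_refl j) hl hx hY).2.1
  have h3 := (ZB_mono hn (le_refl j) hl hx le_rfl).2.2.2
  have h4 := (ZZ_range hn hl hx (le_refl (0 : ℝ))).1
  rw [le_div_iff₀ hn0, mul_comm, h1]
  linarith

private theorem E5_ix {n : ℕ} (hn : 1 ≤ n) (j : ℕ) {l X : ℝ} (hl : 0 ≤ l)
    (hX : 0 ≤ X) : ∫ x in (0 : ℝ)..X, ZBf 2 n j l x 0 ≤ 1 / n := by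
  have hn0 : (0 : ℝ) < n := by exact_mod_cast hn
  have h1 := intervalIntegral.integral_eq_sub_of_hasDerivAt (a := 0) (b := X)
    (fun x _ => ZB_dx hn j l x 0)
    (((E5_cx n 2 j l 0).const_mul (n : ℝ)).intervalIntegrable 0 X)
  rw [intervalIntegral.integral_const_mul] at h1
  have h2 := (ZB_mono hn (le_refl j) hl hX (le_refl (0 : ℝ))).2.1
  have h3 := (ZB_mono hn (le_refl j) hl (le_refl (0 : ℝ)) (le_refl (0 : ℝ))).2.2.2
  have h4 := (ZZ_range hn hl (le_refl (0 : ℝ)) (le_refl (0 : ℝ))).1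
  rw [le_div_iff₀ hn0, mul_comm, h1]
  linarith

/-- `ZBf 1` is small on average over `y`.  Proof: for `f = fN ≥ 0` and `τ > 0`, `f ≤ τ + f^3/τ^2`; so
`ZBf 1 ≤ τ + ZBf 3 / τ^2`, and `∫_0^Y n * ZBf 3 dy = ZB n j l x Y - ZB n j l x 0 ≤ 1` by `ZB_dy`.
With `τ = n^(-1/3)`: `τ Y + 1/(n τ^2) = (Y + 1) n^(-1/3)`. -/
theorem ZBf_small {n : ℕ} (hn : 1 ≤ n) (j : ℕ) {l x Y : ℝ} (hl : 0 ≤ l) (hx : 0 ≤ x)
    (hY : 0 ≤ Y) :
    ∫ y in (0 : ℝ)..Y, ZBf 1 n j l x y ≤ (Y + 1) * ((n : ℝ) ^ (-(1 / 3) : ℝ)) := by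
  have hn0 : (0 : ℝ) < n := by exact_mod_cast hn
  obtain ⟨τ, hτ⟩ : ∃ τ : ℝ, τ = (n : ℝ) ^ (-(1 / 3) : ℝ) := ⟨_, rfl⟩
  have hτ0 : 0 < τ := by rw [hτ]; positivity
  have hτ3 : τ ^ 3 = 1 / n := by
    rw [hτ, ← Real.rpow_natCast, ← Real.rpow_mul hn0.le]
    norm_num
    rw [Real.rpow_neg_one]
  have hpt : ∀ f : ℝ, 0 ≤ f → f ≤ τ + (1 / τ ^ 2) * f ^ 3 := by
    intro f hf
    rcases le_total f τ with h | h
    · have : 0 ≤ (1 / τ ^ 2) * f ^ 3 := by positivity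
      linarith
    · have h1 : f ≤ (1 / τ ^ 2) * f ^ 3 := by
        rw [one_div, ← div_eq_inv_mul, le_div_iff₀ (by positivity)]
        have h2 : τ ^ 2 ≤ f ^ 2 := pow_le_pow_left₀ hτ0.le h 2
        calc f * τ ^ 2 ≤ f * f ^ 2 := mul_le_mul_of_nonneg_left h2 hf
          _ = f ^ 3 := by ring
      linarith
  rw [← hτ]
  have hc3 : Continuous fun y => (1 / τ ^ 2) * ZBf 3 n j l x y := (E5_cy n 3 j l x).const_mul _
  have hc4 : Continuous fun y => τ + (1 / τ ^ 2) * ZBf 3 n j l x y := hc3.const_add _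
  have h1 : ∫ y in (0 : ℝ)..Y, ZBf 1 n j l x y ≤
      ∫ y in (0 : ℝ)..Y, (τ + (1 / τ ^ 2) * ZBf 3 n j l x y) :=
    intervalIntegral.integral_mono_on hY ((E5_cy n 1 j l x).intervalIntegrable 0 Y)
      (hc4.intervalIntegrable 0 Y)
      fun y hy => E5_cmp hn 3 j hl hx hy.1 hpt
  have h0 : ∫ y in (0 : ℝ)..Y, (τ + (1 / τ ^ 2) * ZBf 3 n j l x y) =
      (∫ y in (0 : ℝ)..Y, τ) + ∫ y in (0 : ℝ)..Y, (1 / τ ^ 2) * ZBf 3 n j l x y :=
    intervalIntegral.integral_add (continuous_const.intervalIntegrable 0 Y)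
      (hc3.intervalIntegrable 0 Y)
  rw [h0, intervalIntegral.integral_const, intervalIntegral.integral_const_mul, smul_eq_mul,
    sub_zero] at h1
  have h2 := mul_le_mul_of_nonneg_left (E5_iy hn j hl hx hY) (by positivity : 0 ≤ 1 / τ ^ 2)
  have h3 : 1 / τ ^ 2 * (1 / (n : ℝ)) = τ := by
    rw [← hτ3]
    field_simp
  rw [h3] at h2
  linarith

/-- The same for 2-SAT formulas on average over `x`: `f ≤ τ + f^2/τ`, `τ = n^(-1/2)`, `ZB_dx`. -/
theorem ZBf_small_x {n : ℕ} (hn : 1 ≤ n) (j : ℕ) {l X : ℝ} (hl : 0 ≤ l) (hX : 0 ≤ X) :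
    ∫ x in (0 : ℝ)..X, ZBf 1 n j l x 0 ≤ (X + 1) * ((n : ℝ) ^ (-(1 / 2) : ℝ)) := by
  have hn0 : (0 : ℝ) < n := by exact_mod_cast hn
  obtain ⟨τ, hτ⟩ : ∃ τ : ℝ, τ = (n : ℝ) ^ (-(1 / 2) : ℝ) := ⟨_, rfl⟩
  have hτ0 : 0 < τ := by rw [hτ]; positivity
  have hτ2 : τ ^ 2 = 1 / n := by
    rw [hτ, ← Real.rpow_natCast, ← Real.rpow_mul hn0.le]
    norm_num
    rw [Real.rpow_neg_one]
  have hpt : ∀ f : ℝ, 0 ≤ f → f ≤ τ + (1 / τ) * f ^ 2 := by
    intro f hf
    rcases le_total f τ with h | h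
    · have : 0 ≤ (1 / τ) * f ^ 2 := by positivity
      linarith
    · have h1 : f ≤ (1 / τ) * f ^ 2 := by
        rw [one_div, ← div_eq_inv_mul, le_div_iff₀ hτ0]
        calc f * τ ≤ f * f := mul_le_mul_of_nonneg_left h hf
          _ = f ^ 2 := by ring
      linarith
  rw [← hτ]
  have hc3 : Continuous fun x => (1 / τ) * ZBf 2 n j l x 0 := (E5_cx n 2 j l 0).const_mul _
  have hc4 : Continuous fun x => τ + (1 / τ) * ZBf 2 n j l x 0 := hc3.const_add _
  have h1 : ∫ x in (0 : ℝ)..X, ZBf 1 n j l x 0 ≤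
      ∫ x in (0 : ℝ)..X, (τ + (1 / τ) * ZBf 2 n j l x 0) :=
    intervalIntegral.integral_mono_on hX ((E5_cx n 1 j l 0).intervalIntegrable 0 X)
      (hc4.intervalIntegrable 0 X)
      fun x hx => E5_cmp hn 2 j hl hx.1 le_rfl hpt
  have h0 : ∫ x in (0 : ℝ)..X, (τ + (1 / τ) * ZBf 2 n j l x 0) =
      (∫ x in (0 : ℝ)..X, τ) + ∫ x in (0 : ℝ)..X, (1 / τ) * ZBf 2 n j l x 0 :=
    intervalIntegral.integral_add (continuous_const.intervalIntegrable 0 X)
      (hc3.intervalIntegrable 0 X)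
  rw [h0, intervalIntegral.integral_const, intervalIntegral.integral_const_mul, smul_eq_mul,
    sub_zero] at h1
  have h2 := mul_le_mul_of_nonneg_left (E5_ix hn j hl hX) (by positivity : 0 ≤ 1 / τ)
  have h3 : 1 / τ * (1 / (n : ℝ)) = τ := by
    rw [← hτ2]
    field_simp
  rw [h3] at h2
  linarith

private theorem E5_By (n j : ℕ) (l x : ℝ) : Continuous (fun y => ZB n j l x y) := by
  have h := (ZB_cont n j).comp (E5_py l x)
  rw [Function.comp_def] at h
  exact h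

private theorem E5_Bx (n j : ℕ) (l y : ℝ) : Continuous (fun x => ZB n j l x y) := by
  have h := (ZB_cont n j).comp (E5_px l y)
  rw [Function.comp_def] at h
  exact h

private theorem E5_Zy (n : ℕ) (l x : ℝ) : Continuous (fun y => ZZ n l x y) := by
  have h := (EE_cont n un).comp (E5_py l x)
  rw [Function.comp_def] at h
  exact h

private theorem E5_Zx (n : ℕ) (l y : ℝ) : Continuous (fun x => ZZ n l x y) := by
  have h := (EE_cont n un).comp (E5_px l y)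
  rw [Function.comp_def] at h
  exact h

/-- Sum of `ZBf_small` over `i < j` (`ZB_succ`, `ZB n 0 = ZZ`). -/
theorem ZB_small {n : ℕ} (hn : 1 ≤ n) (j : ℕ) {l x Y : ℝ} (hl : 0 ≤ l) (hx : 0 ≤ x)
    (hY : 0 ≤ Y) :
    ∫ y in (0 : ℝ)..Y, (ZB n j l x y - ZZ n l x y) ≤
      (j : ℝ) * ((Y + 1) * ((n : ℝ) ^ (-(1 / 3) : ℝ))) := by
  induction j with
  | zero =>
    rw [Nat.cast_zero, zero_mul]
    refine le_of_eq ?_
    rw [intervalIntegral.integral_congr (g := fun _ => (0 : ℝ)), intervalIntegral.integral_zero]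
    intro y hy
    rw [Set.uIcc_of_le hY] at hy
    have h := (ZB_mono hn (le_refl 0) hl hx hy.1).2.2.1
    change ZB n 0 l x y - ZZ n l x y = 0
    rw [h, sub_self]
  | succ j ih =>
    have h1 : ∀ y, ZB n (j + 1) l x y - ZZ n l x y =
        (ZB n j l x y - ZZ n l x y) + ZBf 1 n j l x y := by
      intro y
      have h := ZB_succ hn j l x y
      linarith
    have h2 : ∫ y in (0 : ℝ)..Y, (ZB n (j + 1) l x y - ZZ n l x y) =
        (∫ y in (0 : ℝ)..Y, (ZB n j l x y - ZZ n l x y)) + ∫ y in (0 : ℝ)..Y, ZBf 1 n j l x y := by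
      have hc1 : Continuous fun y => ZB n j l x y - ZZ n l x y := (E5_By n j l x).sub (E5_Zy n l x)
      have h0 : ∫ y in (0 : ℝ)..Y, ((ZB n j l x y - ZZ n l x y) + ZBf 1 n j l x y) =
          (∫ y in (0 : ℝ)..Y, (ZB n j l x y - ZZ n l x y)) + ∫ y in (0 : ℝ)..Y, ZBf 1 n j l x y :=
        intervalIntegral.integral_add (hc1.intervalIntegrable 0 Y)
          ((E5_cy n 1 j l x).intervalIntegrable 0 Y)
      rw [← h0]
      exact intervalIntegral.integral_congr fun y _ => h1 y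
    rw [h2]
    have h3 := ZBf_small hn j hl hx hY
    push_cast
    linarith

theorem ZB_small_x {n : ℕ} (hn : 1 ≤ n) (j : ℕ) {l X : ℝ} (hl : 0 ≤ l) (hX : 0 ≤ X) :
    ∫ x in (0 : ℝ)..X, (ZB n j l x 0 - ZZ n l x 0) ≤
      (j : ℝ) * ((X + 1) * ((n : ℝ) ^ (-(1 / 2) : ℝ))) := by
  induction j with
  | zero =>
    rw [Nat.cast_zero, zero_mul]
    refine le_of_eq ?_
    rw [intervalIntegral.integral_congr (g := fun _ => (0 : ℝ)), intervalIntegral.integral_zero]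
    intro x hx
    rw [Set.uIcc_of_le hX] at hx
    have h := (ZB_mono hn (le_refl 0) hl hx.1 (le_refl (0 : ℝ))).2.2.1
    change ZB n 0 l x 0 - ZZ n l x 0 = 0
    rw [h, sub_self]
  | succ j ih =>
    have h1 : ∀ x, ZB n (j + 1) l x 0 - ZZ n l x 0 =
        (ZB n j l x 0 - ZZ n l x 0) + ZBf 1 n j l x 0 := by
      intro x
      have h := ZB_succ hn j l x 0
      linarith
    have h2 : ∫ x in (0 : ℝ)..X, (ZB n (j + 1) l x 0 - ZZ n l x 0) =
        (∫ x in (0 : ℝ)..X, (ZB n j l x 0 - ZZ n l x 0)) + ∫ x in (0 : ℝ)..X, ZBf 1 n j l x 0 := by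
      have hc1 : Continuous fun x => ZB n j l x 0 - ZZ n l x 0 := (E5_Bx n j l 0).sub (E5_Zx n l 0)
      have h0 : ∫ x in (0 : ℝ)..X, ((ZB n j l x 0 - ZZ n l x 0) + ZBf 1 n j l x 0) =
          (∫ x in (0 : ℝ)..X, (ZB n j l x 0 - ZZ n l x 0)) + ∫ x in (0 : ℝ)..X, ZBf 1 n j l x 0 :=
        intervalIntegral.integral_add (hc1.intervalIntegrable 0 X)
          ((E5_cx n 1 j l 0).intervalIntegrable 0 X)
      rw [← h0]
      exact intervalIntegral.integral_congr fun x _ => h1 x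
    rw [h2]
    have h3 := ZBf_small_x hn j hl hX
    push_cast
    linarith

/-- `ZL = ZBf 1 n 0`. -/
theorem ZL_small {n : ℕ} (hn : 1 ≤ n) {l x Y : ℝ} (hl : 0 ≤ l) (hx : 0 ≤ x) (hY : 0 ≤ Y) :
    ∫ y in (0 : ℝ)..Y, ZL n l x y ≤ (Y + 1) * ((n : ℝ) ^ (-(1 / 3) : ℝ)) := by
  have h := ZBf_small hn 0 hl hx hY
  have e : ∀ y, ZBf 1 n 0 l x y = ZL n l x y := by
    intro y
    unfold ZBf ZL
    rw [pow_zero, div_one, Fintype.sum_unique]
    congr 1
    funext F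
    have : us (default : Fin 0 → Lt (Fin n)) = ∅ := by
      unfold us
      simp
    rw [this, Finset.union_empty, pow_one]
  rw [intervalIntegral.integral_congr fun y _ => e y] at h
  exact h

end Pool.Agent.Lib.MP_9cae81_R
end

section

open Finset Filter MeasureTheory
open scoped BigOperators Topology

namespace Pool.Agent.Lib.MP_9cae81_R

theorem E3_le2_le2 {V : Type} [DecidableEq V] (F : Finset (Cl V)) : le2 (le2 F) = le2 F := by
  unfold le2
  rw [Finset.filter_filter]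
  congr 1
  funext c
  simp only [and_self]

/-- The law of the short clauses, scaled (`EE_le2`; `qs n l x y` is
`qq (l/(2n)) (x/(4n)) (y/(8n²))` and `0/(8n²) = 0`). -/
theorem EEs_le2 (n : ℕ) (l x y : ℝ) (g : Finset (Cl (Fin n)) → ℝ) :
    EE (qs n l x y) (fun F => g (le2 F)) = EE (qs n l x 0) g := by
  unfold qs
  rw [EE_le2, zero_div]

theorem TL_eq (n : ℕ) (l x y : ℝ) : TL n l x = EE (qs n l x y) m2 := by
  unfold TL ZL
  have h : (m2 : Finset (Cl (Fin n)) → ℝ) = fun F => fN (le2 F) := by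
    funext F
    rfl
  rw [h, EEs_le2]

theorem TT_eq (n : ℕ) (l x y : ℝ) : TT n l x = EE (qs n l x y) (fun F => un (le2 F)) := by
  unfold TT ZZ
  rw [EEs_le2]

/-- `ZL - TL = EE (fN - m2)` and `fN - m2 = fT - un * m2`. -/
theorem A_R0 (n : ℕ) (l x y : ℝ) : ZL n l x y - TL n l x = AA n l x y - R0 n l x y := by
  rw [TL_eq n l x y]
  unfold ZL AA R0
  rw [← EE_sub, ← EE_sub]
  congr 1
  funext F
  unfold fT
  ring

/-- `TX n l x = n EE_{y=0} (fN^2) ≤ n RR n l x 0`: on the law with `y = 0` one may replace `F` by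
`le2 F` (`EEs_le2` with `y = 0`), for which `fN = m2 ≤ av`. -/
theorem TX_le {n : ℕ} (hn : 1 ≤ n) {l x : ℝ} (hl : 0 ≤ l) (hx : 0 ≤ x) :
    TX n l x ≤ n * RR n l x 0 := by
  unfold TX ZX
  refine mul_le_mul_of_nonneg_left ?_ (Nat.cast_nonneg n)
  unfold RR
  rw [← EEs_le2 n l x 0 (fun F => fN F ^ 2), ← EEs_le2 n l x 0 (fun F => m2 F * av F)]
  refine EE_mono (fun c => ?_) fun F => ?_
  · unfold qs
    exact qq_nonneg (by positivity) (by positivity) (by positivity) c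
  · have h1 : m2 (le2 F) = fN (le2 F) := by
      rw [(m2_range hn (le2 F)).2.2, E3_le2_le2]
    have h2 := fN_av hn (le2 F)
    have h3 := (fN_range hn (le2 F)).1
    show fN (le2 F) ^ 2 ≤ m2 (le2 F) * av (le2 F)
    rw [h1, sq]
    exact mul_le_mul_of_nonneg_left h2.2.1 h3

end Pool.Agent.Lib.MP_9cae81_R
end

section

open Finset Filter MeasureTheory
open scoped BigOperators Topology

namespace Pool.Agent.Lib.MP_9cae81_R

/-- the opposite literal as an equivalence -/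
def E6_ngE (V : Type) : Lt V ≃ Lt V where
  toFun := ng
  invFun := ng
  left_inv := ng_ng
  right_inv := ng_ng

theorem E6_cons {X : Type} [Fintype X] {k : ℕ} (f : (Fin (k + 1) → X) → ℝ) :
    ∑ L : Fin (k + 1) → X, f L = ∑ a : X, ∑ z : Fin k → X, f (Fin.cons a z) := by
  rw [← Fintype.sum_prod_type' (fun (a : X) (z : Fin k → X) => f (Fin.cons a z))]
  exact (Fintype.sum_equiv (Fin.consEquiv (fun _ : Fin (k + 1) => X)) _ _ (fun _ => rfl)).symm

theorem E6_ng {n k : ℕ} (f : (Fin (k + 1) → Lt (Fin n)) → ℝ) :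
    ∑ a : Lt (Fin n), ∑ z : Fin k → Lt (Fin n),
      f (fun i => ng ((Fin.cons a z : Fin (k + 1) → Lt (Fin n)) i)) =
      ∑ L : Fin (k + 1) → Lt (Fin n), f L := by
  rw [← E6_cons (fun L : Fin (k + 1) → Lt (Fin n) => f (fun i => ng (L i)))]
  exact Fintype.sum_equiv (Equiv.piCongrRight fun _ : Fin (k + 1) => E6_ngE (Fin n)) _ _ (fun _ => rfl)

theorem E6_us_cons {n k : ℕ} (a : Lt (Fin n)) (z : Fin k → Lt (Fin n)) :
    us (Fin.cons a z : Fin (k + 1) → Lt (Fin n)) = insert (cu a) (us z) := by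
  ext c
  simp only [us, Finset.mem_image, Finset.mem_univ, true_and, Finset.mem_insert]
  rw [Fin.exists_fin_succ]
  simp only [Fin.cons_zero, Fin.cons_succ]
  constructor
  · rintro (h | h)
    · exact Or.inl h.symm
    · exact Or.inr h
  · rintro (h | h)
    · exact Or.inl h.symm
    · exact Or.inr h

theorem E6_us {n k : ℕ} (f : Finset (Cl (Fin n)) → ℝ) :
    ∑ L : Fin (k + 1) → Lt (Fin n), f (us L) =
      ∑ z : Fin k → Lt (Fin n), ∑ a : Lt (Fin n), f (insert (cu a) (us z)) := by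
  rw [E6_cons (fun L => f (us L)), Finset.sum_comm]
  exact Finset.sum_congr rfl fun z _ => Finset.sum_congr rfl fun a _ => by rw [E6_us_cons]

/-- sums of the probabilities -/
noncomputable def E6_SB {n : ℕ} (q : Cl (Fin n) → ℝ) (j : ℕ) : ℝ :=
  ∑ L : Fin j → Lt (Fin n), EE q (fun F => un (F ∪ us L))

theorem E6_SB1 {n : ℕ} (q : Cl (Fin n) → ℝ) (j : ℕ) : E6_SB q (j + 1) =
    ∑ z : Fin j → Lt (Fin n), ∑ b : Lt (Fin n), EE q (fun F => un (insert (cu b) (F ∪ us z))) := by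
  unfold E6_SB
  rw [E6_us (fun X => EE q (fun F => un (F ∪ X)))]
  exact Finset.sum_congr rfl fun z _ => Finset.sum_congr rfl fun b _ => by simp only [Finset.union_insert]

theorem E6_SB2 {n : ℕ} (q : Cl (Fin n) → ℝ) (j : ℕ) : E6_SB q (j + 2) =
    ∑ z : Fin j → Lt (Fin n), ∑ r : Lt (Fin n), ∑ b : Lt (Fin n),
      EE q (fun F => un (insert (cu b) (insert (cu r) (F ∪ us z)))) := by
  rw [E6_SB1, E6_us (fun X => ∑ b : Lt (Fin n), EE q (fun F => un (insert (cu b) (F ∪ X))))]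
  exact Finset.sum_congr rfl fun z _ => Finset.sum_congr rfl fun b _ => by simp only [Finset.union_insert]

theorem E6_ZB {n : ℕ} (hn : 1 ≤ n) (j : ℕ) (l x y : ℝ) :
    E6_SB (qs n l x y) j = (2 * (n : ℝ)) ^ j * ZB n j l x y := by
  unfold E6_SB ZB
  have h : (2 * (n : ℝ)) ^ j ≠ 0 := pow_ne_zero _ (by positivity)
  field_simp

theorem E6_av {n : ℕ} (q : Cl (Fin n) → ℝ) (X : Finset (Cl (Fin n)) → Finset (Cl (Fin n))) :
    EE q (fun F => av (X F)) = (∑ b : Lt (Fin n), EE q (fun F => un (insert (cu b) (X F)))) / (2 * n) := by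
  have h1 : (fun F => av (X F)) = fun F => (1 / (2 * (n : ℝ))) * ∑ b : Lt (Fin n), un (insert (cu b) (X F)) := by
    funext F
    unfold av
    ring
  rw [h1, EE_mul_left, EE_sum]
  ring

theorem E6_avsem {n : ℕ} : Sem (av : Finset (Cl (Fin n)) → ℝ) := by
  intro F F' h
  unfold av
  refine div_le_div_of_nonneg_right (Finset.sum_le_sum fun b _ => ?_) (by positivity)
  refine un_sem _ _ fun σ hσ c hc => ?_
  rcases Finset.mem_insert.1 hc with h1 | h1
  · exact hσ c (by rw [h1]; exact Finset.mem_insert_self _ _)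
  · exact h σ (fun c' hc' => hσ c' (Finset.mem_insert_of_mem hc')) c h1

theorem E6_avnn {n : ℕ} (F : Finset (Cl (Fin n))) : 0 ≤ av F := by
  unfold av
  exact div_nonneg (Finset.sum_nonneg fun b _ => un_nonneg _) (by positivity)

theorem E6_left {n : ℕ} (hn : 1 ≤ n) (q : Cl (Fin n) → ℝ) (g : Finset (Cl (Fin n)) → ℝ) :
    2 * (n : ℝ) * EE q (fun F => m2 F * g F) = ∑ a : Lt (Fin n), EE q (fun F => fr (le2 F) a * g F) := by
  rw [← EE_sum, ← EE_mul_left]
  congr 1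
  funext F
  unfold m2
  have h : (2 * (n : ℝ)) ≠ 0 := by positivity
  rw [← Finset.sum_mul]
  field_simp

/-- Averaged union bound.  Apply `union_bound` with `g = av` (`Sem`: an average of the functions
`F ↦ un (insert (cu b) F)`, which are `Sem`), `V = Fin n`, and average over `a`:
`RR = (1/(2n)) ∑ a, EE (fr (le2 F) a * av F)`.  Since `a`, the entries of `z`, `r` and the `b` of `av`
range over all literals and `ng` is a bijection of the literals,
`∑_a EE (av (insert (cu (ng a)) F)) = 2n * ZB n 2`,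
`∑_a ∑_z EE (av (F ∪ us (ng ∘ cons a z))) = (2n)^(k+1) * ZB n (k+2)`,
`∑_a ∑_z ∑_r EE (av (insert (cu r) (F ∪ ..))) = (2n)^(k+2) * ZB n (k+3)`.
With `u = l/(2n)`, `v = x/(4n)`: `2n * u = l`, `(2v)^(k+1) (2n)^(k+1) = x^(k+1)`. -/
theorem RR_le {n : ℕ} (hn : 1 ≤ n) {l x y : ℝ} (hl : 0 ≤ l) (hx : 0 ≤ x) (hy : 0 ≤ y) :
    2 * n * RR n l x y ≤ l * ZB n 2 l x y + ∑ k ∈ Finset.range n, x ^ (k + 1) *
      (((k : ℝ) + 1) * ZB n (k + 2) l x y + l * ZB n (k + 3) l x y) := by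
  have hn0 : (0 : ℝ) < n := by exact_mod_cast hn
  have hu : 0 ≤ l / (2 * (n : ℝ)) := by positivity
  have hv : 0 ≤ x / (4 * (n : ℝ)) := by positivity
  have hw : 0 ≤ y / (8 * (n : ℝ) ^ 2) := by positivity
  unfold RR
  rw [E6_left hn]
  have h1 := fun a : Lt (Fin n) => union_bound hu hv hw E6_avsem E6_avnn a
  refine (Finset.sum_le_sum fun a _ => h1 a).trans ?_
  have hq : qq (l / (2 * (n : ℝ))) (x / (4 * (n : ℝ))) (y / (8 * (n : ℝ) ^ 2)) = qs n l x y := rfl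
  rw [hq, Fintype.card_fin, Finset.sum_add_distrib]
  refine le_of_eq ?_
  have h2n : (2 * (n : ℝ)) ≠ 0 := by positivity
  congr 1
  · rw [← Finset.mul_sum]
    have e1 : ∑ a : Lt (Fin n), EE (qs n l x y) (fun F => av (insert (cu (ng a)) F)) =
        ∑ a : Lt (Fin n), EE (qs n l x y) (fun F => av (insert (cu a) F)) :=
      Fintype.sum_equiv (E6_ngE (Fin n)) _ _ (fun _ => rfl)
    rw [e1]
    simp only [E6_av]
    rw [← Finset.sum_div]
    have e2 := E6_SB2 (qs n l x y) 0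
    rw [Fintype.sum_unique] at e2
    have e3 : ∀ F : Finset (Cl (Fin n)), F ∪ us (default : Fin 0 → Lt (Fin n)) = F := by
      intro F
      simp [us]
    simp only [e3] at e2
    rw [← e2, E6_ZB hn]
    field_simp
    ring
  · rw [Finset.sum_comm]
    refine Finset.sum_congr rfl fun k _ => ?_
    rw [← Finset.mul_sum]
    simp only [Finset.sum_add_distrib, ← Finset.mul_sum]
    have e1 : ∑ a : Lt (Fin n), ∑ z : Fin k → Lt (Fin n), EE (qs n l x y)
        (fun F => av (F ∪ us (fun i => ng ((Fin.cons a z : Fin (k + 1) → Lt (Fin n)) i)))) =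
        (2 * (n : ℝ)) ^ (k + 1) * ZB n (k + 2) l x y := by
      rw [E6_ng (fun L => EE (qs n l x y) (fun F => av (F ∪ us L)))]
      simp only [E6_av]
      rw [← Finset.sum_div, ← E6_SB1, E6_ZB hn]
      have e5 : (2 * (n : ℝ)) ^ (k + 1 + 1) = (2 * (n : ℝ)) ^ (k + 1) * (2 * n) := pow_succ _ _
      rw [e5]
      field_simp
    have e2 : ∑ a : Lt (Fin n), ∑ z : Fin k → Lt (Fin n), ∑ r : Lt (Fin n), EE (qs n l x y)
        (fun F => av (insert (cu r) (F ∪ us (fun i => ng ((Fin.cons a z : Fin (k + 1) → Lt (Fin n)) i))))) =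
        (2 * (n : ℝ)) ^ (k + 2) * ZB n (k + 3) l x y := by
      rw [E6_ng (fun L => ∑ r : Lt (Fin n), EE (qs n l x y) (fun F => av (insert (cu r) (F ∪ us L))))]
      simp only [E6_av]
      simp only [← Finset.sum_div]
      rw [← E6_SB2, E6_ZB hn]
      have e5 : (2 * (n : ℝ)) ^ (k + 1 + 2) = (2 * (n : ℝ)) ^ (k + 2) * (2 * n) := pow_succ _ _
      rw [e5]
      field_simp
    rw [e1, e2]
    have e3 : 2 * (x / (4 * (n : ℝ))) = x / (2 * (n : ℝ)) := by
      field_simp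
      ring
    rw [e3, div_pow]
    field_simp
    ring

/-- The same with `g = 1` and `y = 0`: `TL n l x = (1/(2n)) ∑ a, EE (fr (le2 F) a)`. -/
theorem TL_le {n : ℕ} (hn : 1 ≤ n) {l x : ℝ} (hl : 0 ≤ l) (hx : 0 ≤ x) :
    2 * n * TL n l x ≤ l + ∑ k ∈ Finset.range n, x ^ (k + 1) * (((k : ℝ) + 1) + l) := by
  have hn0 : (0 : ℝ) < n := by exact_mod_cast hn
  have hu : 0 ≤ l / (2 * (n : ℝ)) := by positivity
  have hv : 0 ≤ x / (4 * (n : ℝ)) := by positivity
  have hw : 0 ≤ (0 : ℝ) / (8 * (n : ℝ) ^ 2) := by positivity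
  have h2n : (2 * (n : ℝ)) ≠ 0 := by positivity
  have hS : Sem (fun _ : Finset (Cl (Fin n)) => (1 : ℝ)) := fun _ _ _ => le_refl _
  have hm : (m2 : Finset (Cl (Fin n)) → ℝ) = fun F => m2 F * (fun _ : Finset (Cl (Fin n)) => (1 : ℝ)) F := by
    funext F
    simp
  rw [TL_eq n l x 0, hm, E6_left hn]
  have h1 := fun a : Lt (Fin n) => union_bound hu hv hw hS (fun _ => zero_le_one) a
  refine (Finset.sum_le_sum fun a _ => h1 a).trans ?_
  refine le_of_eq ?_
  simp only [EE_const, Fintype.card_fin, Finset.sum_const, Finset.card_univ, Fintype.card_prod,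
    Fintype.card_bool, Fintype.card_fun, nsmul_eq_mul, Nat.cast_mul, Nat.cast_pow, Nat.cast_ofNat, mul_one]
  rw [mul_add]
  congr 1
  · field_simp
  · rw [Finset.mul_sum]
    refine Finset.sum_congr rfl fun k _ => ?_
    have e3 : 2 * (x / (4 * (n : ℝ))) = x / (n * 2) := by
      field_simp
      ring
    rw [e3, div_pow]
    field_simp
    ring

end Pool.Agent.Lib.MP_9cae81_R
end

section

open Finset Filter MeasureTheory
open scoped BigOperators Topology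

namespace Pool.Agent.Lib.MP_9cae81_R

theorem E7_h1 {r : ℝ} (h0 : 0 < r) (h1 : r < 1) :
    HasSum (fun k : ℕ => ((k : ℝ) + 1) * r ^ (k + 1)) (r / (1 - r) ^ 2) := by
  have h := hasSum_coe_mul_geometric_of_norm_lt_one (r := r) (by
    rw [Real.norm_eq_abs, abs_of_pos h0]; exact h1)
  have h2 := (hasSum_nat_add_iff' (f := fun k : ℕ => (k : ℝ) * r ^ k) 1).2 h
  simpa using h2

theorem E7_h2 {r : ℝ} (h0 : 0 < r) (h1 : r < 1) :
    HasSum (fun k : ℕ => r ^ (k + 1)) (r / (1 - r)) := by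
  have h := (hasSum_geometric_of_lt_one h0.le h1).mul_left r
  simpa [pow_succ', div_eq_mul_inv] using h

theorem E7_S {r : ℝ} (h0 : 0 < r) (h1 : r < 1) {l : ℝ} (hl : 0 ≤ l) (n : ℕ) :
    l + ∑ k ∈ Finset.range n, r ^ (k + 1) * (((k : ℝ) + 1) + l) ≤ (1 / (1 - r) ^ 2) * (1 + l) := by
  have e : ∀ k : ℕ, r ^ (k + 1) * (((k : ℝ) + 1) + l) = ((k : ℝ) + 1) * r ^ (k + 1) + l * r ^ (k + 1) := by
    intro k
    ring
  simp only [e]
  have h3 := sum_le_hasSum (Finset.range n) (fun k _ => by positivity)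
    ((E7_h1 h0 h1).add ((E7_h2 h0 h1).mul_left l))
  have h4 : 0 < 1 - r := by linarith
  have h5 : l + (r / (1 - r) ^ 2 + l * (r / (1 - r))) ≤ (1 / (1 - r) ^ 2) * (1 + l) := by
    have e1 : l + (r / (1 - r) ^ 2 + l * (r / (1 - r))) = (l * (1 - r) + r) / (1 - r) ^ 2 := by
      field_simp
      ring
    have e2 : (1 / (1 - r) ^ 2) * (1 + l) = (1 + l) / (1 - r) ^ 2 := by
      ring
    rw [e1, e2]
    refine div_le_div_of_nonneg_right ?_ (by positivity)
    nlinarith [mul_nonneg hl h0.le]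
  linarith

/-- the tail -/
noncomputable def E7_t (r : ℝ) (K : ℕ) : ℝ :=
  if K < 3 then 1 else ∑' k : ℕ, (((k + (K - 2) : ℕ) : ℝ) + 1) * r ^ (k + (K - 2) + 1)

theorem E7_tend (r : ℝ) : Tendsto (E7_t r) atTop (𝓝 0) := by
  have h := tendsto_sum_nat_add (fun k : ℕ => ((k : ℝ) + 1) * r ^ (k + 1))
  have h2 : Tendsto (fun K : ℕ => K - 2) atTop atTop := tendsto_sub_atTop_nat 2
  refine (h.comp h2).congr' ?_
  filter_upwards [eventually_ge_atTop 3] with K hK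
  have : ¬ K < 3 := by omega
  simp [E7_t, this]

theorem E7_nn {r : ℝ} (h0 : 0 < r) (K : ℕ) : 0 ≤ E7_t r K := by
  unfold E7_t
  split_ifs
  · exact zero_le_one
  · exact tsum_nonneg fun k => by positivity

theorem E7_tail {r : ℝ} (h0 : 0 < r) (h1 : r < 1) {K : ℕ} (hK : ¬ K < 3) (n : ℕ) :
    ∑ k ∈ Finset.range n, (if K < k + 3 then ((k : ℝ) + 1) * r ^ (k + 1) else 0) ≤ E7_t r K := by
  have ha := (E7_h1 h0 h1).summable
  have hf0 : ∀ k : ℕ, 0 ≤ (if K < k + 3 then ((k : ℝ) + 1) * r ^ (k + 1) else 0) := by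
    intro k
    split_ifs
    · positivity
    · exact le_refl _
  have hf : Summable (fun k : ℕ => if K < k + 3 then ((k : ℝ) + 1) * r ^ (k + 1) else 0) := by
    refine Summable.of_nonneg_of_le hf0 (fun k => ?_) ha
    split_ifs
    · exact le_refl _
    · positivity
  refine (hf.sum_le_tsum _ (fun k _ => hf0 k)).trans ?_
  rw [← hf.sum_add_tsum_nat_add (K - 2)]
  have e1 : ∑ k ∈ Finset.range (K - 2), (if K < k + 3 then ((k : ℝ) + 1) * r ^ (k + 1) else 0) = 0 := by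
    refine Finset.sum_eq_zero fun k hk => ?_
    rw [Finset.mem_range] at hk
    rw [if_neg (by omega)]
  rw [e1, zero_add]
  unfold E7_t
  rw [if_neg hK]
  refine le_of_eq (tsum_congr fun k => ?_)
  rw [if_pos (by omega)]

theorem E7_B {n : ℕ} (hn : 1 ≤ n) (j : ℕ) {l x y : ℝ} (hl : 0 ≤ l) (hx : 0 ≤ x) (hy : 0 ≤ y) :
    0 ≤ ZB n j l x y ∧ ZB n j l x y ≤ 1 := by
  have h := ZB_mono hn (le_refl j) hl hx hy
  have h2 := ZZ_range hn hl hx hy
  exact ⟨h2.1.trans h.2.2.2, h.2.1⟩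

theorem E7_crude {xb : ℝ} (hxb : 0 < xb) (hxb1 : xb < 1) {n : ℕ} (hn : 1 ≤ n) {l x y : ℝ} (hl : 0 ≤ l)
    (hx : 0 ≤ x) (hxx : x ≤ xb) (hy : 0 ≤ y) :
    2 * n * RR n l x y ≤ (1 / (1 - xb) ^ 2) * (1 + l) := by
  refine (RR_le hn hl hx hy).trans (le_trans ?_ (E7_S hxb hxb1 hl n))
  refine add_le_add ?_ (Finset.sum_le_sum fun k _ => ?_)
  · exact mul_le_of_le_one_right hl (E7_B hn 2 hl hx hy).2
  · have b1 := E7_B hn (k + 2) hl hx hy
    have b2 := E7_B hn (k + 3) hl hx hy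
    have hk : (0 : ℝ) ≤ (k : ℝ) + 1 := by positivity
    refine mul_le_mul (pow_le_pow_left₀ hx hxx _) ?_ ?_ (by positivity)
    · exact add_le_add (mul_le_of_le_one_right hk b1.2) (mul_le_of_le_one_right hl b2.2)
    · exact add_nonneg (mul_nonneg hk b1.1) (mul_nonneg hl b2.1)

theorem E7_fine {xb : ℝ} (hxb : 0 < xb) (hxb1 : xb < 1) {n : ℕ} (hn : 1 ≤ n) {l x y : ℝ} (hl : 0 ≤ l)
    (hx : 0 ≤ x) (hxx : x ≤ xb) (hy : 0 ≤ y) {K : ℕ} (hK : ¬ K < 3) :
    2 * n * RR n l x y ≤ (1 / (1 - xb) ^ 2) * (1 + l) * ZB n K l x y + (1 + l) * E7_t xb K := by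
  have bK := E7_B hn K hl hx hy
  refine (RR_le hn hl hx hy).trans ?_
  have h1 := mul_le_mul_of_nonneg_right (E7_S hxb hxb1 hl n) bK.1
  have h2 := mul_le_mul_of_nonneg_left (E7_tail hxb hxb1 hK n) (by positivity : (0 : ℝ) ≤ 1 + l)
  refine le_trans ?_ (add_le_add h1 h2)
  rw [add_mul, add_assoc, Finset.sum_mul, Finset.mul_sum, ← Finset.sum_add_distrib]
  refine add_le_add ?_ (Finset.sum_le_sum fun k _ => ?_)
  · exact mul_le_mul_of_nonneg_left (ZB_mono hn (by omega) hl hx hy).1 hl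
  · have b1 := E7_B hn (k + 2) hl hx hy
    have b2 := E7_B hn (k + 3) hl hx hy
    have hk : (0 : ℝ) ≤ (k : ℝ) + 1 := by positivity
    have hk0 : (0 : ℝ) ≤ (k : ℝ) := by positivity
    have hp : x ^ (k + 1) ≤ xb ^ (k + 1) := pow_le_pow_left₀ hx hxx _
    have hp0 : 0 ≤ xb ^ (k + 1) := by positivity
    by_cases hc : K < k + 3
    · rw [if_pos hc]
      have h3 : x ^ (k + 1) * (((k : ℝ) + 1) * ZB n (k + 2) l x y + l * ZB n (k + 3) l x y) ≤
          xb ^ (k + 1) * (((k : ℝ) + 1) + l) := by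
        refine mul_le_mul hp ?_ ?_ hp0
        · exact add_le_add (mul_le_of_le_one_right hk b1.2) (mul_le_of_le_one_right hl b2.2)
        · exact add_nonneg (mul_nonneg hk b1.1) (mul_nonneg hl b2.1)
      have h4 : xb ^ (k + 1) * (((k : ℝ) + 1) + l) ≤ (1 + l) * (((k : ℝ) + 1) * xb ^ (k + 1)) := by
        have : ((k : ℝ) + 1) + l ≤ (1 + l) * ((k : ℝ) + 1) := by
          nlinarith [mul_nonneg hl hk0]
        calc xb ^ (k + 1) * (((k : ℝ) + 1) + l) ≤ xb ^ (k + 1) * ((1 + l) * ((k : ℝ) + 1)) :=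
              mul_le_mul_of_nonneg_left this hp0
          _ = _ := by ring
      have h5 : 0 ≤ xb ^ (k + 1) * (((k : ℝ) + 1) + l) * ZB n K l x y :=
        mul_nonneg (mul_nonneg hp0 (by positivity)) bK.1
      linarith
    · rw [if_neg hc, mul_zero, add_zero, mul_assoc]
      have c1 := (ZB_mono hn (by omega : k + 2 ≤ K) hl hx hy).1
      have c2 := (ZB_mono hn (by omega : k + 3 ≤ K) hl hx hy).1
      refine mul_le_mul hp ?_ ?_ hp0
      · rw [add_mul ((k : ℝ) + 1) l]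
        exact add_le_add (mul_le_mul_of_nonneg_left c1 hk) (mul_le_mul_of_nonneg_left c2 hl)
      · exact add_nonneg (mul_nonneg hk b1.1) (mul_nonneg hl b2.1)

/-- Truncated form of `RR_le`, uniform for `x ≤ xb < 1`.

Proof.  `∑_{k} (k+1) xb^(k+1) = xb/(1-xb)^2`, `∑_k xb^(k+1) = xb/(1-xb)`.  If all `ZB` are bounded by
`z` then `2 n RR ≤ z (l + l xb/(1-xb) + xb/(1-xb)^2) ≤ z (1+l)/(1-xb)^2`.  For `K ≥ 3` bound the terms
with `k + 3 ≤ K` (and `ZB n 2`) by `ZB n K` (`ZB_mono`) and the others by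
`∑_{k+3 > K} xb^(k+1) (k + 1 + l) ≤ (1 + l) t_K`, `t_K = ∑_{k + 3 > K} (k+1) xb^(k+1) → 0` (tail of a
convergent series).  So `δ K = t_K` for `K ≥ 3` (recall `1/(1-xb)^2 ≥ 1`) and `δ K = 1` for `K < 3`. -/
theorem RR_trunc {xb : ℝ} (hxb : 0 < xb) (hxb1 : xb < 1) :
    ∃ δ : ℕ → ℝ, Tendsto δ atTop (𝓝 0) ∧ (∀ K, 0 ≤ δ K) ∧
      (∀ (n : ℕ), 1 ≤ n → ∀ (l x y : ℝ), 0 ≤ l → 0 ≤ x → x ≤ xb → 0 ≤ y → ∀ K : ℕ,
        (n : ℝ) * RR n l x y ≤ (1 / (1 - xb) ^ 2) * (1 + l) * (ZB n K l x y + δ K)) ∧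
      (∀ (n : ℕ), 1 ≤ n → ∀ (l x y : ℝ), 0 ≤ l → 0 ≤ x → x ≤ xb → 0 ≤ y →
        (n : ℝ) * RR n l x y ≤ (1 / (1 - xb) ^ 2) * (1 + l)) ∧
      (∀ (n : ℕ), 1 ≤ n → ∀ (l x : ℝ), 0 ≤ l → 0 ≤ x → x ≤ xb →
        (n : ℝ) * TL n l x ≤ (1 / (1 - xb) ^ 2) * (1 + l)) := by
  have h4 : 0 < 1 - xb := by linarith
  have hC : 0 < 1 / (1 - xb) ^ 2 := by positivity
  have hC1 : 1 ≤ 1 / (1 - xb) ^ 2 := by
    rw [le_div_iff₀ (by positivity)]
    nlinarith
  have hcr : ∀ (n : ℕ), 1 ≤ n → ∀ (l x y : ℝ), 0 ≤ l → 0 ≤ x → x ≤ xb → 0 ≤ y →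
      (n : ℝ) * RR n l x y ≤ (1 / (1 - xb) ^ 2) * (1 + l) := by
    intro n hn l x y hl hx hxx hy
    have h := E7_crude hxb hxb1 hn hl hx hxx hy
    have h0 : 0 ≤ (1 / (1 - xb) ^ 2) * (1 + l) := by positivity
    linarith
  refine ⟨E7_t xb, E7_tend xb, E7_nn hxb, ?_, hcr, ?_⟩
  · intro n hn l x y hl hx hxx hy K
    have bK := E7_B hn K hl hx hy
    have h0 : 0 ≤ (1 / (1 - xb) ^ 2) * (1 + l) := by positivity
    by_cases hK : K < 3
    · have h := hcr n hn l x y hl hx hxx hy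
      have h5 : E7_t xb K = 1 := by
        unfold E7_t
        rw [if_pos hK]
      rw [h5, mul_add, mul_one]
      have := mul_nonneg h0 bK.1
      linarith
    · have h := E7_fine hxb hxb1 hn hl hx hxx hy hK
      have h6 : (1 + l) * E7_t xb K ≤ (1 / (1 - xb) ^ 2) * (1 + l) * E7_t xb K := by
        refine mul_le_mul_of_nonneg_right ?_ (E7_nn hxb K)
        exact le_mul_of_one_le_left (by positivity) hC1
      have h7 := mul_nonneg h0 bK.1
      have h8 := mul_nonneg h0 (E7_nn hxb K)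
      rw [mul_add]
      linarith
  · intro n hn l x hl hx hxx
    have h := TL_le hn hl hx
    have h5 : l + ∑ k ∈ Finset.range n, x ^ (k + 1) * (((k : ℝ) + 1) + l) ≤
        l + ∑ k ∈ Finset.range n, xb ^ (k + 1) * (((k : ℝ) + 1) + l) := by
      refine add_le_add (le_refl _) (Finset.sum_le_sum fun k _ => ?_)
      exact mul_le_mul_of_nonneg_right (pow_le_pow_left₀ hx hxx _) (by positivity)
    have h6 := E7_S hxb hxb1 hl n
    have h0 : 0 ≤ (1 / (1 - xb) ^ 2) * (1 + l) := by positivity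
    linarith

end Pool.Agent.Lib.MP_9cae81_R
end

section

open Finset Filter MeasureTheory
open scoped BigOperators Topology

namespace Pool.Agent.Lib.MP_9cae81_R

/-- Derivative of the 2-SAT probability in `x` at `l = 0`. -/
private lemma E8_dx {n : ℕ} (hn : 1 ≤ n) (s : ℝ) :
    HasDerivAt (fun t => TT n 0 t) (TX n 0 s) s := by
  have h := ZZ_line hn 0 0 0 0 1 0 s
  simp only [mul_zero, add_zero, mul_one, zero_add, zero_mul, one_mul] at h
  exact h

/-- Derivative of the 2-SAT probability in `l`. -/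
private lemma E8_dl {n : ℕ} (hn : 1 ≤ n) (x s : ℝ) :
    HasDerivAt (fun t => TT n t x) (TL n s x) s := by
  have h := ZZ_line hn 0 x 0 1 0 0 s
  simp only [mul_zero, add_zero, mul_one, zero_add, zero_mul, one_mul] at h
  exact h

private lemma E8_un_empty (n : ℕ) : un (∅ : Finset (Cl (Fin n))) = 0 := by
  unfold un
  rw [if_pos]
  exact ⟨fun _ => true, fun c hc => absurd hc (Finset.notMem_empty c)⟩

private lemma E8_zero (n : ℕ) : TT n 0 0 = 0 := by
  unfold TT ZZ EE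
  refine Finset.sum_eq_zero fun F _ => ?_
  by_cases hF : F = ∅
  · rw [hF, E8_un_empty, mul_zero]
  · obtain ⟨c, hc⟩ := Finset.nonempty_iff_ne_empty.2 hF
    have hq : qs n 0 0 0 c = 0 := by
      unfold qs
      rcases c with c | c | c <;> simp [qq]
    have hw : wt (qs n 0 0 0) F = 0 := by
      unfold wt
      refine Finset.prod_eq_zero (Finset.mem_univ c) ?_
      rw [if_pos hc, hq]
      simp
    rw [hw, zero_mul]

private lemma E8_cont (f : ℝ → ℝ → ℝ → ℝ)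
    (hf : Continuous (fun p : ℝ × ℝ × ℝ => f p.1 p.2.1 p.2.2)) :
    Continuous (fun x : ℝ => f 0 x 0) :=
  hf.comp (by fun_prop : Continuous (fun x : ℝ => ((0 : ℝ), x, (0 : ℝ))))

private lemma E8_ZZcont (n : ℕ) :
    Continuous (fun p : ℝ × ℝ × ℝ => ZZ n p.1 p.2.1 p.2.2) := by
  unfold ZZ
  exact EE_cont n un

private lemma E8_bound {xb : ℝ} (hxb : 0 < xb) (hxb1 : xb < 1) {δ : ℕ → ℝ} (hδ0 : ∀ K, 0 ≤ δ K)
    (hδ : ∀ (n : ℕ), 1 ≤ n → ∀ (l x y : ℝ), 0 ≤ l → 0 ≤ x → x ≤ xb → 0 ≤ y → ∀ K : ℕ,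
        (n : ℝ) * RR n l x y ≤ (1 / (1 - xb) ^ 2) * (1 + l) * (ZB n K l x y + δ K))
    {n : ℕ} (hn : 1 ≤ n) (K : ℕ) :
    TT n 0 xb ≤ Real.exp ((1 / (1 - xb) ^ 2) * xb) * ((1 / (1 - xb) ^ 2) *
      ((K : ℝ) * ((xb + 1) * ((n : ℝ) ^ (-(1 / 2) : ℝ))) + δ K * xb)) := by
  set C : ℝ := 1 / (1 - xb) ^ 2 with hC
  have hC0 : 0 < C := by
    have : 0 < (1 - xb) ^ 2 := by
      have : 0 < 1 - xb := by linarith
      positivity
    positivity
  set h : ℝ → ℝ := fun x => ZB n K 0 x 0 - ZZ n 0 x 0 with hh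
  have hcont : Continuous h := by
    exact (E8_cont (ZB n K) (ZB_cont n K)).sub (E8_cont (ZZ n) (E8_ZZcont n))
  have hh0 : ∀ x, 0 ≤ x → 0 ≤ h x := by
    intro x hx
    have := (ZB_mono hn (Nat.zero_le K) (le_refl (0 : ℝ)) hx (le_refl (0 : ℝ))).2.2.2
    simp only [hh]
    linarith
  have hcd : Continuous (fun x => h x + δ K) := hcont.add continuous_const
  set G : ℝ → ℝ := fun x => Real.exp (-(C * x)) * TT n 0 x - C * ∫ t in (0 : ℝ)..x, (h t + δ K)
    with hG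
  have hGd : ∀ x, HasDerivAt G (Real.exp (-(C * x)) * (-C) * TT n 0 x +
      Real.exp (-(C * x)) * TX n 0 x - C * (h x + δ K)) x := by
    intro x
    have h1 : HasDerivAt (fun t : ℝ => Real.exp (-(C * t))) (Real.exp (-(C * x)) * (-C)) x := by
      have h2 : HasDerivAt (fun t : ℝ => -(C * t)) (-C) x := by
        have h3 : HasDerivAt (fun t : ℝ => -(C * t)) _ x := ((hasDerivAt_id x).const_mul C).fun_neg
        refine h3.congr_deriv ?_
        rw [mul_one]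
      exact h2.exp
    have h4 : HasDerivAt (fun t : ℝ => ∫ s in (0 : ℝ)..t, (h s + δ K)) (h x + δ K) x :=
      (hcd.integral_hasStrictDerivAt 0 x).hasDerivAt
    exact (h1.mul (E8_dx hn x)).sub (h4.const_mul C)
  have hanti : AntitoneOn G (Set.Icc 0 xb) := by
    refine antitoneOn_of_deriv_nonpos (convex_Icc 0 xb)
      (fun x _ => (hGd x).continuousAt.continuousWithinAt)
      (fun x _ => (hGd x).differentiableAt.differentiableWithinAt) ?_
    intro x hx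
    rw [interior_Icc] at hx
    rw [(hGd x).deriv]
    have hx0 : 0 ≤ x := hx.1.le
    have hxx : x ≤ xb := hx.2.le
    have h1 : TX n 0 x ≤ C * (TT n 0 x + h x + δ K) := by
      have h2 := TX_le hn (le_refl (0 : ℝ)) hx0
      have h3 := hδ n hn 0 x 0 (le_refl _) hx0 hxx (le_refl _) K
      have h4 : ZB n K 0 x 0 = TT n 0 x + h x := by
        simp only [hh, TT]
        ring
      rw [add_zero, mul_one, h4] at h3
      linarith
    have h5 : Real.exp (-(C * x)) ≤ 1 := by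
      refine Real.exp_le_one_iff.2 ?_
      have := mul_nonneg hC0.le hx0
      linarith
    have h6 : 0 < Real.exp (-(C * x)) := Real.exp_pos _
    have h7 : 0 ≤ h x + δ K := add_nonneg (hh0 x hx0) (hδ0 K)
    have h8 : Real.exp (-(C * x)) * TX n 0 x ≤
        Real.exp (-(C * x)) * (C * (TT n 0 x + h x + δ K)) :=
      mul_le_mul_of_nonneg_left h1 h6.le
    have h9 : Real.exp (-(C * x)) * (C * (h x + δ K)) ≤ 1 * (C * (h x + δ K)) :=
      mul_le_mul_of_nonneg_right h5 (mul_nonneg hC0.le h7)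
    nlinarith
  have hG0 : G 0 = 0 := by
    simp only [hG, intervalIntegral.integral_same, mul_zero, E8_zero, sub_zero]
  have hle := hanti (Set.left_mem_Icc.2 hxb.le) (Set.right_mem_Icc.2 hxb.le) hxb.le
  rw [hG0] at hle
  have hint : ∫ t in (0 : ℝ)..xb, (h t + δ K) ≤
      (K : ℝ) * ((xb + 1) * ((n : ℝ) ^ (-(1 / 2) : ℝ))) + δ K * xb := by
    rw [intervalIntegral.integral_add (hcont.intervalIntegrable _ _)
      (continuous_const.intervalIntegrable _ _), intervalIntegral.integral_const]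
    have h1 := ZB_small_x hn K (le_refl (0 : ℝ)) hxb.le
    simp only [smul_eq_mul, sub_zero]
    have h2 : ∫ t in (0 : ℝ)..xb, h t ≤ (K : ℝ) * ((xb + 1) * ((n : ℝ) ^ (-(1 / 2) : ℝ))) := h1
    linarith
  have hexp : Real.exp (C * xb) * Real.exp (-(C * xb)) = 1 := by
    rw [← Real.exp_add]
    simp
  have hfin : Real.exp (-(C * xb)) * TT n 0 xb ≤
      C * ((K : ℝ) * ((xb + 1) * ((n : ℝ) ^ (-(1 / 2) : ℝ))) + δ K * xb) := by
    have h1 : Real.exp (-(C * xb)) * TT n 0 xb ≤ C * ∫ t in (0 : ℝ)..xb, (h t + δ K) := by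
      simp only [hG] at hle
      linarith
    exact h1.trans (mul_le_mul_of_nonneg_left hint hC0.le)
  calc TT n 0 xb = Real.exp (C * xb) * (Real.exp (-(C * xb)) * TT n 0 xb) := by
        rw [← mul_assoc, hexp, one_mul]
    _ ≤ _ := mul_le_mul_of_nonneg_left hfin (Real.exp_pos _).le

/-- Random 2-SAT of ratio below one is satisfiable with high probability.

Proof.  Let `C = 1/(1-xb)^2` and `T x = TT n 0 x`.  `T' = TX n 0 x ≤ n RR n 0 x 0
≤ C (ZB n K 0 x 0 + δ K) = C (T + (ZB n K 0 x 0 - ZZ n 0 x 0) + δ K)` for `x ∈ [0, xb]` (`ZZ_line`,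
`TX_le`, `RR_trunc`), `T 0 = 0` (no clause at all: with `l = x = y = 0` the weights are concentrated
on `∅`, `un ∅ = 0`).  So `(exp(-C x) T)' ≤ C ((ZB n K - ZZ) + δ K)` and, with `ZB_small_x`,
`T xb ≤ exp(C xb) * C * (K * ((xb + 1) * n^(-1/2)) + δ K * xb)`.  Let `n → ∞` for fixed `K`, then
`K → ∞`. -/
theorem T_zero {xb : ℝ} (hxb : 0 < xb) (hxb1 : xb < 1) :
    Tendsto (fun n : ℕ => TT n 0 xb) atTop (𝓝 0) := by
  obtain ⟨δ, hδt, hδ0, hδ, -, -⟩ := RR_trunc hxb hxb1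
  rw [Metric.tendsto_atTop]
  intro ε hε
  set C : ℝ := 1 / (1 - xb) ^ 2 with hC
  have hC0 : 0 < C := by
    have : 0 < (1 - xb) ^ 2 := by
      have : 0 < 1 - xb := by linarith
      positivity
    positivity
  have hK : ∃ K : ℕ, Real.exp (C * xb) * (C * (δ K * xb)) < ε / 2 := by
    have h1 : Tendsto (fun K => Real.exp (C * xb) * (C * (δ K * xb))) atTop
        (𝓝 (Real.exp (C * xb) * (C * (0 * xb)))) :=
      ((hδt.mul_const xb).const_mul C).const_mul _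
    rw [zero_mul, mul_zero, mul_zero] at h1
    exact (h1.eventually_lt_const (half_pos hε)).exists
  obtain ⟨K, hK⟩ := hK
  have hpow : Tendsto (fun n : ℕ => ((n : ℝ) ^ (-(1 / 2) : ℝ))) atTop (𝓝 0) :=
    (tendsto_rpow_neg_atTop (by norm_num : (0 : ℝ) < 1 / 2)).comp tendsto_natCast_atTop_atTop
  have hN : ∀ᶠ n : ℕ in atTop,
      Real.exp (C * xb) * (C * ((K : ℝ) * ((xb + 1) * ((n : ℝ) ^ (-(1 / 2) : ℝ))))) < ε / 2 := by
    have h1 : Tendsto (fun n : ℕ =>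
        Real.exp (C * xb) * (C * ((K : ℝ) * ((xb + 1) * ((n : ℝ) ^ (-(1 / 2) : ℝ)))))) atTop
        (𝓝 (Real.exp (C * xb) * (C * ((K : ℝ) * ((xb + 1) * 0))))) :=
      (((hpow.const_mul (xb + 1)).const_mul (K : ℝ)).const_mul C).const_mul _
    rw [mul_zero, mul_zero, mul_zero, mul_zero] at h1
    exact h1.eventually_lt_const (half_pos hε)
  obtain ⟨N, hN⟩ := Filter.eventually_atTop.1 hN
  refine ⟨max N 1, fun n hn => ?_⟩
  have hn1 : 1 ≤ n := le_trans (le_max_right _ _) hn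
  have hnN : N ≤ n := le_trans (le_max_left _ _) hn
  have hb := E8_bound hxb hxb1 hδ0 hδ hn1 K
  have hnn : 0 ≤ TT n 0 xb := (ZZ_range hn1 (le_refl (0 : ℝ)) hxb.le (le_refl (0 : ℝ))).1
  rw [Real.dist_eq, sub_zero, abs_of_nonneg hnn]
  have h2 := hN n hnN
  rw [← hC] at hb
  have h3 : Real.exp (C * xb) * (C * ((K : ℝ) * ((xb + 1) * ((n : ℝ) ^ (-(1 / 2) : ℝ))) +
      δ K * xb)) = Real.exp (C * xb) * (C * ((K : ℝ) * ((xb + 1) * ((n : ℝ) ^ (-(1 / 2) : ℝ))))) +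
      Real.exp (C * xb) * (C * (δ K * xb)) := by ring
  rw [h3] at hb
  linarith

/-- `TT n l x ≤ TT n 0 xb + C (1+l)^2 / n` for `x ≤ xb`, `C = 1/(1-xb)^2`: `ZZ_mono` in `x`, and
`TT n l x - TT n 0 x = ∫_0^l TL n s x ds ≤ ∫_0^l C (1+s)/n ds` (`ZZ_line`, `RR_trunc`). -/
theorem TT_le {xb : ℝ} (hxb : 0 < xb) (hxb1 : xb < 1) {n : ℕ} (hn : 1 ≤ n) {l x : ℝ} (hl : 0 ≤ l)
    (hx : 0 ≤ x) (hxx : x ≤ xb) :
    TT n l x ≤ TT n 0 xb + (1 / (1 - xb) ^ 2) * (1 + l) ^ 2 / n := by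
  obtain ⟨δ, -, -, -, -, hTL⟩ := RR_trunc hxb hxb1
  set C : ℝ := 1 / (1 - xb) ^ 2 with hC
  have hC0 : 0 < C := by
    have : 0 < (1 - xb) ^ 2 := by
      have : 0 < 1 - xb := by linarith
      positivity
    positivity
  have hn0 : (0 : ℝ) < (n : ℝ) := by exact_mod_cast hn
  set G : ℝ → ℝ := fun s => TT n s x - C * (1 + s) ^ 2 / n with hG
  have hGd : ∀ s, HasDerivAt G (TL n s x - C * (2 * (1 + s)) / n) s := by
    intro s
    have h1 : HasDerivAt (fun t : ℝ => C * (1 + t) ^ 2 / n) (C * (2 * (1 + s)) / n) s := by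
      have h2 : HasDerivAt (fun t : ℝ => 1 + t) 1 s := (hasDerivAt_id s).const_add 1
      have h3 : HasDerivAt (fun t : ℝ => (1 + t) ^ 2) (2 * (1 + s)) s := by
        have h4 : HasDerivAt (fun t : ℝ => (1 + t) ^ 2) _ s := h2.fun_pow 2
        refine h4.congr_deriv ?_
        norm_num
      exact (h3.const_mul C).div_const n
    exact (E8_dl hn x s).sub h1
  have hanti : AntitoneOn G (Set.Icc 0 l) := by
    refine antitoneOn_of_deriv_nonpos (convex_Icc 0 l)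
      (fun s _ => (hGd s).continuousAt.continuousWithinAt)
      (fun s _ => (hGd s).differentiableAt.differentiableWithinAt) ?_
    intro s hs
    rw [interior_Icc] at hs
    rw [(hGd s).deriv]
    have h1 := hTL n hn s x hs.1.le hx hxx
    have h2 : TL n s x ≤ C * (1 + s) / n := by
      rw [le_div_iff₀ hn0]
      linarith
    have h3 : C * (1 + s) / n ≤ C * (2 * (1 + s)) / n := by
      refine div_le_div_of_nonneg_right ?_ hn0.le
      have := mul_nonneg hC0.le (by linarith [hs.1] : (0 : ℝ) ≤ 1 + s)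
      linarith
    linarith
  have hle := hanti (Set.left_mem_Icc.2 hl) (Set.right_mem_Icc.2 hl) hl
  simp only [hG] at hle
  have hmono : TT n 0 x ≤ TT n 0 xb :=
    ZZ_mono hn (le_refl (0 : ℝ)) hx (le_refl (0 : ℝ)) (le_refl (0 : ℝ)) hxx (le_refl (0 : ℝ))
  have h5 : 0 ≤ C * (1 + 0) ^ 2 / (n : ℝ) := by positivity
  linarith

end Pool.Agent.Lib.MP_9cae81_R
end
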