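import Pool.Agent.Lib.MP_9cae81_R.Defs

section

open Finset Filter MeasureTheory
open scoped BigOperators Topology

namespace Pool.Agent.Lib.MP_9cae81_R

private theorem F1_ext {Y : ℝ} (hY : 0 ≤ Y) {f : ℝ → ℝ → ℝ} (hf : CR Y f) :
    ∃ g : ℝ → ℝ → ℝ, Continuous (fun p : ℝ × ℝ => g p.1 p.2) ∧
      ∀ x y, 0 ≤ x → x ≤ 1 → 0 ≤ y → y ≤ Y → f x y = g x y := by
  refine ⟨fun x y => f (max 0 (min x 1)) (max 0 (min y Y)), ?_, ?_⟩
  · have hc : Continuous (fun p : ℝ × ℝ => ((max 0 (min p.1 1), max 0 (min p.2 Y)) : ℝ × ℝ)) := by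
      fun_prop
    exact hf.comp_continuous hc fun p => by
      refine ⟨⟨le_max_left _ _, ?_⟩, ⟨le_max_left _ _, ?_⟩⟩
      · exact max_le zero_le_one (min_le_right _ _)
      · exact max_le hY (min_le_right _ _)
  · intro x y h1 h2 h3 h4
    show f x y = f (max 0 (min x 1)) (max 0 (min y Y))
    rw [min_eq_left h2, max_eq_right h1, min_eq_left h4, max_eq_right h3]

private theorem F1_congr1 {Y : ℝ} {f g : ℝ → ℝ → ℝ}
    (h : ∀ x y, 0 ≤ x → x ≤ 1 → 0 ≤ y → y ≤ Y → f x y = g x y) {y : ℝ} (h1 : 0 ≤ y) (h2 : y ≤ Y) :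
    ∫ x in (0 : ℝ)..1, f x y = ∫ x in (0 : ℝ)..1, g x y := by
  apply intervalIntegral.integral_congr
  intro x hx
  rw [Set.uIcc_of_le zero_le_one] at hx
  exact h x y hx.1 hx.2 h1 h2

private theorem F1_congr2 {Y : ℝ} (hY : 0 ≤ Y) {f g : ℝ → ℝ → ℝ}
    (h : ∀ x y, 0 ≤ x → x ≤ 1 → 0 ≤ y → y ≤ Y → f x y = g x y) {x : ℝ} (h1 : 0 ≤ x) (h2 : x ≤ 1) :
    ∫ y in (0 : ℝ)..Y, f x y = ∫ y in (0 : ℝ)..Y, g x y := by
  apply intervalIntegral.integral_congr
  intro y hy
  rw [Set.uIcc_of_le hY] at hy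
  exact h x y h1 h2 hy.1 hy.2

private theorem F1_cx {g : ℝ → ℝ → ℝ} (hg : Continuous (fun p : ℝ × ℝ => g p.1 p.2)) (y : ℝ) :
    Continuous fun x => g x y :=
  hg.comp (continuous_id.prodMk continuous_const)

private theorem F1_cy {g : ℝ → ℝ → ℝ} (hg : Continuous (fun p : ℝ × ℝ => g p.1 p.2)) (x : ℝ) :
    Continuous fun y => g x y :=
  hg.comp (continuous_const.prodMk continuous_id)

private theorem F1_ix {g : ℝ → ℝ → ℝ} (hg : Continuous (fun p : ℝ × ℝ => g p.1 p.2)) :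
    Continuous fun y => ∫ x in (0 : ℝ)..1, g x y := by
  apply intervalIntegral.continuous_parametric_intervalIntegral_of_continuous'
    (f := fun y x => g x y)
  exact hg.comp (continuous_snd.prodMk continuous_fst)

private theorem F1_iy {Y : ℝ} {g : ℝ → ℝ → ℝ} (hg : Continuous (fun p : ℝ × ℝ => g p.1 p.2)) :
    Continuous fun x => ∫ y in (0 : ℝ)..Y, g x y := by
  apply intervalIntegral.continuous_parametric_intervalIntegral_of_continuous'
    (f := fun x y => g x y)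
  exact hg

private theorem F1_I2congr {Y : ℝ} (hY : 0 ≤ Y) {f g : ℝ → ℝ → ℝ}
    (h : ∀ x y, 0 ≤ x → x ≤ 1 → 0 ≤ y → y ≤ Y → f x y = g x y) : I2 Y f = I2 Y g := by
  unfold I2
  apply intervalIntegral.integral_congr
  intro y hy
  rw [Set.uIcc_of_le hY] at hy
  exact F1_congr1 h hy.1 hy.2

/-- For continuous `f` on the rectangle all inner integrals are continuous in the outer variable
(`ContinuousOn.intervalIntegral...` / `continuousOn_integral...`; one may also extend `f` to a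
continuous function on the plane by composing with the projections onto `[0,1]` and `[0,Y]`,
`Set.projIcc`, and use `intervalIntegral.continuous_parametric_intervalIntegral_of_continuous'`). -/
theorem CR_inner {Y : ℝ} (hY : 0 ≤ Y) {f : ℝ → ℝ → ℝ} (hf : CR Y f) :
    ContinuousOn (fun y => ∫ x in (0 : ℝ)..1, f x y) (Set.Icc 0 Y) ∧
      ContinuousOn (fun x => ∫ y in (0 : ℝ)..Y, f x y) (Set.Icc 0 1) := by
  obtain ⟨g, hg, h⟩ := F1_ext hY hf
  constructor
  · exact (F1_ix hg).continuousOn.congr fun y hy => F1_congr1 h hy.1 hy.2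
  · exact (F1_iy hg).continuousOn.congr fun x hx => F1_congr2 hY h hx.1 hx.2

theorem I2_add {Y : ℝ} (hY : 0 ≤ Y) {f g : ℝ → ℝ → ℝ} (hf : CR Y f) (hg : CR Y g) :
    I2 Y (fun x y => f x y + g x y) = I2 Y f + I2 Y g := by
  obtain ⟨F, hF, h1⟩ := F1_ext hY hf
  obtain ⟨G, hG, h2⟩ := F1_ext hY hg
  rw [F1_I2congr hY h1, F1_I2congr hY h2,
    F1_I2congr (g := fun x y => F x y + G x y) hY (fun x y a b c d => by rw [h1 x y a b c d, h2 x y a b c d])]
  unfold I2
  rw [← intervalIntegral.integral_add ((F1_ix hF).intervalIntegrable _ _) ((F1_ix hG).intervalIntegrable _ _)]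
  congr 1
  ext y
  exact intervalIntegral.integral_add ((F1_cx hF y).intervalIntegrable _ _) ((F1_cx hG y).intervalIntegrable _ _)

theorem I2_sub {Y : ℝ} (hY : 0 ≤ Y) {f g : ℝ → ℝ → ℝ} (hf : CR Y f) (hg : CR Y g) :
    I2 Y (fun x y => f x y - g x y) = I2 Y f - I2 Y g := by
  obtain ⟨F, hF, h1⟩ := F1_ext hY hf
  obtain ⟨G, hG, h2⟩ := F1_ext hY hg
  rw [F1_I2congr hY h1, F1_I2congr hY h2,
    F1_I2congr (g := fun x y => F x y - G x y) hY (fun x y a b c d => by rw [h1 x y a b c d, h2 x y a b c d])]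
  unfold I2
  rw [← intervalIntegral.integral_sub ((F1_ix hF).intervalIntegrable _ _) ((F1_ix hG).intervalIntegrable _ _)]
  congr 1
  ext y
  exact intervalIntegral.integral_sub ((F1_cx hF y).intervalIntegrable _ _) ((F1_cx hG y).intervalIntegrable _ _)

theorem I2_const_mul {Y : ℝ} (c : ℝ) (f : ℝ → ℝ → ℝ) :
    I2 Y (fun x y => c * f x y) = c * I2 Y f := by
  unfold I2
  rw [← intervalIntegral.integral_const_mul]
  congr 1
  ext y
  exact intervalIntegral.integral_const_mul _ _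

theorem I2_mono {Y : ℝ} (hY : 0 ≤ Y) {f g : ℝ → ℝ → ℝ} (hf : CR Y f) (hg : CR Y g)
    (h : ∀ x y, 0 ≤ x → x ≤ 1 → 0 ≤ y → y ≤ Y → f x y ≤ g x y) : I2 Y f ≤ I2 Y g := by
  obtain ⟨F, hF, h1⟩ := F1_ext hY hf
  obtain ⟨G, hG, h2⟩ := F1_ext hY hg
  rw [F1_I2congr hY h1, F1_I2congr hY h2]
  unfold I2
  apply intervalIntegral.integral_mono_on hY ((F1_ix hF).intervalIntegrable _ _)
    ((F1_ix hG).intervalIntegrable _ _)
  intro y hy
  apply intervalIntegral.integral_mono_on zero_le_one ((F1_cx hF y).intervalIntegrable _ _)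
    ((F1_cx hG y).intervalIntegrable _ _)
  intro x hx
  rw [← h1 x y hx.1 hx.2 hy.1 hy.2, ← h2 x y hx.1 hx.2 hy.1 hy.2]
  exact h x y hx.1 hx.2 hy.1 hy.2

/-- `I2` depends only on the values on the rectangle. -/
theorem I2_congr {Y : ℝ} (hY : 0 ≤ Y) {f g : ℝ → ℝ → ℝ}
    (h : ∀ x y, 0 ≤ x → x ≤ 1 → 0 ≤ y → y ≤ Y → f x y = g x y) : I2 Y f = I2 Y g := by
  exact F1_I2congr hY h

/-- Fubini on the rectangle. -/
theorem I2_swap {Y : ℝ} (hY : 0 ≤ Y) {f : ℝ → ℝ → ℝ} (hf : CR Y f) :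
    I2 Y f = ∫ x in (0 : ℝ)..1, ∫ y in (0 : ℝ)..Y, f x y := by
  obtain ⟨F, hF, h1⟩ := F1_ext hY hf
  rw [F1_I2congr hY h1]
  have h2 : ∫ x in (0 : ℝ)..1, ∫ y in (0 : ℝ)..Y, f x y = ∫ x in (0 : ℝ)..1, ∫ y in (0 : ℝ)..Y, F x y := by
    apply intervalIntegral.integral_congr
    intro x hx
    rw [Set.uIcc_of_le zero_le_one] at hx
    exact F1_congr2 hY h1 hx.1 hx.2
  rw [h2]
  unfold I2
  symm
  apply MeasureTheory.intervalIntegral_intervalIntegral_swap
  have h3 : ContinuousOn (Function.uncurry F) (Set.uIcc (0 : ℝ) 1 ×ˢ Set.uIcc (0 : ℝ) Y) :=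
    (show Continuous (Function.uncurry F) from hF).continuousOn
  exact (h3.integrableOn_compact (isCompact_uIcc.prod isCompact_uIcc)).mono_set
    (Set.prod_mono Set.uIoc_subset_uIcc Set.uIoc_subset_uIcc)

/-- If `0 ≤ w ≤ M`, `w = 0` for `x > xb`, `h ≥ 0` has fibre integrals `≤ e` for `x ≤ xb`, then
`I2 (w h) ≤ M e`: swap, and bound the inner integral for each `x`. -/
theorem I2_fiber {Y : ℝ} (hY : 0 ≤ Y) {w h : ℝ → ℝ → ℝ} (hw : CR Y w) (hh : CR Y h) {M e xb : ℝ}
    (hM : 0 ≤ M) (he : 0 ≤ e)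
    (w0 : ∀ x y, 0 ≤ x → x ≤ 1 → 0 ≤ y → y ≤ Y → 0 ≤ w x y ∧ w x y ≤ M)
    (wout : ∀ x y, 0 ≤ x → x ≤ 1 → xb < x → 0 ≤ y → y ≤ Y → w x y = 0)
    (h0 : ∀ x y, 0 ≤ x → x ≤ 1 → x ≤ xb → 0 ≤ y → y ≤ Y → 0 ≤ h x y)
    (hint : ∀ x, 0 ≤ x → x ≤ 1 → x ≤ xb → ∫ y in (0 : ℝ)..Y, h x y ≤ e) :
    I2 Y (fun x y => w x y * h x y) ≤ M * e := by
  have hwh : CR Y (fun x y => w x y * h x y) := hw.mul hh
  rw [I2_swap hY hwh]
  have hc : ContinuousOn (fun x => ∫ y in (0 : ℝ)..Y, w x y * h x y) (Set.Icc 0 1) := (CR_inner hY hwh).2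
  have hM' : 0 ≤ M * e := mul_nonneg hM he
  have hsec : ∀ (k : ℝ → ℝ → ℝ), CR Y k → ∀ x, 0 ≤ x → x ≤ 1 → IntervalIntegrable (fun y => k x y) volume 0 Y := by
    intro k hk x h1 h2
    apply ContinuousOn.intervalIntegrable
    rw [Set.uIcc_of_le hY]
    have hk' : ContinuousOn (fun p : ℝ × ℝ => k p.1 p.2) (Set.Icc 0 1 ×ˢ Set.Icc 0 Y) := hk
    have hm : ContinuousOn (fun y : ℝ => ((x, y) : ℝ × ℝ)) (Set.Icc 0 Y) :=
      (continuous_const.prodMk continuous_id).continuousOn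
    exact hk'.comp hm (fun y hy => ⟨⟨h1, h2⟩, hy⟩)
  have hb : ∀ x ∈ Set.Icc (0 : ℝ) 1, ∫ y in (0 : ℝ)..Y, w x y * h x y ≤ M * e := by
    intro x hx
    by_cases hxb : x ≤ xb
    · calc ∫ y in (0 : ℝ)..Y, w x y * h x y ≤ ∫ y in (0 : ℝ)..Y, M * h x y := by
            apply intervalIntegral.integral_mono_on hY (hsec _ hwh x hx.1 hx.2)
              ((hsec _ hh x hx.1 hx.2).const_mul M)
            intro y hy
            exact mul_le_mul_of_nonneg_right (w0 x y hx.1 hx.2 hy.1 hy.2).2 (h0 x y hx.1 hx.2 hxb hy.1 hy.2)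
        _ = M * ∫ y in (0 : ℝ)..Y, h x y := intervalIntegral.integral_const_mul _ _
        _ ≤ M * e := mul_le_mul_of_nonneg_left (hint x hx.1 hx.2 hxb) hM
    · have h3 : ∫ y in (0 : ℝ)..Y, w x y * h x y = ∫ _y in (0 : ℝ)..Y, (0 : ℝ) := by
        apply intervalIntegral.integral_congr
        intro y hy
        rw [Set.uIcc_of_le hY] at hy
        show w x y * h x y = 0
        rw [wout x y hx.1 hx.2 (not_le.1 hxb) hy.1 hy.2, zero_mul]
      rw [h3, intervalIntegral.integral_zero]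
      exact hM'
  calc ∫ x in (0 : ℝ)..1, ∫ y in (0 : ℝ)..Y, w x y * h x y ≤ ∫ _x in (0 : ℝ)..1, M * e := by
        apply intervalIntegral.integral_mono_on zero_le_one
        · apply ContinuousOn.intervalIntegrable
          rw [Set.uIcc_of_le zero_le_one]
          exact hc
        · exact intervalIntegrable_const
        · exact hb
    _ = M * e := by simp

end Pool.Agent.Lib.MP_9cae81_R
end

section

open Finset Filter MeasureTheory
open scoped BigOperators Topology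

namespace Pool.Agent.Lib.MP_9cae81_R

private theorem F14_swap {f : ℝ → ℝ → ℝ} {a b : ℝ}
    (hf : Continuous fun p : ℝ × ℝ => f p.1 p.2) :
    ∫ y in (0 : ℝ)..a, ∫ r in (0 : ℝ)..b, f y r = ∫ r in (0 : ℝ)..b, ∫ y in (0 : ℝ)..a, f y r := by
  apply intervalIntegral_intervalIntegral_swap
  exact (hf.continuousOn.integrableOn_compact
    (isCompact_uIcc.prod isCompact_uIcc)).mono_set
      (Set.prod_mono Set.uIoc_subset_uIcc Set.uIoc_subset_uIcc)

private theorem F14_diff {xb Y C1 : ℝ} {ε : ℕ → ℝ} (D : CorData xb Y C1 ε) {n : ℕ} (hn : 1 ≤ n)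
    (x y s : ℝ) : D.Zt n s x y = D.Zt n 0 x y + ∫ r in (0 : ℝ)..s, D.Zl n r x y := by
  have hc : Continuous fun r : ℝ => D.Zl n r x y :=
    (D.cZl n).comp (continuous_id.prodMk (continuous_const.prodMk continuous_const))
  rw [intervalIntegral.integral_eq_sub_of_hasDerivAt (f := fun r => D.Zt n r x y)
    (fun r _ => D.dZl n r x y hn) (hc.intervalIntegrable _ _)]
  ring

private theorem F14_hcont {xb Y C1 : ℝ} {ε : ℕ → ℝ} (D : CorData xb Y C1 ε) (n : ℕ) (b : ℝ) :
    Continuous fun p : ℝ × ℝ => ∫ r in (0 : ℝ)..b, D.A n r p.1 p.2 := by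
  apply intervalIntegral.continuous_parametric_intervalIntegral_of_continuous'
    (f := fun (p : ℝ × ℝ) (r : ℝ) => D.A n r p.1 p.2)
  exact (D.cA n).comp (continuous_snd.prodMk
    ((continuous_fst.comp continuous_fst).prodMk (continuous_snd.comp continuous_fst)))

private theorem F14_up {xb Y C1 : ℝ} {ε : ℕ → ℝ} (D : CorData xb Y C1 ε) (hε0 : ∀ n, 0 ≤ ε n)
    {xa xc : ℝ} (w : Test xa xc Y) (hxc : xc < xb) (hY : 0 < Y)
    {M : ℝ} (hM : ∀ x y, 0 ≤ x → x ≤ 1 → 0 ≤ y → y ≤ Y → w.w x y ≤ M)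
    (hM0 : 0 ≤ M) {n : ℕ} (hn : 1 ≤ n) {l : ℝ} (hl : 0 ≤ l) (s : ℝ → ℝ) (hs : Continuous s)
    (hs0 : ∀ x, 0 ≤ x → x ≤ 1 → 0 ≤ s x ∧ s x ≤ l + 1) :
    I2 Y (fun x y => w.w x y * D.Zt n (s x) x y) ≤
      I2 Y (fun x y => w.w x y * D.Zt n 0 x y) + M * ((1 + l) * ε n) := by
  set h : ℝ → ℝ → ℝ := fun x y => ∫ r in (0 : ℝ)..(l + 1), D.A n r x y with hh
  have hhc : Continuous fun p : ℝ × ℝ => h p.1 p.2 := F14_hcont D n (l + 1)
  have hcw : CR Y w.w := w.cw.continuousOn
  have c0 : Continuous fun p : ℝ × ℝ => D.Zt n 0 p.1 p.2 :=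
    (D.cZt n).comp (continuous_const.prodMk continuous_id)
  have c1 : Continuous fun p : ℝ × ℝ => D.Zt n (s p.1) p.1 p.2 :=
    (D.cZt n).comp ((hs.comp continuous_fst).prodMk continuous_id)
  have cr0 : CR Y (fun x y => w.w x y * D.Zt n 0 x y) := (w.cw.mul c0).continuousOn
  have cr1 : CR Y (fun x y => w.w x y * D.Zt n (s x) x y) := (w.cw.mul c1).continuousOn
  have cr2 : CR Y (fun x y => w.w x y * h x y) := (w.cw.mul hhc).continuousOn
  have hAc : ∀ x y : ℝ, Continuous fun r : ℝ => D.A n r x y := fun x y =>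
    (D.cA n).comp (continuous_id.prodMk (continuous_const.prodMk continuous_const))
  have hRc : ∀ x y : ℝ, Continuous fun r : ℝ => D.R0 n r x y := fun x y =>
    (D.cR0 n).comp (continuous_id.prodMk (continuous_const.prodMk continuous_const))
  have hZc : ∀ x y : ℝ, Continuous fun r : ℝ => D.Zl n r x y := fun x y =>
    (D.cZl n).comp (continuous_id.prodMk (continuous_const.prodMk continuous_const))
  have step : I2 Y (fun x y => w.w x y * D.Zt n (s x) x y) ≤
      I2 Y (fun x y => w.w x y * D.Zt n 0 x y + w.w x y * h x y) := by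
    apply I2_mono hY.le cr1
    · exact ((w.cw.mul c0).add (w.cw.mul hhc)).continuousOn
    · intro x y hx0 hx1 hy0 hy1
      obtain ⟨s0, s1⟩ := hs0 x hx0 hx1
      rw [← mul_add]
      apply mul_le_mul_of_nonneg_left _ (w.nn x y)
      rw [F14_diff D hn x y (s x)]
      apply add_le_add_right
      calc ∫ r in (0 : ℝ)..s x, D.Zl n r x y ≤ ∫ r in (0 : ℝ)..s x, D.A n r x y := by
            apply intervalIntegral.integral_mono_on s0 ((hZc x y).intervalIntegrable _ _)
              ((hAc x y).intervalIntegrable _ _)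
            intro r hr
            rw [D.ZlA n r x y hn]
            have := D.R0nn n r x y hn hr.1 hx0 hy0
            linarith
        _ ≤ ∫ r in (0 : ℝ)..(l + 1), D.A n r x y := by
            rw [← intervalIntegral.integral_add_adjacent_intervals
              ((hAc x y).intervalIntegrable 0 (s x)) ((hAc x y).intervalIntegrable (s x) (l + 1))]
            have : 0 ≤ ∫ r in (s x)..(l + 1), D.A n r x y := by
              apply intervalIntegral.integral_nonneg s1
              intro r hr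
              exact D.Ann n r x y hn (s0.trans hr.1) hx0 hy0
            linarith
  have fib : I2 Y (fun x y => w.w x y * h x y) ≤ M * ((1 + l) * ε n) := by
    apply I2_fiber hY.le hcw hhc.continuousOn hM0 (xb := xb)
      (mul_nonneg (by linarith) (hε0 n))
    · intro x y hx0 hx1 hy0 hy1
      exact ⟨w.nn x y, hM x y hx0 hx1 hy0 hy1⟩
    · intro x y hx0 hx1 hxb hy0 hy1
      exact w.right x y hy0 (by linarith)
    · intro x y hx0 hx1 hxb hy0 hy1
      apply intervalIntegral.integral_nonneg (by linarith)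
      intro r hr
      exact D.Ann n r x y hn hr.1 hx0 hy0
    · intro x hx0 hx1 hxb
      have hsw : ∫ y in (0 : ℝ)..Y, h x y =
          ∫ r in (0 : ℝ)..(l + 1), ∫ y in (0 : ℝ)..Y, D.A n r x y := by
        rw [hh]
        apply F14_swap
        exact (D.cA n).comp (continuous_snd.prodMk
          (continuous_const.prodMk continuous_fst))
      rw [hsw]
      have hcont : Continuous fun r : ℝ => ∫ y in (0 : ℝ)..Y, D.A n r x y := by
        apply intervalIntegral.continuous_parametric_intervalIntegral_of_continuous'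
          (f := fun (r : ℝ) (y : ℝ) => D.A n r x y)
        exact (D.cA n).comp (continuous_fst.prodMk (continuous_const.prodMk continuous_snd))
      calc ∫ r in (0 : ℝ)..(l + 1), ∫ y in (0 : ℝ)..Y, D.A n r x y
          ≤ ∫ r in (0 : ℝ)..(l + 1), ε n := by
            apply intervalIntegral.integral_mono_on (by linarith)
              (hcont.intervalIntegrable _ _) (continuous_const.intervalIntegrable _ _)
            intro r hr
            exact D.Aint n r x hn hr.1 hx0 hxb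
        _ = (1 + l) * ε n := by
            rw [intervalIntegral.integral_const, smul_eq_mul]
            ring
  rw [I2_add hY.le cr0 cr2] at step
  linarith

/-- Comparison of `Zt (s)` and `Zt 0` under the integral.  Proof.  `Zt n s x y = Zt n 0 x y +
∫_0^s (A - R0) dr` (`dZl`, `ZlA`).  (i) `≤ Zt n 0 x y + ∫_0^{l+1} A n r x y dr` for
`s = l + x ≤ l + 1`, and by Fubini on `[0,Y] × [0,l+1]` and `Aint`
`∫_0^Y ∫_0^{l+1} A n r x y dr dy ≤ (l+1) ε n` for `x ≤ xb`; `I2_fiber`.  (ii)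
`Zt n (l+x) x y ≥ Zt n 0 x y - ∫_0^{l+1} R n r x y dr ≥ Zt n 0 x y - (l+1) C1 (2+l)/n` for
`x ≤ xb` (`crude`).  (iii) the same bound as in (i) at `s = l`. -/
theorem Zt_compare {xb Y C1 : ℝ} {ε : ℕ → ℝ} (D : CorData xb Y C1 ε) (hε0 : ∀ n, 0 ≤ ε n)
    {xa xc : ℝ} (w : Test xa xc Y) (hxa : 0 < xa) (hxc : xc < xb) (hxb : xb < 1) (hY : 0 < Y)
    (hC1 : 0 ≤ C1) {M : ℝ} (hM : ∀ x y, 0 ≤ x → x ≤ 1 → 0 ≤ y → y ≤ Y → w.w x y ≤ M)
    (hM0 : 0 ≤ M) {n : ℕ} (hn : 1 ≤ n) {l : ℝ} (hl : 0 ≤ l) :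
    I2 Y (fun x y => w.w x y * D.Zt n (l + x) x y) ≤
      I2 Y (fun x y => w.w x y * D.Zt n 0 x y) + M * ((1 + l) * ε n) ∧
    I2 Y (fun x y => w.w x y * D.Zt n 0 x y) ≤
      I2 Y (fun x y => w.w x y * D.Zt n (l + x) x y) + M * Y * (C1 * (2 + l) ^ 2 / n) ∧
    I2 Y (fun x y => w.w x y * D.Zt n l x y) ≤
      I2 Y (fun x y => w.w x y * D.Zt n 0 x y) + M * ((1 + l) * ε n) := by
  refine ⟨?_, ?_, ?_⟩
  · exact F14_up D hε0 w hxc hY hM hM0 hn hl (fun x => l + x) (by fun_prop)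
      (fun x h0 h1 => ⟨by linarith, by linarith⟩)
  · have hn0 : (0 : ℝ) < n := by exact_mod_cast hn
    set K : ℝ := C1 * (2 + l) ^ 2 / n with hK
    have hK0 : 0 ≤ K := by positivity
    have c0 : Continuous fun p : ℝ × ℝ => D.Zt n 0 p.1 p.2 :=
      (D.cZt n).comp (continuous_const.prodMk continuous_id)
    have c1 : Continuous fun p : ℝ × ℝ => D.Zt n (l + p.1) p.1 p.2 :=
      (D.cZt n).comp ((continuous_const.add continuous_fst).prodMk continuous_id)
    have cr0 : CR Y (fun x y => w.w x y * D.Zt n 0 x y) := (w.cw.mul c0).continuousOn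
    have cr1 : CR Y (fun x y => w.w x y * D.Zt n (l + x) x y) := (w.cw.mul c1).continuousOn
    have cr2 : CR Y (fun _ _ => M * K) := continuousOn_const
    have hRc : ∀ x y : ℝ, Continuous fun r : ℝ => D.R0 n r x y := fun x y =>
      (D.cR0 n).comp (continuous_id.prodMk (continuous_const.prodMk continuous_const))
    have hZc : ∀ x y : ℝ, Continuous fun r : ℝ => D.Zl n r x y := fun x y =>
      (D.cZl n).comp (continuous_id.prodMk (continuous_const.prodMk continuous_const))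
    have step : I2 Y (fun x y => w.w x y * D.Zt n 0 x y) ≤
        I2 Y (fun x y => w.w x y * D.Zt n (l + x) x y + M * K) := by
      apply I2_mono hY.le cr0
      · exact ((w.cw.mul c1).add continuous_const).continuousOn
      · intro x y hx0 hx1 hy0 hy1
        by_cases hxx : xc ≤ x
        · rw [w.right x y hy0 hxx]
          have : 0 ≤ M * K := mul_nonneg hM0 hK0
          linarith
        · have hxb' : x ≤ xb := by linarith
          have key : D.Zt n 0 x y ≤ D.Zt n (l + x) x y + K := by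
            rw [F14_diff D hn x y (l + x)]
            have h1 : ∫ r in (0 : ℝ)..(l + x), (-(C1 * (2 + l) / n)) ≤
                ∫ r in (0 : ℝ)..(l + x), D.Zl n r x y := by
              apply intervalIntegral.integral_mono_on (by linarith)
                (continuous_const.intervalIntegrable _ _) ((hZc x y).intervalIntegrable _ _)
              intro r hr
              rw [D.ZlA n r x y hn]
              have a1 := D.Ann n r x y hn hr.1 hx0 hy0
              have a2 := D.R0R n r x y hn hr.1 hx0 hy0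
              have a3 := D.crude n r x y hn hr.1 hx0 hxb' hy0
              have a4 : D.R n r x y ≤ C1 * (2 + l) / n := by
                rw [le_div_iff₀ hn0]
                have : C1 * (1 + r) ≤ C1 * (2 + l) :=
                  mul_le_mul_of_nonneg_left (by linarith [hr.2]) hC1
                linarith
              linarith
            rw [intervalIntegral.integral_const, smul_eq_mul] at h1
            have h2 : (l + x) * (C1 * (2 + l) / n) ≤ K := by
              rw [hK]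
              have : C1 * (2 + l) ^ 2 / n = (2 + l) * (C1 * (2 + l) / n) := by ring
              rw [this]
              apply mul_le_mul_of_nonneg_right (by linarith)
              positivity
            linarith
          have e1 : w.w x y * D.Zt n 0 x y ≤ w.w x y * (D.Zt n (l + x) x y + K) :=
            mul_le_mul_of_nonneg_left key (w.nn x y)
          have e2 : w.w x y * K ≤ M * K :=
            mul_le_mul_of_nonneg_right (hM x y hx0 hx1 hy0 hy1) hK0
          linarith [mul_add (w.w x y) (D.Zt n (l + x) x y) K]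
    rw [I2_add hY.le cr1 cr2] at step
    have e3 : I2 Y (fun _ _ => M * K) = M * Y * K := by
      unfold I2
      simp only [intervalIntegral.integral_const, smul_eq_mul]
      ring
    rw [e3] at step
    exact step
  · exact F14_up D hε0 w hxc hY hM hM0 hn hl (fun _ => l) continuous_const
      (fun x h0 h1 => ⟨hl, by linarith⟩)

end Pool.Agent.Lib.MP_9cae81_R
end

section

open Finset Filter MeasureTheory
open scoped BigOperators Topology

namespace Pool.Agent.Lib.MP_9cae81_R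

private theorem F2_int {μ : ℝ} (hμ : 0 < μ) (C : ℝ) :
    IntegrableOn (fun l : ℝ => C * (Real.exp (-(μ * l)) * (1 + l) ^ 3)) (Set.Ioi 0) := by
  refine Integrable.const_mul ?_ C
  have hh : 0 < μ / 2 := by positivity
  refine integrable_of_isBigO_exp_neg (a := 0) (b := μ / 2) hh ?_ ?_
  · exact Continuous.continuousOn (by fun_prop)
  · have h1 : (fun l : ℝ => (1 + l) ^ 3) =O[atTop] fun l => Real.exp (μ / 2 * (1 + l)) := by
      have h2 := (isLittleO_pow_exp_pos_mul_atTop 3 hh).isBigO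
      exact h2.comp_tendsto (tendsto_atTop_add_const_left atTop 1 tendsto_id)
    have h3 : (fun l : ℝ => Real.exp (-(μ * l)) * (1 + l) ^ 3) =O[atTop]
        fun l => Real.exp (-(μ * l)) * Real.exp (μ / 2 * (1 + l)) :=
      (Asymptotics.isBigO_refl _ _).mul h1
    refine h3.trans ?_
    refine Asymptotics.IsBigO.of_bound (Real.exp (μ / 2)) (Eventually.of_forall fun l => ?_)
    rw [← Real.exp_add, Real.norm_eq_abs, Real.norm_eq_abs, Real.abs_exp, Real.abs_exp,
      ← Real.exp_add]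
    exact Real.exp_le_exp.2 (le_of_eq (by ring))

private theorem F2_swap {b C μ : ℝ} (hb : 0 ≤ b) (hμ : 0 < μ) {G : ℝ → ℝ → ℝ}
    (cG : Continuous (Function.uncurry G)) (h : ∀ l t, 0 ≤ l → |G l t| ≤ C * (1 + l) ^ 3) :
    LL μ (fun l => ∫ t in (0 : ℝ)..b, G l t) = ∫ t in (0 : ℝ)..b, LL μ (fun l => G l t) := by
  unfold LL
  simp only [intervalIntegral.integral_of_le hb]
  have e1 : ∀ l : ℝ, Real.exp (-(μ * l)) * ∫ t in Set.Ioc 0 b, G l t =
      ∫ t in Set.Ioc 0 b, Real.exp (-(μ * l)) * G l t := fun l =>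
    (integral_const_mul _ _).symm
  simp only [e1]
  refine integral_integral_swap (f := fun l t => Real.exp (-(μ * l)) * G l t) ?_
  have hg : Integrable (fun _ : ℝ => (1 : ℝ)) (volume.restrict (Set.Ioc 0 b)) :=
    integrable_const 1
  have hp := (F2_int hμ C).mul_prod hg
  refine hp.mono' ?_ ?_
  · refine Continuous.aestronglyMeasurable ?_
    have c1 : Continuous fun p : ℝ × ℝ => Real.exp (-(μ * p.1)) := by fun_prop
    exact c1.mul cG
  · have hm : ∀ᵐ p : ℝ × ℝ ∂((volume.restrict (Set.Ioi 0)).prod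
        (volume.restrict (Set.Ioc 0 b))), p ∈ (Set.Ioi (0 : ℝ)) ×ˢ (Set.Ioc 0 b) := by
      rw [Measure.prod_restrict]
      exact ae_restrict_mem (measurableSet_Ioi.prod measurableSet_Ioc)
    filter_upwards [hm] with p hp
    have hl : 0 ≤ p.1 := le_of_lt hp.1
    have h1 := h p.1 p.2 hl
    rw [Function.uncurry_apply_pair, Real.norm_eq_abs, abs_mul, Real.abs_exp, mul_one]
    calc Real.exp (-(μ * p.1)) * |G p.1 p.2| ≤ Real.exp (-(μ * p.1)) * (C * (1 + p.1) ^ 3) :=
          mul_le_mul_of_nonneg_left h1 (Real.exp_pos _).le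
      _ = C * (Real.exp (-(μ * p.1)) * (1 + p.1) ^ 3) := by ring

/-- Exchange of the exponentially weighted integral over `l` with the double integral.

Proof.  On `l ≥ 0` and the rectangle `|exp(-μ l) Φ l x y| ≤ C exp(-μ l) (1+l)^3`, integrable in `l`
(`integrableOn_Ioi`, e.g. compare with `exp(-(μ/2) l)`; note `C ≥ 0` may be assumed since
`|Φ| ≥ 0`).  Measurability from continuity (`ContinuousOn.aestronglyMeasurable`).  Second claim:
dominated convergence (`MeasureTheory.continuousOn_of_dominated`).  Third: `l ↦ I2 Y (Φ l)` is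
continuous on `[0, ∞)` and bounded by `C Y (1+l)^3`.  Last: Fubini
(`MeasureTheory.integral_integral_swap`) twice, or once on the product of the measures. -/
theorem LL_swap {Y C μ : ℝ} (hY : 0 ≤ Y) (hμ : 0 < μ) {Φ : ℝ → ℝ → ℝ → ℝ}
    (hc : ContinuousOn (fun p : ℝ × ℝ × ℝ => Φ p.1 p.2.1 p.2.2)
      (Set.Ici 0 ×ˢ (Set.Icc 0 1 ×ˢ Set.Icc 0 Y)))
    (hb : ∀ l x y, 0 ≤ l → 0 ≤ x → x ≤ 1 → 0 ≤ y → y ≤ Y → |Φ l x y| ≤ C * (1 + l) ^ 3) :
    (∀ x y, 0 ≤ x → x ≤ 1 → 0 ≤ y → y ≤ Y →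
      IntegrableOn (fun l => Real.exp (-(μ * l)) * Φ l x y) (Set.Ioi 0)) ∧
    CR Y (fun x y => LL μ (fun l => Φ l x y)) ∧
    IntegrableOn (fun l => Real.exp (-(μ * l)) * I2 Y (Φ l)) (Set.Ioi 0) ∧
    LL μ (fun l => I2 Y (Φ l)) = I2 Y (fun x y => LL μ (fun l => Φ l x y)) := by
  let P1 : ℝ → ℝ := fun x => max 0 (min x 1)
  let PY : ℝ → ℝ := fun y => max 0 (min y Y)
  have cP1 : Continuous P1 := by fun_prop
  have cPY : Continuous PY := by fun_prop
  have mP1 : ∀ x, 0 ≤ P1 x ∧ P1 x ≤ 1 := fun x =>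
    ⟨le_max_left _ _, max_le zero_le_one (min_le_right _ _)⟩
  have mPY : ∀ y, 0 ≤ PY y ∧ PY y ≤ Y := fun y =>
    ⟨le_max_left _ _, max_le hY (min_le_right _ _)⟩
  have eP1 : ∀ x, 0 ≤ x → x ≤ 1 → P1 x = x := fun x h0 h1 => by
    show max 0 (min x 1) = x
    rw [min_eq_left h1, max_eq_right h0]
  have ePY : ∀ y, 0 ≤ y → y ≤ Y → PY y = y := fun y h0 h1 => by
    show max 0 (min y Y) = y
    rw [min_eq_left h1, max_eq_right h0]
  let Ψ : ℝ → ℝ → ℝ → ℝ := fun l x y => Φ (max l 0) (P1 x) (PY y)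
  have cΨ : Continuous fun p : ℝ × ℝ × ℝ => Ψ p.1 p.2.1 p.2.2 := by
    have h1 : Continuous fun p : ℝ × ℝ × ℝ => ((max p.1 0, P1 p.2.1, PY p.2.2) : ℝ × ℝ × ℝ) := by
      fun_prop
    have h2 : ∀ p : ℝ × ℝ × ℝ, ((max p.1 0, P1 p.2.1, PY p.2.2) : ℝ × ℝ × ℝ) ∈
        (Set.Ici (0 : ℝ) ×ˢ (Set.Icc (0 : ℝ) 1 ×ˢ Set.Icc 0 Y)) := fun p =>
      ⟨show (0 : ℝ) ≤ max p.1 0 from le_max_right _ _, ⟨(mP1 _).1, (mP1 _).2⟩,
        ⟨(mPY _).1, (mPY _).2⟩⟩
    exact hc.comp_continuous h1 h2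
  have eΨ : ∀ l x y, 0 ≤ l → 0 ≤ x → x ≤ 1 → 0 ≤ y → y ≤ Y → Ψ l x y = Φ l x y := by
    intro l x y hl hx hx1 hy hy1
    show Φ (max l 0) (P1 x) (PY y) = Φ l x y
    rw [max_eq_left hl, eP1 x hx hx1, ePY y hy hy1]
  have bΨ : ∀ l x y, 0 ≤ l → |Ψ l x y| ≤ C * (1 + l) ^ 3 := by
    intro l x y hl
    have h1 := hb (max l 0) (P1 x) (PY y) (le_max_right _ _) (mP1 x).1 (mP1 x).2 (mPY y).1
      (mPY y).2
    have h2 : max l 0 = l := max_eq_left hl
    rw [h2] at h1
    show |Φ (max l 0) (P1 x) (PY y)| ≤ C * (1 + l) ^ 3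
    rw [h2]
    exact h1
  have cexp : Continuous fun l : ℝ => Real.exp (-(μ * l)) := by fun_prop
  -- integrability in `l`
  have int1 : ∀ x y, IntegrableOn (fun l => Real.exp (-(μ * l)) * Ψ l x y) (Set.Ioi 0) := by
    intro x y
    refine (F2_int hμ C).mono' ?_ ?_
    · refine Continuous.aestronglyMeasurable ?_
      have h2 : Continuous fun l : ℝ => ((l, x, y) : ℝ × ℝ × ℝ) := by fun_prop
      exact cexp.mul (cΨ.comp h2)
    · filter_upwards [ae_restrict_mem measurableSet_Ioi] with l hl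
      rw [Real.norm_eq_abs, abs_mul, Real.abs_exp]
      calc Real.exp (-(μ * l)) * |Ψ l x y| ≤ Real.exp (-(μ * l)) * (C * (1 + l) ^ 3) :=
            mul_le_mul_of_nonneg_left (bΨ l x y (le_of_lt hl)) (Real.exp_pos _).le
        _ = C * (Real.exp (-(μ * l)) * (1 + l) ^ 3) := by ring
  have eLL : ∀ x y, 0 ≤ x → x ≤ 1 → 0 ≤ y → y ≤ Y →
      LL μ (fun l => Ψ l x y) = LL μ (fun l => Φ l x y) := by
    intro x y hx hx1 hy hy1
    unfold LL
    refine setIntegral_congr_fun measurableSet_Ioi fun l hl => ?_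
    show Real.exp (-(μ * l)) * Ψ l x y = Real.exp (-(μ * l)) * Φ l x y
    rw [eΨ l x y (le_of_lt hl) hx hx1 hy hy1]
  have cLL : Continuous fun p : ℝ × ℝ => LL μ (fun l => Ψ l p.1 p.2) := by
    unfold LL
    refine continuous_of_dominated (bound := fun l => C * (Real.exp (-(μ * l)) * (1 + l) ^ 3))
      ?_ ?_ (F2_int hμ C) ?_
    · intro p
      exact (int1 p.1 p.2).aestronglyMeasurable
    · intro p
      filter_upwards [ae_restrict_mem measurableSet_Ioi] with l hl
      rw [Real.norm_eq_abs, abs_mul, Real.abs_exp]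
      calc Real.exp (-(μ * l)) * |Ψ l p.1 p.2| ≤ Real.exp (-(μ * l)) * (C * (1 + l) ^ 3) :=
            mul_le_mul_of_nonneg_left (bΨ l _ _ (le_of_lt hl)) (Real.exp_pos _).le
        _ = C * (Real.exp (-(μ * l)) * (1 + l) ^ 3) := by ring
    · refine Eventually.of_forall fun l => ?_
      exact continuous_const.mul (cΨ.comp (continuous_const.prodMk continuous_id))
  -- the double integral
  have eI2 : ∀ l, 0 ≤ l → I2 Y (Φ l) = I2 Y (Ψ l) := by
    intro l hl
    exact I2_congr hY fun x y hx hx1 hy hy1 => (eΨ l x y hl hx hx1 hy hy1).symm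
  have cin : Continuous (Function.uncurry fun l y : ℝ => ∫ x in (0 : ℝ)..1, Ψ l x y) := by
    have h1 : Continuous (Function.uncurry fun (q : ℝ × ℝ) (x : ℝ) => Ψ q.1 x q.2) := by
      have h2 : Continuous fun z : (ℝ × ℝ) × ℝ => ((z.1.1, z.2, z.1.2) : ℝ × ℝ × ℝ) := by
        fun_prop
      exact cΨ.comp h2
    exact intervalIntegral.continuous_parametric_intervalIntegral_of_continuous' h1 0 1
  have bin : ∀ l y, 0 ≤ l → |∫ x in (0 : ℝ)..1, Ψ l x y| ≤ C * (1 + l) ^ 3 := by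
    intro l y hl
    have h1 := intervalIntegral.norm_integral_le_of_norm_le_const (a := 0) (b := 1)
      (f := fun x => Ψ l x y) (C := C * (1 + l) ^ 3) (fun x _ => by
        rw [Real.norm_eq_abs]; exact bΨ l x y hl)
    rw [Real.norm_eq_abs, sub_zero, abs_one, mul_one] at h1
    exact h1
  have cI2 : Continuous fun l => I2 Y (Ψ l) := by
    unfold I2
    exact intervalIntegral.continuous_parametric_intervalIntegral_of_continuous' cin 0 Y
  have bI2 : ∀ l, 0 ≤ l → |I2 Y (Ψ l)| ≤ C * (1 + l) ^ 3 * Y := by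
    intro l hl
    have h1 := intervalIntegral.norm_integral_le_of_norm_le_const (a := 0) (b := Y)
      (f := fun y => ∫ x in (0 : ℝ)..1, Ψ l x y) (C := C * (1 + l) ^ 3) (fun y _ => by
        rw [Real.norm_eq_abs]; exact bin l y hl)
    rw [Real.norm_eq_abs, sub_zero, abs_of_nonneg hY] at h1
    exact h1
  have int2 : IntegrableOn (fun l => Real.exp (-(μ * l)) * I2 Y (Ψ l)) (Set.Ioi 0) := by
    refine (F2_int hμ (C * Y)).mono' (cexp.mul cI2).aestronglyMeasurable ?_
    filter_upwards [ae_restrict_mem measurableSet_Ioi] with l hl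
    rw [Real.norm_eq_abs, abs_mul, Real.abs_exp]
    calc Real.exp (-(μ * l)) * |I2 Y (Ψ l)| ≤ Real.exp (-(μ * l)) * (C * (1 + l) ^ 3 * Y) :=
          mul_le_mul_of_nonneg_left (bI2 l (le_of_lt hl)) (Real.exp_pos _).le
      _ = C * Y * (Real.exp (-(μ * l)) * (1 + l) ^ 3) := by ring
  refine ⟨?_, ?_, ?_, ?_⟩
  · intro x y hx hx1 hy hy1
    refine (int1 x y).congr_fun (fun l hl => ?_) measurableSet_Ioi
    show Real.exp (-(μ * l)) * Ψ l x y = Real.exp (-(μ * l)) * Φ l x y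
    rw [eΨ l x y (le_of_lt hl) hx hx1 hy hy1]
  · unfold CR
    refine cLL.continuousOn.congr fun p hp => ?_
    exact (eLL p.1 p.2 hp.1.1 hp.1.2 hp.2.1 hp.2.2).symm
  · refine int2.congr_fun (fun l hl => ?_) measurableSet_Ioi
    show Real.exp (-(μ * l)) * I2 Y (Ψ l) = Real.exp (-(μ * l)) * I2 Y (Φ l)
    rw [eI2 l (le_of_lt hl)]
  · have s1 : LL μ (fun l => I2 Y (Φ l)) = LL μ (fun l => I2 Y (Ψ l)) := by
      unfold LL
      refine setIntegral_congr_fun measurableSet_Ioi fun l hl => ?_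
      show Real.exp (-(μ * l)) * I2 Y (Φ l) = Real.exp (-(μ * l)) * I2 Y (Ψ l)
      rw [eI2 l (le_of_lt hl)]
    have s2 : I2 Y (fun x y => LL μ (fun l => Φ l x y)) =
        I2 Y (fun x y => LL μ (fun l => Ψ l x y)) :=
      I2_congr hY fun x y hx hx1 hy hy1 => (eLL x y hx hx1 hy hy1).symm
    rw [s1, s2]
    have s3 := F2_swap (G := fun l y => ∫ x in (0 : ℝ)..1, Ψ l x y) hY hμ cin
      (fun l t hl => bin l t hl)
    have s4 : ∀ y, LL μ (fun l => ∫ x in (0 : ℝ)..1, Ψ l x y) =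
        ∫ x in (0 : ℝ)..1, LL μ (fun l => Ψ l x y) := by
      intro y
      refine F2_swap (G := fun l x => Ψ l x y) zero_le_one hμ ?_ (fun l t hl => bΨ l t y hl)
      have h2 : Continuous fun z : ℝ × ℝ => ((z.1, z.2, y) : ℝ × ℝ × ℝ) := by fun_prop
      exact cΨ.comp h2
    unfold I2
    rw [s3]
    exact intervalIntegral.integral_congr fun y _ => s4 y

end Pool.Agent.Lib.MP_9cae81_R
end

section

open Finset Filter MeasureTheory
open scoped BigOperators Topology

namespace Pool.Agent.Lib.MP_9cae81_R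

private theorem F3_base {μ : ℝ} (hμ : 0 < μ) :
    IntegrableOn (fun l : ℝ => Real.exp (-(μ * l))) (Set.Ioi 0) := by
  have h := exp_neg_integrableOn_Ioi (0 : ℝ) hμ
  refine h.congr_fun (fun l _ => ?_) measurableSet_Ioi
  show Real.exp (-μ * l) = Real.exp (-(μ * l))
  rw [neg_mul]

private theorem F3_int {μ C : ℝ} (hμ : 0 < μ) {h : ℝ → ℝ} (ch : Continuous h)
    (hb : ∀ l, 0 ≤ l → |h l| ≤ C) :
    IntegrableOn (fun l : ℝ => Real.exp (-(μ * l)) * h l) (Set.Ioi 0) := by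
  have h1 : IntegrableOn (fun l : ℝ => Real.exp (-(μ * l)) * C) (Set.Ioi 0) :=
    (F3_base hμ).mul_const C
  refine Integrable.mono' h1 (Continuous.aestronglyMeasurable (by fun_prop)) ?_
  refine (ae_restrict_iff' measurableSet_Ioi).2 (Filter.Eventually.of_forall fun l hl => ?_)
  rw [Real.norm_eq_abs, abs_mul, Real.abs_exp]
  exact mul_le_mul_of_nonneg_left (hb l (le_of_lt hl)) (Real.exp_pos _).le

private theorem F3_expT {μ : ℝ} (hμ : 0 < μ) :
    Tendsto (fun l : ℝ => Real.exp (-(μ * l))) atTop (𝓝 0) := by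
  refine Real.tendsto_exp_atBot.comp ?_
  refine tendsto_neg_atTop_atBot.comp ?_
  exact tendsto_id.const_mul_atTop hμ

private theorem F3_tend {μ C : ℝ} (hμ : 0 < μ) {h : ℝ → ℝ}
    (hb : ∀ l, 0 ≤ l → |h l| ≤ C) :
    Tendsto (fun l : ℝ => Real.exp (-(μ * l)) * h l) atTop (𝓝 0) := by
  have h1 : Tendsto (fun l : ℝ => Real.exp (-(μ * l)) * C) atTop (𝓝 0) := by
    have h2 := (F3_expT hμ).mul_const C
    rwa [zero_mul] at h2
  rw [tendsto_zero_iff_abs_tendsto_zero]
  refine tendsto_of_tendsto_of_tendsto_of_le_of_le' tendsto_const_nhds h1 ?_ ?_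
  · exact Filter.Eventually.of_forall fun l => abs_nonneg _
  · filter_upwards [eventually_ge_atTop 0] with l hl
    show |Real.exp (-(μ * l)) * h l| ≤ Real.exp (-(μ * l)) * C
    rw [abs_mul, Real.abs_exp]
    exact mul_le_mul_of_nonneg_left (hb l hl) (Real.exp_pos _).le

private theorem F3_parts {μ : ℝ} {G G' : ℝ → ℝ} (dG : ∀ l, 0 ≤ l → HasDerivAt G (G' l) l)
    (i1 : IntegrableOn (fun l : ℝ => Real.exp (-(μ * l)) * G l) (Set.Ioi 0))
    (i2 : IntegrableOn (fun l : ℝ => Real.exp (-(μ * l)) * G' l) (Set.Ioi 0))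
    (t : Tendsto (fun l : ℝ => Real.exp (-(μ * l)) * G l) atTop (𝓝 0)) :
    μ * LL μ G = G 0 + LL μ G' := by
  have h1 : ∀ l ∈ Set.Ici (0 : ℝ), HasDerivAt (fun l : ℝ => -(Real.exp (-(μ * l)) * G l))
      (μ * (Real.exp (-(μ * l)) * G l) - Real.exp (-(μ * l)) * G' l) l := by
    intro l hl
    have h2 : HasDerivAt (fun l : ℝ => Real.exp (-(μ * l))) (Real.exp (-(μ * l)) * (-(μ * 1))) l :=
      (((hasDerivAt_id l).const_mul μ).neg).exp
    have h3 := (h2.mul (dG l hl)).neg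
    refine h3.congr_deriv ?_
    ring
  have h2 := integral_Ioi_of_hasDerivAt_of_tendsto' h1
    (((i1.const_mul μ).sub i2)) (m := 0) (by
      have h3 := t.neg
      rwa [neg_zero] at h3)
  have h3 : ∫ l in Set.Ioi (0 : ℝ), (μ * (Real.exp (-(μ * l)) * G l) - Real.exp (-(μ * l)) * G' l) =
      μ * LL μ G - LL μ G' := by
    rw [integral_sub (i1.const_mul μ) i2, integral_const_mul]
    rfl
  rw [h3] at h2
  simp only [mul_zero, neg_zero, Real.exp_zero, one_mul] at h2
  linarith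

private theorem F3_cube {μ : ℝ} (hμ : 0 < μ) :
    ∃ C : ℝ, ∀ l : ℝ, 0 ≤ l → (1 + l) ^ 3 ≤ C * Real.exp (μ / 2 * l) := by
  set c : ℝ := min 1 (μ / 6) with hc
  have hc0 : 0 < c := lt_min one_pos (by positivity)
  refine ⟨(1 / c) ^ 3, fun l hl => ?_⟩
  have h1 : c * (1 + l) ≤ Real.exp (μ / 6 * l) := by
    have h2 := Real.add_one_le_exp (μ / 6 * l)
    have h3 : c ≤ 1 := min_le_left _ _
    have h4 : c ≤ μ / 6 := min_le_right _ _
    nlinarith
  have h2 : 1 + l ≤ 1 / c * Real.exp (μ / 6 * l) := by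
    rw [one_div, inv_mul_eq_div, le_div_iff₀ hc0]
    linarith
  calc (1 + l) ^ 3 ≤ (1 / c * Real.exp (μ / 6 * l)) ^ 3 := pow_le_pow_left₀ (by linarith) h2 3
    _ = (1 / c) ^ 3 * Real.exp (μ / 2 * l) := by
      rw [mul_pow, ← Real.exp_nat_mul]
      congr 2
      push_cast
      ring

private theorem F3_cubeI {μ : ℝ} (hμ : 0 < μ) :
    IntegrableOn (fun l : ℝ => Real.exp (-(μ * l)) * (1 + l) ^ 3) (Set.Ioi 0) := by
  obtain ⟨C, hC⟩ := F3_cube hμ
  have h1 : IntegrableOn (fun l : ℝ => Real.exp (-(μ / 2 * l)) * C) (Set.Ioi 0) :=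
    (F3_base (half_pos hμ)).mul_const C
  refine Integrable.mono' h1 (Continuous.aestronglyMeasurable (by fun_prop)) ?_
  refine (ae_restrict_iff' measurableSet_Ioi).2 (Filter.Eventually.of_forall fun l hl => ?_)
  have hl0 : (0 : ℝ) < l := hl
  have h2 : (0 : ℝ) ≤ (1 + l) ^ 3 := by positivity
  rw [Real.norm_eq_abs, abs_mul, Real.abs_exp, abs_of_nonneg h2]
  calc Real.exp (-(μ * l)) * (1 + l) ^ 3 ≤ Real.exp (-(μ * l)) * (C * Real.exp (μ / 2 * l)) :=
        mul_le_mul_of_nonneg_left (hC l hl0.le) (Real.exp_pos _).le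
    _ = Real.exp (-(μ / 2 * l)) * C := by
      have h3 : Real.exp (-(μ / 2 * l)) = Real.exp (-(μ * l)) * Real.exp (μ / 2 * l) := by
        rw [← Real.exp_add]
        congr 1
        ring
      rw [h3]
      ring

private theorem F3_linT {μ : ℝ} (hμ : 0 < μ) :
    Tendsto (fun l : ℝ => Real.exp (-(μ * l)) * (1 + l)) atTop (𝓝 0) := by
  obtain ⟨C, hC⟩ := F3_cube hμ
  have h1 : Tendsto (fun l : ℝ => Real.exp (-(μ / 2 * l)) * C) atTop (𝓝 0) := by
    have h2 := (F3_expT (half_pos hμ)).mul_const C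
    rwa [zero_mul] at h2
  refine tendsto_of_tendsto_of_tendsto_of_le_of_le' tendsto_const_nhds h1 ?_ ?_
  · filter_upwards [eventually_ge_atTop 0] with l hl
    positivity
  · filter_upwards [eventually_ge_atTop 0] with l hl
    have h3 : Real.exp (-(μ / 2 * l)) = Real.exp (-(μ * l)) * Real.exp (μ / 2 * l) := by
      rw [← Real.exp_add]
      congr 1
      ring
    have h4 : 1 + l ≤ (1 + l) ^ 3 := by nlinarith [sq_nonneg l, mul_nonneg hl hl]
    have h5 := hC l hl
    calc Real.exp (-(μ * l)) * (1 + l) ≤ Real.exp (-(μ * l)) * (C * Real.exp (μ / 2 * l)) :=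
          mul_le_mul_of_nonneg_left (h4.trans h5) (Real.exp_pos _).le
      _ = Real.exp (-(μ / 2 * l)) * C := by
        rw [h3]
        ring

private theorem F3_linI {μ : ℝ} (hμ : 0 < μ) :
    IntegrableOn (fun l : ℝ => Real.exp (-(μ * l)) * (1 + l)) (Set.Ioi 0) := by
  refine Integrable.mono' (F3_cubeI hμ) (Continuous.aestronglyMeasurable (by fun_prop)) ?_
  refine (ae_restrict_iff' measurableSet_Ioi).2 (Filter.Eventually.of_forall fun l hl => ?_)
  have hl0 : (0 : ℝ) < l := hl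
  have h4 : 1 + l ≤ (1 + l) ^ 3 := by nlinarith [sq_nonneg l, mul_pos hl0 hl0]
  rw [Real.norm_eq_abs, abs_mul, Real.abs_exp, abs_of_nonneg (by linarith)]
  exact mul_le_mul_of_nonneg_left h4 (Real.exp_pos _).le

/-- `μ ∫ exp(-μ l) dl = 1`, `μ ∫ exp(-μ l) (1 + l) dl = 1 + 1/μ`, and
`∫ exp(-μ l) (1 + l)^3 dl ≤ Cμ`. -/
theorem LL_moments {μ : ℝ} (hμ : 0 < μ) :
    μ * LL μ (fun _ => 1) = 1 ∧ μ * LL μ (fun l => 1 + l) = 1 + 1 / μ ∧
      IntegrableOn (fun l => Real.exp (-(μ * l)) * (1 + l) ^ 3) (Set.Ioi 0) ∧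
      0 ≤ LL μ (fun l => (1 + l) ^ 3) := by
  have i1 : IntegrableOn (fun l : ℝ => Real.exp (-(μ * l)) * (1 : ℝ)) (Set.Ioi 0) :=
    (F3_base hμ).mul_const 1
  have i0 : IntegrableOn (fun l : ℝ => Real.exp (-(μ * l)) * (0 : ℝ)) (Set.Ioi 0) :=
    (F3_base hμ).mul_const 0
  have h1 : μ * LL μ (fun _ => 1) = 1 := by
    have h2 := F3_parts (μ := μ) (G := fun _ => 1) (G' := fun _ => 0)
      (fun l _ => hasDerivAt_const l 1) i1 i0 (by
        have h3 := (F3_expT hμ).mul_const 1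
        rwa [zero_mul] at h3)
    have h3 : LL μ (fun _ => 0) = 0 := by
      unfold LL
      simp
    rw [h3, add_zero] at h2
    exact h2
  refine ⟨h1, ?_, F3_cubeI hμ, ?_⟩
  · have h2 := F3_parts (μ := μ) (G := fun l => 1 + l) (G' := fun _ => 1)
      (fun l _ => (hasDerivAt_id l).const_add 1) (F3_linI hμ) i1 (F3_linT hμ)
    rw [h2]
    have h3 : LL μ (fun _ => 1) = 1 / μ := by
      rw [eq_div_iff hμ.ne']
      linarith
    rw [h3]
    simp
  · unfold LL
    refine setIntegral_nonneg measurableSet_Ioi fun l hl => ?_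
    have hl0 : (0 : ℝ) < l := hl
    positivity

private theorem F3_shift (x : ℝ) (f : ℝ → ℝ) :
    ∫ l in Set.Ioi (0 : ℝ), f (l + x) = ∫ s in Set.Ioi x, f s := by
  rw [← integral_indicator measurableSet_Ioi, ← integral_indicator measurableSet_Ioi,
    ← integral_add_right_eq_self (fun s => (Set.Ioi x).indicator f s) x]
  congr 1
  funext l
  by_cases h : 0 < l
  · rw [Set.indicator_of_mem (Set.mem_Ioi.2 h), Set.indicator_of_mem (Set.mem_Ioi.2 (by linarith))]
  · rw [Set.indicator_of_notMem (fun h' => h (Set.mem_Ioi.1 h')),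
      Set.indicator_of_notMem (fun h' => h (by have := Set.mem_Ioi.1 h'; linarith))]

/-- **Shift lemma.**  Proof.  Integration by parts
(`MeasureTheory.integral_Ioi_mul_deriv_eq_deriv_mul` or the derivative of `exp(-μ l) g (l + x)`):
`μ ∫ exp(-μ l) g(l+x) dl = g x + ∫ exp(-μ l) g'(l+x) dl`, so the left side is
`g x + (1 + a μ) ∫ exp(-μ l) g'(l+x) dl = g x + (1 + a μ) exp(μ x) ∫_{s > x} exp(-μ s) g' s ds`
`≤ g 0 + ∫_0^x A s ds + (1 + a μ) exp(μ x) ∫_{s > x} exp(-μ s) A s ds` as `g' ≤ A`.  Since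
`1 ≤ exp(μ x) exp(-μ s) (1 + a μ)` for `s ≤ x`, this is at most
`g 0 + (1 + a μ) exp(μ x) ∫_{s > 0} exp(-μ s) A s ds ≤ g 0 + (1 + μ) LL μ A`. -/
theorem lam_shift {μ x a : ℝ} (hμ : 0 < μ) (hx : 0 ≤ x) (ha : 0 ≤ a)
    (hcond : Real.exp (μ * x) * (1 + a * μ) ≤ 1 + μ) {g g' A R : ℝ → ℝ} (cg' : Continuous g')
    (cA : Continuous A) (cR : Continuous R) (dg : ∀ l, HasDerivAt g (g' l) l)
    (hg' : ∀ l, g' l = A l - R l) (hA : ∀ l, 0 ≤ l → 0 ≤ A l ∧ A l ≤ 1)
    (hR : ∀ l, 0 ≤ l → 0 ≤ R l ∧ R l ≤ 1) (hgb : ∀ l, 0 ≤ l → 0 ≤ g l ∧ g l ≤ 1) :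
    μ * LL μ (fun l => g (l + x) + a * g' (l + x)) ≤ g 0 + (1 + μ) * LL μ A := by
  have cg : Continuous g := continuous_iff_continuousAt.2 fun l => (dg l).continuousAt
  have hb1 : ∀ l, 0 ≤ l → |g (l + x)| ≤ 1 := fun l hl => by
    have h1 := hgb (l + x) (by linarith)
    rw [abs_of_nonneg h1.1]
    exact h1.2
  have hb2 : ∀ l, 0 ≤ l → |g' (l + x)| ≤ 1 := fun l hl => by
    have h1 := hA (l + x) (by linarith)
    have h2 := hR (l + x) (by linarith)
    rw [hg', abs_le]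
    constructor <;> linarith [h1.1, h1.2, h2.1, h2.2]
  have hb3 : ∀ l, 0 ≤ l → |A (l + x)| ≤ 1 := fun l hl => by
    have h1 := hA (l + x) (by linarith)
    rw [abs_of_nonneg h1.1]
    exact h1.2
  have i1 := F3_int hμ (h := fun l => g (l + x)) (by fun_prop) hb1
  have i2 := F3_int hμ (h := fun l => g' (l + x)) (by fun_prop) hb2
  have i3 := F3_int hμ (h := fun l => A (l + x)) (by fun_prop) hb3
  have iA := F3_int hμ (h := A) cA (C := 1) (fun l hl => by
    have h1 := hA l hl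
    rw [abs_of_nonneg h1.1]
    exact h1.2)
  have hp := F3_parts (μ := μ) (G := fun l => g (l + x)) (G' := fun l => g' (l + x))
    (fun l _ => by
      have h1 := (dg (l + x)).comp l ((hasDerivAt_id l).add_const x)
      rw [mul_one] at h1
      exact h1) i1 i2 (F3_tend hμ hb1)
  have hsum : LL μ (fun l => g (l + x) + a * g' (l + x)) =
      LL μ (fun l => g (l + x)) + a * LL μ (fun l => g' (l + x)) := by
    unfold LL
    rw [← integral_const_mul, ← integral_add i1 (i2.const_mul a)]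
    refine integral_congr_ae (Filter.Eventually.of_forall fun l => ?_)
    show Real.exp (-(μ * l)) * (g (l + x) + a * g' (l + x)) =
      Real.exp (-(μ * l)) * g (l + x) + a * (Real.exp (-(μ * l)) * g' (l + x))
    ring
  have hle : LL μ (fun l => g' (l + x)) ≤ LL μ (fun l => A (l + x)) := by
    unfold LL
    refine setIntegral_mono_on i2 i3 measurableSet_Ioi fun l hl => ?_
    have hl0 : (0 : ℝ) < l := hl
    have h1 := hR (l + x) (by linarith)
    refine mul_le_mul_of_nonneg_left ?_ (Real.exp_pos _).le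
    show g' (l + x) ≤ A (l + x)
    rw [hg']
    linarith [h1.1]
  have hsh : LL μ (fun l => A (l + x)) =
      Real.exp (μ * x) * ∫ s in Set.Ioi x, Real.exp (-(μ * s)) * A s := by
    unfold LL
    rw [← F3_shift x (fun s => Real.exp (-(μ * s)) * A s), ← integral_const_mul]
    refine integral_congr_ae (Filter.Eventually.of_forall fun l => ?_)
    show Real.exp (-(μ * l)) * A (l + x) =
      Real.exp (μ * x) * (Real.exp (-(μ * (l + x))) * A (l + x))
    rw [← mul_assoc, ← Real.exp_add]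
    congr 2
    ring
  have hsplit : LL μ A = (∫ s in Set.Ioc 0 x, Real.exp (-(μ * s)) * A s) +
      ∫ s in Set.Ioi x, Real.exp (-(μ * s)) * A s := by
    unfold LL
    rw [← Set.Ioc_union_Ioi_eq_Ioi hx]
    refine setIntegral_union (Set.Ioc_disjoint_Ioi le_rfl) measurableSet_Ioi ?_ ?_
    · exact iA.mono_set fun s hs => hs.1
    · exact iA.mono_set fun s hs => lt_of_le_of_lt hx hs
  have hAI : IntervalIntegrable A volume 0 x := cA.intervalIntegrable 0 x
  have hgx : g x - g 0 ≤ (1 + a * μ) * (Real.exp (μ * x) * ∫ s in Set.Ioc 0 x, Real.exp (-(μ * s)) * A s) := by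
    have h1 : ∫ s in (0:ℝ)..x, g' s = g x - g 0 :=
      intervalIntegral.integral_eq_sub_of_hasDerivAt (fun s _ => dg s) (cg'.intervalIntegrable 0 x)
    rw [← h1, intervalIntegral.integral_of_le hx, ← integral_const_mul, ← integral_const_mul]
    refine setIntegral_mono_on ?_ ?_ measurableSet_Ioc fun s hs => ?_
    · exact (cg'.intervalIntegrable 0 x).1
    · have h2 : Continuous fun s => (1 + a * μ) * (Real.exp (μ * x) * (Real.exp (-(μ * s)) * A s)) := by
        fun_prop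
      exact (h2.intervalIntegrable 0 x).1
    · have h2 := hA s hs.1.le
      have h3 := hR s hs.1.le
      have h4 : g' s ≤ A s := by
        rw [hg']
        linarith [h3.1]
      have h5 : 1 ≤ (1 + a * μ) * (Real.exp (μ * x) * Real.exp (-(μ * s))) := by
        rw [← Real.exp_add]
        have h6 : 1 ≤ Real.exp (μ * x + -(μ * s)) := by
          refine Real.one_le_exp ?_
          nlinarith [mul_le_mul_of_nonneg_left hs.2 hμ.le]
        have h7 : 1 ≤ 1 + a * μ := by nlinarith [mul_nonneg ha hμ.le]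
        exact one_le_mul_of_one_le_of_one_le h7 h6
      calc g' s ≤ A s := h4
        _ = 1 * A s := (one_mul _).symm
        _ ≤ (1 + a * μ) * (Real.exp (μ * x) * Real.exp (-(μ * s))) * A s :=
          mul_le_mul_of_nonneg_right h5 h2.1
        _ = (1 + a * μ) * (Real.exp (μ * x) * (Real.exp (-(μ * s)) * A s)) := by ring
  have hLA : 0 ≤ LL μ A := by
    unfold LL
    refine setIntegral_nonneg measurableSet_Ioi fun l hl => ?_
    have hl0 : (0 : ℝ) < l := hl
    exact mul_nonneg (Real.exp_pos _).le (hA l hl0.le).1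
  have h0x : g (0 + x) = g x := by rw [zero_add]
  have haμ : 0 ≤ 1 + a * μ := by
    have := mul_nonneg ha hμ.le
    linarith
  rw [hsum, mul_add, hp]
  show g (0 + x) + LL μ (fun l => g' (l + x)) + μ * (a * LL μ (fun l => g' (l + x))) ≤ _
  rw [h0x]
  have e1 : (1 + a * μ) * LL μ (fun l => g' (l + x)) ≤ (1 + a * μ) * LL μ (fun l => A (l + x)) :=
    mul_le_mul_of_nonneg_left hle haμ
  have e2 : Real.exp (μ * x) * (1 + a * μ) * LL μ A ≤ (1 + μ) * LL μ A :=
    mul_le_mul_of_nonneg_right hcond hLA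
  rw [hsh] at e1
  rw [hsplit] at e2 ⊢
  nlinarith [e1, e2, hgx]

/-- The same integration by parts with `x = 0`, `a = 1`, as an equality. -/
theorem lam_plain {μ : ℝ} (hμ : 0 < μ) {g g' A R : ℝ → ℝ} (cg' : Continuous g')
    (cA : Continuous A) (cR : Continuous R) (dg : ∀ l, HasDerivAt g (g' l) l)
    (hg' : ∀ l, g' l = A l - R l) (hA : ∀ l, 0 ≤ l → 0 ≤ A l ∧ A l ≤ 1)
    (hR : ∀ l, 0 ≤ l → 0 ≤ R l ∧ R l ≤ 1) (hgb : ∀ l, 0 ≤ l → 0 ≤ g l ∧ g l ≤ 1) :
    μ * LL μ (fun l => g l + g' l) = g 0 + (1 + μ) * LL μ A - (1 + μ) * LL μ R := by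
  have cg : Continuous g := continuous_iff_continuousAt.2 fun l => (dg l).continuousAt
  have hb1 : ∀ l, 0 ≤ l → |g l| ≤ 1 := fun l hl => by
    have h1 := hgb l hl
    rw [abs_of_nonneg h1.1]
    exact h1.2
  have hb2 : ∀ l, 0 ≤ l → |g' l| ≤ 1 := fun l hl => by
    have h1 := hA l hl
    have h2 := hR l hl
    rw [hg', abs_le]
    constructor <;> linarith [h1.1, h1.2, h2.1, h2.2]
  have i1 := F3_int hμ cg hb1
  have i2 := F3_int hμ cg' hb2
  have iA := F3_int hμ (h := A) cA (C := 1) (fun l hl => by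
    have h1 := hA l hl
    rw [abs_of_nonneg h1.1]
    exact h1.2)
  have iR := F3_int hμ (h := R) cR (C := 1) (fun l hl => by
    have h1 := hR l hl
    rw [abs_of_nonneg h1.1]
    exact h1.2)
  have hp := F3_parts (μ := μ) (G := g) (G' := g') (fun l _ => dg l) i1 i2 (F3_tend hμ hb1)
  have hsum : LL μ (fun l => g l + g' l) = LL μ g + LL μ g' := by
    unfold LL
    rw [← integral_add i1 i2]
    refine integral_congr_ae (Filter.Eventually.of_forall fun l => ?_)
    show Real.exp (-(μ * l)) * (g l + g' l) =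
      Real.exp (-(μ * l)) * g l + Real.exp (-(μ * l)) * g' l
    ring
  have hd : LL μ g' = LL μ A - LL μ R := by
    unfold LL
    rw [← integral_sub iA iR]
    refine integral_congr_ae (Filter.Eventually.of_forall fun l => ?_)
    show Real.exp (-(μ * l)) * g' l =
      Real.exp (-(μ * l)) * A l - Real.exp (-(μ * l)) * R l
    rw [hg']
    ring
  rw [hsum, mul_add, hp, hd]
  ring

/-- Choice of `μ`: `μ = e/3` works: for `0 ≤ t ≤ 1`, `exp t ≤ 1 + t + t^2`, so
`exp(μ x) (1 + (1-x-e) μ) ≤ (1 + μ x + μ^2 x^2) (1 + (1-x-e) μ) ≤ 1 + μ (1 - e) + 2 μ^2 ≤ 1 + μ`. -/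
theorem mu_exists {e : ℝ} (he : 0 < e) (he1 : e ≤ 1) :
    ∃ μ : ℝ, 0 < μ ∧ μ ≤ 1 ∧ ∀ x : ℝ, 0 ≤ x → 0 ≤ 1 - x - e →
      Real.exp (μ * x) * (1 + (1 - x - e) * μ) ≤ 1 + μ := by
  refine ⟨e / 3, by positivity, by linarith, fun x hx hc => ?_⟩
  set μ : ℝ := e / 3 with hμ
  have hμ0 : 0 < μ := by positivity
  have hμ1 : μ ≤ 1 / 3 := by linarith
  have hx1 : x ≤ 1 := by linarith
  have ht0 : 0 ≤ μ * x := mul_nonneg hμ0.le hx
  have ht1 : μ * x ≤ 1 := by nlinarith
  have h1 : Real.exp (μ * x) ≤ 1 + μ * x + (μ * x) ^ 2 := by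
    have h2 := Real.abs_exp_sub_one_sub_id_le (x := μ * x) (by rw [abs_of_nonneg ht0]; exact ht1)
    have h3 := (abs_le.1 h2).2
    linarith
  have h4 : 0 ≤ (1 - x - e) * μ := mul_nonneg hc hμ0.le
  have h5 : Real.exp (μ * x) * (1 + (1 - x - e) * μ) ≤
      (1 + μ * x + (μ * x) ^ 2) * (1 + (1 - x - e) * μ) :=
    mul_le_mul_of_nonneg_right h1 (by linarith)
  refine h5.trans ?_
  have h6 : (1 + μ * x + (μ * x) ^ 2) * (1 + (1 - x - e) * μ) =
      1 + μ * (1 - e) + μ ^ 2 * (x * (1 - e)) + μ ^ 3 * (x ^ 2 * (1 - x - e)) := by ring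
  rw [h6]
  have h7 : x * (1 - e) ≤ 1 := by nlinarith
  have h8 : x ^ 2 * (1 - x - e) ≤ 1 := by
    have h9 : x ^ 2 ≤ 1 := by nlinarith
    nlinarith [sq_nonneg x]
  have h9 : μ ^ 2 * (x * (1 - e)) ≤ μ ^ 2 := by nlinarith [sq_nonneg μ]
  have h10 : μ ^ 3 * (x ^ 2 * (1 - x - e)) ≤ μ ^ 3 := by
    have : 0 ≤ μ ^ 3 := by positivity
    nlinarith
  have h11 : μ ^ 3 ≤ μ ^ 2 := by nlinarith [sq_nonneg μ]
  have h12 : e = 3 * μ := by
    rw [hμ]
    ring
  nlinarith [sq_nonneg μ]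

end Pool.Agent.Lib.MP_9cae81_R
end

section

open Finset Filter MeasureTheory
open scoped BigOperators Topology

namespace Pool.Agent.Lib.MP_9cae81_R

theorem ibp2 {Y : ℝ} (hY : 0 ≤ Y) {P Q G Px Qy Gx Gy : ℝ → ℝ → ℝ}
    (cP : Continuous fun p : ℝ × ℝ => P p.1 p.2) (cQ : Continuous fun p : ℝ × ℝ => Q p.1 p.2)
    (cG : Continuous fun p : ℝ × ℝ => G p.1 p.2) (cPx : Continuous fun p : ℝ × ℝ => Px p.1 p.2)
    (cQy : Continuous fun p : ℝ × ℝ => Qy p.1 p.2) (cGx : Continuous fun p : ℝ × ℝ => Gx p.1 p.2)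
    (cGy : Continuous fun p : ℝ × ℝ => Gy p.1 p.2)
    (dP : ∀ x y, HasDerivAt (fun s => P s y) (Px x y) x)
    (dQ : ∀ x y, HasDerivAt (fun s => Q x s) (Qy x y) y)
    (dGx : ∀ x y, HasDerivAt (fun s => G s y) (Gx x y) x)
    (dGy : ∀ x y, HasDerivAt (fun s => G x s) (Gy x y) y)
    (P0 : ∀ y, 0 ≤ y → y ≤ Y → P 0 y = 0) (P1 : ∀ y, 0 ≤ y → y ≤ Y → P 1 y = 0)
    (QY : ∀ x, 0 ≤ x → x ≤ 1 → Q x Y = 0) (QG : ∀ x, 0 ≤ x → x ≤ 1 → Q x 0 * G x 0 = 0) :
    I2 Y (fun x y => P x y * Gx x y + Q x y * Gy x y) =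
      -I2 Y (fun x y => (Px x y + Qy x y) * G x y) := by
  have cont1 : ∀ {f : ℝ → ℝ → ℝ}, (Continuous fun p : ℝ × ℝ => f p.1 p.2) → ∀ y,
      Continuous fun x => f x y := fun hf y => hf.comp (by fun_prop : Continuous fun x : ℝ => (x, y))
  have cont2 : ∀ {f : ℝ → ℝ → ℝ}, (Continuous fun p : ℝ × ℝ => f p.1 p.2) → ∀ x,
      Continuous fun y => f x y := fun hf x => hf.comp (by fun_prop : Continuous fun y : ℝ => (x, y))
  have r1 : CR Y (fun x y => P x y * Gx x y) := (cP.mul cGx).continuousOn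
  have r2 : CR Y (fun x y => Q x y * Gy x y) := (cQ.mul cGy).continuousOn
  have r3 : CR Y (fun x y => Px x y * G x y) := (cPx.mul cG).continuousOn
  have r4 : CR Y (fun x y => Qy x y * G x y) := (cQy.mul cG).continuousOn
  have e1 : I2 Y (fun x y => P x y * Gx x y) = -I2 Y (fun x y => Px x y * G x y) := by
    unfold I2
    rw [← intervalIntegral.integral_neg]
    refine intervalIntegral.integral_congr fun y hy => ?_
    rw [Set.uIcc_of_le hY] at hy
    have := intervalIntegral.integral_mul_deriv_eq_deriv_mul (a := (0 : ℝ)) (b := 1)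
      (u := fun x => P x y) (v := fun x => G x y) (u' := fun x => Px x y) (v' := fun x => Gx x y)
      (fun x _ => dP x y) (fun x _ => dGx x y)
      ((cont1 cPx y).intervalIntegrable _ _) ((cont1 cGx y).intervalIntegrable _ _)
    beta_reduce at this ⊢
    rw [this, P0 y hy.1 hy.2, P1 y hy.1 hy.2]
    ring
  have e2 : I2 Y (fun x y => Q x y * Gy x y) = -I2 Y (fun x y => Qy x y * G x y) := by
    rw [I2_swap hY r2, I2_swap hY r4, ← intervalIntegral.integral_neg]
    refine intervalIntegral.integral_congr fun x hx => ?_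
    rw [Set.uIcc_of_le zero_le_one] at hx
    have := intervalIntegral.integral_mul_deriv_eq_deriv_mul (a := (0 : ℝ)) (b := Y)
      (u := fun y => Q x y) (v := fun y => G x y) (u' := fun y => Qy x y) (v' := fun y => Gy x y)
      (fun y _ => dQ x y) (fun y _ => dGy x y)
      ((cont2 cQy x).intervalIntegrable _ _) ((cont2 cGy x).intervalIntegrable _ _)
    beta_reduce at this ⊢
    rw [this, QY x hx.1 hx.2, QG x hx.1 hx.2]
    ring
  rw [I2_add hY r1 r2, e1, e2]
  have e3 : I2 Y (fun x y => (Px x y + Qy x y) * G x y) =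
      I2 Y (fun x y => Px x y * G x y) + I2 Y (fun x y => Qy x y * G x y) := by
    rw [← I2_add hY r3 r4]
    refine I2_congr hY fun x y _ _ _ _ => ?_
    ring
  rw [e3]
  ring

end Pool.Agent.Lib.MP_9cae81_R
end
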