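import Pool.Agent.Lib.MP_9cae81_R.Defs
import Pool.Agent.Lib.MP_9cae81_R.Mg.G003

section

open Finset Filter MeasureTheory
open scoped BigOperators Topology

namespace Pool.Agent.Lib.MP_9cae81_R

private theorem F16_LLmono {μ : ℝ} {f g : ℝ → ℝ}
    (hf : IntegrableOn (fun l => Real.exp (-(μ * l)) * f l) (Set.Ioi 0))
    (hg : IntegrableOn (fun l => Real.exp (-(μ * l)) * g l) (Set.Ioi 0))
    (h : ∀ l, 0 < l → f l ≤ g l) : LL μ f ≤ LL μ g := by
  unfold LL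
  refine setIntegral_mono_on hf hg measurableSet_Ioi fun l hl => ?_
  exact mul_le_mul_of_nonneg_left (h l hl) (Real.exp_pos _).le

private theorem F16_LLmul (μ c : ℝ) (f : ℝ → ℝ) : LL μ (fun l => c * f l) = c * LL μ f := by
  unfold LL
  rw [← integral_const_mul]
  congr 1
  funext l
  ring

private theorem F16_LLadd {μ : ℝ} {f g : ℝ → ℝ}
    (hf : IntegrableOn (fun l => Real.exp (-(μ * l)) * f l) (Set.Ioi 0))
    (hg : IntegrableOn (fun l => Real.exp (-(μ * l)) * g l) (Set.Ioi 0)) :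
    LL μ (fun l => f l + g l) = LL μ f + LL μ g := by
  unfold LL
  rw [← integral_add hf hg]
  congr 1
  funext l
  ring

private theorem F16_LLnn {μ : ℝ} {f : ℝ → ℝ} (h : ∀ l, 0 < l → 0 ≤ f l) : 0 ≤ LL μ f := by
  unfold LL
  exact setIntegral_nonneg measurableSet_Ioi fun l hl => mul_nonneg (Real.exp_pos _).le (h l hl)

private theorem F16_M {xa xc Y : ℝ} (w : Test xa xc Y) :
    ∃ M : ℝ, 0 ≤ M ∧ ∀ x y, 0 ≤ x → x ≤ 1 → 0 ≤ y → y ≤ Y → |w.w x y| ≤ M := by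
  have hK : IsCompact (Set.Icc (0 : ℝ) 1 ×ˢ Set.Icc (0 : ℝ) Y) := isCompact_Icc.prod isCompact_Icc
  obtain ⟨M, hM⟩ := hK.exists_bound_of_continuousOn (f := fun p : ℝ × ℝ => w.w p.1 p.2)
    w.cw.continuousOn
  refine ⟨max M 0, le_max_right _ _, fun x y h1 h2 h3 h4 => ?_⟩
  have := hM (x, y) ⟨⟨h1, h2⟩, ⟨h3, h4⟩⟩
  exact le_trans this (le_max_left _ _)

private theorem F16_one {C l : ℝ} (hC : 0 ≤ C) (hl : 0 ≤ l) : C ≤ C * (1 + l) ^ 3 := by
  have h1 : (1 : ℝ) ≤ (1 + l) ^ 3 := one_le_pow₀ (by linarith)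
  nlinarith

private theorem F16_Zl {xb Y C1 : ℝ} {ε : ℕ → ℝ} (D : CorData xb Y C1 ε) {n : ℕ} (hn : 1 ≤ n)
    {l x y : ℝ} (hl : 0 ≤ l) (hx : 0 ≤ x) (hy : 0 ≤ y) :
    |D.Zl n l x y| ≤ 1 ∧ |D.Zt n l x y| ≤ 1 := by
  have h1 := D.ZlA n l x y hn
  have h2 := D.Ann n l x y hn hl hx hy
  have h3 := D.Ale n l x y hn hl hx hy
  have h4 := D.R0nn n l x y hn hl hx hy
  have h5 := D.R0R n l x y hn hl hx hy
  have h6 := D.Rle n l x y hn hl hx hy
  have h7 := D.Znn n l x y hn hl hx hy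
  have h8 := D.Zle n l x y hn hl hx hy
  exact ⟨abs_le.2 ⟨by rw [h1]; linarith, by rw [h1]; linarith⟩, abs_le.2 ⟨by linarith, h8⟩⟩

private theorem F16_CRA {xb Y C1 : ℝ} {ε : ℕ → ℝ} (D : CorData xb Y C1 ε) (hY : 0 ≤ Y) {μ : ℝ}
    (hμ : 0 < μ) {n : ℕ} (hn : 1 ≤ n) :
    CR Y (fun x y => LL μ (fun l => D.A n l x y)) ∧
      CR Y (fun x y => LL μ (fun l => D.R0 n l x y)) := by
  constructor
  · refine (LL_swap (Y := Y) (C := 1) (Φ := fun l x y => D.A n l x y) hY hμ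
      (D.cA n).continuousOn ?_).2.1
    intro l x y hl hx _ hy _
    rw [abs_of_nonneg (D.Ann n l x y hn hl hx hy)]
    exact (D.Ale n l x y hn hl hx hy).trans (F16_one zero_le_one hl)
  · refine (LL_swap (Y := Y) (C := 1) (Φ := fun l x y => D.R0 n l x y) hY hμ
      (D.cR0 n).continuousOn ?_).2.1
    intro l x y hl hx _ hy _
    rw [abs_of_nonneg (D.R0nn n l x y hn hl hx hy)]
    exact ((D.R0R n l x y hn hl hx hy).trans (D.Rle n l x y hn hl hx hy)).trans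
      (F16_one zero_le_one hl)

private theorem F16_CRmul {Y : ℝ} {f g : ℝ → ℝ → ℝ} (hf : CR Y f) (hg : CR Y g) :
    CR Y (fun x y => f x y * g x y) :=
  ContinuousOn.mul hf hg

private theorem F16_CRw {xa xc Y : ℝ} (w : Test xa xc Y) : CR Y (fun x y => w.w x y) :=
  w.cw.continuousOn

private theorem F16_CRc {Y : ℝ} {f : ℝ → ℝ → ℝ → ℝ}
    (hf : Continuous fun p : ℝ × ℝ × ℝ => f p.1 p.2.1 p.2.2) (l : ℝ) :
    CR Y (fun x y => f l x y) := by
  have : Continuous fun p : ℝ × ℝ => f l p.1 p.2 :=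
    hf.comp (continuous_const.prodMk continuous_id)
  exact this.continuousOn

private theorem F16_CRcm {Y : ℝ} (c : ℝ) {f : ℝ → ℝ → ℝ} (hf : CR Y f) :
    CR Y (fun x y => c * f x y) :=
  ContinuousOn.mul continuousOn_const hf

/-- Averages over `l` of the two sides of `one_step`, and the size of the `R0` and `A` terms.

Setting: `w : Test xa xc Y`, `w x y ≠ 0 → 0 ≤ 1 - x - e1` for `0 ≤ y ≤ Y`, `μ ∈ (0,1]` with
`exp(μ x)(1 + (1-x-e1) μ) ≤ 1 + μ` whenever `0 ≤ x`, `0 ≤ 1 - x - e1`.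
(i) `μ LL μ (l ↦ I2 (w (Zt n l + Zl n l))) = I2 (w Zt n 0) + (1+μ) I2 (w LL μ (A n · x y)) -
(1+μ) I2 (w LL μ (R0 n · x y))`: `LL_swap` and `lam_plain` for each `(x,y)`.
(ii) `μ LL μ (l ↦ I2 (w (Zt n (l+x) + (1-x-e1) Zl n (l+x)))) ≤ I2 (w Zt n 0) +
(1+μ) I2 (w LL μ (A n · x y))`: `LL_swap` and `lam_shift` for each `(x,y)` with `w x y ≠ 0`.
(iii) the functions of `l` in (i), (ii) times `exp(-μ l)` are integrable on `(0,∞)` (`LL_swap`).
(All these integrands are continuous on `l ≥ 0` and the rectangle, and bounded: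
`|Zl| ≤ A + R0 ≤ 2`, `|Zt| ≤ 1`, `w ≤ sup w`.) -/
theorem lam_avg {xb Y C1 : ℝ} {ε : ℕ → ℝ} (D : CorData xb Y C1 ε)
    {xa xc : ℝ} (w : Test xa xc Y) (hxa : 0 < xa) (hxc : xc < xb) (hxb : xb < 1) (hY : 0 < Y)
    {e1 μ : ℝ} (he1 : 0 < e1) (hμ : 0 < μ) (hμ1 : μ ≤ 1)
    (hw : ∀ x y, 0 ≤ y → y ≤ Y → w.w x y ≠ 0 → 0 ≤ 1 - x - e1)
    (hcond : ∀ x : ℝ, 0 ≤ x → 0 ≤ 1 - x - e1 →
      Real.exp (μ * x) * (1 + (1 - x - e1) * μ) ≤ 1 + μ) {n : ℕ} (hn : 1 ≤ n) :
    μ * LL μ (fun l => I2 Y (fun x y => w.w x y * (D.Zt n l x y + D.Zl n l x y))) =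
      I2 Y (fun x y => w.w x y * D.Zt n 0 x y) +
        (1 + μ) * I2 Y (fun x y => w.w x y * LL μ (fun l => D.A n l x y)) -
        (1 + μ) * I2 Y (fun x y => w.w x y * LL μ (fun l => D.R0 n l x y)) ∧
    μ * LL μ (fun l => I2 Y (fun x y => w.w x y *
          (D.Zt n (l + x) x y + (1 - x - e1) * D.Zl n (l + x) x y))) ≤
      I2 Y (fun x y => w.w x y * D.Zt n 0 x y) +
        (1 + μ) * I2 Y (fun x y => w.w x y * LL μ (fun l => D.A n l x y)) ∧
    IntegrableOn (fun l => Real.exp (-(μ * l)) *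
      I2 Y (fun x y => w.w x y * (D.Zt n l x y + D.Zl n l x y))) (Set.Ioi 0) ∧
    IntegrableOn (fun l => Real.exp (-(μ * l)) * I2 Y (fun x y => w.w x y *
      (D.Zt n (l + x) x y + (1 - x - e1) * D.Zl n (l + x) x y))) (Set.Ioi 0) := by
  have hY0 : 0 ≤ Y := hY.le
  obtain ⟨M, hM0, hM⟩ := F16_M w
  obtain ⟨cA, cR⟩ := F16_CRA D hY0 hμ hn
  have cw2 : Continuous fun p : ℝ × ℝ × ℝ => w.w p.2.1 p.2.2 := w.cw.comp continuous_snd
  have cs : Continuous fun p : ℝ × ℝ × ℝ => ((p.1 + p.2.1, p.2.1, p.2.2) : ℝ × ℝ × ℝ) := by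
    fun_prop
  have cZs : Continuous fun p : ℝ × ℝ × ℝ => D.Zt n (p.1 + p.2.1) p.2.1 p.2.2 :=
    (D.cZt n).comp cs
  have cLs : Continuous fun p : ℝ × ℝ × ℝ => D.Zl n (p.1 + p.2.1) p.2.1 p.2.2 :=
    (D.cZl n).comp cs
  have S1 := LL_swap (Y := Y) (C := 2 * M) (μ := μ)
    (Φ := fun l x y => w.w x y * (D.Zt n l x y + D.Zl n l x y)) hY0 hμ
    (cw2.mul ((D.cZt n).add (D.cZl n))).continuousOn (by
      intro l x y hl hx hx1 hy hy1
      obtain ⟨h1, h2⟩ := F16_Zl D hn hl hx hy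
      have h3 := hM x y hx hx1 hy hy1
      have h4 : |D.Zt n l x y + D.Zl n l x y| ≤ 2 := (abs_add_le _ _).trans (by linarith)
      rw [abs_mul]
      refine le_trans ?_ (F16_one (by linarith) hl)
      calc |w.w x y| * |D.Zt n l x y + D.Zl n l x y| ≤ M * 2 :=
            mul_le_mul h3 h4 (abs_nonneg _) hM0
        _ = 2 * M := by ring)
  have S2 := LL_swap (Y := Y) (C := (2 + e1) * M) (μ := μ)
    (Φ := fun l x y => w.w x y * (D.Zt n (l + x) x y + (1 - x - e1) * D.Zl n (l + x) x y)) hY0 hμ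
    (cw2.mul (cZs.add ((by fun_prop : Continuous fun p : ℝ × ℝ × ℝ => 1 - p.2.1 - e1).mul
      cLs))).continuousOn (by
      intro l x y hl hx hx1 hy hy1
      obtain ⟨h1, h2⟩ := F16_Zl D hn (add_nonneg hl hx) hx hy
      have h3 := hM x y hx hx1 hy hy1
      have h5 : |1 - x - e1| ≤ 1 + e1 := abs_le.2 ⟨by linarith, by linarith⟩
      have h6 : |(1 - x - e1) * D.Zl n (l + x) x y| ≤ 1 + e1 := by
        rw [abs_mul]
        calc |1 - x - e1| * |D.Zl n (l + x) x y| ≤ (1 + e1) * 1 :=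
              mul_le_mul h5 h1 (abs_nonneg _) (by linarith)
          _ = 1 + e1 := mul_one _
      have h4 : |D.Zt n (l + x) x y + (1 - x - e1) * D.Zl n (l + x) x y| ≤ 2 + e1 :=
        (abs_add_le _ _).trans (by linarith)
      rw [abs_mul]
      refine le_trans ?_ (F16_one (by positivity) hl)
      calc |w.w x y| * |D.Zt n (l + x) x y + (1 - x - e1) * D.Zl n (l + x) x y| ≤ M * (2 + e1) :=
            mul_le_mul h3 h4 (abs_nonneg _) hM0
        _ = (2 + e1) * M := by ring)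
  have CZ : CR Y (fun x y => w.w x y * D.Zt n 0 x y) :=
    F16_CRmul (F16_CRw w) (F16_CRc (D.cZt n) 0)
  have CA : CR Y (fun x y => w.w x y * LL μ (fun l => D.A n l x y)) := F16_CRmul (F16_CRw w) cA
  have CR0 : CR Y (fun x y => w.w x y * LL μ (fun l => D.R0 n l x y)) :=
    F16_CRmul (F16_CRw w) cR
  have hab : ∀ x y l : ℝ, 0 ≤ x → 0 ≤ y → 0 ≤ l → (0 ≤ D.A n l x y ∧ D.A n l x y ≤ 1) ∧
      (0 ≤ D.R0 n l x y ∧ D.R0 n l x y ≤ 1) ∧ (0 ≤ D.Zt n l x y ∧ D.Zt n l x y ≤ 1) :=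
    fun x y l hx hy hl => ⟨⟨D.Ann n l x y hn hl hx hy, D.Ale n l x y hn hl hx hy⟩,
      ⟨D.R0nn n l x y hn hl hx hy, (D.R0R n l x y hn hl hx hy).trans (D.Rle n l x y hn hl hx hy)⟩,
      ⟨D.Znn n l x y hn hl hx hy, D.Zle n l x y hn hl hx hy⟩⟩
  have cl : ∀ {F : ℝ → ℝ → ℝ → ℝ}, (Continuous fun p : ℝ × ℝ × ℝ => F p.1 p.2.1 p.2.2) →
      ∀ x y : ℝ, Continuous fun l => F l x y := by
    intro F hF x y
    exact hF.comp (by fun_prop : Continuous fun l : ℝ => ((l, x, y) : ℝ × ℝ × ℝ))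
  refine ⟨?_, ?_, S1.2.2.1, S2.2.2.1⟩
  · have e1' : LL μ (fun l => I2 Y (fun x y => w.w x y * (D.Zt n l x y + D.Zl n l x y))) =
        I2 Y (fun x y => LL μ (fun l => w.w x y * (D.Zt n l x y + D.Zl n l x y))) := S1.2.2.2
    rw [e1', ← I2_const_mul μ]
    have e2 : I2 Y (fun x y => μ * LL μ (fun l => w.w x y * (D.Zt n l x y + D.Zl n l x y))) =
        I2 Y (fun x y => (w.w x y * D.Zt n 0 x y +
          (1 + μ) * (w.w x y * LL μ (fun l => D.A n l x y))) -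
          (1 + μ) * (w.w x y * LL μ (fun l => D.R0 n l x y))) := by
      apply I2_congr hY0
      intro x y hx hx1 hy hy1
      have h := lam_plain hμ (g := fun l => D.Zt n l x y) (g' := fun l => D.Zl n l x y)
        (A := fun l => D.A n l x y) (R := fun l => D.R0 n l x y) (cl (D.cZl n) x y)
        (cl (D.cA n) x y) (cl (D.cR0 n) x y) (fun l => D.dZl n l x y hn)
        (fun l => D.ZlA n l x y hn) (fun l hl => (hab x y l hx hy hl).1)
        (fun l hl => (hab x y l hx hy hl).2.1) (fun l hl => (hab x y l hx hy hl).2.2)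
      rw [F16_LLmul]
      calc μ * (w.w x y * LL μ (fun l => D.Zt n l x y + D.Zl n l x y)) =
            w.w x y * (μ * LL μ (fun l => D.Zt n l x y + D.Zl n l x y)) := by ring
        _ = _ := by rw [h]; ring
    rw [e2, I2_sub hY0 (f := fun x y => w.w x y * D.Zt n 0 x y +
          (1 + μ) * (w.w x y * LL μ (fun l => D.A n l x y))) (ContinuousOn.add CZ (F16_CRcm (1 + μ) CA))
        (F16_CRcm _ CR0), I2_add hY0 CZ (F16_CRcm _ CA), I2_const_mul, I2_const_mul]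
  · have e1' : LL μ (fun l => I2 Y (fun x y => w.w x y *
          (D.Zt n (l + x) x y + (1 - x - e1) * D.Zl n (l + x) x y))) =
        I2 Y (fun x y => LL μ (fun l => w.w x y *
          (D.Zt n (l + x) x y + (1 - x - e1) * D.Zl n (l + x) x y))) := S2.2.2.2
    rw [e1', ← I2_const_mul μ, ← I2_const_mul (1 + μ), ← I2_add hY0 CZ (F16_CRcm _ CA)]
    refine I2_mono hY0 (F16_CRcm _ S2.2.1) (ContinuousOn.add CZ (F16_CRcm (1 + μ) CA)) ?_
    intro x y hx hx1 hy hy1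
    show μ * LL μ (fun l => w.w x y *
          (D.Zt n (l + x) x y + (1 - x - e1) * D.Zl n (l + x) x y)) ≤ w.w x y * D.Zt n 0 x y +
      (1 + μ) * (w.w x y * LL μ (fun l => D.A n l x y))
    rw [F16_LLmul]
    by_cases h0 : w.w x y = 0
    · rw [h0]
      simp
    · have ha := hw x y hy hy1 h0
      have h := lam_shift hμ hx ha (hcond x hx ha) (g := fun l => D.Zt n l x y)
        (g' := fun l => D.Zl n l x y)
        (A := fun l => D.A n l x y) (R := fun l => D.R0 n l x y) (cl (D.cZl n) x y)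
        (cl (D.cA n) x y) (cl (D.cR0 n) x y) (fun l => D.dZl n l x y hn)
        (fun l => D.ZlA n l x y hn) (fun l hl => (hab x y l hx hy hl).1)
        (fun l hl => (hab x y l hx hy hl).2.1) (fun l hl => (hab x y l hx hy hl).2.2)
      calc μ * (w.w x y * LL μ (fun l => D.Zt n (l + x) x y +
            (1 - x - e1) * D.Zl n (l + x) x y)) =
            w.w x y * (μ * LL μ (fun l => D.Zt n (l + x) x y +
              (1 - x - e1) * D.Zl n (l + x) x y)) := by ring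
        _ ≤ w.w x y * (D.Zt n 0 x y + (1 + μ) * LL μ (fun l => D.A n l x y)) :=
            mul_le_mul_of_nonneg_left h (w.nn x y)
        _ = _ := by ring

/-- The `R0` and `A` terms.  `I2 (w LL μ R0) = LL μ (l ↦ I2 (w R0 n l))` (`LL_swap`) and
`I2 (w R0 n l) ≤ I2 (w R n l) ≤ (C1 (1+l)/n) (I2 (w Zt n l) + I2 (w B n l))
≤ (C1 (1+l)/n) (I2 (w Zt n 0) + M (1+l) ε n + M ε n (1+l)^2)` (`fine`, `Zt_compare`, `Bint`,
`I2_fiber`); `LL μ (1 + l) = 1/μ + 1/μ²` (`LL_moments`).  `I2 (w LL μ A) = LL μ (l ↦ I2 (w A n l))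
≤ M ε n / μ`. -/
theorem lam_err {xb Y C1 : ℝ} {ε : ℕ → ℝ} (D : CorData xb Y C1 ε) (hε0 : ∀ n, 0 ≤ ε n)
    {xa xc : ℝ} (w : Test xa xc Y) (hxa : 0 < xa) (hxc : xc < xb) (hxb : xb < 1) (hY : 0 < Y)
    (hC1 : 0 ≤ C1) {M : ℝ} (hM : ∀ x y, 0 ≤ x → x ≤ 1 → 0 ≤ y → y ≤ Y → w.w x y ≤ M)
    (hM0 : 0 ≤ M) {μ : ℝ} (hμ : 0 < μ) {n : ℕ} (hn : 1 ≤ n) :
    I2 Y (fun x y => w.w x y * LL μ (fun l => D.R0 n l x y)) ≤
      C1 * (1 / μ + 1 / μ ^ 2) / n * I2 Y (fun x y => w.w x y * D.Zt n 0 x y) +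
        2 * C1 * M * ε n * LL μ (fun l => (1 + l) ^ 3) / n ∧
    0 ≤ I2 Y (fun x y => w.w x y * LL μ (fun l => D.A n l x y)) ∧
    I2 Y (fun x y => w.w x y * LL μ (fun l => D.A n l x y)) ≤ M * ε n / μ := by
  have hY0 : 0 ≤ Y := hY.le
  have hεn := hε0 n
  have hn0 : (0 : ℝ) < n := by exact_mod_cast hn
  have hwM : ∀ x y, 0 ≤ x → x ≤ 1 → 0 ≤ y → y ≤ Y → 0 ≤ w.w x y ∧ w.w x y ≤ M :=
    fun x y h1 h2 h3 h4 => ⟨w.nn x y, hM x y h1 h2 h3 h4⟩
  have hwout : ∀ x y, 0 ≤ x → x ≤ 1 → xb < x → 0 ≤ y → y ≤ Y → w.w x y = 0 :=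
    fun x y _ _ h3 h4 _ => w.right x y h4 (hxc.le.trans h3.le)
  have cw2 : Continuous fun p : ℝ × ℝ × ℝ => w.w p.2.1 p.2.2 := w.cw.comp continuous_snd
  have CZ : ∀ l, CR Y (fun x y => w.w x y * D.Zt n l x y) := fun l =>
    F16_CRmul (F16_CRw w) (F16_CRc (D.cZt n) l)
  have CB : ∀ l, CR Y (fun x y => w.w x y * D.B n l x y) := fun l =>
    F16_CRmul (F16_CRw w) (F16_CRc (D.cB n) l)
  have CR0 : ∀ l, CR Y (fun x y => w.w x y * D.R0 n l x y) := fun l =>
    F16_CRmul (F16_CRw w) (F16_CRc (D.cR0 n) l)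
  have SR := LL_swap (Y := Y) (C := M) (μ := μ)
    (Φ := fun l x y => w.w x y * D.R0 n l x y) hY0 hμ (cw2.mul (D.cR0 n)).continuousOn (by
      intro l x y hl hx hx1 hy hy1
      obtain ⟨h1, h2⟩ := hwM x y hx hx1 hy hy1
      have h3 := D.R0nn n l x y hn hl hx hy
      have h4 := (D.R0R n l x y hn hl hx hy).trans (D.Rle n l x y hn hl hx hy)
      rw [abs_of_nonneg (mul_nonneg h1 h3)]
      refine le_trans ?_ (F16_one hM0 hl)
      nlinarith)
  have SA := LL_swap (Y := Y) (C := M) (μ := μ)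
    (Φ := fun l x y => w.w x y * D.A n l x y) hY0 hμ (cw2.mul (D.cA n)).continuousOn (by
      intro l x y hl hx hx1 hy hy1
      obtain ⟨h1, h2⟩ := hwM x y hx hx1 hy hy1
      have h3 := D.Ann n l x y hn hl hx hy
      have h4 := D.Ale n l x y hn hl hx hy
      rw [abs_of_nonneg (mul_nonneg h1 h3)]
      refine le_trans ?_ (F16_one hM0 hl)
      nlinarith)
  have S1 := LL_swap (Y := Y) (C := 1) (μ := μ) (Φ := fun l _ _ => 1 + l) hY0 hμ
    (by fun_prop : Continuous fun p : ℝ × ℝ × ℝ => 1 + p.1).continuousOn (by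
      intro l x y hl _ _ _ _
      rw [abs_of_nonneg (by linarith), one_mul]
      have h1 : (1 : ℝ) ≤ 1 + l := by linarith
      calc 1 + l = (1 + l) ^ 1 := (pow_one _).symm
        _ ≤ (1 + l) ^ 3 := pow_le_pow_right₀ h1 (by norm_num))
  have I1 : IntegrableOn (fun l => Real.exp (-(μ * l)) * (1 + l)) (Set.Ioi 0) :=
    S1.1 0 0 le_rfl zero_le_one le_rfl hY0
  have S0 := LL_swap (Y := Y) (C := 1) (μ := μ) (Φ := fun _ _ _ => (1 : ℝ)) hY0 hμ
    continuous_const.continuousOn (by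
      intro l x y hl _ _ _ _
      rw [abs_one]
      exact F16_one zero_le_one hl)
  have I0 : IntegrableOn (fun l => Real.exp (-(μ * l)) * 1) (Set.Ioi 0) :=
    S0.1 0 0 le_rfl zero_le_one le_rfl hY0
  obtain ⟨m0, m1, I3, m3⟩ := LL_moments hμ
  have m0' : LL μ (fun _ => 1) = 1 / μ := by
    rw [eq_div_iff hμ.ne', mul_comm]
    exact m0
  have m1' : LL μ (fun l => 1 + l) = 1 / μ + 1 / μ ^ 2 := by
    have h1 : LL μ (fun l => 1 + l) = (1 + 1 / μ) / μ := by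
      rw [eq_div_iff hμ.ne', mul_comm]
      exact m1
    rw [h1]
    field_simp
  refine ⟨?_, ?_, ?_⟩
  · have e1 : I2 Y (fun x y => w.w x y * LL μ (fun l => D.R0 n l x y)) =
        LL μ (fun l => I2 Y (fun x y => w.w x y * D.R0 n l x y)) := by
      have e2 : LL μ (fun l => I2 Y (fun x y => w.w x y * D.R0 n l x y)) =
          I2 Y (fun x y => LL μ (fun l => w.w x y * D.R0 n l x y)) := SR.2.2.2
      rw [e2]
      apply I2_congr hY0
      intro x y _ _ _ _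
      exact (F16_LLmul μ _ _).symm
    obtain ⟨I, hI⟩ : ∃ I : ℝ, I = I2 Y (fun x y => w.w x y * D.Zt n 0 x y) := ⟨_, rfl⟩
    have key : ∀ l, 0 < l → I2 Y (fun x y => w.w x y * D.R0 n l x y) ≤
        C1 / n * I * (1 + l) + 2 * C1 * M * ε n / n * (1 + l) ^ 3 := by
      intro l hl
      have hl0 := hl.le
      have h1 : I2 Y (fun x y => w.w x y * D.R0 n l x y) ≤
          I2 Y (fun x y => C1 * (1 + l) / n * (w.w x y * D.Zt n l x y + w.w x y * D.B n l x y)) := by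
        refine I2_mono hY0 (CR0 l) (F16_CRcm (C1 * (1 + l) / n) (ContinuousOn.add (CZ l) (CB l))) ?_
        intro x y hx hx1 hy hy1
        by_cases hxb' : x ≤ xb
        · have h2 := D.fine n l x y hn hl0 hx hxb' hy
          have h3 := D.R0R n l x y hn hl0 hx hy
          have h4 : D.R0 n l x y ≤ C1 * (1 + l) / n * (D.Zt n l x y + D.B n l x y) := by
            refine h3.trans ?_
            rw [div_mul_eq_mul_div, le_div_iff₀ hn0]
            linarith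
          calc w.w x y * D.R0 n l x y ≤
                w.w x y * (C1 * (1 + l) / n * (D.Zt n l x y + D.B n l x y)) :=
                mul_le_mul_of_nonneg_left h4 (w.nn x y)
            _ = C1 * (1 + l) / n * (w.w x y * D.Zt n l x y + w.w x y * D.B n l x y) := by ring
        · have h5 := hwout x y hx hx1 (not_le.1 hxb') hy hy1
          rw [h5]
          simp
      rw [I2_const_mul, I2_add hY0 (CZ l) (CB l)] at h1
      have h6 := (Zt_compare D hε0 w hxa hxc hxb hY hC1 hM hM0 hn hl0).2.2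
      have h7 : I2 Y (fun x y => w.w x y * D.B n l x y) ≤ M * (ε n * (1 + l) ^ 2) :=
        I2_fiber (xb := xb) hY0 (F16_CRw w) (F16_CRc (D.cB n) l) hM0 (by positivity) hwM hwout
          (fun x y hx _ _ hy _ => D.Bnn n l x y hn hl0 hx hy)
          (fun x hx _ hxb' => D.Bint n l x hn hl0 hx hxb')
      have h8 : 0 ≤ C1 * (1 + l) / n := by positivity
      have h9 : I2 Y (fun x y => w.w x y * D.Zt n l x y) +
          I2 Y (fun x y => w.w x y * D.B n l x y) ≤ I + M * ε n * (2 * (1 + l) ^ 2) := by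
        rw [hI]
        have h10 : (1 + l) ≤ (1 + l) ^ 2 := by nlinarith
        have h11 : M * ε n * (1 + l) ≤ M * ε n * (1 + l) ^ 2 :=
          mul_le_mul_of_nonneg_left h10 (by positivity)
        linarith
      calc I2 Y (fun x y => w.w x y * D.R0 n l x y) ≤ C1 * (1 + l) / n *
            (I2 Y (fun x y => w.w x y * D.Zt n l x y) +
              I2 Y (fun x y => w.w x y * D.B n l x y)) := h1
        _ ≤ C1 * (1 + l) / n * (I + M * ε n * (2 * (1 + l) ^ 2)) :=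
            mul_le_mul_of_nonneg_left h9 h8
        _ = C1 / n * I * (1 + l) + 2 * C1 * M * ε n / n * (1 + l) ^ 3 := by ring
    rw [e1, ← hI]
    have Ia : IntegrableOn (fun l => Real.exp (-(μ * l)) * (C1 / n * I * (1 + l))) (Set.Ioi 0) := by
      have := I1.const_mul (C1 / n * I)
      refine this.congr ?_
      filter_upwards with l
      ring
    have Ib : IntegrableOn (fun l => Real.exp (-(μ * l)) *
        (2 * C1 * M * ε n / n * (1 + l) ^ 3)) (Set.Ioi 0) := by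
      have := I3.const_mul (2 * C1 * M * ε n / n)
      refine this.congr ?_
      filter_upwards with l
      ring
    have Iab : IntegrableOn (fun l => Real.exp (-(μ * l)) * (C1 / n * I * (1 + l) +
        2 * C1 * M * ε n / n * (1 + l) ^ 3)) (Set.Ioi 0) := by
      have := Ia.add Ib
      refine this.congr ?_
      filter_upwards with l
      simp only [Pi.add_apply]
      ring
    calc LL μ (fun l => I2 Y (fun x y => w.w x y * D.R0 n l x y)) ≤
          LL μ (fun l => C1 / n * I * (1 + l) + 2 * C1 * M * ε n / n * (1 + l) ^ 3) :=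
          F16_LLmono SR.2.2.1 Iab key
      _ = C1 / n * I * LL μ (fun l => 1 + l) +
          2 * C1 * M * ε n / n * LL μ (fun l => (1 + l) ^ 3) := by
          rw [F16_LLadd Ia Ib, F16_LLmul, F16_LLmul]
      _ = C1 * (1 / μ + 1 / μ ^ 2) / n * I +
          2 * C1 * M * ε n * LL μ (fun l => (1 + l) ^ 3) / n := by
          rw [m1']
          ring
  · have h0 : I2 Y (fun _ _ => (0 : ℝ)) = 0 := by
      have := I2_const_mul (Y := Y) 0 (fun _ _ => (0 : ℝ))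
      simpa using this
    rw [← h0]
    refine I2_mono hY0 (f := fun _ _ => (0 : ℝ)) continuousOn_const
      (F16_CRmul (F16_CRw w) (F16_CRA D hY0 hμ hn).1) ?_
    intro x y hx hx1 hy hy1
    exact mul_nonneg (w.nn x y) (F16_LLnn fun l hl => D.Ann n l x y hn hl.le hx hy)
  · have e1 : I2 Y (fun x y => w.w x y * LL μ (fun l => D.A n l x y)) =
        LL μ (fun l => I2 Y (fun x y => w.w x y * D.A n l x y)) := by
      have e2 : LL μ (fun l => I2 Y (fun x y => w.w x y * D.A n l x y)) =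
          I2 Y (fun x y => LL μ (fun l => w.w x y * D.A n l x y)) := SA.2.2.2
      rw [e2]
      apply I2_congr hY0
      intro x y _ _ _ _
      exact (F16_LLmul μ _ _).symm
    rw [e1]
    have Ic : IntegrableOn (fun l => Real.exp (-(μ * l)) * (M * ε n * 1)) (Set.Ioi 0) := by
      have := I0.const_mul (M * ε n)
      refine this.congr ?_
      filter_upwards with l
      ring
    calc LL μ (fun l => I2 Y (fun x y => w.w x y * D.A n l x y)) ≤
          LL μ (fun _ => M * ε n * 1) := by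
          refine F16_LLmono SA.2.2.1 Ic ?_
          intro l hl
          rw [mul_one]
          exact I2_fiber (xb := xb) hY0 (F16_CRw w) (F16_CRc (D.cA n) l) hM0 hεn hwM hwout
            (fun x y hx _ _ hy _ => D.Ann n l x y hn hl.le hx hy)
            (fun x hx _ hxb' => D.Aint n l x hn hl.le hx hxb')
      _ = M * ε n * LL μ (fun _ => 1) := F16_LLmul μ (M * ε n) (fun _ => 1)
      _ = M * ε n / μ := by
          rw [m0']
          ring

end Pool.Agent.Lib.MP_9cae81_R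
end

section

open Finset Filter MeasureTheory
open scoped BigOperators Topology

namespace Pool.Agent.Lib.MP_9cae81_R

/-- Linear change of variables `(x, y) ↦ (θ (x + (3/2)(1-θ) y), θ² y)`.

Proof.  Inner integral for fixed `y`, `c = (3/2)(1-θ) y`: substitute `x' = θ (x + c)`
(`intervalIntegral.integral_comp_mul_add`): `∫_0^1 w(x,y) G(θ(x+c), ·) dx =
θ⁻¹ ∫_{θ c}^{θ(1+c)} w(x'/θ - c, y) G(x', ·) dx'`; the integrand vanishes unless
`xa < x'/θ - c < xc`, i.e. `θ (xa + c) < x' < θ (xc + c)`, an interval contained in `[0,1]` (by `hθ`,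
`c ≤ (3/2)(1-θ) Y`) and in `[θ c, θ(1+c)]`, so the integral may be taken over `[0,1]`.  Outer
integral: `y' = θ² y`, `∫_0^Y .. dy = θ⁻² ∫_0^{θ² Y} .. dy'`, and for `y' ∈ [θ² Y, Y]` the function
`w(·, y'/θ²)` vanishes (`top`).  Note `(3/2)(1-θ) y = (3/2)(1-θ) y'/θ²`. -/
theorem change_var {xa xc Y θ : ℝ} (w : Test xa xc Y) (hθ0 : 0 < θ) (hθ1 : θ ≤ 1) (hY : 0 ≤ Y)
    (hxa : 0 ≤ xa) (hxc : xc ≤ 1) (hθ : θ * (xc + 3 / 2 * (1 - θ) * Y) ≤ 1) {G : ℝ → ℝ → ℝ}
    (cG : Continuous fun p : ℝ × ℝ => G p.1 p.2) :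
    I2 Y (fun x y => w.w x y * G (θ * (x + 3 / 2 * (1 - θ) * y)) (θ ^ 2 * y)) =
      I2 Y (fun x y => (θ⁻¹) ^ 3 *
        w.w (x / θ - 3 / 2 * (1 - θ) * y / θ ^ 2) (y / θ ^ 2) * G x y) := by
  have hne : θ ≠ 0 := hθ0.ne'
  have hθ2 : 0 < θ ^ 2 := by positivity
  -- the inner integral
  have inner : ∀ y : ℝ, 0 ≤ y → y ≤ Y →
      (∫ x in (0 : ℝ)..1, w.w x y * G (θ * (x + 3 / 2 * (1 - θ) * y)) (θ ^ 2 * y)) =
        θ ^ 2 * (∫ x in (0 : ℝ)..1, (θ⁻¹) ^ 3 *
          w.w (x / θ - 3 / 2 * (1 - θ) * (θ ^ 2 * y) / θ ^ 2) ((θ ^ 2 * y) / θ ^ 2) *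
            G x (θ ^ 2 * y)) := by
    intro y hy0 hyY
    obtain ⟨c, hc⟩ : ∃ c : ℝ, c = 3 / 2 * (1 - θ) * y := ⟨_, rfl⟩
    have hc0 : 0 ≤ c := by
      rw [hc]
      have h1 : 0 ≤ 1 - θ := by linarith
      positivity
    have hcY : c ≤ 3 / 2 * (1 - θ) * Y := by
      rw [hc]
      have h1 : 0 ≤ 3 / 2 * (1 - θ) := by linarith
      exact mul_le_mul_of_nonneg_left hyY h1
    obtain ⟨F, hF⟩ : ∃ F : ℝ → ℝ, F = fun x => w.w (x / θ - c) y * G x (θ ^ 2 * y) := ⟨_, rfl⟩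
    have e1 : (∫ x in (0 : ℝ)..1, w.w x y * G (θ * (x + 3 / 2 * (1 - θ) * y)) (θ ^ 2 * y)) =
        ∫ x in (0 : ℝ)..1, F (θ * x + θ * c) := by
      refine intervalIntegral.integral_congr fun x _ => ?_
      show w.w x y * G (θ * (x + 3 / 2 * (1 - θ) * y)) (θ ^ 2 * y) = F (θ * x + θ * c)
      rw [hF]
      show _ = w.w ((θ * x + θ * c) / θ - c) y * G (θ * x + θ * c) (θ ^ 2 * y)
      have h1 : (θ * x + θ * c) / θ - c = x := by
        field_simp
        ring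
      have h2 : θ * (x + 3 / 2 * (1 - θ) * y) = θ * x + θ * c := by
        rw [hc]
        ring
      rw [h1, h2]
    have e2 : (∫ x in (0 : ℝ)..1, (θ⁻¹) ^ 3 *
          w.w (x / θ - 3 / 2 * (1 - θ) * (θ ^ 2 * y) / θ ^ 2) ((θ ^ 2 * y) / θ ^ 2) *
            G x (θ ^ 2 * y)) = ∫ x in (0 : ℝ)..1, (θ⁻¹) ^ 3 * F x := by
      refine intervalIntegral.integral_congr fun x _ => ?_
      show (θ⁻¹) ^ 3 * w.w (x / θ - 3 / 2 * (1 - θ) * (θ ^ 2 * y) / θ ^ 2) ((θ ^ 2 * y) / θ ^ 2) *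
            G x (θ ^ 2 * y) = (θ⁻¹) ^ 3 * F x
      rw [hF]
      show _ = (θ⁻¹) ^ 3 * (w.w (x / θ - c) y * G x (θ ^ 2 * y))
      have h1 : (θ ^ 2 * y) / θ ^ 2 = y := by
        field_simp
      have h2 : 3 / 2 * (1 - θ) * (θ ^ 2 * y) / θ ^ 2 = c := by
        rw [hc]
        field_simp
      rw [h1, h2]
      ring
    have hsupp : ∀ x : ℝ, (x ≤ θ * c ∨ θ + θ * c ≤ x ∨ x ≤ 0 ∨ 1 ≤ x) → F x = 0 := by
      intro x hx
      rw [hF]
      show w.w (x / θ - c) y * G x (θ ^ 2 * y) = 0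
      by_cases h1 : x / θ - c ≤ xa
      · rw [w.left _ _ hy0 h1, zero_mul]
      by_cases h2 : xc ≤ x / θ - c
      · rw [w.right _ _ hy0 h2, zero_mul]
      exfalso
      rw [not_le] at h1 h2
      have h3 : θ * (xa + c) < x := by
        have h4 : xa + c < x / θ := by linarith
        rw [lt_div_iff₀ hθ0] at h4
        linarith
      have h5 : x < θ * (xc + c) := by
        have h4 : x / θ < xc + c := by linarith
        rw [div_lt_iff₀ hθ0] at h4
        linarith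
      have h6 : θ * c ≤ θ * (xa + c) := mul_le_mul_of_nonneg_left (by linarith) hθ0.le
      have h7 : θ * (xc + c) ≤ θ * (1 + c) := mul_le_mul_of_nonneg_left (by linarith) hθ0.le
      have h8 : θ * (xc + c) ≤ θ * (xc + 3 / 2 * (1 - θ) * Y) :=
        mul_le_mul_of_nonneg_left (by linarith) hθ0.le
      have h9 : 0 ≤ θ * c := mul_nonneg hθ0.le hc0
      have h10 : θ * (1 + c) = θ + θ * c := by ring
      rcases hx with h | h | h | h <;> linarith
    have i1 : (∫ x in (θ * 0 + θ * c)..(θ * 1 + θ * c), F x) = ∫ x, F x := by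
      have hle : θ * 0 + θ * c ≤ θ * 1 + θ * c := by linarith
      rw [intervalIntegral.integral_of_le hle]
      refine setIntegral_eq_integral_of_forall_compl_eq_zero fun x hx => ?_
      apply hsupp
      by_contra hcon
      push Not at hcon
      exact hx ⟨by linarith [hcon.1], by linarith [hcon.2.1]⟩
    have i2 : (∫ x in (0 : ℝ)..1, F x) = ∫ x, F x := by
      rw [intervalIntegral.integral_of_le zero_le_one]
      refine setIntegral_eq_integral_of_forall_compl_eq_zero fun x hx => ?_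
      apply hsupp
      by_contra hcon
      push Not at hcon
      exact hx ⟨hcon.2.2.1, hcon.2.2.2.le⟩
    rw [e1, e2, intervalIntegral.integral_comp_mul_add F hne (θ * c), i1,
      intervalIntegral.integral_const_mul, i2, smul_eq_mul]
    have h11 : θ ^ 2 * ((θ⁻¹) ^ 3 * ∫ x, F x) = (θ ^ 2 * (θ⁻¹) ^ 3) * ∫ x, F x := by ring
    rw [h11]
    congr 1
    field_simp
  -- the outer integral
  obtain ⟨H, hH⟩ : ∃ H : ℝ → ℝ, H = fun y' => ∫ x in (0 : ℝ)..1, (θ⁻¹) ^ 3 *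
        w.w (x / θ - 3 / 2 * (1 - θ) * y' / θ ^ 2) (y' / θ ^ 2) * G x y' := ⟨_, rfl⟩
  have hL : I2 Y (fun x y => w.w x y * G (θ * (x + 3 / 2 * (1 - θ) * y)) (θ ^ 2 * y)) =
      ∫ y in (0 : ℝ)..Y, θ ^ 2 * H (θ ^ 2 * y) := by
    unfold I2
    refine intervalIntegral.integral_congr fun y hy => ?_
    rw [Set.uIcc_of_le hY] at hy
    rw [hH]
    exact inner y hy.1 hy.2
  have hR : I2 Y (fun x y => (θ⁻¹) ^ 3 *
        w.w (x / θ - 3 / 2 * (1 - θ) * y / θ ^ 2) (y / θ ^ 2) * G x y) = ∫ y in (0 : ℝ)..Y, H y := by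
    unfold I2
    rw [hH]
  rw [hL, hR, intervalIntegral.integral_const_mul,
    intervalIntegral.integral_comp_mul_left H hθ2.ne', smul_eq_mul, ← mul_assoc,
    mul_inv_cancel₀ hθ2.ne', one_mul, mul_zero]
  have hYY : θ ^ 2 * Y ≤ Y := by
    have h1 : θ ^ 2 ≤ 1 := pow_le_one₀ hθ0.le hθ1
    nlinarith
  have hY2 : 0 ≤ θ ^ 2 * Y := mul_nonneg hθ2.le hY
  rw [intervalIntegral.integral_of_le hY, intervalIntegral.integral_of_le hY2]
  symm
  refine setIntegral_eq_of_subset_of_forall_sdiff_eq_zero measurableSet_Ioc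
    (Set.Ioc_subset_Ioc_right hYY) fun y hy => ?_
  have hy1 : Y ≤ y / θ ^ 2 := by
    have h1 : ¬ (0 < y ∧ y ≤ θ ^ 2 * Y) := hy.2
    have h2 : 0 < y := hy.1.1
    have h3 : θ ^ 2 * Y < y := by
      by_contra h4
      exact h1 ⟨h2, not_lt.1 h4⟩
    rw [le_div_iff₀ hθ2]
    linarith
  rw [hH]
  show (∫ x in (0 : ℝ)..1, (θ⁻¹) ^ 3 *
        w.w (x / θ - 3 / 2 * (1 - θ) * y / θ ^ 2) (y / θ ^ 2) * G x y) = 0
  have h0 : ∀ x ∈ Set.uIcc (0 : ℝ) 1, (θ⁻¹) ^ 3 *
        w.w (x / θ - 3 / 2 * (1 - θ) * y / θ ^ 2) (y / θ ^ 2) * G x y = 0 := by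
    intro x _
    rw [w.top _ _ hy1, mul_zero, zero_mul]
  rw [intervalIntegral.integral_congr (g := fun _ => (0 : ℝ)) h0]
  simp

end Pool.Agent.Lib.MP_9cae81_R
end
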