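import Pool.Agent.Lib.MP_9cae81_R.Defs
import Pool.Agent.Lib.MP_9cae81_R.Mg.G009

section

open Finset Filter MeasureTheory
open scoped BigOperators Topology

namespace Pool.Agent.Lib.MP_9cae81_R

variable {V : Type} [Fintype V] [DecidableEq V]

/-- Truth value of a reduced literal. -/
private def C1_lv {X : Type} (τ : X → Bool) : Bool ⊕ Lt X → Prop
  | Sum.inl b => b = true
  | Sum.inr a => τ a.1 = a.2

/-- Truth value of a reduced clause. -/
private def C1_ov {X : Type} (τ : X → Bool) : Option (Option (Cl X)) → Prop
  | none => True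
  | some none => False
  | some (some d) => clT τ d

private theorem C1_red1 {X : Type} (τ : X → Bool) (z : Bool ⊕ Lt X) :
    C1_ov τ (red1 z) ↔ C1_lv τ z := by
  rcases z with (_ | _) | a <;> simp [red1, C1_ov, C1_lv, clT, cu]

private theorem C1_red2 {X : Type} (τ : X → Bool) (z z' : Bool ⊕ Lt X) :
    C1_ov τ (red2 z z') ↔ (C1_lv τ z ∨ C1_lv τ z') := by
  rcases z with (_ | _) | a
  · simp only [red2, C1_red1]
    simp [C1_lv]
  · simp [red2, C1_ov, C1_lv]
  · rcases z' with (_ | _) | b <;> simp [red2, C1_ov, C1_lv, clT, cu, cp]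

private theorem C1_red3 {X : Type} (τ : X → Bool) (z z' z'' : Bool ⊕ Lt X) :
    C1_ov τ (red3 z z' z'') ↔ (C1_lv τ z ∨ C1_lv τ z' ∨ C1_lv τ z'') := by
  rcases z with (_ | _) | a
  · simp only [red3, C1_red2]
    simp [C1_lv]
  · simp [red3, C1_ov, C1_lv]
  · rcases z' with (_ | _) | b
    · simp only [red3, C1_red2]
      simp [C1_lv]
    · simp [red3, C1_ov, C1_lv]
    · rcases z'' with (_ | _) | c <;> simp [red3, C1_ov, C1_lv, clT, cp, ct]

private theorem C1_rl {V : Type} [DecidableEq V] (i : V) (s : Bool) (σ : V → Bool) (h : σ i = s)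
    (l : Lt V) :
    C1_lv (fun j : {j : V // j ≠ i} => σ j.1) (rl i s l) ↔ σ l.1 = l.2 := by
  unfold rl
  by_cases hl : l.1 = i
  · rw [dif_pos hl, hl, h]
    simp only [C1_lv, decide_eq_true_eq]
    exact eq_comm
  · rw [dif_neg hl]
    simp only [C1_lv]

private theorem C1_red {V : Type} [DecidableEq V] (i : V) (s : Bool) (σ : V → Bool) (h : σ i = s)
    (c : Cl V) :
    C1_ov (fun j : {j : V // j ≠ i} => σ j.1) (red i s c) ↔ clT σ c := by
  rcases c with a | p | t
  · simp only [red, C1_red1, C1_rl i s σ h, clT]
  · simp only [red, C1_red2, C1_rl i s σ h, clT]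
  · simp only [red, C1_red3, C1_rl i s σ h, clT]

private theorem C1_sat {V : Type} [DecidableEq V] (i : V) (s : Bool) (F : Finset (Cl V)) :
    SatF (insert (cu (i, s)) F) ↔
      ∃ τ : {j : V // j ≠ i} → Bool, ∀ c ∈ F, C1_ov τ (red i s c) := by
  constructor
  · rintro ⟨σ, hσ⟩
    have h : σ i = s := hσ (cu (i, s)) (Finset.mem_insert_self _ _)
    exact ⟨fun j => σ j.1, fun c hc =>
      (C1_red i s σ h c).2 (hσ c (Finset.mem_insert_of_mem hc))⟩
  · rintro ⟨τ, hτ⟩
    let σ : V → Bool := fun j => if hj : j ≠ i then τ ⟨j, hj⟩ else s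
    have h : σ i = s := by simp [σ]
    have h2 : (fun j : {j : V // j ≠ i} => σ j.1) = τ := by
      funext j
      have hj := j.2
      simp [σ, hj]
    refine ⟨σ, fun c hc => ?_⟩
    rcases Finset.mem_insert.1 hc with rfl | hc
    · exact h
    · have := (C1_red i s σ h c)
      rw [h2] at this
      exact this.1 (hτ c hc)

/-- `F ∪ {(i, s)}` is unsatisfiable iff the reduced formula contains the empty clause or is
unsatisfiable.  (`pimg (fun c => c) G` is the set of `d` with `some d ∈ G`.)

Proof.  For an assignment `σ` with `σ i = s` and its restriction `σ'` to `{j // j ≠ i}`, and a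
clause `c`: if `red i s c = none` then `σ` satisfies `c`; if `red i s c = some none` then `σ` does
not satisfy `c`; if `red i s c = some (some d)` then `σ` satisfies `c` iff `σ'` satisfies `d` (check
for literals first, then unfold `red1`, `red2`, `red3`).  Hence `σ` satisfies `F` iff
`none ∉ pimg (red i s) F` and `σ'` satisfies all `d` with `some d ∈ pimg (red i s) F`.  Conversely
every assignment `σ'` of `{j // j ≠ i}` extends to such a `σ`. -/
theorem un_red (i : V) (s : Bool) (F : Finset (Cl V)) :
    un (insert (cu (i, s)) F) =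
      if none ∈ pimg (red i s) F then 1 else un (pimg (fun c => c) (pimg (red i s) F)) := by
  have key := C1_sat i s F
  by_cases hn : none ∈ pimg (red i s) F
  · rw [if_pos hn]
    have h1 : ¬ SatF (insert (cu (i, s)) F) := by
      rw [key]
      rintro ⟨τ, hτ⟩
      rw [pimg, Finset.mem_filter] at hn
      obtain ⟨-, c, hc, hcn⟩ := hn
      have := hτ c hc
      rw [hcn] at this
      exact this
    unfold un
    rw [if_neg h1]
  · rw [if_neg hn]
    have h1 : SatF (insert (cu (i, s)) F) ↔ SatF (pimg (fun c => c) (pimg (red i s) F)) := by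
      rw [key]
      constructor
      · rintro ⟨τ, hτ⟩
        refine ⟨τ, fun d hd => ?_⟩
        rw [pimg, Finset.mem_filter] at hd
        obtain ⟨-, e, he, hed⟩ := hd
        rw [pimg, Finset.mem_filter] at he
        obtain ⟨-, c, hc, hce⟩ := he
        have := hτ c hc
        rw [hce, hed] at this
        exact this
      · rintro ⟨τ, hτ⟩
        refine ⟨τ, fun c hc => ?_⟩
        rcases hr : red i s c with _ | _ | d
        · trivial
        · exfalso
          apply hn
          rw [pimg, Finset.mem_filter]
          exact ⟨Finset.mem_univ _, c, hc, hr⟩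
        · refine hτ d ?_
          rw [pimg, Finset.mem_filter]
          refine ⟨Finset.mem_univ _, some d, ?_, rfl⟩
          rw [pimg, Finset.mem_filter]
          exact ⟨Finset.mem_univ _, c, hc, hr⟩
    unfold un
    by_cases hs : SatF (insert (cu (i, s)) F)
    · rw [if_pos hs, if_pos (h1.1 hs)]
    · rw [if_neg hs, if_neg (fun h => hs (h1.2 h))]

end Pool.Agent.Lib.MP_9cae81_R
end

section

open Finset Filter MeasureTheory
open scoped BigOperators Topology

namespace Pool.Agent.Lib.MP_9cae81_R

variable {V : Type} [Fintype V] [DecidableEq V]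

omit [Fintype V] in
private theorem C2_bij (i : V) (s : Bool) : Function.Bijective (rl i s) := by
  constructor
  · rintro ⟨v, t⟩ ⟨v', t'⟩ h
    unfold rl at h
    by_cases h1 : v = i
    · by_cases h2 : v' = i
      · simp only [h1, h2, dif_pos, Sum.inl.injEq] at h
        subst h1
        subst h2
        revert h
        cases t <;> cases t' <;> cases s <;> simp
      · simp [h1, h2] at h
    · by_cases h2 : v' = i
      · simp [h1, h2] at h
      · simp only [h1, h2, dif_neg, not_false_eq_true, Sum.inr.injEq, Prod.mk.injEq,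
          Subtype.mk.injEq] at h
        exact Prod.ext h.1 h.2
  · rintro (b | ⟨⟨j, hj⟩, t⟩)
    · cases b
      · exact ⟨(i, !s), by unfold rl; simp⟩
      · exact ⟨(i, s), by unfold rl; simp⟩
    · exact ⟨(j, t), by unfold rl; simp [hj]⟩

private theorem C2_sum (i : V) (s : Bool) (G : Bool ⊕ Lt {j : V // j ≠ i} → ℝ) :
    ∑ l : Lt V, G (rl i s l) = G (Sum.inl true) + G (Sum.inl false) + ∑ b, G (Sum.inr b) := by
  rw [Fintype.sum_equiv (Equiv.ofBijective (rl i s) (C2_bij i s)) (fun l => G (rl i s l)) G
    (fun _ => rfl), Fintype.sum_sum_type, Fintype.sum_bool]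

omit [DecidableEq V] in
private theorem C2_cl (f : Cl V → ℝ) :
    ∑ c : Cl V, f c = ∑ a, f (Sum.inl a) + (∑ a, ∑ b, f (Sum.inr (Sum.inl (a, b))) +
      ∑ a, ∑ b, ∑ c, f (Sum.inr (Sum.inr (a, b, c)))) := by
  have h2 := Fintype.sum_prod_type (fun q : Lt V × Lt V => f (Sum.inr (Sum.inl q)))
  have h3 := Fintype.sum_prod_type (fun q : Lt V × Lt V × Lt V => f (Sum.inr (Sum.inr q)))
  have h4 : ∀ a : Lt V, ∑ q : Lt V × Lt V, f (Sum.inr (Sum.inr (a, q))) =
      ∑ b, ∑ c, f (Sum.inr (Sum.inr (a, b, c))) := fun a =>
    Fintype.sum_prod_type (fun q : Lt V × Lt V => f (Sum.inr (Sum.inr (a, q))))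
  rw [Fintype.sum_sum_type, Fintype.sum_sum_type]
  refine congrArg₂ (· + ·) rfl (congrArg₂ (· + ·) h2 (h3.trans ?_))
  exact Finset.sum_congr rfl fun a _ => h4 a

/-- The sum over all clauses of a function of the reduction. -/
private theorem C2_main (i : V) (s : Bool) (u v w : ℝ)
    (e : Option (Option (Cl {j : V // j ≠ i}))) :
    (∑ c : Cl V, if red i s c = e then qq u v w c else 0) =
      ((if (none : Option (Option (Cl {j : V // j ≠ i}))) = e then u else 0) +
        (if some none = e then u else 0) +
        ∑ a, if some (some (cu a)) = e then u else 0) +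
      (∑ z : Bool ⊕ Lt {j : V // j ≠ i}, ∑ z' : Bool ⊕ Lt {j : V // j ≠ i},
          (if red2 z z' = e then v else 0) +
       ∑ z : Bool ⊕ Lt {j : V // j ≠ i}, ∑ z' : Bool ⊕ Lt {j : V // j ≠ i},
        ∑ z'' : Bool ⊕ Lt {j : V // j ≠ i}, (if red3 z z' z'' = e then w else 0)) := by
  have hb' : ∀ G : Bool ⊕ Lt {j : V // j ≠ i} → ℝ, ∑ l : Lt V, G (rl i s l) = ∑ z, G z :=
    fun G => Fintype.sum_equiv (Equiv.ofBijective (rl i s) (C2_bij i s))
      (fun l => G (rl i s l)) G (fun _ => rfl)
  rw [C2_cl]
  refine congrArg₂ (· + ·) ?_ ?_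
  · exact C2_sum i s (fun z => if red1 z = e then u else 0)
  · refine congrArg₂ (· + ·) ?_ ?_
    · rw [← hb' (fun z => ∑ z', if red2 z z' = e then v else 0)]
      refine Finset.sum_congr rfl fun a _ => ?_
      exact hb' (fun z' => if red2 (rl i s a) z' = e then v else 0)
    · rw [← hb' (fun z => ∑ z', ∑ z'', if red3 z z' z'' = e then w else 0)]
      refine Finset.sum_congr rfl fun a _ => ?_
      rw [← hb' (fun z' => ∑ z'', if red3 (rl i s a) z' z'' = e then w else 0)]
      refine Finset.sum_congr rfl fun b _ => ?_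
      exact hb' (fun z'' => if red3 (rl i s a) (rl i s b) z'' = e then w else 0)

private theorem C2_one {X : Type} [Fintype X] [DecidableEq X] (a0 : X) (w : ℝ) :
    ∑ a : X, (if a = a0 then w else 0) = w := by simp

private theorem C2_two {X : Type} [Fintype X] [DecidableEq X] (a0 b0 : X) (w : ℝ) :
    ∑ a : X, ∑ b : X, (if a = a0 ∧ b = b0 then w else 0) = w := by
  rw [Finset.sum_eq_single a0, Finset.sum_eq_single b0]
  · simp
  · intro b _ hb
    simp [hb]
  · simp
  · intro b _ hb
    simp [hb]
  · simp

private theorem C2_three {X : Type} [Fintype X] [DecidableEq X] (a0 b0 c0 : X) (w : ℝ) :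
    ∑ a : X, ∑ b : X, ∑ c : X, (if a = a0 ∧ b = b0 ∧ c = c0 then w else 0) = w := by
  rw [Finset.sum_eq_single a0]
  · simpa using C2_two b0 c0 w
  · intro b _ hb
    simp [hb]
  · simp

/-- Total intensity of the clauses that become the empty clause: only the unit clause `(i, !s)`, the
pair and the triple all of whose literals are `(i, !s)`. -/
theorem red_none (i : V) (s : Bool) (u v w : ℝ) :
    (∑ c : Cl V, if red i s c = some none then qq u v w c else 0) = u + v + w := by
  rw [C2_main]
  simp [Fintype.sum_sum_type, red1, red2, red3, add_assoc]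

/-- Total intensity of the clauses that become a given clause `d` of the other variables.  With
`m = (i, !s)`: a unit clause `cu b` comes from `cu b`, from the 2 pairs with one entry `m` and from
the 3 triples with two entries `m`; a pair `cp a b` comes from `cp a b` and from the 3 triples with
one entry `m`; a triple comes from itself. -/
theorem red_some (i : V) (s : Bool) (u v w : ℝ) (d : Cl {j : V // j ≠ i}) :
    (∑ c : Cl V, if red i s c = some (some d) then qq u v w c else 0) =
      qq (u + 2 * v + 3 * w) (v + 3 * w) w d := by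
  rw [C2_main]
  rcases d with b0 | ⟨a0, b0⟩ | ⟨a0, b0, c0⟩
  · simp only [Fintype.sum_sum_type, Fintype.sum_bool, red1, red2, red3, cu, cp, ct, qq,
      Option.some.injEq, Sum.inl.injEq, reduceCtorEq, if_false, C2_one, Finset.sum_const_zero,
      Finset.sum_add_distrib]
    ring
  · simp only [Fintype.sum_sum_type, Fintype.sum_bool, red1, red2, red3, cu, cp, ct, qq,
      Option.some.injEq, Sum.inl.injEq, Sum.inr.injEq, Prod.mk.injEq, reduceCtorEq, if_false,
      C2_two, Finset.sum_const_zero, Finset.sum_add_distrib]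
    ring
  · simp only [Fintype.sum_sum_type, Fintype.sum_bool, red1, red2, red3, cu, cp, ct, qq,
      Option.some.injEq, Sum.inr.injEq, Prod.mk.injEq, reduceCtorEq, if_false,
      C2_three, Finset.sum_const_zero, Finset.sum_add_distrib]
    ring

end Pool.Agent.Lib.MP_9cae81_R
end

section

open Finset Filter MeasureTheory
open scoped BigOperators Topology

namespace Pool.Agent.Lib.MP_9cae81_R

variable {V : Type} [Fintype V] [DecidableEq V]

/-- **The exact recursion.**  Proof: `un_red`; `EE_pimg` with `φ = red i s` turns the left side into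
`EE q' (fun G => if none ∈ G then 1 else un (pimg (fun c => c) G))` with `q' none = u + v + w`
(`red_none`) and `q' (some d) = qq (u+2v+3w) (v+3w) w d` (`red_some`).  `EE_split` at the
coordinate `none`: on `insert none G` the function is `1`, on `G.erase none` it is
`un (pimg (fun c => c) G)` (erasing `none` does not change `pimg (fun c => c)`).  Finally
`EE q' (fun G => un (pimg (fun c => c) G)) = EE (fun d => q' (some d)) un` by `EE_pimg` with
`φ = fun c => c : Option _ → Option _`. -/
theorem rec_one (i : V) (s : Bool) (u v w : ℝ) :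
    EE (qq u v w) (fun F : Finset (Cl V) => un (insert (cu (i, s)) F)) =
      1 - Real.exp (-(u + v + w)) *
        (1 - EE (qq (u + 2 * v + 3 * w) (v + 3 * w) w)
          (un : Finset (Cl {j : V // j ≠ i}) → ℝ)) := by
  have h1 : (fun F : Finset (Cl V) => un (insert (cu (i, s)) F)) =
      fun F => (fun G : Finset (Option (Cl {j : V // j ≠ i})) =>
        if none ∈ G then (1 : ℝ) else un (pimg (fun c => c) G)) (pimg (red i s) F) := by
    funext F
    exact un_red i s F
  rw [h1, EE_pimg (qq u v w) (red i s) (fun G : Finset (Option (Cl {j : V // j ≠ i})) =>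
    if none ∈ G then (1 : ℝ) else un (pimg (fun c => c) G))]
  have hn : (∑ c : Cl V, if red i s c = some none then qq u v w c else 0) = u + v + w :=
    red_none i s u v w
  have hs : ∀ d : Cl {j : V // j ≠ i}, (∑ c : Cl V, if red i s c = some (some d) then qq u v w c else 0) =
      qq (u + 2 * v + 3 * w) (v + 3 * w) w d := red_some i s u v w
  generalize hq : (fun k : Option (Cl {j : V // j ≠ i}) =>
    ∑ c : Cl V, if red i s c = some k then qq u v w c else 0) = q'
  have hn' : q' none = u + v + w := by rw [← hq]; exact hn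
  have hs' : ∀ d : Cl {j : V // j ≠ i}, q' (some d) = qq (u + 2 * v + 3 * w) (v + 3 * w) w d := by
    intro d; rw [← hq]; exact hs d
  rw [EE_split q' none, hn']
  have e1 : (fun F : Finset (Option (Cl {j : V // j ≠ i})) =>
      (if none ∈ insert none F then (1 : ℝ) else un (pimg (fun c => c) (insert none F)))) =
      fun _ => 1 := by
    funext F
    simp
  have e2 : (fun F : Finset (Option (Cl {j : V // j ≠ i})) =>
      (if none ∈ F.erase none then (1 : ℝ) else un (pimg (fun c => c) (F.erase none)))) =
      fun F => un (pimg (fun c => c) F) := by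
    funext F
    have h2 : pimg (fun c => c) (F.erase none) = pimg (fun c => c) F := by
      ext d
      simp [pimg]
    simp [h2]
  rw [e1, e2, EE_const, EE_pimg q' (fun c => c) (un : Finset (Cl {j : V // j ≠ i}) → ℝ)]
  have e3 : (fun k : Cl {j : V // j ≠ i} =>
      ∑ c : Option (Cl {j : V // j ≠ i}), if c = some k then q' c else 0) =
      qq (u + 2 * v + 3 * w) (v + 3 * w) w := by
    funext k
    rw [Finset.sum_ite_eq']
    simp [hs' k]
  rw [e3]
  ring

end Pool.Agent.Lib.MP_9cae81_R
end
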