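import Pool.Agent.Lib.MP_9cae81_R.Defs
import Pool.Agent.Lib.MP_9cae81_R.Mg.G009
import Pool.Agent.Lib.MP_9cae81_R.Mg.G011
import Pool.Agent.Lib.MP_9cae81_R.Mg.G002
import Pool.Agent.Lib.MP_9cae81_R.Mg.G010

section

open Finset Filter MeasureTheory
open scoped BigOperators Topology

namespace Pool.Agent.Lib.MP_9cae81_R

/-- The scalar inequality behind `cubic_ineq`. -/
private theorem E10_scalar {a β γ t f g P : ℝ} (h0 : 0 ≤ a * t - β * t ^ 2 + γ * t ^ 3)
    (ht : 0 ≤ t) (hg : 0 ≤ g) (hfg : f - t = g) (hf : f ≤ 1 / 2) (hP : f * g ≤ P) :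
    β * f ^ 2 - γ * f ^ 3 ≤ a * t + (2 * max β 0 + 3 / 2 * max (-γ) 0) * P := by
  have hft : t ≤ f := by linarith
  have hf0 : 0 ≤ f := le_trans ht hft
  have hfg0 : 0 ≤ f * g := mul_nonneg hf0 hg
  have hM : 0 ≤ max β 0 := le_max_right _ _
  have hN : 0 ≤ max (-γ) 0 := le_max_right _ _
  have hMb : β ≤ max β 0 := le_max_left _ _
  have hNb : -γ ≤ max (-γ) 0 := le_max_left _ _
  have e2 : f ^ 2 - t ^ 2 = g * (f + t) := by rw [← hfg]; ring
  have e3 : f ^ 3 - t ^ 3 = g * (f ^ 2 + f * t + t ^ 2) := by rw [← hfg]; ring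
  have a2 : 0 ≤ f ^ 2 - t ^ 2 := by rw [e2]; positivity
  have a3 : 0 ≤ f ^ 3 - t ^ 3 := by rw [e3]; positivity
  have b2 : f ^ 2 - t ^ 2 ≤ 2 * (f * g) := by
    rw [e2]
    have : g * (f + t) ≤ g * (2 * f) := mul_le_mul_of_nonneg_left (by linarith) hg
    linarith
  have b3 : f ^ 3 - t ^ 3 ≤ 3 / 2 * (f * g) := by
    rw [e3]
    have c1 : f * t ≤ f * f := mul_le_mul_of_nonneg_left hft hf0
    have c2 : t * t ≤ f * f := mul_le_mul hft hft ht hf0
    have c3 : f * f ≤ f * (1 / 2) := mul_le_mul_of_nonneg_left hf hf0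
    have : g * (f ^ 2 + f * t + t ^ 2) ≤ g * (3 / 2 * f) :=
      mul_le_mul_of_nonneg_left (by nlinarith) hg
    linarith
  have d2 : β * (f ^ 2 - t ^ 2) ≤ max β 0 * (2 * P) := by
    have h1 : β * (f ^ 2 - t ^ 2) ≤ max β 0 * (f ^ 2 - t ^ 2) :=
      mul_le_mul_of_nonneg_right hMb a2
    have h2 : max β 0 * (f ^ 2 - t ^ 2) ≤ max β 0 * (2 * P) :=
      mul_le_mul_of_nonneg_left (by linarith) hM
    linarith
  have d3 : -γ * (f ^ 3 - t ^ 3) ≤ max (-γ) 0 * (3 / 2 * P) := by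
    have h1 : -γ * (f ^ 3 - t ^ 3) ≤ max (-γ) 0 * (f ^ 3 - t ^ 3) :=
      mul_le_mul_of_nonneg_right hNb a3
    have h2 : max (-γ) 0 * (f ^ 3 - t ^ 3) ≤ max (-γ) 0 * (3 / 2 * P) :=
      mul_le_mul_of_nonneg_left (by linarith) hN
    linarith
  linarith

/-- The pointwise cubic inequality, integrated.  Proof.  For every `F`, with `t = fT F ∈ [0,1/2]`:
`0 ≤ a t - β t^2 + γ t^3`.  With `f = fN F ≥ t`, `f - t = (1 - un F) * m2 F =: g ≥ 0`, `f ≤ 1/2` and
`f g ≤ m2 F * av F` (`m2_av`): `β (f^2 - t^2) ≤ max β 0 * g * 2 f` and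
`-γ (f^3 - t^3) ≤ max (-γ) 0 * g * 3 f^2 ≤ max (-γ) 0 * (3/2) * f g`.  Sum up:
`β f^2 - γ f^3 ≤ a t + (2 max β 0 + (3/2) max (-γ) 0) (m2 F * av F)`; multiply by `n` and take `EE`
(the intensities are nonnegative, `EE_mono`). -/
theorem cubic_ineq {n : ℕ} (hn : 1 ≤ n) {l x y : ℝ} (hl : 0 ≤ l) (hx : 0 ≤ x) (hy : 0 ≤ y)
    {a β γ : ℝ} (h : ∀ t : ℝ, 0 ≤ t → t ≤ 1 / 2 → 0 ≤ a * t - β * t ^ 2 + γ * t ^ 3) :
    β * ZX n l x y - γ * ZY n l x y ≤
      n * a * AA n l x y + (2 * max β 0 + 3 / 2 * max (-γ) 0) * (n * RR n l x y) := by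
  have key : ∀ F : Finset (Cl (Fin n)), β * fN F ^ 2 - γ * fN F ^ 3 ≤
      a * fT F + (2 * max β 0 + 3 / 2 * max (-γ) 0) * (m2 F * av F) := by
    intro F
    obtain ⟨t0, t1, t2⟩ := fT_range hn F
    obtain ⟨f0, f1⟩ := fN_range hn F
    have hgF : fN F - fT F = (1 - un F) * m2 F := by unfold fT; ring
    exact E10_scalar (h (fT F) t0 t1) t0 (by linarith) hgF f1 (m2_av hn F).1
  have hE := EE_mono (qs_nonneg n hl hx hy) key
  rw [EE_sub (qs n l x y) (fun F => β * fN F ^ 2) (fun F => γ * fN F ^ 3),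
    EE_add (qs n l x y) (fun F => a * fT F)
      (fun F => (2 * max β 0 + 3 / 2 * max (-γ) 0) * (m2 F * av F)),
    EE_mul_left (qs n l x y) β (fun F => fN F ^ 2), EE_mul_left (qs n l x y) γ (fun F => fN F ^ 3),
    EE_mul_left (qs n l x y) a fT,
    EE_mul_left (qs n l x y) (2 * max β 0 + 3 / 2 * max (-γ) 0) (fun F => m2 F * av F)] at hE
  have hn0 : (0 : ℝ) ≤ n := Nat.cast_nonneg n
  have hm := mul_le_mul_of_nonneg_left hE hn0
  unfold ZX ZY AA RR
  calc β * (n * EE (qs n l x y) (fun F => fN F ^ 2)) - γ * (n * EE (qs n l x y) (fun F => fN F ^ 3))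
      = n * (β * EE (qs n l x y) (fun F => fN F ^ 2) - γ * EE (qs n l x y) (fun F => fN F ^ 3)) := by
        ring
    _ ≤ n * (a * EE (qs n l x y) fT + (2 * max β 0 + 3 / 2 * max (-γ) 0) *
          EE (qs n l x y) (fun F => m2 F * av F)) := hm
    _ = _ := by ring

end Pool.Agent.Lib.MP_9cae81_R
end

section

open Finset Filter MeasureTheory
open scoped BigOperators Topology

namespace Pool.Agent.Lib.MP_9cae81_R

/-- The exact recursion in scaled form.  Proof.  `ZZ + ZL = EE av` (`fN_av`), i.e. the average over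
the literals `a = (i, s)` of `EE (un (insert (cu a) F))`, each equal to
`1 - exp(-(u+v+w)) (1 - EE (qq (u+2v+3w) (v+3w) w) un)` over `{j : Fin n // j ≠ i}` (`rec_one`), a type
equivalent to `Fin (n-1)` (`EE_un_equiv`; its cardinality is `n - 1`).  With `u = l/(2n)`,
`v = x/(4n)`, `w = y/(8n²)`: `u + 2v + 3w = (l + x + 3y/(4n))/(2n)`, `v + 3w = (x + 3y/(2n))/(4n)`, and
`(1 - 1/n)/(n - 1) = 1/n`. -/
theorem Z_rec {n : ℕ} (hn : 2 ≤ n) (l x y : ℝ) :
    ZZ n l x y + ZL n l x y = 1 - Real.exp (-(l / (2 * n) + x / (4 * n) + y / (8 * (n : ℝ) ^ 2))) *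
      (1 - ZZ (n - 1) ((1 - 1 / (n : ℝ)) * (l + x + 3 * y / (4 * n)))
        ((1 - 1 / (n : ℝ)) * (x + 3 * y / (2 * n))) ((1 - 1 / (n : ℝ)) ^ 2 * y)) := by
  have hn1 : 1 ≤ n := by omega
  have hn0 : (n : ℝ) ≠ 0 := by
    have : (0 : ℝ) < n := by exact_mod_cast (by omega : 0 < n)
    exact this.ne'
  have hcast : ((n - 1 : ℕ) : ℝ) = (n : ℝ) - 1 := by
    rw [Nat.cast_sub hn1]
    norm_num
  have hn2 : (n : ℝ) - 1 ≠ 0 := by
    have : (2 : ℝ) ≤ n := by exact_mod_cast hn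
    intro h
    linarith
  -- the parameters
  have hqs : qs (n - 1) ((1 - 1 / (n : ℝ)) * (l + x + 3 * y / (4 * n)))
      ((1 - 1 / (n : ℝ)) * (x + 3 * y / (2 * n))) ((1 - 1 / (n : ℝ)) ^ 2 * y) =
      qq (l / (2 * n) + 2 * (x / (4 * n)) + 3 * (y / (8 * (n : ℝ) ^ 2))) (x / (4 * n) + 3 * (y / (8 * (n : ℝ) ^ 2)))
        (y / (8 * (n : ℝ) ^ 2)) := by
    unfold qs
    rw [hcast]
    have e1 : (1 - 1 / (n : ℝ)) * (l + x + 3 * y / (4 * n)) / (2 * ((n : ℝ) - 1)) =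
        l / (2 * n) + 2 * (x / (4 * n)) + 3 * (y / (8 * (n : ℝ) ^ 2)) := by
      field_simp
      ring
    have e2 : (1 - 1 / (n : ℝ)) * (x + 3 * y / (2 * n)) / (4 * ((n : ℝ) - 1)) =
        x / (4 * n) + 3 * (y / (8 * (n : ℝ) ^ 2)) := by
      field_simp
      ring
    have e3 : (1 - 1 / (n : ℝ)) ^ 2 * y / (8 * ((n : ℝ) - 1) ^ 2) = y / (8 * (n : ℝ) ^ 2) := by
      field_simp
    rw [e1, e2, e3]
  -- the term of a literal
  have hterm : ∀ b : Lt (Fin n), EE (qs n l x y) (fun F => un (insert (cu b) F)) =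
      1 - Real.exp (-(l / (2 * n) + x / (4 * n) + y / (8 * (n : ℝ) ^ 2))) *
      (1 - ZZ (n - 1) ((1 - 1 / (n : ℝ)) * (l + x + 3 * y / (4 * n)))
        ((1 - 1 / (n : ℝ)) * (x + 3 * y / (2 * n))) ((1 - 1 / (n : ℝ)) ^ 2 * y)) := by
    rintro ⟨i, s⟩
    have hcard : Fintype.card {j : Fin n // j ≠ i} = n - 1 := by
      simp
    have h1 := rec_one i s (l / (2 * n)) (x / (4 * n)) (y / (8 * (n : ℝ) ^ 2))
    rw [EE_un_equiv (Fintype.equivFinOfCardEq hcard)] at h1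
    unfold ZZ
    rw [hqs]
    exact h1
  have hsum : ZZ n l x y + ZL n l x y = EE (qs n l x y) av := by
    unfold ZZ ZL
    rw [← EE_add]
    congr 1
    funext F
    rw [(fN_av hn1 F).1]
    ring
  have hav : EE (qs n l x y) av = (1 / (2 * (n : ℝ))) * ∑ b : Lt (Fin n), EE (qs n l x y) (fun F => un (insert (cu b) F)) := by
    rw [← EE_sum, ← EE_mul_left]
    congr 1
    funext F
    unfold av
    ring
  rw [hsum, hav, Finset.sum_congr rfl (fun b _ => hterm b), Finset.sum_const, nsmul_eq_mul]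
  have hcl : ((Finset.univ : Finset (Lt (Fin n))).card : ℝ) = 2 * n := by
    rw [Finset.card_univ]
    simp [Fintype.card_prod]
    ring
  rw [hcl, ← mul_assoc, one_div_mul_cancel (by positivity), one_mul]

/-- Difference of `Z_rec` at `y` and at `y = 0`.  With `E = exp(-(u+v)) ≤ 1`, `e = exp(-w)`,
`Z' = ZZ (n-1) ..`, `T' = TT (n-1) ..`:
left side `= E ((1 - T') - e (1 - Z')) = E ((Z' - T') + (1 - e)(1 - Z'))`, where `Z' ≥ T'`
(`ZZ_mono`), `0 ≤ 1 - Z' ≤ 1` and `1 - e ≤ w`. -/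
theorem Zt_rec {n : ℕ} (hn : 2 ≤ n) {l x y : ℝ} (hl : 0 ≤ l) (hx : 0 ≤ x) (hy : 0 ≤ y) :
    (ZZ n l x y - TT n l x) + (ZL n l x y - TL n l x) ≤
      ZZ (n - 1) ((1 - 1 / (n : ℝ)) * (l + x + 3 * y / (4 * n)))
        ((1 - 1 / (n : ℝ)) * (x + 3 * y / (2 * n))) ((1 - 1 / (n : ℝ)) ^ 2 * y) -
      TT (n - 1) ((1 - 1 / (n : ℝ)) * (l + x)) ((1 - 1 / (n : ℝ)) * x) +
      y / (8 * (n : ℝ) ^ 2) := by
  have hn1 : 1 ≤ n - 1 := by omega
  have hnr : (2 : ℝ) ≤ n := by exact_mod_cast hn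
  have hn0 : (0 : ℝ) < n := by linarith
  have hq : 0 ≤ 1 - 1 / (n : ℝ) := by
    have : 1 / (n : ℝ) ≤ 1 := by
      rw [div_le_one hn0]
      linarith
    linarith
  have h1 := Z_rec hn l x y
  have h2 := Z_rec hn l x 0
  have e1 : (1 - 1 / (n : ℝ)) * (l + x + 3 * 0 / (4 * n)) = (1 - 1 / (n : ℝ)) * (l + x) := by simp
  have e2 : (1 - 1 / (n : ℝ)) * (x + 3 * 0 / (2 * n)) = (1 - 1 / (n : ℝ)) * x := by simp
  have e3 : (1 - 1 / (n : ℝ)) ^ 2 * (0 : ℝ) = 0 := by simp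
  have e4 : l / (2 * n) + x / (4 * n) + 0 / (8 * (n : ℝ) ^ 2) = l / (2 * n) + x / (4 * n) := by simp
  rw [e1, e2, e3, e4] at h2
  set Z' := ZZ (n - 1) ((1 - 1 / (n : ℝ)) * (l + x + 3 * y / (4 * n)))
        ((1 - 1 / (n : ℝ)) * (x + 3 * y / (2 * n))) ((1 - 1 / (n : ℝ)) ^ 2 * y) with hZ'
  have hT : TT (n - 1) ((1 - 1 / (n : ℝ)) * (l + x)) ((1 - 1 / (n : ℝ)) * x) =
      ZZ (n - 1) ((1 - 1 / (n : ℝ)) * (l + x)) ((1 - 1 / (n : ℝ)) * x) 0 := rfl
  rw [hT]
  set T' := ZZ (n - 1) ((1 - 1 / (n : ℝ)) * (l + x)) ((1 - 1 / (n : ℝ)) * x) 0 with hT'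
  have hTL : TT n l x + TL n l x = ZZ n l x 0 + ZL n l x 0 := rfl
  have hy4 : 0 ≤ 3 * y / (4 * n) := by positivity
  have hy2 : 0 ≤ 3 * y / (2 * n) := by positivity
  have hTZ : T' ≤ Z' := by
    rw [hT', hZ']
    apply ZZ_mono hn1
    · exact mul_nonneg hq (by linarith)
    · exact mul_nonneg hq hx
    · exact le_refl _
    · exact mul_le_mul_of_nonneg_left (by linarith) hq
    · exact mul_le_mul_of_nonneg_left (by linarith) hq
    · exact mul_nonneg (by positivity) hy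
  have hZr : 0 ≤ Z' ∧ Z' ≤ 1 := by
    rw [hZ']
    apply ZZ_range hn1
    · exact mul_nonneg hq (by linarith)
    · exact mul_nonneg hq (by linarith)
    · exact mul_nonneg (by positivity) hy
  have hw : 0 ≤ y / (8 * (n : ℝ) ^ 2) := by positivity
  set w := y / (8 * (n : ℝ) ^ 2) with hwd
  have huv : 0 ≤ l / (2 * n) + x / (4 * n) := by positivity
  set E := Real.exp (-(l / (2 * n) + x / (4 * n))) with hE
  set e := Real.exp (-w) with he
  have hEe : Real.exp (-(l / (2 * n) + x / (4 * n) + w)) = E * e := by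
    rw [hE, he, ← Real.exp_add]
    congr 1
    ring
  rw [hEe] at h1
  have hE0 : 0 ≤ E := (Real.exp_pos _).le
  have hE1 : E ≤ 1 := Real.exp_le_one_iff.2 (by linarith)
  have he1 : e ≤ 1 := Real.exp_le_one_iff.2 (by linarith)
  have hew : 1 - e ≤ w := by
    have := Real.add_one_le_exp (-w)
    linarith
  have hkey : (ZZ n l x y - TT n l x) + (ZL n l x y - TL n l x) = E * ((Z' - T') + (1 - e) * (1 - Z')) := by
    linear_combination h1 - h2 - hTL
  rw [hkey]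
  have h3 : (1 - e) * (1 - Z') ≤ w * 1 := mul_le_mul hew (by linarith [hZr.1]) (by linarith [hZr.2]) hw
  have h4 : 0 ≤ (1 - e) * (1 - Z') := mul_nonneg (by linarith) (by linarith [hZr.2])
  calc E * ((Z' - T') + (1 - e) * (1 - Z')) ≤ 1 * ((Z' - T') + (1 - e) * (1 - Z')) :=
        mul_le_mul_of_nonneg_right hE1 (by linarith)
    _ ≤ Z' - T' + w := by linarith

end Pool.Agent.Lib.MP_9cae81_R
end

section

open Finset Filter MeasureTheory
open scoped BigOperators Topology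

namespace Pool.Agent.Lib.MP_9cae81_R

private theorem E11_K : Tendsto (fun n : ℕ => Nat.log 2 n) atTop atTop := by
  refine tendsto_atTop.2 fun b => ?_
  filter_upwards [eventually_ge_atTop (2 ^ b)] with n hn
  exact Nat.le_log_of_pow_le (by norm_num) hn

private theorem E11_pow : Tendsto (fun n : ℕ => (n : ℝ) ^ (-(1 / 3) : ℝ)) atTop (𝓝 0) :=
  (tendsto_rpow_neg_atTop (by norm_num : (0 : ℝ) < 1 / 3)).comp tendsto_natCast_atTop_atTop

private theorem E11_log :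
    Tendsto (fun n : ℕ => ((Nat.log 2 n : ℕ) : ℝ) * (n : ℝ) ^ (-(1 / 3) : ℝ)) atTop (𝓝 0) := by
  have h1 : Tendsto (fun x : ℝ => Real.log x / x ^ (1 / 3 : ℝ)) atTop (𝓝 0) :=
    (isLittleO_log_rpow_atTop (by norm_num : (0 : ℝ) < 1 / 3)).tendsto_div_nhds_zero
  have h2 : Tendsto (fun n : ℕ => (1 / Real.log 2) * (Real.log (n : ℝ) / (n : ℝ) ^ (1 / 3 : ℝ)))
      atTop (𝓝 0) := by
    have := (h1.comp tendsto_natCast_atTop_atTop).const_mul (1 / Real.log 2)
    simpa using this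
  refine squeeze_zero' (Eventually.of_forall fun n => by positivity) ?_ h2
  filter_upwards [eventually_ge_atTop 1] with n hn
  have hn0 : (0 : ℝ) < n := by exact_mod_cast hn
  have h3 : ((Nat.log 2 n : ℕ) : ℝ) ≤ Real.log n / Real.log 2 := by
    have := Real.natLog_le_logb n 2
    simpa [Real.logb] using this
  have h4 : (n : ℝ) ^ (-(1 / 3) : ℝ) = 1 / (n : ℝ) ^ (1 / 3 : ℝ) := by
    rw [Real.rpow_neg hn0.le]
    exact (one_div _).symm
  rw [h4]
  have h5 : (0 : ℝ) ≤ 1 / (n : ℝ) ^ (1 / 3 : ℝ) := by positivity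
  calc ((Nat.log 2 n : ℕ) : ℝ) * (1 / (n : ℝ) ^ (1 / 3 : ℝ))
      ≤ Real.log n / Real.log 2 * (1 / (n : ℝ) ^ (1 / 3 : ℝ)) := mul_le_mul_of_nonneg_right h3 h5
    _ = (1 / Real.log 2) * (Real.log (n : ℝ) / (n : ℝ) ^ (1 / 3 : ℝ)) := by ring

private theorem E11_le_one {n : ℕ} {l x y : ℝ} (hl : 0 ≤ l) (hx : 0 ≤ x) (hy : 0 ≤ y)
    {g : Finset (Cl (Fin n)) → ℝ} (hg : ∀ F, g F ≤ 1) : EE (qs n l x y) g ≤ 1 := by
  have := EE_mono (qs_nonneg n hl hx hy) (g := g) (h := fun _ => 1) hg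
  rwa [EE_const] at this

private theorem E11_comp {X : Type} [TopologicalSpace X] (n : ℕ) (g : Finset (Cl (Fin n)) → ℝ)
    (a b c : X → ℝ) (ha : Continuous a) (hb : Continuous b) (hc : Continuous c) :
    Continuous (fun p : X => EE (qs n (a p) (b p) (c p)) g) :=
  Continuous.comp (g := fun p : ℝ × ℝ × ℝ => EE (qs n p.1 p.2.1 p.2.2) g)
    (f := fun p : X => (a p, b p, c p)) (EE_cont n g) (ha.prodMk (hb.prodMk hc))

private theorem E11_cont3 (n : ℕ) (g : Finset (Cl (Fin n)) → ℝ) :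
    Continuous (fun p : ℝ × ℝ × ℝ => EE (qs n p.1 p.2.1 0) g) :=
  E11_comp n g (fun p : ℝ × ℝ × ℝ => p.1) (fun p => p.2.1) (fun _ => 0) continuous_fst
    continuous_snd.fst continuous_const

private theorem E11_cont2 (n : ℕ) (g : Finset (Cl (Fin n)) → ℝ) :
    Continuous (fun p : ℝ × ℝ => EE (qs n p.1 p.2 0) g) :=
  E11_comp n g (fun p : ℝ × ℝ => p.1) (fun p => p.2) (fun _ => 0) continuous_fst
    continuous_snd continuous_const

private theorem E11_conty (n : ℕ) (l x : ℝ) (g : Finset (Cl (Fin n)) → ℝ) :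
    Continuous (fun y : ℝ => EE (qs n l x y) g) :=
  E11_comp n g (fun _ : ℝ => l) (fun _ => x) (fun y => y) continuous_const continuous_const
    continuous_id

private theorem E11_dl {n : ℕ} (hn : 1 ≤ n) (l x y : ℝ) :
    HasDerivAt (fun s => ZZ n s x y) (ZL n l x y) l := by
  have := ZZ_line hn 0 x y 1 0 0 l
  simpa using this

private theorem E11_dx {n : ℕ} (hn : 1 ≤ n) (l x y : ℝ) :
    HasDerivAt (fun s => ZZ n (l + s) s y) (ZL n (l + x) x y + ZX n (l + x) x y) x := by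
  have := ZZ_line hn l 0 y 1 1 0 x
  simpa using this

private theorem E11_dy {n : ℕ} (hn : 1 ≤ n) (l x y : ℝ) :
    HasDerivAt (fun s => ZZ n l x s) (ZY n l x y) y := by
  have := ZZ_line hn l x 0 0 0 1 y
  simpa using this

/-- The model provides the analytic input.

Proof.  `C1 = 1/(1-xb)^2`, `δ` from `RR_trunc`, `K n = Nat.log 2 n`; put
`Zt n l x y = ZZ n l x y - TT n l x`, `Zl = ZL - TL`, `Zx = ZX - TX`, `Zy = ZY`, `A = AA`, `R0 = R0`,
`R = RR`, `T = TT`, `Tl = TL`, `Tx = TX`,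
`B n l x y = (ZB n (K n) l x y - ZZ n l x y) + δ (K n) + TT n l x`, and
`ε n = (K n + 1) * ((Y+1) * n^(-1/3)) + Y * δ (K n) + (Y + 1) * (TT n 0 xb + C1/n)` (for `n ≥ 1`).
Continuity: `EE_cont`, `ZB_cont`.  Derivatives: `ZZ_line` along the axes and, for `dZx`, `dTx`, along
`(1,1,0)`.  `Z0`: definition of `TT`.  `Znn`: `ZZ_mono`.  `ZlA`: `A_R0`.  `Ann, Ale, R0nn, R0R, Rle`:
`fT_range`, `m2_av`, `EE_mono`.  `crude`, `fine`: `RR_trunc` (with `ZB + δ = Zt + B`).  `Bint`: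
`ZB_small`, `TT_le`, `∫_0^Y TT n l x dy = Y * TT n l x`.  `Aint`: `AA ≤ ZL` and `ZL_small`.  `Tle`:
`TT_le`.  `cubic`: `cubic_ineq` (`Zx + Tx = ZX`).  `recur`: `Zt_rec`.  `mono`: `ZZ_mono`.
`ε → 0`: `K n * n^(-1/3) → 0`, `δ (K n) → 0`, `T_zero`. -/
theorem cor_data {xb Y : ℝ} (hxb : 0 < xb) (hxb1 : xb < 1) (hY : 0 < Y) :
    ∃ ε : ℕ → ℝ, Tendsto ε atTop (𝓝 0) ∧ (∀ n, 0 ≤ ε n) ∧
      ∃ D : CorData xb Y (1 / (1 - xb) ^ 2) ε,
        ∀ (n : ℕ) (l x y : ℝ), D.Zt n l x y + D.T n l x = ZZ n l x y := by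
  obtain ⟨δ, hδ0, hδ, hfine, hcrude, -⟩ := RR_trunc hxb hxb1
  have hC1 : (1 : ℝ) ≤ 1 / (1 - xb) ^ 2 := by
    rw [le_div_iff₀ (by have : 0 < 1 - xb := by linarith
                        positivity)]
    nlinarith
  have hC0 : (0 : ℝ) ≤ 1 / (1 - xb) ^ 2 := by linarith
  have hT0 := T_zero hxb hxb1
  refine ⟨fun n => ((Nat.log 2 n : ℝ) + 1) * ((Y + 1) * ((n : ℝ) ^ (-(1 / 3) : ℝ))) +
    Y * δ (Nat.log 2 n) + (Y + 1) * (|TT n 0 xb| + (1 / (1 - xb) ^ 2) / n), ?_, ?_, ?_⟩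
  · have e1 : Tendsto (fun n : ℕ => ((Nat.log 2 n : ℝ) + 1) *
        ((Y + 1) * ((n : ℝ) ^ (-(1 / 3) : ℝ)))) atTop (𝓝 0) := by
      have := ((E11_log.add E11_pow).const_mul (Y + 1))
      simp only [add_zero, mul_zero] at this
      refine this.congr fun n => ?_
      ring
    have e2 : Tendsto (fun n : ℕ => Y * δ (Nat.log 2 n)) atTop (𝓝 0) := by
      have := (hδ0.comp E11_K).const_mul Y
      simpa using this
    have e3 : Tendsto (fun n : ℕ => (1 / (1 - xb) ^ 2) / (n : ℝ)) atTop (𝓝 0) :=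
      tendsto_const_div_atTop_nhds_zero_nat _
    have e4 : Tendsto (fun n : ℕ => (Y + 1) * (|TT n 0 xb| + (1 / (1 - xb) ^ 2) / n))
        atTop (𝓝 0) := by
      have := (hT0.abs.add e3).const_mul (Y + 1)
      simpa using this
    have := (e1.add e2).add e4
    simpa using this
  · intro n
    have := hδ (Nat.log 2 n)
    positivity
  have hlsq : ∀ l : ℝ, 0 ≤ l → 1 ≤ (1 + l) ^ 2 := fun l hl => by nlinarith
  have hTT : ∀ (n : ℕ) (l x : ℝ), 1 ≤ n → 0 ≤ l → 0 ≤ x → 0 ≤ TT n l x :=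
    fun n l x hn hl hx => (ZZ_range hn hl hx (le_refl 0)).1
  have hKn : ∀ n : ℕ, (0 : ℝ) ≤ (Nat.log 2 n : ℝ) := fun n => Nat.cast_nonneg _
  have hpn : ∀ n : ℕ, (0 : ℝ) ≤ (n : ℝ) ^ (-(1 / 3) : ℝ) := fun n =>
    Real.rpow_nonneg (Nat.cast_nonneg _) _
  have hTle : ∀ (n : ℕ) (l x : ℝ), 1 ≤ n → 0 ≤ l → 0 ≤ x → x ≤ xb →
      TT n l x ≤ (|TT n 0 xb| + (1 / (1 - xb) ^ 2) / n) * (1 + l) ^ 2 := by
    intro n l x hn hl hx hxx
    have h1 := TT_le hxb hxb1 hn hl hx hxx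
    have h2 := le_abs_self (TT n 0 xb)
    have h3 := hlsq l hl
    have h4 : |TT n 0 xb| ≤ |TT n 0 xb| * (1 + l) ^ 2 := le_mul_of_one_le_right (abs_nonneg _) h3
    calc TT n l x ≤ TT n 0 xb + (1 / (1 - xb) ^ 2) * (1 + l) ^ 2 / n := h1
      _ ≤ |TT n 0 xb| * (1 + l) ^ 2 + (1 / (1 - xb) ^ 2) * (1 + l) ^ 2 / n := by linarith
      _ = (|TT n 0 xb| + (1 / (1 - xb) ^ 2) / n) * (1 + l) ^ 2 := by ring
  refine ⟨{ Zt := fun n l x y => ZZ n l x y - TT n l x
            Zl := fun n l x y => ZL n l x y - TL n l x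
            Zx := fun n l x y => ZX n l x y - TX n l x
            Zy := ZY
            A := AA
            R0 := Pool.Agent.Lib.MP_9cae81_R.R0
            R := RR
            B := fun n l x y => (ZB n (Nat.log 2 n) l x y - ZZ n l x y) + δ (Nat.log 2 n) + TT n l x
            T := TT
            Tl := TL
            Tx := TX
            cZt := ?_
            cZl := ?_
            cZx := ?_
            cZy := ?_
            cA := ?_
            cR0 := ?_
            cR := ?_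
            cB := ?_
            cT := ?_
            cTl := ?_
            cTx := ?_
            dZl := ?_
            dZx := ?_
            dZy := ?_
            dTl := ?_
            dTx := ?_
            Z0 := ?_
            Znn := ?_
            Zle := ?_
            ZlA := ?_
            Ann := ?_
            Ale := ?_
            R0nn := ?_
            R0R := ?_
            Rle := ?_
            crude := ?_
            fine := ?_
            Bnn := ?_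
            Bint := ?_
            Aint := ?_
            Tnn := ?_
            Tle := ?_
            Tlnn := ?_
            Txnn := ?_
            cubic := ?_
            recur := ?_
            mono := ?_ }, ?_⟩
  · exact fun n => (EE_cont n _).sub (E11_cont3 n _)
  · exact fun n => (EE_cont n _).sub (E11_cont3 n _)
  · exact fun n => ((EE_cont n _).const_mul _).sub ((E11_cont3 n _).const_mul _)
  · exact fun n => (EE_cont n _).const_mul _
  · exact fun n => EE_cont n _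
  · exact fun n => EE_cont n _
  · exact fun n => EE_cont n _
  · exact fun n => (((ZB_cont n _).sub (EE_cont n _)).add continuous_const).add (E11_cont3 n _)
  · exact fun n => E11_cont2 n _
  · exact fun n => E11_cont2 n _
  · exact fun n => (E11_cont2 n _).const_mul _
  · exact fun n l x y hn => (E11_dl hn l x y).sub (E11_dl hn l x 0)
  · intro n l x y hn
    have := (E11_dx hn l x y).sub (E11_dx hn l x 0)
    refine this.congr_deriv ?_
    show _ = (ZL n (l + x) x y - ZL n (l + x) x 0) + (ZX n (l + x) x y - ZX n (l + x) x 0)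
    ring
  · exact fun n l x y hn => (E11_dy hn l x y).sub_const _
  · exact fun n l x hn => E11_dl hn l x 0
  · exact fun n l x hn => E11_dx hn l x 0
  · intro n l x hn
    show ZZ n l x 0 - ZZ n l x 0 = 0
    ring
  · intro n l x y hn hl hx hy
    exact sub_nonneg.2 (ZZ_mono hn hl hx (le_refl 0) (le_refl l) (le_refl x) hy)
  · intro n l x y hn hl hx hy
    have h1 := (ZZ_range hn hl hx hy).2
    have h2 := hTT n l x hn hl hx
    show ZZ n l x y - TT n l x ≤ 1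
    linarith
  · exact fun n l x y hn => A_R0 n l x y
  · exact fun n l x y hn hl hx hy => EE_nonneg (qs_nonneg n hl hx hy) fun F => (fT_range hn F).1
  · exact fun n l x y hn hl hx hy => E11_le_one hl hx hy fun F => by
      have := (fT_range hn F).2.1
      linarith
  · exact fun n l x y hn hl hx hy => EE_nonneg (qs_nonneg n hl hx hy) fun F =>
      (m2_av hn F).2.2.1
  · exact fun n l x y hn hl hx hy => EE_mono (qs_nonneg n hl hx hy) fun F => (m2_av hn F).2.1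
  · exact fun n l x y hn hl hx hy => E11_le_one hl hx hy fun F => (m2_av hn F).2.2.2
  · exact fun n l x y hn hl hx hxx hy => hcrude n hn l x y hl hx hxx hy
  · intro n l x y hn hl hx hxx hy
    have h1 := hfine n hn l x y hl hx hxx hy (Nat.log 2 n)
    have h2 : (ZZ n l x y - TT n l x) + ((ZB n (Nat.log 2 n) l x y - ZZ n l x y) +
        δ (Nat.log 2 n) + TT n l x) = ZB n (Nat.log 2 n) l x y + δ (Nat.log 2 n) := by ring
    show (n : ℝ) * RR n l x y ≤ (1 / (1 - xb) ^ 2) * (1 + l) * ((ZZ n l x y - TT n l x) +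
      ((ZB n (Nat.log 2 n) l x y - ZZ n l x y) + δ (Nat.log 2 n) + TT n l x))
    rw [h2]
    exact h1
  · intro n l x y hn hl hx hy
    have h1 := (ZB_mono hn (le_refl (Nat.log 2 n)) hl hx hy).2.2.2
    have h2 := hTT n l x hn hl hx
    have h3 := hδ (Nat.log 2 n)
    show 0 ≤ (ZB n (Nat.log 2 n) l x y - ZZ n l x y) + δ (Nat.log 2 n) + TT n l x
    linarith
  · intro n l x hn hl hx hxx
    have h1 := ZB_small hn (Nat.log 2 n) hl hx hY.le
    have h2 := hTle n l x hn hl hx hxx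
    have h3 := hlsq l hl
    have i1 : IntervalIntegrable (fun y => ZB n (Nat.log 2 n) l x y - ZZ n l x y) volume 0 Y := by
      refine Continuous.intervalIntegrable ?_ _ _
      exact ((ZB_cont n _).comp (by fun_prop : Continuous fun y : ℝ => (l, x, y))).sub
        (E11_conty n l x _)
    have h4 : ∫ y in (0 : ℝ)..Y, ((ZB n (Nat.log 2 n) l x y - ZZ n l x y) + δ (Nat.log 2 n) +
        TT n l x) = (∫ y in (0 : ℝ)..Y, (ZB n (Nat.log 2 n) l x y - ZZ n l x y)) +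
        Y * δ (Nat.log 2 n) + Y * TT n l x := by
      have e : (fun y => (ZB n (Nat.log 2 n) l x y - ZZ n l x y) + δ (Nat.log 2 n) + TT n l x) =
          fun y => (ZB n (Nat.log 2 n) l x y - ZZ n l x y) + (δ (Nat.log 2 n) + TT n l x) := by
        funext y
        ring
      rw [e, intervalIntegral.integral_add i1 intervalIntegrable_const,
        intervalIntegral.integral_const]
      simp only [sub_zero, smul_eq_mul]
      ring
    show ∫ y in (0 : ℝ)..Y, ((ZB n (Nat.log 2 n) l x y - ZZ n l x y) + δ (Nat.log 2 n) +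
        TT n l x) ≤ _
    rw [h4]
    have hp := hpn n
    have hk := hKn n
    have hd := hδ (Nat.log 2 n)
    have a1 : (0 : ℝ) ≤ (Y + 1) * ((n : ℝ) ^ (-(1 / 3) : ℝ)) := by positivity
    have a2 : (0 : ℝ) ≤ |TT n 0 xb| + (1 / (1 - xb) ^ 2) / n := by positivity
    have b1 : (Nat.log 2 n : ℝ) * ((Y + 1) * ((n : ℝ) ^ (-(1 / 3) : ℝ))) ≤
        (((Nat.log 2 n : ℝ) + 1) * ((Y + 1) * ((n : ℝ) ^ (-(1 / 3) : ℝ)))) * (1 + l) ^ 2 := by
      have c1 : (Nat.log 2 n : ℝ) * ((Y + 1) * ((n : ℝ) ^ (-(1 / 3) : ℝ))) ≤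
          ((Nat.log 2 n : ℝ) + 1) * ((Y + 1) * ((n : ℝ) ^ (-(1 / 3) : ℝ))) := by
        refine mul_le_mul_of_nonneg_right ?_ a1
        linarith
      exact c1.trans (le_mul_of_one_le_right (by positivity) h3)
    have b2 : Y * δ (Nat.log 2 n) ≤ (Y * δ (Nat.log 2 n)) * (1 + l) ^ 2 :=
      le_mul_of_one_le_right (by positivity) h3
    have b3 : Y * TT n l x ≤ ((Y + 1) * (|TT n 0 xb| + (1 / (1 - xb) ^ 2) / n)) * (1 + l) ^ 2 := by
      have c1 : Y * TT n l x ≤ Y * ((|TT n 0 xb| + (1 / (1 - xb) ^ 2) / n) * (1 + l) ^ 2) :=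
        mul_le_mul_of_nonneg_left h2 hY.le
      have c2 : (0 : ℝ) ≤ (|TT n 0 xb| + (1 / (1 - xb) ^ 2) / n) * (1 + l) ^ 2 := by positivity
      linarith
    show _ ≤ (((Nat.log 2 n : ℝ) + 1) * ((Y + 1) * ((n : ℝ) ^ (-(1 / 3) : ℝ))) +
      Y * δ (Nat.log 2 n) + (Y + 1) * (|TT n 0 xb| + (1 / (1 - xb) ^ 2) / n)) * (1 + l) ^ 2
    rw [add_mul, add_mul]
    linarith
  · intro n l x hn hl hx hxx
    have h1 := ZL_small hn hl hx hY.le
    have h2 : ∫ y in (0 : ℝ)..Y, AA n l x y ≤ ∫ y in (0 : ℝ)..Y, ZL n l x y := by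
      refine intervalIntegral.integral_mono_on hY.le
        ((E11_conty n l x _).intervalIntegrable _ _)
        ((E11_conty n l x _).intervalIntegrable _ _) ?_
      intro y hy
      exact EE_mono (qs_nonneg n hl hx hy.1) fun F => (fT_range hn F).2.2
    have hp := hpn n
    have hk := hKn n
    have hd := hδ (Nat.log 2 n)
    have a1 : (0 : ℝ) ≤ (Y + 1) * ((n : ℝ) ^ (-(1 / 3) : ℝ)) := by positivity
    have a2 : (0 : ℝ) ≤ (Y + 1) * (|TT n 0 xb| + (1 / (1 - xb) ^ 2) / n) := by positivity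
    have a3 : (0 : ℝ) ≤ Y * δ (Nat.log 2 n) := by positivity
    have a4 := mul_nonneg hk a1
    show _ ≤ ((Nat.log 2 n : ℝ) + 1) * ((Y + 1) * ((n : ℝ) ^ (-(1 / 3) : ℝ))) +
      Y * δ (Nat.log 2 n) + (Y + 1) * (|TT n 0 xb| + (1 / (1 - xb) ^ 2) / n)
    rw [add_mul]
    linarith
  · exact hTT
  · intro n l x hn hl hx hxx
    have h2 := hTle n l x hn hl hx hxx
    have h3 := hlsq l hl
    have hp := hpn n
    have hk := hKn n
    have hd := hδ (Nat.log 2 n)
    have c2 : (0 : ℝ) ≤ (|TT n 0 xb| + (1 / (1 - xb) ^ 2) / n) * (1 + l) ^ 2 := by positivity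
    have a1 : (0 : ℝ) ≤ (((Nat.log 2 n : ℝ) + 1) * ((Y + 1) * ((n : ℝ) ^ (-(1 / 3) : ℝ)))) *
      (1 + l) ^ 2 := by positivity
    have a3 : (0 : ℝ) ≤ (Y * δ (Nat.log 2 n)) * (1 + l) ^ 2 := by positivity
    have a4 : (0 : ℝ) ≤ Y * ((|TT n 0 xb| + (1 / (1 - xb) ^ 2) / n) * (1 + l) ^ 2) := by positivity
    show _ ≤ (((Nat.log 2 n : ℝ) + 1) * ((Y + 1) * ((n : ℝ) ^ (-(1 / 3) : ℝ))) +
      Y * δ (Nat.log 2 n) + (Y + 1) * (|TT n 0 xb| + (1 / (1 - xb) ^ 2) / n)) * (1 + l) ^ 2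
    rw [add_mul, add_mul]
    linarith
  · exact fun n l x hn hl hx => EE_nonneg (qs_nonneg n hl hx (le_refl 0)) fun F =>
      (fN_range hn F).1
  · exact fun n l x hn hl hx => mul_nonneg (Nat.cast_nonneg _)
      (EE_nonneg (qs_nonneg n hl hx (le_refl 0)) fun F => sq_nonneg _)
  · intro n l x y hn hl hx hy a β γ h
    have := cubic_ineq hn hl hx hy h
    show β * ((ZX n l x y - TX n l x) + TX n l x) - γ * ZY n l x y ≤ _
    rw [sub_add_cancel]
    exact this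
  · intro n l x y hn hl hx hy
    have := Zt_rec hn hl hx hy
    refine this.trans (le_of_eq ?_)
    ring
  · intro n x y x' y' hn hx hy hx' hy'
    have := ZZ_mono hn (le_refl 0) hx hy (le_refl 0) hx' hy'
    show (ZZ n 0 x y - TT n 0 x) + TT n 0 x ≤ (ZZ n 0 x' y' - TT n 0 x') + TT n 0 x'
    rw [sub_add_cancel, sub_add_cancel]
    exact this
  · intro n l x y
    show (ZZ n l x y - TT n l x) + TT n l x = ZZ n l x y
    ring

end Pool.Agent.Lib.MP_9cae81_R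
end
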