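import Pool.Agent.Lib.MP_9cae81_R.Defs
import Pool.Agent.Lib.MP_9cae81_R.Mg.G003

section

open Finset Filter MeasureTheory
open scoped BigOperators Topology

namespace Pool.Agent.Lib.MP_9cae81_R

/-- Shift of a small function of one variable.  Proof.  For fixed `y`, `d = 3y/(2n) ≤ 3Y/(2n)`, `n`
large: substituting, `∫_0^1 w(x,y) τ(θ(x+d)) dx = ∫_0^1 w(x-d,y) τ(θ x) dx` (the supports
`[xa, xc]` and `[xa+d, xc+d]` lie in `[0,1]`), so the difference of the two integrals is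
`∫_0^1 (w(x-d,y) - w(x,y)) τ(θ x) dx`, where the integrand vanishes for `x > xc + d` (and there
`xc + d ≤ xb`), and `|w(x-d,y) - w(x,y)| ≤ d * sup |wx|` (sup over `[-1,1] × [0,Y]`).  So it is at most
`(3Y/(2n)) sup|wx| S` for `0 ≤ τ ≤ S` on `[0, xb]`; integrate over `y ∈ [0,Y]`:
`L = (3/2) Y² sup |wx|`. -/
theorem T_shift {xa xc xb Y : ℝ} (w : Test xa xc Y) (hY : 0 ≤ Y) (hxa : 0 < xa) (hxc : xc < xb)
    (hxb : xb < 1) :
    ∃ L : ℝ, 0 ≤ L ∧ ∀ᶠ n : ℕ in atTop, ∀ (τ : ℝ → ℝ) (S : ℝ), Continuous τ → 0 ≤ S →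
      (∀ z, 0 ≤ z → z ≤ xb → 0 ≤ τ z ∧ τ z ≤ S) →
      I2 Y (fun x y => w.w x y * (τ ((1 - 1 / (n : ℝ)) * (x + 3 * y / (2 * n))) -
        τ ((1 - 1 / (n : ℝ)) * x))) ≤ L * S / n := by
  obtain ⟨M0, hM0⟩ := ((isCompact_Icc (a := (-1 : ℝ)) (b := 1)).prod (isCompact_Icc (a := (0 : ℝ)) (b := Y))).exists_bound_of_continuousOn
    (f := fun p : ℝ × ℝ => w.wx p.1 p.2) w.cwx.continuousOn
  obtain ⟨M, hM, hMb⟩ : ∃ M : ℝ, 0 ≤ M ∧ ∀ x y, -1 ≤ x → x ≤ 1 → 0 ≤ y → y ≤ Y → ‖w.wx x y‖ ≤ M := by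
    refine ⟨max M0 0, le_max_right _ _, ?_⟩
    intro x y h1 h2 h3 h4
    exact (hM0 (x, y) ⟨⟨h1, h2⟩, ⟨h3, h4⟩⟩).trans (le_max_left _ _)
  refine ⟨3 / 2 * Y ^ 2 * M, by positivity, ?_⟩
  have hlim : Tendsto (fun n : ℕ => (3 * Y / 2) / (n : ℝ)) atTop (𝓝 0) :=
    tendsto_const_div_atTop_nhds_zero_nat (3 * Y / 2)
  have hpos : 0 < min (xb - xc) 1 := lt_min (by linarith) one_pos
  filter_upwards [hlim.eventually (gt_mem_nhds hpos), eventually_ge_atTop 1] with n hn hn1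
  intro τ S hτ hS hτS
  have hn0 : (0 : ℝ) < n := by
    have : 0 < n := hn1
    exact_mod_cast this
  have hn1' : (1 : ℝ) ≤ n := by exact_mod_cast hn1
  have hd1 : 3 * Y / 2 / (n : ℝ) < xb - xc := lt_of_lt_of_le hn (min_le_left _ _)
  have hd2 : 3 * Y / 2 / (n : ℝ) < 1 := lt_of_lt_of_le hn (min_le_right _ _)
  obtain ⟨θ, hθ⟩ : ∃ θ : ℝ, θ = 1 - 1 / (n : ℝ) := ⟨_, rfl⟩
  have hθ0 : 0 ≤ θ := by
    rw [hθ, sub_nonneg, div_le_one hn0]
    exact hn1'
  have hθ1 : θ ≤ 1 := by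
    rw [hθ]
    have : 0 ≤ 1 / (n : ℝ) := by positivity
    linarith
  have hin : ∀ y, 0 ≤ y → y ≤ Y → ‖∫ x in (0 : ℝ)..1, w.w x y * (τ ((1 - 1 / (n : ℝ)) * (x + 3 * y / (2 * n))) -
        τ ((1 - 1 / (n : ℝ)) * x))‖ ≤ 3 * Y / 2 / (n : ℝ) * M * S := by
    intro y hy0 hyY
    rw [← hθ]
    obtain ⟨e, he⟩ : ∃ e : ℝ, e = 3 * y / (2 * n) := ⟨_, rfl⟩
    rw [← he]
    have he0 : 0 ≤ e := by
      rw [he]
      positivity
    have heY : e ≤ 3 * Y / 2 / (n : ℝ) := by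
      rw [he, div_div]
      gcongr
    have hcf : Continuous fun x : ℝ => w.w (x - e) y * τ (θ * x) := by
      refine Continuous.mul ?_ (hτ.comp (by fun_prop))
      exact w.cw.comp (g := fun p : ℝ × ℝ => w.w p.1 p.2) (f := fun x : ℝ => (x - e, y)) (by fun_prop)
    have hcg : Continuous fun x : ℝ => w.w x y * τ (θ * x) := by
      refine Continuous.mul ?_ (hτ.comp (by fun_prop))
      exact w.cw.comp (g := fun p : ℝ × ℝ => w.w p.1 p.2) (f := fun x : ℝ => (x, y)) (by fun_prop)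
    have hch : Continuous fun x : ℝ => w.w x y * τ (θ * (x + e)) := by
      refine Continuous.mul ?_ (hτ.comp (by fun_prop))
      exact w.cw.comp (g := fun p : ℝ × ℝ => w.w p.1 p.2) (f := fun x : ℝ => (x, y)) (by fun_prop)
    have e1 : ∫ x in (0 : ℝ)..1, w.w x y * τ (θ * (x + e)) = ∫ x in (0 : ℝ)..1, w.w (x - e) y * τ (θ * x) := by
      have e2 := intervalIntegral.integral_comp_add_right (a := 0) (b := 1) (fun x : ℝ => w.w (x - e) y * τ (θ * x)) e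
      have e3 : ∀ x : ℝ, w.w (x + e - e) y * τ (θ * (x + e)) = w.w x y * τ (θ * (x + e)) := by
        intro x
        rw [add_sub_cancel_right]
      rw [intervalIntegral.integral_congr (fun x _ => e3 x)] at e2
      rw [e2, zero_add]
      have z1 : ∫ x in (0 : ℝ)..e, w.w (x - e) y * τ (θ * x) = 0 := by
        have z2 : ∫ x in (0 : ℝ)..e, w.w (x - e) y * τ (θ * x) = ∫ x in (0 : ℝ)..e, (0 : ℝ) := by
          refine intervalIntegral.integral_congr ?_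
          intro x hx
          rw [Set.uIcc_of_le he0] at hx
          have : w.w (x - e) y = 0 := w.left _ _ hy0 (by linarith [hx.2])
          change w.w (x - e) y * τ (θ * x) = 0
          rw [this, zero_mul]
        rw [z2, intervalIntegral.integral_zero]
      have z3 : ∫ x in (1 : ℝ)..(1 + e), w.w (x - e) y * τ (θ * x) = 0 := by
        have z2 : ∫ x in (1 : ℝ)..(1 + e), w.w (x - e) y * τ (θ * x) = ∫ x in (1 : ℝ)..(1 + e), (0 : ℝ) := by
          refine intervalIntegral.integral_congr ?_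
          intro x hx
          rw [Set.uIcc_of_le (by linarith)] at hx
          have : w.w (x - e) y = 0 := w.right _ _ hy0 (by linarith [hx.1])
          change w.w (x - e) y * τ (θ * x) = 0
          rw [this, zero_mul]
        rw [z2, intervalIntegral.integral_zero]
      have a1 := intervalIntegral.integral_add_adjacent_intervals (hcf.intervalIntegrable (μ := volume) 0 e) (hcf.intervalIntegrable (μ := volume) e (1 + e))
      have a2 := intervalIntegral.integral_add_adjacent_intervals (hcf.intervalIntegrable (μ := volume) 0 1) (hcf.intervalIntegrable (μ := volume) 1 (1 + e))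
      rw [z1, zero_add] at a1
      rw [z3, add_zero] at a2
      rw [a1, a2]
    have e4 : ∫ x in (0 : ℝ)..1, w.w x y * (τ (θ * (x + e)) - τ (θ * x)) =
        ∫ x in (0 : ℝ)..1, (w.w (x - e) y - w.w x y) * τ (θ * x) := by
      have e5 : ∫ x in (0 : ℝ)..1, w.w x y * (τ (θ * (x + e)) - τ (θ * x)) =
          ∫ x in (0 : ℝ)..1, (w.w x y * τ (θ * (x + e)) - w.w x y * τ (θ * x)) := by
        refine intervalIntegral.integral_congr ?_
        intro x _
        change w.w x y * (τ (θ * (x + e)) - τ (θ * x)) = w.w x y * τ (θ * (x + e)) - w.w x y * τ (θ * x)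
        ring
      have e6 : ∫ x in (0 : ℝ)..1, (w.w (x - e) y - w.w x y) * τ (θ * x) =
          ∫ x in (0 : ℝ)..1, (w.w (x - e) y * τ (θ * x) - w.w x y * τ (θ * x)) := by
        refine intervalIntegral.integral_congr ?_
        intro x _
        change (w.w (x - e) y - w.w x y) * τ (θ * x) = w.w (x - e) y * τ (θ * x) - w.w x y * τ (θ * x)
        ring
      rw [e5, e6, intervalIntegral.integral_sub (hch.intervalIntegrable _ _) (hcg.intervalIntegrable _ _),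
        intervalIntegral.integral_sub (hcf.intervalIntegrable _ _) (hcg.intervalIntegrable _ _), e1]
    rw [e4]
    have hb : ∀ x ∈ Set.uIoc (0 : ℝ) 1, ‖(w.w (x - e) y - w.w x y) * τ (θ * x)‖ ≤ 3 * Y / 2 / (n : ℝ) * M * S := by
      intro x hx
      rw [Set.uIoc_of_le zero_le_one] at hx
      have hC : 0 ≤ 3 * Y / 2 / (n : ℝ) * M * S := by positivity
      rcases le_or_gt x xb with hxx | hxx
      · have h1 : ‖w.w (x - e) y - w.w x y‖ ≤ M * ‖(x - e) - x‖ := by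
          refine Convex.norm_image_sub_le_of_norm_hasDerivWithin_le (f := fun s => w.w s y) (f' := fun s => w.wx s y)
            (s := Set.Icc (-1 : ℝ) 1) (fun s _ => (w.dwx s y).hasDerivWithinAt) ?_ (convex_Icc _ _) ?_ ?_
          · intro s hs
            exact hMb s y hs.1 hs.2 hy0 hyY
          · exact ⟨by linarith [hx.1], hx.2⟩
          · exact ⟨by linarith [hx.1], by linarith [hx.2]⟩
        have h2 : ‖(x - e) - x‖ = e := by
          rw [sub_sub_cancel_left, norm_neg, Real.norm_eq_abs, abs_of_nonneg he0]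
        have hθx : θ * x ≤ xb := by
          have : θ * x ≤ 1 * x := mul_le_mul_of_nonneg_right hθ1 hx.1.le
          linarith
        have h3 := hτS (θ * x) (mul_nonneg hθ0 hx.1.le) hθx
        have h4 : ‖τ (θ * x)‖ ≤ S := by
          rw [Real.norm_eq_abs, abs_of_nonneg h3.1]
          exact h3.2
        rw [h2] at h1
        rw [norm_mul]
        calc ‖w.w (x - e) y - w.w x y‖ * ‖τ (θ * x)‖ ≤ (M * e) * S := by
              refine mul_le_mul h1 h4 (norm_nonneg _) (by positivity)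
          _ ≤ (M * (3 * Y / 2 / (n : ℝ))) * S := by gcongr
          _ = 3 * Y / 2 / (n : ℝ) * M * S := by ring
      · have h5 : w.w x y = 0 := w.right _ _ hy0 (by linarith)
        have h6 : w.w (x - e) y = 0 := w.right _ _ hy0 (by linarith)
        rw [h5, h6, sub_zero, zero_mul, norm_zero]
        exact hC
    have h7 := intervalIntegral.norm_integral_le_of_norm_le_const hb
    rwa [sub_zero, abs_one, mul_one] at h7
  have hout := intervalIntegral.norm_integral_le_of_norm_le_const (a := (0 : ℝ)) (b := Y) (C := 3 * Y / 2 / (n : ℝ) * M * S)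
    (f := fun y : ℝ => ∫ x in (0 : ℝ)..1, w.w x y * (τ ((1 - 1 / (n : ℝ)) * (x + 3 * y / (2 * n))) -
        τ ((1 - 1 / (n : ℝ)) * x))) (by
      intro y hy
      rw [Set.uIoc_of_le hY] at hy
      exact hin y hy.1.le hy.2)
  have hfin : I2 Y (fun x y => w.w x y * (τ ((1 - 1 / (n : ℝ)) * (x + 3 * y / (2 * n))) -
        τ ((1 - 1 / (n : ℝ)) * x))) ≤ 3 * Y / 2 / (n : ℝ) * M * S * |Y - 0| := (le_abs_self _).trans hout
  refine hfin.trans (le_of_eq ?_)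
  rw [sub_zero, abs_of_nonneg hY]
  ring

end Pool.Agent.Lib.MP_9cae81_R
end

section

open Finset Filter MeasureTheory
open scoped BigOperators Topology

namespace Pool.Agent.Lib.MP_9cae81_R

/-- The pointwise algebra with real variables. -/
private theorem F11_aux {n N l x y κ d e1 Cb C1 Zt Zl Zx Zy A R0 R B Tx : ℝ} (hn : 0 < n) (hNn : N ≤ n)
    (hN : n / 2 ≤ N) (hl : 0 ≤ l) (hx1 : x ≤ 1) (hC1 : 0 ≤ C1)
    (ha : 0 ≤ 1 - x - e1) (ha1 : 1 - x - e1 ≤ 1)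
    (hβ : |3 / 2 * y - x + κ * d| ≤ Cb) (hγ : |2 * y - κ| ≤ Cb)
    (hZl : Zl = A - R0) (hA : 0 ≤ A) (hR0 : 0 ≤ R0) (hR0R : R0 ≤ R) (hTx : 0 ≤ Tx)
    (hZB : 0 ≤ Zt + B) (hfine : N * R ≤ C1 * (1 + (l + x)) * (Zt + B))
    (hcub : (3 / 2 * y - x + κ * d) * (Zx + Tx) - (2 * y - κ) * Zy ≤
      N * (1 - x - e1) * A + (2 * max (3 / 2 * y - x + κ * d) 0 + 3 / 2 * max (-(2 * y - κ)) 0) * (N * R)) :
    1 / n * ((3 / 2 * y - x) * (Zl + Zx) - 2 * y * Zy) ≤
      (1 - x - e1) * Zl - 1 / n * (κ * d * (Zl + Zx) + κ * Zy) +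
      (4 + 8 * Cb) * C1 * (1 + l) / n * (Zt + B) + Cb / n * (A + R + Tx) := by
  have hR : 0 ≤ R := le_trans hR0 hR0R
  have hCb : 0 ≤ Cb := le_trans (abs_nonneg _) hβ
  have hN0 : 0 ≤ N := by linarith
  set β := 3 / 2 * y - x + κ * d with hβd
  set γ := 2 * y - κ with hγd
  set a := 1 - x - e1 with had
  have hF0 : 0 ≤ C1 * (1 + l) * (Zt + B) := by positivity
  have hNR : N * R ≤ 2 * (C1 * (1 + l) * (Zt + B)) := by
    refine le_trans hfine ?_
    have h1 : 0 ≤ C1 * (Zt + B) := mul_nonneg hC1 hZB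
    nlinarith
  have hNR0 : 0 ≤ N * R := mul_nonneg hN0 hR
  have hnR : n * R ≤ 4 * (C1 * (1 + l) * (Zt + B)) := by
    have h1 : n / 2 * R ≤ N * R := mul_le_mul_of_nonneg_right hN hR
    linarith
  have hmb : max β 0 ≤ Cb := max_le (le_trans (le_abs_self _) hβ) hCb
  have hmg : max (-γ) 0 ≤ Cb := max_le (le_trans (neg_le_abs _) hγ) hCb
  have h2 : (2 * max β 0 + 3 / 2 * max (-γ) 0) * (N * R) ≤ (7 / 2 * Cb) * (N * R) := by
    refine mul_le_mul_of_nonneg_right ?_ hNR0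
    linarith
  have h3 : (7 / 2 * Cb) * (N * R) ≤ 7 * Cb * (C1 * (1 + l) * (Zt + B)) := by
    have := mul_le_mul_of_nonneg_left hNR (by positivity : 0 ≤ 7 / 2 * Cb)
    linarith
  have h4 : N * a * A ≤ n * a * Zl + n * R := by
    have h5 : N * a * A ≤ n * a * A := by
      have := mul_le_mul_of_nonneg_right hNn (mul_nonneg ha hA)
      nlinarith
    have h6 : n * a * A = n * a * Zl + n * (a * R0) := by rw [hZl]; ring
    have h7 : a * R0 ≤ R := by
      calc a * R0 ≤ 1 * R0 := mul_le_mul_of_nonneg_right ha1 hR0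
        _ = R0 := one_mul _
        _ ≤ R := hR0R
    have h8 : n * (a * R0) ≤ n * R := mul_le_mul_of_nonneg_left h7 hn.le
    linarith
  have h9 : β * (Zl - Tx) ≤ Cb * (A + R + Tx) := by
    have h10 : |Zl - Tx| ≤ A + R + Tx := by
      rw [abs_le, hZl]
      constructor <;> linarith
    calc β * (Zl - Tx) ≤ |β * (Zl - Tx)| := le_abs_self _
      _ = |β| * |Zl - Tx| := abs_mul _ _
      _ ≤ Cb * (A + R + Tx) := mul_le_mul hβ h10 (abs_nonneg _) hCb
  have hCF : 0 ≤ Cb * (C1 * (1 + l) * (Zt + B)) := mul_nonneg hCb hF0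
  have hkey : β * (Zl + Zx) - γ * Zy ≤
      n * (a * Zl) + (4 + 8 * Cb) * (C1 * (1 + l) * (Zt + B)) + Cb * (A + R + Tx) := by
    have e1' : β * (Zl + Zx) - γ * Zy = (β * (Zx + Tx) - γ * Zy) + β * (Zl - Tx) := by ring
    rw [e1']
    nlinarith
  have hinv : 0 ≤ 1 / n := by positivity
  have h11 := mul_le_mul_of_nonneg_left hkey hinv
  have e2 : 1 / n * (n * (a * Zl) + (4 + 8 * Cb) * (C1 * (1 + l) * (Zt + B)) + Cb * (A + R + Tx)) =
      a * Zl + (4 + 8 * Cb) * C1 * (1 + l) / n * (Zt + B) + Cb / n * (A + R + Tx) := by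
    field_simp
  rw [e2] at h11
  have e3 : 1 / n * (β * (Zl + Zx) - γ * Zy) =
      1 / n * ((3 / 2 * y - x) * (Zl + Zx) - 2 * y * Zy) + 1 / n * (κ * d * (Zl + Zx) + κ * Zy) := by
    rw [hβd, hγd]; ring
  rw [e3] at h11
  linarith

/-- Pointwise gradient inequality.  Proof.  Write `N = n - 1`, all functions at `(N, l+x, x, y)`,
`a = 1 - x - e1 ∈ [0,1]`, `β = 3/2 y - x + κ d`, `γ = 2y - κ`.  Algebra:
`(3/2 y - x)(Zl + Zx) - 2 y Zy = (β (Zx + Tx) - γ Zy) - κ d (Zl + Zx) - κ Zy + β (Zl - Tx)`.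
`cubic` (the hypothesis times `t`): `β (Zx+Tx) - γ Zy ≤ N a A + (2 max β 0 + 3/2 max (-γ) 0) (N R)
≤ N a A + (7/2) Cb (N R)`.  `a A = a (Zl + R0) ≤ a Zl + R`; `N/n ≤ 1`, `a A ≥ 0`.
`N R ≤ C1 (1 + l + x) (Zt + B) ≤ 2 C1 (1+l) (Zt + B)` (`fine`), so `R ≤ 4 C1 (1+l) (Zt+B)/n` as
`N ≥ n/2`.  `β (Zl - Tx) ≤ Cb (A + R + Tx)` as `|Zl| ≤ A + R0 ≤ A + R`.  Sum:
`(4 + 7 Cb) C1 (1+l)(Zt+B)/n + Cb (A+R+Tx)/n`. -/
theorem grad_point {xb Y C1 : ℝ} {ε : ℕ → ℝ} (D : CorData xb Y C1 ε) (hxb : xb < 1)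
    (hC1 : 0 ≤ C1) {n : ℕ} (hn : 2 ≤ n) {l x y κ d e1 Cb : ℝ} (hl : 0 ≤ l) (hx : 0 ≤ x)
    (hxx : x ≤ xb) (hy : 0 ≤ y) (he1 : 0 < e1) (ha : 0 ≤ 1 - x - e1)
    (hS : ∀ t : ℝ, 0 ≤ t → t ≤ 1 / 2 →
      0 ≤ (1 - x - e1) - (3 / 2 * y - x + κ * d) * t + (2 * y - κ) * t ^ 2)
    (hβ : |3 / 2 * y - x + κ * d| ≤ Cb) (hγ : |2 * y - κ| ≤ Cb) :
    1 / (n : ℝ) * ((3 / 2 * y - x) * (D.Zl (n - 1) (l + x) x y + D.Zx (n - 1) (l + x) x y) -
        2 * y * D.Zy (n - 1) (l + x) x y) ≤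
      (1 - x - e1) * D.Zl (n - 1) (l + x) x y -
      1 / (n : ℝ) * (κ * d * (D.Zl (n - 1) (l + x) x y + D.Zx (n - 1) (l + x) x y) +
        κ * D.Zy (n - 1) (l + x) x y) +
      (4 + 8 * Cb) * C1 * (1 + l) / n * (D.Zt (n - 1) (l + x) x y + D.B (n - 1) (l + x) x y) +
      Cb / n * (D.A (n - 1) (l + x) x y + D.R (n - 1) (l + x) x y +
        D.Tx (n - 1) (l + x) x) := by
  have hN1 : 1 ≤ n - 1 := by omega
  have hL : 0 ≤ l + x := by linarith
  have hn0 : (0 : ℝ) < n := by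
    have : (2 : ℝ) ≤ n := by exact_mod_cast hn
    linarith
  have hNc : ((n - 1 : ℕ) : ℝ) = (n : ℝ) - 1 := by
    rw [Nat.cast_sub (by omega)]; norm_num
  have hn2 : (2 : ℝ) ≤ n := by exact_mod_cast hn
  refine F11_aux (N := ((n - 1 : ℕ) : ℝ)) (R0 := D.R0 (n - 1) (l + x) x y) hn0 (by rw [hNc]; linarith)
    (by rw [hNc]; linarith) hl (by linarith) hC1 ha (by linarith) hβ hγ (D.ZlA _ _ _ _ hN1)
    (D.Ann _ _ _ _ hN1 hL hx hy) (D.R0nn _ _ _ _ hN1 hL hx hy) (D.R0R _ _ _ _ hN1 hL hx hy)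
    (D.Txnn _ _ _ hN1 hL hx) (add_nonneg (D.Znn _ _ _ _ hN1 hL hx hy) (D.Bnn _ _ _ _ hN1 hL hx hy))
    (D.fine _ _ _ _ hN1 hL hx hxx hy) (D.cubic _ _ _ _ hN1 hL hx hy _ _ _ ?_)
  intro t ht0 ht1
  have h := mul_nonneg ht0 (hS t ht0 ht1)
  have e : t * ((1 - x - e1) - (3 / 2 * y - x + κ * d) * t + (2 * y - κ) * t ^ 2) =
      (1 - x - e1) * t - (3 / 2 * y - x + κ * d) * t ^ 2 + (2 * y - κ) * t ^ 3 := by ring
  rw [e] at h
  exact h

end Pool.Agent.Lib.MP_9cae81_R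
end
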