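import Pool.Agent.Lib.MP_9cae81_R.Defs
import Pool.Agent.Lib.MP_9cae81_R.Mg.G003
import Pool.Agent.Lib.MP_9cae81_R.Mg.G005

section

open Finset Filter MeasureTheory
open scoped BigOperators Topology

namespace Pool.Agent.Lib.MP_9cae81_R

/-- The error integrals, for `0 ≤ w ≤ M` vanishing for `x > xc`, `n ≥ 1`.  Proof.  `B`, `A`:
`I2_fiber` with `h x y = B n (l+x) x y` resp. `A n (l+x) x y`, `Bint`, `Aint`
(`1 + l + x ≤ 2 + l`).  `R`: `crude` gives `R ≤ C1 (2+l)/n` for `x ≤ xb`.  `Tx`: for each `y`,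
`∫_0^1 w Tx(l+x, x) dx ≤ M ∫_0^{xb} (Tl + Tx)(l+x,x) dx = M (T n (l+xb) xb - T n l 0)
≤ M ε n (2+l)^2` (`dTx`, `Tlnn`, `Tnn`, `Tle`). -/
theorem err_int {xb Y C1 : ℝ} {ε : ℕ → ℝ} (D : CorData xb Y C1 ε) (hε0 : ∀ n, 0 ≤ ε n)
    {xa xc : ℝ} (w : Test xa xc Y) (hxa : 0 < xa) (hxc : xc < xb) (hxb : xb < 1) (hY : 0 < Y)
    (hC1 : 0 ≤ C1) {M : ℝ} (hM : ∀ x y, 0 ≤ x → x ≤ 1 → 0 ≤ y → y ≤ Y → w.w x y ≤ M)
    (hM0 : 0 ≤ M) {n : ℕ} (hn : 1 ≤ n) {l : ℝ} (hl : 0 ≤ l) :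
    I2 Y (fun x y => w.w x y * D.B n (l + x) x y) ≤ M * (ε n * (2 + l) ^ 2) ∧
    I2 Y (fun x y => w.w x y * D.A n (l + x) x y) ≤ M * ε n ∧
    I2 Y (fun x y => w.w x y * D.R n (l + x) x y) ≤ M * Y * (C1 * (2 + l) / n) ∧
    I2 Y (fun x y => w.w x y * D.Tx n (l + x) x) ≤ M * Y * (ε n * (2 + l) ^ 2) := by
  have hn0 : (0 : ℝ) < n := by exact_mod_cast hn
  have hw : CR Y w.w := w.cw.continuousOn
  have w0 : ∀ x y, 0 ≤ x → x ≤ 1 → 0 ≤ y → y ≤ Y → 0 ≤ w.w x y ∧ w.w x y ≤ M :=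
    fun x y h1 h2 h3 h4 => ⟨w.nn x y, hM x y h1 h2 h3 h4⟩
  have wout : ∀ x y, 0 ≤ x → x ≤ 1 → xb < x → 0 ≤ y → y ≤ Y → w.w x y = 0 :=
    fun x y _ _ h3 h4 _ => w.right x y h4 (hxc.trans h3).le
  have hcomp : Continuous fun p : ℝ × ℝ => ((l + p.1, p.1, p.2) : ℝ × ℝ × ℝ) := by fun_prop
  have hcomp2 : Continuous fun p : ℝ × ℝ => ((l + p.1, p.1) : ℝ × ℝ) := by fun_prop
  have hsq : ∀ x, 0 ≤ x → x ≤ 1 → ε n * (1 + (l + x)) ^ 2 ≤ ε n * (2 + l) ^ 2 := fun x h1 h2 =>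
    mul_le_mul_of_nonneg_left (pow_le_pow_left₀ (by linarith) (by linarith) 2) (hε0 n)
  refine ⟨?_, ?_, ?_, ?_⟩
  · refine I2_fiber (h := fun x y => D.B n (l + x) x y) hY.le hw
      ((D.cB n).comp hcomp).continuousOn (xb := xb) hM0
      (mul_nonneg (hε0 n) (sq_nonneg _)) w0 wout
      (fun x y h1 _ _ h4 _ => D.Bnn n (l + x) x y hn (by linarith) h1 h4) ?_
    intro x h1 h2 h3
    exact (D.Bint n (l + x) x hn (by linarith) h1 h3).trans (hsq x h1 h2)
  · refine I2_fiber (h := fun x y => D.A n (l + x) x y) hY.le hw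
      ((D.cA n).comp hcomp).continuousOn (xb := xb) hM0 (hε0 n) w0 wout
      (fun x y h1 _ _ h4 _ => D.Ann n (l + x) x y hn (by linarith) h1 h4) ?_
    intro x h1 _ h3
    exact D.Aint n (l + x) x hn (by linarith) h1 h3
  · have hc0 : 0 ≤ C1 * (2 + l) / n := by positivity
    rw [mul_assoc]
    refine I2_fiber (h := fun x y => D.R n (l + x) x y) hY.le hw
      ((D.cR n).comp hcomp).continuousOn (xb := xb) hM0
      (mul_nonneg hY.le hc0) w0 wout
      (fun x y h1 _ _ h4 _ => (D.R0nn n (l + x) x y hn (by linarith) h1 h4).trans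
        (D.R0R n (l + x) x y hn (by linarith) h1 h4)) ?_
    intro x h1 h2 h3
    have hcont : Continuous fun y : ℝ => D.R n (l + x) x y :=
      (D.cR n).comp (by fun_prop : Continuous fun y : ℝ => ((l + x, x, y) : ℝ × ℝ × ℝ))
    have h4 : ∫ y in (0 : ℝ)..Y, D.R n (l + x) x y ≤ ∫ _y in (0 : ℝ)..Y, C1 * (2 + l) / n := by
      refine intervalIntegral.integral_mono_on hY.le (hcont.intervalIntegrable _ _)
        (continuous_const.intervalIntegrable _ _) ?_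
      intro y hy
      rw [le_div_iff₀ hn0]
      have h5 := D.crude n (l + x) x y hn (by linarith) h1 h3 hy.1
      have h6 : C1 * (1 + (l + x)) ≤ C1 * (2 + l) := mul_le_mul_of_nonneg_left (by linarith) hC1
      nlinarith [h5, h6]
    refine h4.trans (le_of_eq ?_)
    rw [intervalIntegral.integral_const, smul_eq_mul, sub_zero]
  · have hc0 : 0 ≤ M * (ε n * (2 + l) ^ 2) := mul_nonneg hM0 (mul_nonneg (hε0 n) (sq_nonneg _))
    have hcT : Continuous fun p : ℝ × ℝ => w.w p.1 p.2 * D.Tx n (l + p.1) p.1 :=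
      w.cw.mul ((D.cTx n).comp hcomp2)
    have hin : ∀ y ∈ Set.Icc (0 : ℝ) Y, ∫ x in (0 : ℝ)..1, w.w x y * D.Tx n (l + x) x ≤
        M * (ε n * (2 + l) ^ 2) := by
      intro y hy
      have hcx : Continuous fun x : ℝ => w.w x y * D.Tx n (l + x) x :=
        hcT.comp (by fun_prop : Continuous fun x : ℝ => ((x, y) : ℝ × ℝ))
      by_cases hb : xb < 0
      · have h1 : ∫ x in (0 : ℝ)..1, w.w x y * D.Tx n (l + x) x = ∫ _x in (0 : ℝ)..1, (0 : ℝ) := by
          refine intervalIntegral.integral_congr fun x hx => ?_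
          rw [Set.uIcc_of_le zero_le_one] at hx
          change w.w x y * D.Tx n (l + x) x = 0
          rw [w.right x y hy.1 (by linarith [hx.1]), zero_mul]
        rw [h1, intervalIntegral.integral_zero]
        exact hc0
      · push Not at hb
        have hsplit : ∫ x in (0 : ℝ)..1, w.w x y * D.Tx n (l + x) x =
            ∫ x in (0 : ℝ)..xb, w.w x y * D.Tx n (l + x) x := by
          rw [← intervalIntegral.integral_add_adjacent_intervals
            (hcx.intervalIntegrable 0 xb) (hcx.intervalIntegrable xb 1)]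
          have h1 : ∫ x in xb..1, w.w x y * D.Tx n (l + x) x = ∫ _x in xb..1, (0 : ℝ) := by
            refine intervalIntegral.integral_congr fun x hx => ?_
            rw [Set.uIcc_of_le hxb.le] at hx
            change w.w x y * D.Tx n (l + x) x = 0
            rw [w.right x y hy.1 (by linarith [hx.1]), zero_mul]
          rw [h1, intervalIntegral.integral_zero, add_zero]
        have hcl : Continuous fun x : ℝ => D.Tl n (l + x) x :=
          (D.cTl n).comp (by fun_prop : Continuous fun x : ℝ => ((l + x, x) : ℝ × ℝ))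
        have hcx' : Continuous fun x : ℝ => D.Tx n (l + x) x :=
          (D.cTx n).comp (by fun_prop : Continuous fun x : ℝ => ((l + x, x) : ℝ × ℝ))
        have h2 : ∫ x in (0 : ℝ)..xb, w.w x y * D.Tx n (l + x) x ≤
            ∫ x in (0 : ℝ)..xb, M * (D.Tl n (l + x) x + D.Tx n (l + x) x) := by
          refine intervalIntegral.integral_mono_on hb (hcx.intervalIntegrable _ _)
            ((continuous_const.mul (hcl.add hcx')).intervalIntegrable _ _) ?_
          intro x hx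
          have h3 : 0 ≤ D.Tx n (l + x) x := D.Txnn n (l + x) x hn (by linarith [hx.1]) hx.1
          have h4 : 0 ≤ D.Tl n (l + x) x := D.Tlnn n (l + x) x hn (by linarith [hx.1]) hx.1
          have h5 := hM x y hx.1 (by linarith [hx.2]) hy.1 hy.2
          calc w.w x y * D.Tx n (l + x) x ≤ M * D.Tx n (l + x) x :=
                mul_le_mul_of_nonneg_right h5 h3
            _ ≤ M * (D.Tl n (l + x) x + D.Tx n (l + x) x) :=
                mul_le_mul_of_nonneg_left (by linarith) hM0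
        have h6 : ∫ x in (0 : ℝ)..xb, (D.Tl n (l + x) x + D.Tx n (l + x) x) =
            D.T n (l + xb) xb - D.T n (l + 0) 0 :=
          intervalIntegral.integral_eq_sub_of_hasDerivAt (f := fun s => D.T n (l + s) s)
            (fun x _ => D.dTx n l x hn) ((hcl.add hcx').intervalIntegrable _ _)
        rw [hsplit]
        refine h2.trans ?_
        rw [intervalIntegral.integral_const_mul, h6]
        refine mul_le_mul_of_nonneg_left ?_ hM0
        have h7 := D.Tle n (l + xb) xb hn (by linarith) hb le_rfl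
        have h8 := D.Tnn n (l + 0) 0 hn (by linarith) le_rfl
        have h9 := hsq xb hb hxb.le
        linarith
    have hout : ContinuousOn (fun y => ∫ x in (0 : ℝ)..1, w.w x y * D.Tx n (l + x) x)
        (Set.Icc 0 Y) := (CR_inner hY.le (f := fun x y => w.w x y * D.Tx n (l + x) x)
          hcT.continuousOn).1
    have hfin : I2 Y (fun x y => w.w x y * D.Tx n (l + x) x) ≤
        ∫ _y in (0 : ℝ)..Y, M * (ε n * (2 + l) ^ 2) := by
      refine intervalIntegral.integral_mono_on hY.le ?_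
        (continuous_const.intervalIntegrable _ _) hin
      exact ContinuousOn.intervalIntegrable_of_Icc hY.le hout
    refine hfin.trans (le_of_eq ?_)
    rw [intervalIntegral.integral_const, smul_eq_mul, sub_zero]
    ring

end Pool.Agent.Lib.MP_9cae81_R
end

section

open Finset Filter MeasureTheory
open scoped BigOperators Topology

namespace Pool.Agent.Lib.MP_9cae81_R

private theorem F13_cr {Y : ℝ} {f : ℝ → ℝ → ℝ} (h : Continuous fun p : ℝ × ℝ => f p.1 p.2) :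
    CR Y f := h.continuousOn

private theorem F13_lin {Y : ℝ} (hY : 0 ≤ Y) {f0 f1 f2 f3 f4 f5 f6 f7 : ℝ → ℝ → ℝ}
    (h0 : Continuous fun p : ℝ × ℝ => f0 p.1 p.2) (h1 : Continuous fun p : ℝ × ℝ => f1 p.1 p.2)
    (h2 : Continuous fun p : ℝ × ℝ => f2 p.1 p.2) (h3 : Continuous fun p : ℝ × ℝ => f3 p.1 p.2)
    (h4 : Continuous fun p : ℝ × ℝ => f4 p.1 p.2) (h5 : Continuous fun p : ℝ × ℝ => f5 p.1 p.2)
    (h6 : Continuous fun p : ℝ × ℝ => f6 p.1 p.2) (h7 : Continuous fun p : ℝ × ℝ => f7 p.1 p.2)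
    {s c d : ℝ}
    (H : ∀ x y, 0 ≤ x → x ≤ 1 → 0 ≤ y → y ≤ Y →
      s * f0 x y ≤ f1 x y - s * f2 x y + c * f3 x y + c * f4 x y + d * f5 x y + d * f6 x y +
        d * f7 x y) :
    s * I2 Y f0 ≤ I2 Y f1 - s * I2 Y f2 + c * I2 Y f3 + c * I2 Y f4 + d * I2 Y f5 + d * I2 Y f6 +
        d * I2 Y f7 := by
  have k0 : Continuous fun p : ℝ × ℝ => s * f0 p.1 p.2 := continuous_const.mul h0
  have k2 : Continuous fun p : ℝ × ℝ => s * f2 p.1 p.2 := continuous_const.mul h2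
  have k3 : Continuous fun p : ℝ × ℝ => c * f3 p.1 p.2 := continuous_const.mul h3
  have k4 : Continuous fun p : ℝ × ℝ => c * f4 p.1 p.2 := continuous_const.mul h4
  have k5 : Continuous fun p : ℝ × ℝ => d * f5 p.1 p.2 := continuous_const.mul h5
  have k6 : Continuous fun p : ℝ × ℝ => d * f6 p.1 p.2 := continuous_const.mul h6
  have k7 : Continuous fun p : ℝ × ℝ => d * f7 p.1 p.2 := continuous_const.mul h7
  have m2 : Continuous fun p : ℝ × ℝ => f1 p.1 p.2 - s * f2 p.1 p.2 := h1.sub k2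
  have m3 : Continuous fun p : ℝ × ℝ => f1 p.1 p.2 - s * f2 p.1 p.2 + c * f3 p.1 p.2 := m2.add k3
  have m4 : Continuous fun p : ℝ × ℝ => f1 p.1 p.2 - s * f2 p.1 p.2 + c * f3 p.1 p.2 +
    c * f4 p.1 p.2 := m3.add k4
  have m5 : Continuous fun p : ℝ × ℝ => f1 p.1 p.2 - s * f2 p.1 p.2 + c * f3 p.1 p.2 +
    c * f4 p.1 p.2 + d * f5 p.1 p.2 := m4.add k5
  have m6 : Continuous fun p : ℝ × ℝ => f1 p.1 p.2 - s * f2 p.1 p.2 + c * f3 p.1 p.2 +
    c * f4 p.1 p.2 + d * f5 p.1 p.2 + d * f6 p.1 p.2 := m5.add k6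
  have m7 : Continuous fun p : ℝ × ℝ => f1 p.1 p.2 - s * f2 p.1 p.2 + c * f3 p.1 p.2 +
    c * f4 p.1 p.2 + d * f5 p.1 p.2 + d * f6 p.1 p.2 + d * f7 p.1 p.2 := m6.add k7
  have hle := I2_mono hY (f := fun x y => s * f0 x y)
    (g := fun x y => f1 x y - s * f2 x y + c * f3 x y + c * f4 x y + d * f5 x y + d * f6 x y +
      d * f7 x y) (F13_cr k0) (F13_cr m7) H
  rw [I2_add hY (f := fun x y => f1 x y - s * f2 x y + c * f3 x y + c * f4 x y + d * f5 x y +
      d * f6 x y) (g := fun x y => d * f7 x y) (F13_cr m6) (F13_cr k7),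
    I2_add hY (f := fun x y => f1 x y - s * f2 x y + c * f3 x y + c * f4 x y + d * f5 x y)
      (g := fun x y => d * f6 x y) (F13_cr m5) (F13_cr k6),
    I2_add hY (f := fun x y => f1 x y - s * f2 x y + c * f3 x y + c * f4 x y)
      (g := fun x y => d * f5 x y) (F13_cr m4) (F13_cr k5),
    I2_add hY (f := fun x y => f1 x y - s * f2 x y + c * f3 x y)
      (g := fun x y => c * f4 x y) (F13_cr m3) (F13_cr k4),
    I2_add hY (f := fun x y => f1 x y - s * f2 x y)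
      (g := fun x y => c * f3 x y) (F13_cr m2) (F13_cr k3),
    I2_sub hY (f := fun x y => f1 x y) (g := fun x y => s * f2 x y) (F13_cr h1) (F13_cr k2),
    I2_const_mul, I2_const_mul, I2_const_mul, I2_const_mul, I2_const_mul, I2_const_mul,
    I2_const_mul] at hle
  exact hle

private theorem F13_bound {xa xc Y : ℝ} (w : Test xa xc Y) :
    ∃ M : ℝ, 0 ≤ M ∧ ∀ x y, 0 ≤ x → x ≤ 1 → 0 ≤ y → y ≤ Y → w.w x y ≤ M := by
  have hK : IsCompact (Set.Icc (0 : ℝ) 1 ×ˢ Set.Icc (0 : ℝ) Y) := isCompact_Icc.prod isCompact_Icc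
  obtain ⟨M, hM⟩ := (hK.bddAbove_image w.cw.continuousOn)
  refine ⟨max M 0, le_max_right _ _, fun x y hx hx1 hy hy1 => ?_⟩
  refine le_trans (hM ⟨(x, y), ⟨⟨hx, hx1⟩, ⟨hy, hy1⟩⟩, rfl⟩) (le_max_left _ _)

private theorem F13_comp {f : ℝ → ℝ → ℝ → ℝ}
    (h : Continuous fun p : ℝ × ℝ × ℝ => f p.1 p.2.1 p.2.2) (l : ℝ) :
    Continuous fun p : ℝ × ℝ => f (l + p.1) p.1 p.2 := by
  have h2 : Continuous fun p : ℝ × ℝ => ((l + p.1, p.1, p.2) : ℝ × ℝ × ℝ) := by fun_prop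
  exact h.comp h2

private theorem F13_comp2 {f : ℝ → ℝ → ℝ}
    (h : Continuous fun p : ℝ × ℝ => f p.1 p.2) (l : ℝ) :
    Continuous fun p : ℝ × ℝ => f (l + p.1) p.1 := by
  have h2 : Continuous fun p : ℝ × ℝ => ((l + p.1, p.1) : ℝ × ℝ) := by fun_prop
  exact h.comp h2

private theorem F13_err {M Y C1 Cb : ℝ} (hM : 0 ≤ M) (hY : 0 < Y) (hC1 : 0 ≤ C1) (hCb : 0 ≤ Cb)
    {ε : ℕ → ℝ} (hε : Tendsto ε atTop (𝓝 0)) {e : ℝ} (he : 0 < e) :
    ∀ᶠ n : ℕ in atTop, ((4 + 8 * Cb) * C1 * M * 4 + Cb * M + 4 * Cb * M * Y) * ε (n - 1) +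
      2 * Cb * M * Y * C1 / ((n - 1 : ℕ) : ℝ) ≤ e := by
  have h1 : Tendsto (fun n : ℕ => ((4 + 8 * Cb) * C1 * M * 4 + Cb * M + 4 * Cb * M * Y) * ε n +
      2 * Cb * M * Y * C1 / (n : ℝ)) atTop
      (𝓝 (((4 + 8 * Cb) * C1 * M * 4 + Cb * M + 4 * Cb * M * Y) * 0 + 0)) := by
    refine (hε.const_mul _).add ?_
    exact tendsto_const_div_atTop_nhds_zero_nat _
  have h2 := h1.comp (tendsto_sub_atTop_nat 1)
  rw [mul_zero, zero_add] at h2
  have h3 := h2.eventually (ge_mem_nhds he)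
  filter_upwards [h3] with n hn
  exact hn

private theorem F13_arith {M Y C1 Cb e l n N E iB iA iR iT : ℝ} (hM : 0 ≤ M) (hY : 0 < Y)
    (hC1 : 0 ≤ C1) (hCb : 0 ≤ Cb) (hl : 0 ≤ l) (hn : 0 < n) (hN : 0 < N) (hE : 0 ≤ E)
    (hB : iB ≤ M * (E * (2 + l) ^ 2)) (hA : iA ≤ M * E) (hR : iR ≤ M * Y * (C1 * (2 + l) / N))
    (hT : iT ≤ M * Y * (E * (2 + l) ^ 2))
    (he : ((4 + 8 * Cb) * C1 * M * 4 + Cb * M + 4 * Cb * M * Y) * E +
      2 * Cb * M * Y * C1 / N ≤ e) :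
    (4 + 8 * Cb) * C1 * (1 + l) / n * iB + Cb / n * iA + Cb / n * iR + Cb / n * iT ≤
      e * (1 + l) ^ 3 / n := by
  have hL : 1 ≤ (1 + l) := by linarith
  have hp1 : 0 ≤ (1 + l) ^ 3 - 1 := by
    have : 1 ≤ (1 + l) ^ 3 := one_le_pow₀ hL
    linarith
  have hp2 : (2 + l) ^ 2 ≤ 4 * (1 + l) ^ 2 := by nlinarith
  have hp3 : (1 + l) ^ 2 ≤ (1 + l) ^ 3 := pow_le_pow_right₀ hL (by norm_num)
  have hp4 : (1 + l) ≤ (1 + l) ^ 3 := by
    calc (1 + l) = (1 + l) ^ 1 := by ring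
      _ ≤ (1 + l) ^ 3 := pow_le_pow_right₀ hL (by norm_num)
  have hc : 0 ≤ (4 + 8 * Cb) * C1 * (1 + l) := by positivity
  have e1 : (4 + 8 * Cb) * C1 * (1 + l) * iB ≤
      (4 + 8 * Cb) * C1 * M * 4 * E * (1 + l) ^ 3 := by
    calc (4 + 8 * Cb) * C1 * (1 + l) * iB
        ≤ (4 + 8 * Cb) * C1 * (1 + l) * (M * (E * (2 + l) ^ 2)) :=
          mul_le_mul_of_nonneg_left hB hc
      _ ≤ (4 + 8 * Cb) * C1 * (1 + l) * (M * (E * (4 * (1 + l) ^ 2))) := by
          refine mul_le_mul_of_nonneg_left ?_ hc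
          exact mul_le_mul_of_nonneg_left (mul_le_mul_of_nonneg_left hp2 hE) hM
      _ = (4 + 8 * Cb) * C1 * M * 4 * E * (1 + l) ^ 3 := by ring
  have e2 : Cb * iA ≤ Cb * M * E * (1 + l) ^ 3 := by
    calc Cb * iA ≤ Cb * (M * E) := mul_le_mul_of_nonneg_left hA hCb
      _ ≤ Cb * (M * E) + Cb * (M * E) * ((1 + l) ^ 3 - 1) := by
          have : 0 ≤ Cb * (M * E) * ((1 + l) ^ 3 - 1) := by positivity
          linarith
      _ = Cb * M * E * (1 + l) ^ 3 := by ring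
  have e3 : Cb * iR ≤ 2 * Cb * M * Y * C1 / N * (1 + l) ^ 3 := by
    have h2 : (2 + l) ≤ 2 * (1 + l) ^ 3 := by linarith
    calc Cb * iR ≤ Cb * (M * Y * (C1 * (2 + l) / N)) := mul_le_mul_of_nonneg_left hR hCb
      _ = (Cb * M * Y * C1 / N) * (2 + l) := by ring
      _ ≤ (Cb * M * Y * C1 / N) * (2 * (1 + l) ^ 3) :=
          mul_le_mul_of_nonneg_left h2 (by positivity)
      _ = 2 * Cb * M * Y * C1 / N * (1 + l) ^ 3 := by ring
  have e4 : Cb * iT ≤ 4 * Cb * M * Y * E * (1 + l) ^ 3 := by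
    have h2 : (2 + l) ^ 2 ≤ 4 * (1 + l) ^ 3 := by linarith
    calc Cb * iT ≤ Cb * (M * Y * (E * (2 + l) ^ 2)) := mul_le_mul_of_nonneg_left hT hCb
      _ = (Cb * M * Y * E) * (2 + l) ^ 2 := by ring
      _ ≤ (Cb * M * Y * E) * (4 * (1 + l) ^ 3) :=
          mul_le_mul_of_nonneg_left h2 (by positivity)
      _ = 4 * Cb * M * Y * E * (1 + l) ^ 3 := by ring
  have e5 : (((4 + 8 * Cb) * C1 * M * 4 + Cb * M + 4 * Cb * M * Y) * E +
      2 * Cb * M * Y * C1 / N) * (1 + l) ^ 3 ≤ e * (1 + l) ^ 3 :=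
    mul_le_mul_of_nonneg_right he (by positivity)
  have e6 : (4 + 8 * Cb) * C1 * (1 + l) / n * iB + Cb / n * iA + Cb / n * iR + Cb / n * iT =
      ((4 + 8 * Cb) * C1 * (1 + l) * iB + Cb * iA + Cb * iR + Cb * iT) / n := by ring
  rw [e6]
  refine div_le_div_of_nonneg_right ?_ hn.le
  linarith

/-- The gradient inequality integrated.  Proof.  Multiply `grad_point` (with `κ = κ y`, `d = dφ y`) by
`w x y` where `w x y ≠ 0` (then `0 < x < xc < xb` by `left, right`) and integrate.  The term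
`- (1/n) I2 (w (κ dφ (Zl+Zx) + κ Zy))`: by `ibp2` with `P = w κ dφ`, `Q = w κ`,
`G x y = Zt (n-1) (l+x) x y` (`G x 0 = 0` by `Z0`; `P` is differentiated in `x` only) it equals
`(1/n) I2 ((κ dφ wx + κ wy + dκ w) G) ≤ -(K/n) I2 (w G)` by `hK`.  The errors:
`(4+8Cb) C1 (1+l)/n * I2 (w B)` and `(Cb/n) I2 (w (A + R + Tx))` are at most `e (1+l)^3/n` for `n`
large by `err_int` (for `n - 1`) and `ε → 0`. -/
theorem grad_int {xb Y C1 : ℝ} {ε : ℕ → ℝ} (D : CorData xb Y C1 ε) (hε : Tendsto ε atTop (𝓝 0))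
    (hε0 : ∀ n, 0 ≤ ε n) {xa xc : ℝ} (w : Test xa xc Y) (hxa : 0 < xa) (hxc : xc < xb)
    (hxb : xb < 1) (hY : 0 < Y) (hC1 : 0 ≤ C1) {dφ κ dκ : ℝ → ℝ} (cφ : Continuous dφ)
    (dk : ∀ y, HasDerivAt κ (dκ y) y) (ck : Continuous dκ) {e1 Cb K : ℝ} (he1 : 0 < e1)
    (hS : ∀ x y, 0 ≤ y → y ≤ Y → w.w x y ≠ 0 → 0 ≤ 1 - x - e1 ∧ ∀ t : ℝ, 0 ≤ t → t ≤ 1 / 2 →
      0 ≤ (1 - x - e1) - (3 / 2 * y - x + κ y * dφ y) * t + (2 * y - κ y) * t ^ 2)
    (hCb : ∀ x y, 0 ≤ x → x ≤ 1 → 0 ≤ y → y ≤ Y →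
      |3 / 2 * y - x + κ y * dφ y| ≤ Cb ∧ |2 * y - κ y| ≤ Cb)
    (hK : ∀ x y, 0 ≤ x → x ≤ 1 → 0 ≤ y → y ≤ Y →
      κ y * dφ y * w.wx x y + κ y * w.wy x y + dκ y * w.w x y ≤ -K * w.w x y)
    {e : ℝ} (he : 0 < e) :
    ∀ᶠ n : ℕ in atTop, ∀ l : ℝ, 0 ≤ l →
      1 / (n : ℝ) * I2 Y (fun x y => w.w x y *
          ((3 / 2 * y - x) * (D.Zl (n - 1) (l + x) x y + D.Zx (n - 1) (l + x) x y) -
            2 * y * D.Zy (n - 1) (l + x) x y)) ≤
        I2 Y (fun x y => w.w x y * ((1 - x - e1) * D.Zl (n - 1) (l + x) x y)) +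
        ((4 + 8 * Cb) * C1 * (1 + l) - K) / n *
          I2 Y (fun x y => w.w x y * D.Zt (n - 1) (l + x) x y) +
        e * (1 + l) ^ 3 / n := by
  obtain ⟨M, hM0, hM⟩ := F13_bound w
  have hCb0 : 0 ≤ Cb := le_trans (abs_nonneg _) (hCb 0 0 le_rfl zero_le_one le_rfl hY.le).1
  have cκ : Continuous κ := continuous_iff_continuousAt.2 fun y => (dk y).continuousAt
  filter_upwards [F13_err hM0 hY hC1 hCb0 hε he, eventually_ge_atTop 2] with n hn hn2
  intro l hl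
  have hN1 : 1 ≤ n - 1 := by omega
  have hn0 : (0 : ℝ) < n := by
    have : 0 < n := by omega
    exact_mod_cast this
  have hN0 : (0 : ℝ) < ((n - 1 : ℕ) : ℝ) := by
    have : 0 < n - 1 := by omega
    exact_mod_cast this
  obtain ⟨hiB, hiA, hiR, hiT⟩ := err_int D hε0 w hxa hxc hxb hY hC1 hM hM0 hN1 hl
  have cZt := F13_comp (D.cZt (n - 1)) l
  have cZl := F13_comp (D.cZl (n - 1)) l
  have cZx := F13_comp (D.cZx (n - 1)) l
  have cZy := F13_comp (D.cZy (n - 1)) l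
  have cA := F13_comp (D.cA (n - 1)) l
  have cR := F13_comp (D.cR (n - 1)) l
  have cB := F13_comp (D.cB (n - 1)) l
  have cTx := F13_comp2 (D.cTx (n - 1)) l
  have cw := w.cw
  have cwx := w.cwx
  have cwy := w.cwy
  have cκ2 : Continuous fun p : ℝ × ℝ => κ p.2 := cκ.comp continuous_snd
  have cφ2 : Continuous fun p : ℝ × ℝ => dφ p.2 := cφ.comp continuous_snd
  have ck2 : Continuous fun p : ℝ × ℝ => dκ p.2 := ck.comp continuous_snd
  have cx : Continuous fun p : ℝ × ℝ => p.1 := continuous_fst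
  have cy : Continuous fun p : ℝ × ℝ => p.2 := continuous_snd
  have cP : Continuous fun p : ℝ × ℝ => w.w p.1 p.2 * (κ p.2 * dφ p.2) := cw.mul (cκ2.mul cφ2)
  have cQ : Continuous fun p : ℝ × ℝ => w.w p.1 p.2 * κ p.2 := cw.mul cκ2
  have cPx : Continuous fun p : ℝ × ℝ => w.wx p.1 p.2 * (κ p.2 * dφ p.2) :=
    cwx.mul (cκ2.mul cφ2)
  have cQy : Continuous fun p : ℝ × ℝ => w.wy p.1 p.2 * κ p.2 + w.w p.1 p.2 * dκ p.2 :=
    (cwy.mul cκ2).add (cw.mul ck2)
  have cGx : Continuous fun p : ℝ × ℝ => D.Zl (n - 1) (l + p.1) p.1 p.2 +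
    D.Zx (n - 1) (l + p.1) p.1 p.2 := cZl.add cZx
  have hibp := ibp2 hY.le (P := fun x y => w.w x y * (κ y * dφ y)) (Q := fun x y => w.w x y * κ y)
    (G := fun x y => D.Zt (n - 1) (l + x) x y) (Px := fun x y => w.wx x y * (κ y * dφ y))
    (Qy := fun x y => w.wy x y * κ y + w.w x y * dκ y)
    (Gx := fun x y => D.Zl (n - 1) (l + x) x y + D.Zx (n - 1) (l + x) x y)
    (Gy := fun x y => D.Zy (n - 1) (l + x) x y) cP cQ cZt cPx cQy cGx cZy
    (fun x y => (w.dwx x y).mul_const _) (fun x y => (w.dwy x y).mul (dk y))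
    (fun x y => D.dZx (n - 1) l x y hN1) (fun x y => D.dZy (n - 1) (l + x) x y hN1)
    (fun y hy _ => by
      show w.w 0 y * (κ y * dφ y) = 0
      rw [w.left 0 y hy hxa.le, zero_mul])
    (fun y hy _ => by
      show w.w 1 y * (κ y * dφ y) = 0
      rw [w.right 1 y hy (by linarith), zero_mul])
    (fun x _ _ => by
      show w.w x Y * κ Y = 0
      rw [w.top x Y le_rfl, zero_mul])
    (fun x _ _ => by
      show w.w x 0 * κ 0 * D.Zt (n - 1) (l + x) x 0 = 0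
      rw [D.Z0 (n - 1) (l + x) x hN1, mul_zero])
  have cwZt : Continuous fun p : ℝ × ℝ => w.w p.1 p.2 * D.Zt (n - 1) (l + p.1) p.1 p.2 :=
    cw.mul cZt
  have cF2 : Continuous fun p : ℝ × ℝ => w.w p.1 p.2 * (κ p.2 * dφ p.2) *
      (D.Zl (n - 1) (l + p.1) p.1 p.2 + D.Zx (n - 1) (l + p.1) p.1 p.2) +
      w.w p.1 p.2 * κ p.2 * D.Zy (n - 1) (l + p.1) p.1 p.2 := (cP.mul cGx).add (cQ.mul cZy)
  have cF0 : Continuous fun p : ℝ × ℝ => w.w p.1 p.2 *
      ((3 / 2 * p.2 - p.1) * (D.Zl (n - 1) (l + p.1) p.1 p.2 + D.Zx (n - 1) (l + p.1) p.1 p.2) -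
        2 * p.2 * D.Zy (n - 1) (l + p.1) p.1 p.2) :=
    cw.mul ((((continuous_const.mul cy).sub cx).mul cGx).sub ((continuous_const.mul cy).mul cZy))
  have cF1 : Continuous fun p : ℝ × ℝ => w.w p.1 p.2 * ((1 - p.1 - e1) *
      D.Zl (n - 1) (l + p.1) p.1 p.2) :=
    cw.mul (((continuous_const.sub cx).sub continuous_const).mul cZl)
  have hlin := F13_lin hY.le
    (f0 := fun x y => w.w x y *
      ((3 / 2 * y - x) * (D.Zl (n - 1) (l + x) x y + D.Zx (n - 1) (l + x) x y) -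
        2 * y * D.Zy (n - 1) (l + x) x y))
    (f1 := fun x y => w.w x y * ((1 - x - e1) * D.Zl (n - 1) (l + x) x y))
    (f2 := fun x y => w.w x y * (κ y * dφ y) *
      (D.Zl (n - 1) (l + x) x y + D.Zx (n - 1) (l + x) x y) +
      w.w x y * κ y * D.Zy (n - 1) (l + x) x y)
    (f3 := fun x y => w.w x y * D.Zt (n - 1) (l + x) x y)
    (f4 := fun x y => w.w x y * D.B (n - 1) (l + x) x y)
    (f5 := fun x y => w.w x y * D.A (n - 1) (l + x) x y)
    (f6 := fun x y => w.w x y * D.R (n - 1) (l + x) x y)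
    (f7 := fun x y => w.w x y * D.Tx (n - 1) (l + x) x)
    cF0 cF1 cF2 cwZt (cw.mul cB) (cw.mul cA) (cw.mul cR) (cw.mul cTx)
    (s := 1 / (n : ℝ)) (c := (4 + 8 * Cb) * C1 * (1 + l) / n) (d := Cb / n) (by
      intro x y hx hx1 hy hy1
      by_cases hw : w.w x y = 0
      · simp [hw]
      · have hxc' : x < xc := by
          by_contra hc
          exact hw (w.right x y hy (not_lt.1 hc))
        obtain ⟨hS1, hS2⟩ := hS x y hy hy1 hw
        obtain ⟨hb1, hb2⟩ := hCb x y hx hx1 hy hy1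
        have hg := grad_point D hxb hC1 hn2 (κ := κ y) (d := dφ y) hl hx (by linarith) hy he1 hS1
          hS2 hb1 hb2
        have hg2 := mul_le_mul_of_nonneg_left hg (w.nn x y)
        refine le_trans (le_of_eq ?_) (le_trans hg2 (le_of_eq ?_))
        · ring
        · ring)
  have hKi : 1 / (n : ℝ) * I2 Y (fun x y => (w.wx x y * (κ y * dφ y) +
      (w.wy x y * κ y + w.w x y * dκ y)) * D.Zt (n - 1) (l + x) x y) ≤
      1 / (n : ℝ) * (-K * I2 Y (fun x y => w.w x y * D.Zt (n - 1) (l + x) x y)) := by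
    refine mul_le_mul_of_nonneg_left ?_ (by positivity)
    rw [← I2_const_mul]
    refine I2_mono hY.le (F13_cr ((cPx.add cQy).mul cZt)) (F13_cr (continuous_const.mul cwZt)) ?_
    intro x y hx hx1 hy hy1
    have h1 := hK x y hx hx1 hy hy1
    have h2 := D.Znn (n - 1) (l + x) x y hN1 (by linarith) hx hy
    have h3 := mul_le_mul_of_nonneg_right h1 h2
    refine le_trans (le_of_eq ?_) (le_trans h3 (le_of_eq ?_))
    · ring
    · ring
  have hib2 : -(1 / (n : ℝ) * I2 Y (fun x y => w.w x y * (κ y * dφ y) *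
      (D.Zl (n - 1) (l + x) x y + D.Zx (n - 1) (l + x) x y) +
      w.w x y * κ y * D.Zy (n - 1) (l + x) x y)) = 1 / (n : ℝ) * I2 Y (fun x y =>
      (w.wx x y * (κ y * dφ y) + (w.wy x y * κ y + w.w x y * dκ y)) *
        D.Zt (n - 1) (l + x) x y) := by
    rw [hibp]; ring
  have har := F13_arith hM0 hY hC1 hCb0 hl hn0 hN0 (hε0 (n - 1)) hiB hiA hiR hiT hn
  have hsplit : ((4 + 8 * Cb) * C1 * (1 + l) - K) / n *
      I2 Y (fun x y => w.w x y * D.Zt (n - 1) (l + x) x y) =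
      (4 + 8 * Cb) * C1 * (1 + l) / n *
        I2 Y (fun x y => w.w x y * D.Zt (n - 1) (l + x) x y) +
      1 / (n : ℝ) * (-K * I2 Y (fun x y => w.w x y * D.Zt (n - 1) (l + x) x y)) := by
    ring
  rw [hsplit]
  linarith

end Pool.Agent.Lib.MP_9cae81_R
end

section

open Finset Filter MeasureTheory
open scoped BigOperators Topology

namespace Pool.Agent.Lib.MP_9cae81_R

/-- Abstract recursion lemma.  Proof.  `Y n = s n + α n`, `b = k - c ≥ c + 1`.  For `n` large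
`(1 - c/n) Y n ≤ (1 - c/n) s n + α n ≤ (1 - b/n) Y (n-1) + (b α (n-1) + e)/n`, and
`1 - b/n ≤ (1 - (b-c)/n)(1 - c/n)`, `1 - c/n ≥ 1/2`; so `Y n ≤ (1 - 1/n) Y (n-1) + 2 (b α (n-1) + e)/n`,
i.e. for every `e' > 0` eventually `n Y n ≤ (n-1) Y (n-1) + e'`; so `n Y n ≤ N Y N + (n - N) e'`,
`limsup Y n ≤ e'`. -/
theorem seq_lemma {s α : ℕ → ℝ} {c k M : ℝ} (hs : ∀ n, 1 ≤ n → 0 ≤ s n ∧ s n ≤ M)
    (hα : ∀ n, 1 ≤ n → 0 ≤ α n) (hα0 : Tendsto α atTop (𝓝 0)) (hc : 0 ≤ c) (hk : 2 * c + 1 ≤ k)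
    (h : ∀ e : ℝ, 0 < e → ∀ᶠ n : ℕ in atTop,
      (1 - c / n) * s n + α n ≤ s (n - 1) + α (n - 1) - (k - c) / n * s (n - 1) + e / n) :
    Tendsto s atTop (𝓝 0) := by
  rw [Metric.tendsto_atTop]
  intro ε hε
  -- the recursion for `n * Y n`
  have key : ∀ᶠ n : ℕ in atTop, (n : ℝ) * (s n + α n) ≤ ((n : ℝ) - 1) * (s (n - 1) + α (n - 1)) + ε / 2 := by
    have hα1 : Tendsto (fun n : ℕ => α (n - 1)) atTop (𝓝 0) := hα0.comp (tendsto_sub_atTop_nat 1)
    have hb : 1 ≤ k - c := by linarith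
    have h2 : ∀ᶠ n : ℕ in atTop, (k - c) * α (n - 1) < ε / 8 := by
      have h3 := hα1.const_mul (k - c)
      rw [mul_zero] at h3
      exact h3.eventually_lt_const (by positivity)
    have h4 : ∀ᶠ n : ℕ in atTop, 2 * c < (n : ℝ) :=
      tendsto_natCast_atTop_atTop.eventually_gt_atTop (2 * c)
    filter_upwards [h (ε / 8) (by positivity), h2, h4, eventually_ge_atTop 2] with n h1 h2 h4 hn2
    have hn : (0:ℝ) < n := by
      have : (2:ℝ) ≤ n := by exact_mod_cast hn2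
      linarith
    have hs0 := (hs (n - 1) (by omega)).1
    have ha0 := hα (n - 1) (by omega)
    have ha1 := hα n (by omega)
    set S := s (n - 1) with hS
    set A := α (n - 1) with hA
    -- multiply the hypothesis by `n`
    have e1 : (n - c) * s n + n * α n ≤ n * S + n * A - (k - c) * S + ε / 8 := by
      have h5 := mul_le_mul_of_nonneg_left h1 hn.le
      have e2 : (n : ℝ) * ((1 - c / n) * s n + α n) = (n - c) * s n + n * α n := by
        field_simp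
      have e3 : (n : ℝ) * (S + A - (k - c) / n * S + ε / 8 / n) =
          n * S + n * A - (k - c) * S + ε / 8 := by
        field_simp
      rw [e2, e3] at h5
      exact h5
    have e4 : (n - c) * (s n + α n) ≤ (n - (k - c)) * (S + A) + ε / 4 := by
      have h6 : 0 ≤ c * α n := mul_nonneg hc ha1
      nlinarith
    -- `n (n - b) ≤ (n - 1) (n - c)`
    have hY0 : 0 ≤ S + A := by linarith
    have e5 : (n : ℝ) * (n - (k - c)) ≤ (n - 1) * (n - c) := by nlinarith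
    have hnc : 0 < (n : ℝ) - c := by linarith
    have e6 : ((n : ℝ) - c) * (n * (s n + α n)) ≤
        (n - c) * ((n - 1) * (S + A) + ε / 2) := by
      have h7 := mul_le_mul_of_nonneg_left e4 hn.le
      have h8 := mul_le_mul_of_nonneg_right e5 hY0
      have h9 : (n : ℝ) * (ε / 4) ≤ (n - c) * (ε / 2) := by nlinarith
      nlinarith
    exact le_of_mul_le_mul_left e6 hnc
  obtain ⟨N, hN⟩ := eventually_atTop.mp key
  set N1 := max N 1 with hN1
  have hN1' : 1 ≤ N1 := le_max_right _ _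
  -- summation
  have hsum : ∀ m : ℕ, ((N1 + m : ℕ) : ℝ) * (s (N1 + m) + α (N1 + m)) ≤
      N1 * (s N1 + α N1) + m * (ε / 2) := by
    intro m
    induction m with
    | zero => simp
    | succ m ih =>
      have h1 := hN (N1 + (m + 1)) (by have := le_max_left N 1; omega)
      have h2 : N1 + (m + 1) - 1 = N1 + m := by omega
      rw [h2] at h1
      have h3 : (((N1 + (m + 1) : ℕ) : ℝ) - 1) = ((N1 + m : ℕ) : ℝ) := by
        push_cast
        ring
      rw [h3] at h1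
      push_cast at h1 ih ⊢
      linarith
  set B := (N1 : ℝ) * (s N1 + α N1) with hB
  have hlarge : ∀ᶠ n : ℕ in atTop, 2 * B / ε < (n : ℝ) :=
    tendsto_natCast_atTop_atTop.eventually_gt_atTop (2 * B / ε)
  obtain ⟨N2, hN2⟩ := eventually_atTop.mp hlarge
  refine ⟨max N1 N2, fun n hn => ?_⟩
  have hn1 : N1 ≤ n := le_trans (le_max_left _ _) hn
  have hn2 : N2 ≤ n := le_trans (le_max_right _ _) hn
  have h1 := hsum (n - N1)
  rw [Nat.add_sub_cancel' hn1] at h1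
  have h2 := hN2 n hn2
  rw [div_lt_iff₀ hε] at h2
  have hnpos : (0:ℝ) < n := by
    have : (1:ℝ) ≤ n := by exact_mod_cast le_trans hN1' hn1
    linarith
  have h3 : ((n - N1 : ℕ) : ℝ) ≤ n := by exact_mod_cast Nat.sub_le n N1
  have h4 : (n : ℝ) * (s n + α n) < n * ε := by
    have h5 : ((n - N1 : ℕ) : ℝ) * (ε / 2) ≤ n * (ε / 2) :=
      mul_le_mul_of_nonneg_right h3 (by positivity)
    nlinarith
  have h5 : s n + α n < ε := lt_of_mul_lt_mul_left h4 hnpos.le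
  have h6 := (hs n (le_trans hN1' hn1)).1
  have h7 := hα n (le_trans hN1' hn1)
  rw [Real.dist_eq, sub_zero, abs_of_nonneg h6]
  linarith

end Pool.Agent.Lib.MP_9cae81_R
end
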