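import Pool.Agent.Lib.MP_9cae81_R.Defs
import Pool.Agent.Lib.MP_9cae81_R.J1

section

open Finset Filter MeasureTheory
open scoped BigOperators Topology

namespace Pool.Agent.Lib.MP_9cae81_R

private theorem F19_pow (k : ℕ) (t : ℝ) :
    HasDerivAt (fun t : ℝ => (max 0 t) ^ (k + 2)) (((k + 2 : ℕ) : ℝ) * (max 0 t) ^ (k + 1)) t := by
  rcases lt_trichotomy t 0 with h | h | h
  · have h1 : (fun t : ℝ => (max 0 t) ^ (k + 2)) =ᶠ[𝓝 t] fun _ => (0 : ℝ) := by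
      filter_upwards [Iio_mem_nhds h] with s hs
      rw [max_eq_left (le_of_lt hs)]
      simp
    have h2 : ((k + 2 : ℕ) : ℝ) * (max 0 t) ^ (k + 1) = 0 := by
      rw [max_eq_left h.le]
      simp
    rw [h2]
    exact (hasDerivAt_const t (0 : ℝ)).congr_of_eventuallyEq h1
  · subst h
    have hl : HasDerivWithinAt (fun t : ℝ => (max 0 t) ^ (k + 2)) 0 (Set.Iic 0) 0 := by
      refine (hasDerivWithinAt_const (0 : ℝ) (Set.Iic (0 : ℝ)) (0 : ℝ)).congr (fun s hs => ?_) (by simp)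
      rw [max_eq_left hs]
      simp
    have hr : HasDerivWithinAt (fun t : ℝ => (max 0 t) ^ (k + 2)) 0 (Set.Ici 0) 0 := by
      have h3 : HasDerivAt (fun t : ℝ => t ^ (k + 2)) 0 0 := by
        have h4 := hasDerivAt_pow (k + 2) (0 : ℝ)
        simpa using h4
      refine h3.hasDerivWithinAt.congr (fun s hs => ?_) (by simp)
      rw [max_eq_right hs]
    have h4 := hl.union hr
    rw [Set.Iic_union_Ici] at h4
    have h5 : ((k + 2 : ℕ) : ℝ) * (max 0 (0 : ℝ)) ^ (k + 1) = 0 := by simp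
    rw [h5]
    exact hasDerivWithinAt_univ.1 h4
  · have h1 : (fun t : ℝ => (max 0 t) ^ (k + 2)) =ᶠ[𝓝 t] fun t => t ^ (k + 2) := by
      filter_upwards [Ioi_mem_nhds h] with s hs
      rw [max_eq_right (le_of_lt hs)]
    rw [max_eq_right h.le]
    have h4 := hasDerivAt_pow (k + 2) t
    exact h4.congr_of_eventuallyEq h1

/-- The test function of a tube around the curve `x = φ y`.

`w x y = (max 0 (1 - ((x - φ y)/ρ)^2))^2 * (max 0 (Y - y))^m` with `m ≥ 2` large.  It is `C¹`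
(`(max 0 t)^m`, `m ≥ 2`, is `C¹` with derivative `m (max 0 t)^(m-1)`), nonnegative, zero unless
`|x - φ y| < ρ` and `y < Y`, positive there.  With `χ = (max 0 (1 - s^2))^2`, `s = (x - φ y)/ρ`,
`b = (max 0 (Y-y))^m`: `wx = χ' b/ρ`, `wy = -χ' dφ b/ρ + χ b'`, so
`κ dφ wx + κ wy + dκ w = χ (κ b' + dκ b)`, and `(Y - y) b' = - m b`, `0 < Y - y ≤ Y` give
`b' ≤ -(m/Y) b` on `[0,Y]`; with `κ ≥ κ0 > 0` and `dκ ≤ D` on `[0,Y]` (compactness),
`κ b' + dκ b ≤ -(κ0 m/Y - D) b ≤ -K b` for `m` large. -/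
theorem bump {Y ρ K xa xc : ℝ} (hY : 0 < Y) (hρ : 0 < ρ) {φ dφ κ dκ : ℝ → ℝ}
    (dp : ∀ y, HasDerivAt φ (dφ y) y) (cp' : Continuous dφ)
    (dk : ∀ y, HasDerivAt κ (dκ y) y) (ck : Continuous dκ)
    (kpos : ∀ y, 0 ≤ y → y ≤ Y → 0 < κ y)
    (hl : ∀ y, 0 ≤ y → y ≤ Y → xa ≤ φ y - ρ) (hr : ∀ y, 0 ≤ y → y ≤ Y → φ y + ρ ≤ xc) :
    ∃ w : Test xa xc Y,
      (∀ x y, 0 ≤ y → y ≤ Y → w.w x y ≠ 0 → |x - φ y| < ρ) ∧
      (∀ x y, 0 ≤ y → y < Y → |x - φ y| < ρ → 0 < w.w x y) ∧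
      (∀ x y, 0 ≤ y → y ≤ Y →
        κ y * dφ y * w.wx x y + κ y * w.wy x y + dκ y * w.w x y ≤ -K * w.w x y) := by
  have cφ : Continuous φ := continuous_iff_continuousAt.2 fun y => (dp y).continuousAt
  have cκ : Continuous κ := continuous_iff_continuousAt.2 fun y => (dk y).continuousAt
  have hne : (Set.Icc (0 : ℝ) Y).Nonempty := ⟨0, le_refl _, hY.le⟩
  obtain ⟨y0, hy0, hmin⟩ := (isCompact_Icc (a := (0 : ℝ)) (b := Y)).exists_isMinOn hne cκ.continuousOn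
  have hκ0 : 0 < κ y0 := kpos y0 hy0.1 hy0.2
  have hκ : ∀ y, 0 ≤ y → y ≤ Y → κ y0 ≤ κ y := fun y h1 h2 => hmin ⟨h1, h2⟩
  obtain ⟨D, hD⟩ := (isCompact_Icc (a := (0 : ℝ)) (b := Y)).exists_bound_of_continuousOn ck.continuousOn
  obtain ⟨k, hk⟩ := exists_nat_ge ((|K| + |D|) * Y / κ y0)
  have hk' : (|K| + |D|) * Y ≤ (k : ℝ) * κ y0 := (div_le_iff₀ hκ0).1 hk
  have hz : ∀ x y, ρ ≤ |x - φ y| → max 0 (1 - ((x - φ y) / ρ) ^ 2) = 0 := by
    intro x y h1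
    refine max_eq_left ?_
    have h2 : 1 ≤ |(x - φ y) / ρ| := by
      rw [abs_div, abs_of_pos hρ, le_div_iff₀ hρ, one_mul]
      exact h1
    have h3 : 1 ≤ ((x - φ y) / ρ) ^ 2 := by
      rw [← sq_abs]
      nlinarith
    linarith
  have h0k : ∀ y, Y ≤ y → (max 0 (Y - y)) ^ (k + 2) = 0 := by
    intro y h1
    rw [max_eq_left (by linarith)]
    simp
  refine ⟨
    { w := fun x y => (max 0 (1 - ((x - φ y) / ρ) ^ 2)) ^ 2 * (max 0 (Y - y)) ^ (k + 2)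
      wx := fun x y => -(4 * ((x - φ y) / ρ) * max 0 (1 - ((x - φ y) / ρ) ^ 2) / ρ) * (max 0 (Y - y)) ^ (k + 2)
      wy := fun x y => (4 * ((x - φ y) / ρ) * max 0 (1 - ((x - φ y) / ρ) ^ 2) * dφ y / ρ) * (max 0 (Y - y)) ^ (k + 2) +
        (max 0 (1 - ((x - φ y) / ρ) ^ 2)) ^ 2 * (-((k + 2 : ℕ) : ℝ) * (max 0 (Y - y)) ^ (k + 1))
      cw := by fun_prop
      cwx := by fun_prop
      cwy := by fun_prop
      dwx := ?_
      dwy := ?_
      nn := ?_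
      left := ?_
      right := ?_
      top := ?_ }, ?_, ?_, ?_⟩
  · intro x y
    have h1 : HasDerivAt (fun x : ℝ => (x - φ y) / ρ) (1 / ρ) x := ((hasDerivAt_id x).sub_const (φ y)).div_const ρ
    have h2 : HasDerivAt (fun x : ℝ => 1 - ((x - φ y) / ρ) ^ 2) (-(2 * ((x - φ y) / ρ) * (1 / ρ))) x := by
      refine ((h1.pow 2).const_sub 1).congr_deriv ?_
      simp
    have h3 := (F19_pow 0 (1 - ((x - φ y) / ρ) ^ 2)).comp x h2
    have h4 := h3.mul_const ((max 0 (Y - y)) ^ (k + 2))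
    refine h4.congr_deriv ?_
    simp only [zero_add, pow_one]
    push_cast
    ring
  · intro x y
    have h1 : HasDerivAt (fun y : ℝ => (x - φ y) / ρ) (-dφ y / ρ) y := ((dp y).const_sub x).div_const ρ
    have h2 : HasDerivAt (fun y : ℝ => 1 - ((x - φ y) / ρ) ^ 2) (-(2 * ((x - φ y) / ρ) * (-dφ y / ρ))) y := by
      refine ((h1.pow 2).const_sub 1).congr_deriv ?_
      simp
    have h3 := (F19_pow 0 (1 - ((x - φ y) / ρ) ^ 2)).comp y h2
    have h5 : HasDerivAt (fun y : ℝ => Y - y) (-1) y := (hasDerivAt_id y).const_sub Y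
    have h6 := (F19_pow k (Y - y)).comp y h5
    have h7 := h3.mul h6
    refine h7.congr_deriv ?_
    simp only [zero_add, pow_one, Function.comp]
    push_cast
    ring
  · intro x y
    positivity
  · intro x y h0 h1
    show (max 0 (1 - ((x - φ y) / ρ) ^ 2)) ^ 2 * (max 0 (Y - y)) ^ (k + 2) = 0
    rcases le_or_gt Y y with h2 | h2
    · rw [h0k y h2, mul_zero]
    · have h3 := hl y h0 h2.le
      rw [hz x y (by rw [abs_of_nonpos (by linarith)]; linarith)]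
      simp
  · intro x y h0 h1
    show (max 0 (1 - ((x - φ y) / ρ) ^ 2)) ^ 2 * (max 0 (Y - y)) ^ (k + 2) = 0
    rcases le_or_gt Y y with h2 | h2
    · rw [h0k y h2, mul_zero]
    · have h3 := hr y h0 h2.le
      rw [hz x y (by rw [abs_of_nonneg (by linarith)]; linarith)]
      simp
  · intro x y h1
    show (max 0 (1 - ((x - φ y) / ρ) ^ 2)) ^ 2 * (max 0 (Y - y)) ^ (k + 2) = 0
    rw [h0k y h1, mul_zero]
  · intro x y h0 h1 h2
    by_contra h3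
    refine h2 ?_
    show (max 0 (1 - ((x - φ y) / ρ) ^ 2)) ^ 2 * (max 0 (Y - y)) ^ (k + 2) = 0
    rw [hz x y (not_lt.1 h3)]
    simp
  · intro x y h0 h1 h2
    show 0 < (max 0 (1 - ((x - φ y) / ρ) ^ 2)) ^ 2 * (max 0 (Y - y)) ^ (k + 2)
    have h3 : |(x - φ y) / ρ| < 1 := by
      rw [abs_div, abs_of_pos hρ, div_lt_one hρ]
      exact h2
    have h4 : ((x - φ y) / ρ) ^ 2 < 1 := (sq_lt_one_iff_abs_lt_one _).2 h3
    have h5 : 0 < max 0 (1 - ((x - φ y) / ρ) ^ 2) := lt_max_of_lt_right (by linarith)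
    have h6 : 0 < max 0 (Y - y) := lt_max_of_lt_right (by linarith)
    positivity
  · intro x y h0 h1
    show κ y * dφ y * (-(4 * ((x - φ y) / ρ) * max 0 (1 - ((x - φ y) / ρ) ^ 2) / ρ) * (max 0 (Y - y)) ^ (k + 2)) +
      κ y * ((4 * ((x - φ y) / ρ) * max 0 (1 - ((x - φ y) / ρ) ^ 2) * dφ y / ρ) * (max 0 (Y - y)) ^ (k + 2) +
        (max 0 (1 - ((x - φ y) / ρ) ^ 2)) ^ 2 * (-((k + 2 : ℕ) : ℝ) * (max 0 (Y - y)) ^ (k + 1))) +
      dκ y * ((max 0 (1 - ((x - φ y) / ρ) ^ 2)) ^ 2 * (max 0 (Y - y)) ^ (k + 2)) ≤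
      -K * ((max 0 (1 - ((x - φ y) / ρ) ^ 2)) ^ 2 * (max 0 (Y - y)) ^ (k + 2))
    have hc : max 0 (Y - y) = Y - y := max_eq_right (by linarith)
    rw [hc]
    obtain ⟨m, hm⟩ : ∃ m : ℝ, m = max 0 (1 - ((x - φ y) / ρ) ^ 2) := ⟨_, rfl⟩
    obtain ⟨c, hcc⟩ : ∃ c : ℝ, c = Y - y := ⟨_, rfl⟩
    rw [← hm, ← hcc]
    have c0 : 0 ≤ c := by rw [hcc]; linarith
    have cY : c ≤ Y := by rw [hcc]; linarith
    have hDy : |dκ y| ≤ D := hD y ⟨h0, h1⟩
    have hDD : dκ y ≤ |D| := (le_abs_self _).trans (hDy.trans (le_abs_self _))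
    have h2 : (K + dκ y) * c ≤ ((k : ℝ) + 2) * κ y := by
      have h3 : (K + dκ y) * c ≤ (|K| + |D|) * c := mul_le_mul_of_nonneg_right (add_le_add (le_abs_self _) hDD) c0
      have h4 : (|K| + |D|) * c ≤ (|K| + |D|) * Y := mul_le_mul_of_nonneg_left cY (by positivity)
      have h5 : (k : ℝ) * κ y0 ≤ (k : ℝ) * κ y := mul_le_mul_of_nonneg_left (hκ y h0 h1) (Nat.cast_nonneg k)
      have h6 := kpos y h0 h1
      linarith
    have h7 : 0 ≤ m ^ 2 * c ^ (k + 1) := by positivity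
    have h8 := mul_le_mul_of_nonneg_left h2 h7
    have h9 : κ y * dφ y * (-(4 * ((x - φ y) / ρ) * m / ρ) * c ^ (k + 2)) +
      κ y * ((4 * ((x - φ y) / ρ) * m * dφ y / ρ) * c ^ (k + 2) + m ^ 2 * (-((k + 2 : ℕ) : ℝ) * c ^ (k + 1))) +
      dκ y * (m ^ 2 * c ^ (k + 2)) - (-K * (m ^ 2 * c ^ (k + 2))) =
      m ^ 2 * c ^ (k + 1) * ((K + dκ y) * c) - m ^ 2 * c ^ (k + 1) * (((k : ℝ) + 2) * κ y) := by
      push_cast
      ring
    linarith

end Pool.Agent.Lib.MP_9cae81_R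
end

section

open Finset Filter MeasureTheory
open scoped BigOperators Topology

namespace Pool.Agent.Lib.MP_9cae81_R

/-- Smooth choice of `κ`.

Proof.  `E y k t := 1 - (φ y - δ) - (3/2 y - (φ y - δ) + k dφ y) t + (2y - k) t²
= (1 - φ y)(1-t) + (1 - 3/2 y) t + 2 y t² + k t (-dφ y - t) + δ (1 - t)`.  Let
`S y = {k | 0 ≤ y → y ≤ Y → 0 < k ∧ ∀ t ∈ [0,1/2], δ/4 ≤ E y k t}`: convex (`E` is affine in `k`).
Local constancy: for `y0 ∉ [0,Y]` any `k` works near `y0`.  For `y0 ∈ [0,Y]` take the `k` of the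
hypothesis and `k0 = k + η`, `η > 0` with `η (|dφ y0| + 1/2)/2 ≤ δ/8`; then
`E y0 k0 t ≥ δ/2 - δ/8 > δ/4` for all `t ∈ [0,1/2]`, and by continuity of `(y,t) ↦ E y k0 t` and
compactness of `[0,1/2]`, `E y k0 t ≥ δ/4` for `y` near `y0`.  So
`exists_contMDiff_forall_mem_convex_of_local_const` (partition of unity, with `𝓘(ℝ, ℝ)`, any
smoothness) gives a smooth `κ` with `κ y ∈ S y` for all `y`; `dκ = deriv κ`. -/
theorem kappa_sel {Y δ : ℝ} (hδ : 0 < δ) {φ dφ : ℝ → ℝ} (dp : ∀ y, HasDerivAt φ (dφ y) y)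
    (cp' : Continuous dφ)
    (h : ∀ y, 0 ≤ y → y ≤ Y → ∃ k : ℝ, 0 ≤ k ∧ ∀ t : ℝ, 0 ≤ t → t ≤ 1 / 2 →
      0 ≤ (1 - φ y) * (1 - t) + (1 - 3 / 2 * y) * t + 2 * y * t ^ 2 + k * t * (-dφ y - t)) :
    ∃ κ dκ : ℝ → ℝ, (∀ y, HasDerivAt κ (dκ y) y) ∧ Continuous dκ ∧
      (∀ y, 0 ≤ y → y ≤ Y → 0 < κ y) ∧
      ∀ y t, 0 ≤ y → y ≤ Y → 0 ≤ t → t ≤ 1 / 2 →
        δ / 4 ≤ 1 - (φ y - δ) - (3 / 2 * y - (φ y - δ) + κ y * dφ y) * t +
          (2 * y - κ y) * t ^ 2 := by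
  classical
  let E : ℝ → ℝ → ℝ → ℝ := fun y k t =>
    1 - (φ y - δ) - (3 / 2 * y - (φ y - δ) + k * dφ y) * t + (2 * y - k) * t ^ 2
  have hE : ∀ y k t, E y k t = (1 - φ y) * (1 - t) + (1 - 3 / 2 * y) * t + 2 * y * t ^ 2 +
      k * t * (-dφ y - t) + δ * (1 - t) := by
    intro y k t
    simp only [E]
    ring
  have cφ : Continuous φ := continuous_iff_continuousAt.2 fun y => (dp y).continuousAt
  let S : ℝ → Set ℝ := fun y => {k | 0 ≤ y → y ≤ Y → 0 < k ∧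
    ∀ t : ℝ, 0 ≤ t → t ≤ 1 / 2 → δ / 4 ≤ E y k t}
  have hconv : ∀ y, Convex ℝ (S y) := by
    intro y a ha b hb p q hp hq hpq h0 h1
    obtain ⟨ha1, ha2⟩ := ha h0 h1
    obtain ⟨hb1, hb2⟩ := hb h0 h1
    simp only [smul_eq_mul]
    have hp1 : p = 1 - q := by linarith
    refine ⟨?_, ?_⟩
    · rcases hp.eq_or_lt with h | h
      · have : q = 1 := by linarith
        subst this
        rw [← h]
        linarith
      · have h3 : 0 < p * a := mul_pos h ha1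
        have h4 : 0 ≤ q * b := mul_nonneg hq hb1.le
        linarith
    · intro t ht0 ht1
      have e1 := ha2 t ht0 ht1
      have e2 := hb2 t ht0 ht1
      have e3 : E y (p * a + q * b) t = p * E y a t + q * E y b t := by
        rw [hE, hE, hE, hp1]
        ring
      rw [e3]
      have e4 : p * (δ / 4) ≤ p * E y a t := mul_le_mul_of_nonneg_left e1 hp
      have e5 : q * (δ / 4) ≤ q * E y b t := mul_le_mul_of_nonneg_left e2 hq
      have e6 : p * (δ / 4) + q * (δ / 4) = δ / 4 := by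
        rw [hp1]
        ring
      linarith
  have hloc : ∀ y : ℝ, ∃ c : ℝ, ∀ᶠ z in 𝓝 y, c ∈ S z := by
    intro y0
    by_cases hy : 0 ≤ y0 ∧ y0 ≤ Y
    · obtain ⟨k, hk0, hk⟩ := h y0 hy.1 hy.2
      have hA : 0 < |dφ y0| + 1 / 2 := by positivity
      let η : ℝ := δ / 4 / (|dφ y0| + 1 / 2)
      have hη : 0 < η := by positivity
      have hηe : η * (|dφ y0| + 1 / 2) = δ / 4 := by
        simp only [η]
        field_simp
      refine ⟨k + η, ?_⟩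
      have hmain : ∀ t ∈ Set.Icc (0 : ℝ) (1 / 2), δ / 4 < E y0 (k + η) t := by
        intro t ht
        have e1 := hk t ht.1 ht.2
        have e2 : δ * (1 - t) ≥ δ / 2 := by nlinarith [ht.2]
        have e3 : η * t * (-dφ y0 - t) ≥ -(δ / 8) := by
          have f1 : -dφ y0 - t ≥ -(|dφ y0| + 1 / 2) := by
            have := le_abs_self (dφ y0)
            linarith [ht.2]
          have f2 : 0 ≤ η * t := mul_nonneg hη.le ht.1
          have f3 : η * t * (-dφ y0 - t) ≥ η * t * (-(|dφ y0| + 1 / 2)) :=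
            mul_le_mul_of_nonneg_left f1 f2
          have f4 : η * t * (-(|dφ y0| + 1 / 2)) = -(δ / 4 * t) := by
            rw [← hηe]
            ring
          have f5 : δ / 4 * t ≤ δ / 8 := by nlinarith [ht.2]
          linarith
        rw [hE]
        have e4 : (k + η) * t * (-dφ y0 - t) = k * t * (-dφ y0 - t) + η * t * (-dφ y0 - t) := by
          ring
        rw [e4]
        linarith
      have hcont : Continuous fun p : ℝ × ℝ => E p.1 (k + η) p.2 := by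
        simp only [E]
        fun_prop
      have hev : ∀ᶠ z in 𝓝 y0, ∀ t ∈ Set.Icc (0 : ℝ) (1 / 2), δ / 4 < E z (k + η) t := by
        refine isCompact_Icc.eventually_forall_of_forall_eventually ?_
        intro t ht
        exact (hcont.continuousAt (x := (y0, t))).eventually (lt_mem_nhds (hmain t ht))
      refine hev.mono ?_
      intro z hz _ _
      refine ⟨by linarith, fun t h0 h1 => (hz t ⟨h0, h1⟩).le⟩
    · refine ⟨0, ?_⟩
      have hopen : ∀ᶠ z in 𝓝 y0, z ∉ Set.Icc (0 : ℝ) Y := by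
        have : (Set.Icc (0 : ℝ) Y)ᶜ ∈ 𝓝 y0 :=
          isClosed_Icc.isOpen_compl.mem_nhds (by intro hh; exact hy ⟨hh.1, hh.2⟩)
        exact this
      refine hopen.mono ?_
      intro z hz h0 h1
      exact absurd ⟨h0, h1⟩ hz
  obtain ⟨g, hg⟩ := exists_contMDiffMap_forall_mem_convex_of_local_const (n := 1)
    (modelWithCornersSelf ℝ ℝ) (M := ℝ) hconv hloc
  have hgs : ContDiff ℝ 1 (g : ℝ → ℝ) := g.contMDiff.contDiff
  refine ⟨g, deriv g, ?_, ?_, ?_, ?_⟩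
  · intro y
    exact (hgs.differentiable one_ne_zero y).hasDerivAt
  · exact hgs.continuous_deriv le_rfl
  · intro y h0 h1
    exact (hg y h0 h1).1
  · intro y t h0 h1 h2 h3
    exact (hg y h0 h1).2 t h2 h3

end Pool.Agent.Lib.MP_9cae81_R
end

section

open Finset Filter MeasureTheory
open scoped BigOperators Topology

namespace Pool.Agent.Lib.MP_9cae81_R

theorem J2_Q {z : ℝ} (h1 : 1 ≤ z) (h4 : z ≤ 4) :
    0 ≤ 1000 * (5 * z ^ 3 + 455 * z ^ 2 - 135 * z + 51) * z ^ 5 -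
      (1500 * z ^ 3 + (z - 1) * (5 * z ^ 3 + 455 * z ^ 2 - 135 * z + 51)) *
        (10 * z ^ 4 + 455 * z ^ 3 + 455 * z ^ 2 - 321 * z + 153) * z +
      2 * (z - 1 / 3) * (10 * z ^ 4 + 455 * z ^ 3 + 455 * z ^ 2 - 321 * z + 153) ^ 2 := by
  have ha : 0 ≤ z - 1 := by linarith
  have hb : 0 ≤ 4 - z := by linarith
  have key : 3 ^ 10 * (1000 * (5 * z ^ 3 + 455 * z ^ 2 - 135 * z + 51) * z ^ 5 -
      (1500 * z ^ 3 + (z - 1) * (5 * z ^ 3 + 455 * z ^ 2 - 135 * z + 51)) *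
        (10 * z ^ 4 + 455 * z ^ 3 + 455 * z ^ 2 - 321 * z + 153) * z +
      2 * (z - 1 / 3) * (10 * z ^ 4 + 455 * z ^ 3 + 455 * z ^ 2 - 321 * z + 153) ^ 2) =
      6016 * (4 - z) ^ 9 + 179160 * (z - 1) * (4 - z) ^ 8 + 3127872 * (z - 1) ^ 2 * (4 - z) ^ 7 +
      29650176 * (z - 1) ^ 3 * (4 - z) ^ 6 + 147896688 * (z - 1) ^ 4 * (4 - z) ^ 5 +
      371379336 * (z - 1) ^ 5 * (4 - z) ^ 4 + 391706790 * (z - 1) ^ 6 * (4 - z) ^ 3 +
      132649827 * (z - 1) ^ 7 * (4 - z) ^ 2 + 46906401 * (z - 1) ^ 8 * (4 - z) +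
      64642618 * (z - 1) ^ 9 := by
    ring
  have hpos : 0 ≤ 6016 * (4 - z) ^ 9 + 179160 * (z - 1) * (4 - z) ^ 8 +
      3127872 * (z - 1) ^ 2 * (4 - z) ^ 7 +
      29650176 * (z - 1) ^ 3 * (4 - z) ^ 6 + 147896688 * (z - 1) ^ 4 * (4 - z) ^ 5 +
      371379336 * (z - 1) ^ 5 * (4 - z) ^ 4 + 391706790 * (z - 1) ^ 6 * (4 - z) ^ 3 +
      132649827 * (z - 1) ^ 7 * (4 - z) ^ 2 + 46906401 * (z - 1) ^ 8 * (4 - z) +
      64642618 * (z - 1) ^ 9 := by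
    positivity
  rw [← key] at hpos
  exact (mul_nonneg_iff_of_pos_left (by norm_num)).1 hpos

theorem J2_B {z : ℝ} (h1 : 1 ≤ z) (h4 : z ≤ 4) :
    0 ≤ (1500 * z ^ 3 + (z - 1) * (5 * z ^ 3 + 455 * z ^ 2 - 135 * z + 51)) *
        (10 * z ^ 4 + 455 * z ^ 3 + 455 * z ^ 2 - 321 * z + 153) -
      2000 * (5 * z ^ 3 + 455 * z ^ 2 - 135 * z + 51) * z ^ 4 := by
  have ha : 0 ≤ z - 1 := by linarith
  have hb : 0 ≤ 4 - z := by linarith
  have key : 3 ^ 8 * ((1500 * z ^ 3 + (z - 1) * (5 * z ^ 3 + 455 * z ^ 2 - 135 * z + 51)) *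
        (10 * z ^ 4 + 455 * z ^ 3 + 455 * z ^ 2 - 321 * z + 153) -
      2000 * (5 * z ^ 3 + 455 * z ^ 2 - 135 * z + 51) * z ^ 4) =
      376000 * (4 - z) ^ 8 + 9217256 * (z - 1) * (4 - z) ^ 7 +
      96732208 * (z - 1) ^ 2 * (4 - z) ^ 6 + 561276032 * (z - 1) ^ 3 * (4 - z) ^ 5 +
      1939535560 * (z - 1) ^ 4 * (4 - z) ^ 4 + 4016831960 * (z - 1) ^ 5 * (4 - z) ^ 3 +
      4799975146 * (z - 1) ^ 6 * (4 - z) ^ 2 + 3046723673 * (z - 1) ^ 7 * (4 - z) +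
      797758057 * (z - 1) ^ 8 := by
    ring
  have hpos : 0 ≤ 376000 * (4 - z) ^ 8 + 9217256 * (z - 1) * (4 - z) ^ 7 +
      96732208 * (z - 1) ^ 2 * (4 - z) ^ 6 + 561276032 * (z - 1) ^ 3 * (4 - z) ^ 5 +
      1939535560 * (z - 1) ^ 4 * (4 - z) ^ 4 + 4016831960 * (z - 1) ^ 5 * (4 - z) ^ 3 +
      4799975146 * (z - 1) ^ 6 * (4 - z) ^ 2 + 3046723673 * (z - 1) ^ 7 * (4 - z) +
      797758057 * (z - 1) ^ 8 := by
    positivity
  rw [← key] at hpos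
  exact (mul_nonneg_iff_of_pos_left (by norm_num)).1 hpos

theorem J2_H {z : ℝ} (h1 : 1 ≤ z) :
    0 < 10 * z ^ 4 + 455 * z ^ 3 + 455 * z ^ 2 - 321 * z + 153 := by
  have h : 0 ≤ z - 1 := by linarith
  have : 10 * z ^ 4 + 455 * z ^ 3 + 455 * z ^ 2 - 321 * z + 153 =
      10 * (z - 1) ^ 4 + 495 * (z - 1) ^ 3 + 1880 * (z - 1) ^ 2 + 1994 * (z - 1) + 752 := by ring
  rw [this]
  positivity

theorem J2_N {z : ℝ} (h1 : 1 ≤ z) :
    0 < 5 * z ^ 3 + 455 * z ^ 2 - 135 * z + 51 := by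
  have h : 0 ≤ z - 1 := by linarith
  have : 5 * z ^ 3 + 455 * z ^ 2 - 135 * z + 51 =
      5 * (z - 1) ^ 3 + 470 * (z - 1) ^ 2 + 790 * (z - 1) + 376 := by ring
  rw [this]
  positivity

/-- The curve condition.

Proof.  For `y ≤ 2/3`: `DD = DD' = 0`, take `k = 0`: `(1 - 3/2 y) t + 2 y t² ≥ 0`.
For `y > 2/3`: let `s = y - 2/3 > 0`, `D = DD y`, `F = DD' y > 0`, `b = 3/2 s + D` (so that
`D (1-t) + (1 - 3/2 y) t = D - b t`), `k = (b F - 2 D)/F²`.  Identity: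
`D - b t + 2 y t² + k t (F - t) = D (1 - t/F)² + (D - b F + 2 y F²) (t/F)²`.
So it suffices that `q := D - b F + 2 y F² ≥ 0` and `b F ≥ 2 D` (for `k ≥ 0`).
With `z = y + 1/3 = 1 + s ∈ [1,4]`, `N = 5 z³ + 455 z² - 135 z + 51`,
`H = 2 N z - (z - 1)(455 z² - 270 z + 153)`: `D = s² N/(1000 z³)`, `F = s H/(1000 z⁴)`, and
`10⁶ z⁸ q/s² = 1000 N z⁵ - (1500 z³ + (z-1) N) H z + 2 (z - 1/3) H²`, a polynomial of degree 9 in
`z` that is positive on `[1,4]`; `10⁶ z⁷ (b F - 2 D)/s² = (1500 z³ + (z-1) N) H - 2000 N z⁴ ≥ 0`.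
Certificates: `3^10 Q = ∑_k c_k (z-1)^k (4-z)^(9-k)` with `c = 6016, 179160, 3127872, 29650176,
147896688, 371379336, 391706790, 132649827, 46906401, 64642618` (`Q` the polynomial `10⁶ z⁸ q/s²`;
`3 Q = 450 z^9 + 4075 z^8 - 7325 z^7 - 248635 z^6 + 1274135 z^5 - 2400725 z^4 + 2278929 z^3 -
1208385 z^2 + 360315 z - 46818`), and `3^8 B = ∑_k d_k (z-1)^k (4-z)^(8-k)` with `d = 376000,
9217256, 96732208, 561276032, 1939535560, 4016831960, 4799975146, 3046723673, 797758057` for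
`B = (1500 z³ + (z-1) N) H - 2000 N z⁴`; `H = 10 z^4 + 455 z^3 + 455 z^2 - 321 z + 153 > 0`. -/
theorem curve_cond {y : ℝ} (hy : 0 ≤ y) (hy1 : y ≤ 11 / 3) :
    ∃ k : ℝ, 0 ≤ k ∧ ∀ t : ℝ, 0 ≤ t → t ≤ 1 / 2 →
      0 ≤ DD y * (1 - t) + (1 - 3 / 2 * y) * t + 2 * y * t ^ 2 + k * t * (DD' y - t) := by
  rcases le_or_gt y (2 / 3) with h | h
  · refine ⟨0, le_rfl, fun t ht ht1 => ?_⟩
    have h1 : DD y = 0 := by simp [DD, h]
    rw [h1]
    have h2 : 0 ≤ (1 - 3 / 2 * y) * t := mul_nonneg (by linarith) ht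
    have h3 : 0 ≤ 2 * y * t ^ 2 := by positivity
    linarith
  · obtain ⟨z, hz⟩ : ∃ z, z = y + 1 / 3 := ⟨_, rfl⟩
    have hz1 : 1 < z := by linarith
    have hz4 : z ≤ 4 := by linarith
    have hz0 : 0 < z := by linarith
    have hyz : y = z - 1 / 3 := by linarith
    obtain ⟨N, hN⟩ : ∃ N, N = 5 * z ^ 3 + 455 * z ^ 2 - 135 * z + 51 := ⟨_, rfl⟩
    obtain ⟨H, hH⟩ : ∃ H, H = 10 * z ^ 4 + 455 * z ^ 3 + 455 * z ^ 2 - 321 * z + 153 := ⟨_, rfl⟩
    have hN0 : 0 < N := hN ▸ J2_N hz1.le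
    have hH0 : 0 < H := hH ▸ J2_H hz1.le
    have hQ := J2_Q hz1.le hz4
    have hB := J2_B hz1.le hz4
    rw [← hN, ← hH] at hQ hB
    have hD : DD y = (z - 1) ^ 2 * N / (1000 * z ^ 3) := by
      unfold DD
      rw [if_neg (not_le.2 h), hN, hyz]
      have e1 : z - 1 / 3 - 2 / 3 = z - 1 := by ring
      have e2 : z - 1 / 3 + 1 / 3 = z := by ring
      rw [e1, e2]
      field_simp
    have hF : DD' y = (z - 1) * H / (1000 * z ^ 4) := by
      unfold DD'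
      rw [if_neg (not_le.2 h), hH, hyz]
      have e1 : z - 1 / 3 - 2 / 3 = z - 1 := by ring
      have e2 : z - 1 / 3 + 1 / 3 = z := by ring
      rw [e1, e2]
      field_simp
      ring
    obtain ⟨D, hDD⟩ : ∃ D, D = DD y := ⟨_, rfl⟩
    obtain ⟨F, hFF⟩ : ∃ F, F = DD' y := ⟨_, rfl⟩
    rw [← hDD, ← hFF]
    rw [← hDD] at hD
    rw [← hFF] at hF
    have hs : 0 < z - 1 := by linarith
    have hD0 : 0 ≤ D := by rw [hD]; positivity
    have hF0 : 0 < F := by rw [hF]; positivity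
    obtain ⟨b, hb⟩ : ∃ b, b = 3 / 2 * (z - 1) + D := ⟨_, rfl⟩
    have hq : 0 ≤ D - b * F + 2 * y * F ^ 2 := by
      have : D - b * F + 2 * y * F ^ 2 = (z - 1) ^ 2 / (1000000 * z ^ 8) *
          (1000 * N * z ^ 5 - (1500 * z ^ 3 + (z - 1) * N) * H * z +
            2 * (z - 1 / 3) * H ^ 2) := by
        rw [hb, hD, hF, hyz]
        field_simp
        ring
      rw [this]
      exact mul_nonneg (by positivity) hQ
    have hk : 0 ≤ b * F - 2 * D := by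
      have : b * F - 2 * D = (z - 1) ^ 2 / (1000000 * z ^ 7) *
          ((1500 * z ^ 3 + (z - 1) * N) * H - 2000 * N * z ^ 4) := by
        rw [hb, hD, hF]
        field_simp
        ring
      rw [this]
      exact mul_nonneg (by positivity) hB
    refine ⟨(b * F - 2 * D) / F ^ 2, by positivity, fun t ht ht1 => ?_⟩
    have key : D * (1 - t) + (1 - 3 / 2 * y) * t + 2 * y * t ^ 2 +
        (b * F - 2 * D) / F ^ 2 * t * (F - t) =
        D * (1 - t / F) ^ 2 + (D - b * F + 2 * y * F ^ 2) * (t / F) ^ 2 := by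
      rw [hb, hyz]
      field_simp
      ring
    rw [key]
    exact add_nonneg (mul_nonneg hD0 (sq_nonneg _)) (mul_nonneg hq (sq_nonneg _))

end Pool.Agent.Lib.MP_9cae81_R
end
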