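import Pool.Agent.Lib.MP_9cae81_R.Defs
import Pool.Agent.Lib.MP_9cae81_R.F7
import Pool.Agent.Lib.MP_9cae81_R.Mg.G005
import Pool.Agent.Lib.MP_9cae81_R.F9
import Pool.Agent.Lib.MP_9cae81_R.Mg.G007
import Pool.Agent.Lib.MP_9cae81_R.Mg.G003
import Pool.Agent.Lib.MP_9cae81_R.Mg.G004
import Pool.Agent.Lib.MP_9cae81_R.Mg.G008

section

open Finset Filter MeasureTheory
open scoped BigOperators Topology

namespace Pool.Agent.Lib.MP_9cae81_R

/-- The recursion integrated against a test function.  Proof.  Multiply `rec_point` by `w ≥ 0`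
(`w = 0` for `x ≥ xc`) and integrate (`I2_mono`).  The `T` terms: `T_shift` with
`τ z = T (n-1) (θ l + z) z`, `S = ε (n-1) * 4 (1+l)^2` (`Tnn`, `Tle`: `1 + θ l + z ≤ 2 (1+l)`).  The
first term: `shift_le` with `G x y = Zt (n-1) (l+x) x y`, `Gx = Zl + Zx`, `Gy = Zy` at
`(n-1, l+x, x, y)` (`dZx`, `dZy`, `Znn`, `Zle`).  Error: `(e/3 + 4 L ε (n-1) (1+l)^2 +
C (1+l)^2 * sup w * Y / n)/n ≤ e (1+l)^2/n` for `n` large. -/
theorem rec_int {xb Y C1 : ℝ} {ε : ℕ → ℝ} (D : CorData xb Y C1 ε) (hε : Tendsto ε atTop (𝓝 0))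
    (hε0 : ∀ n, 0 ≤ ε n) {xa xc : ℝ} (w : Test xa xc Y) (hxa : 0 < xa) (hxc : xc < xb)
    (hxb : xb < 1) (hY : 0 < Y) (hC1 : 0 ≤ C1) {e : ℝ} (he : 0 < e) :
    ∀ᶠ n : ℕ in atTop, ∀ l : ℝ, 0 ≤ l →
      I2 Y (fun x y => w.w x y * (D.Zt n l x y + D.Zl n l x y)) ≤
        I2 Y (fun x y => w.w x y * D.Zt (n - 1) (l + x) x y) +
        1 / (n : ℝ) * I2 Y (fun x y => w.w x y *
          ((3 / 2 * y - x) * (D.Zl (n - 1) (l + x) x y + D.Zx (n - 1) (l + x) x y) -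
            2 * y * D.Zy (n - 1) (l + x) x y)) +
        e * (1 + l) ^ 2 / n := by
  obtain ⟨C, hC0, hrec⟩ := rec_point D hxc hxb hY hC1
  obtain ⟨L, hL0, hT⟩ := T_shift w hY.le hxa hxc hxb
  have hS := shift_le w hY.le hxa (hxc.trans hxb) (show (0 : ℝ) < e / 3 by positivity)
  have hε1 : ∀ᶠ n : ℕ in atTop, 4 * L * ε (n - 1) ≤ e / 3 := by
    have h1 : Tendsto (fun n : ℕ => 4 * L * ε (n - 1)) atTop (𝓝 (4 * L * 0)) :=
      (hε.comp (tendsto_sub_atTop_nat 1)).const_mul _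
    have h2 : (4 * L * 0) < e / 3 := by rw [mul_zero]; positivity
    exact (h1.eventually_lt_const h2).mono fun n h => h.le
  have hW1 : ∀ᶠ n : ℕ in atTop, C * |I2 Y w.w| / (n : ℝ) ≤ e / 3 := by
    have h1 : Tendsto (fun n : ℕ => C * |I2 Y w.w| / (n : ℝ)) atTop (𝓝 0) :=
      tendsto_const_div_atTop_nhds_zero_nat _
    exact (h1.eventually_lt_const (by positivity)).mono fun n h => h.le
  filter_upwards [hrec, hT, hS, hε1, hW1, eventually_ge_atTop 2] with n h1 h2 h3 h4 h5 hn l hl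
  have hn0 : (0 : ℝ) < n := by
    have : 0 < n := by omega
    exact_mod_cast this
  have hn1 : 1 ≤ n - 1 := by omega
  have hθ1 : (1 - 1 / (n : ℝ)) ≤ 1 := by
    have : 0 ≤ 1 / (n : ℝ) := by positivity
    linarith
  have hθ0 : 0 ≤ (1 - 1 / (n : ℝ)) := by
    have : 1 / (n : ℝ) ≤ 1 := by
      rw [div_le_one hn0]
      exact_mod_cast (by omega : 1 ≤ n)
    linarith
  -- continuity facts
  have cw := w.cw
  have cZt1 : Continuous fun p : ℝ × ℝ => D.Zt (n - 1) (l + p.1) p.1 p.2 :=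
    (D.cZt (n - 1)).comp (by fun_prop : Continuous fun p : ℝ × ℝ => (l + p.1, p.1, p.2))
  have cZl1 : Continuous fun p : ℝ × ℝ => D.Zl (n - 1) (l + p.1) p.1 p.2 :=
    (D.cZl (n - 1)).comp (by fun_prop : Continuous fun p : ℝ × ℝ => (l + p.1, p.1, p.2))
  have cZx1 : Continuous fun p : ℝ × ℝ => D.Zx (n - 1) (l + p.1) p.1 p.2 :=
    (D.cZx (n - 1)).comp (by fun_prop : Continuous fun p : ℝ × ℝ => (l + p.1, p.1, p.2))
  have cZy1 : Continuous fun p : ℝ × ℝ => D.Zy (n - 1) (l + p.1) p.1 p.2 :=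
    (D.cZy (n - 1)).comp (by fun_prop : Continuous fun p : ℝ × ℝ => (l + p.1, p.1, p.2))
  have cZt0 : Continuous fun p : ℝ × ℝ => D.Zt n l p.1 p.2 :=
    (D.cZt n).comp (by fun_prop : Continuous fun p : ℝ × ℝ => (l, p.1, p.2))
  have cZl0 : Continuous fun p : ℝ × ℝ => D.Zl n l p.1 p.2 :=
    (D.cZl n).comp (by fun_prop : Continuous fun p : ℝ × ℝ => (l, p.1, p.2))
  have cτ : Continuous fun z : ℝ => D.T (n - 1) ((1 - 1 / (n : ℝ)) * l + z) z :=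
    (D.cT (n - 1)).comp
      (by fun_prop : Continuous fun z : ℝ => ((1 - 1 / (n : ℝ)) * l + z, z))
  have cX : Continuous fun p : ℝ × ℝ => (1 - 1 / (n : ℝ)) * (p.1 + 3 * p.2 / (2 * n)) := by
    fun_prop
  have cGX : Continuous fun p : ℝ × ℝ =>
      D.Zt (n - 1) (l + (1 - 1 / (n : ℝ)) * (p.1 + 3 * p.2 / (2 * n)))
        ((1 - 1 / (n : ℝ)) * (p.1 + 3 * p.2 / (2 * n))) ((1 - 1 / (n : ℝ)) ^ 2 * p.2) :=
    (D.cZt (n - 1)).comp (by fun_prop : Continuous fun p : ℝ × ℝ =>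
      (l + (1 - 1 / (n : ℝ)) * (p.1 + 3 * p.2 / (2 * n)),
        (1 - 1 / (n : ℝ)) * (p.1 + 3 * p.2 / (2 * n)), (1 - 1 / (n : ℝ)) ^ 2 * p.2))
  have cτX : Continuous fun p : ℝ × ℝ =>
      D.T (n - 1) ((1 - 1 / (n : ℝ)) * l + (1 - 1 / (n : ℝ)) * (p.1 + 3 * p.2 / (2 * n)))
        ((1 - 1 / (n : ℝ)) * (p.1 + 3 * p.2 / (2 * n))) := cτ.comp cX
  have cτx : Continuous fun p : ℝ × ℝ =>
      D.T (n - 1) ((1 - 1 / (n : ℝ)) * l + (1 - 1 / (n : ℝ)) * p.1)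
        ((1 - 1 / (n : ℝ)) * p.1) :=
    cτ.comp (by fun_prop : Continuous fun p : ℝ × ℝ => (1 - 1 / (n : ℝ)) * p.1)
  -- the pieces
  have c0 : CR Y (fun x y => w.w x y * (D.Zt n l x y + D.Zl n l x y)) :=
    (cw.mul (cZt0.add cZl0)).continuousOn
  have cA : CR Y (fun x y => w.w x y *
      D.Zt (n - 1) (l + (1 - 1 / (n : ℝ)) * (x + 3 * y / (2 * n)))
        ((1 - 1 / (n : ℝ)) * (x + 3 * y / (2 * n))) ((1 - 1 / (n : ℝ)) ^ 2 * y)) :=
    (cw.mul cGX).continuousOn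
  have cB : CR Y (fun x y => w.w x y *
      (D.T (n - 1) ((1 - 1 / (n : ℝ)) * l + (1 - 1 / (n : ℝ)) * (x + 3 * y / (2 * n)))
          ((1 - 1 / (n : ℝ)) * (x + 3 * y / (2 * n))) -
        D.T (n - 1) ((1 - 1 / (n : ℝ)) * l + (1 - 1 / (n : ℝ)) * x)
          ((1 - 1 / (n : ℝ)) * x))) :=
    (cw.mul (cτX.sub cτx)).continuousOn
  have cC : CR Y (fun x y => C * (1 + l) ^ 2 / (n : ℝ) ^ 2 * w.w x y) :=
    (continuous_const.mul cw).continuousOn
  have cAB : CR Y (fun x y => w.w x y *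
      D.Zt (n - 1) (l + (1 - 1 / (n : ℝ)) * (x + 3 * y / (2 * n)))
        ((1 - 1 / (n : ℝ)) * (x + 3 * y / (2 * n))) ((1 - 1 / (n : ℝ)) ^ 2 * y) +
        w.w x y *
      (D.T (n - 1) ((1 - 1 / (n : ℝ)) * l + (1 - 1 / (n : ℝ)) * (x + 3 * y / (2 * n)))
          ((1 - 1 / (n : ℝ)) * (x + 3 * y / (2 * n))) -
        D.T (n - 1) ((1 - 1 / (n : ℝ)) * l + (1 - 1 / (n : ℝ)) * x)
          ((1 - 1 / (n : ℝ)) * x))) := cA.add cB
  have key : I2 Y (fun x y => w.w x y * (D.Zt n l x y + D.Zl n l x y)) ≤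
      I2 Y (fun x y => (w.w x y *
      D.Zt (n - 1) (l + (1 - 1 / (n : ℝ)) * (x + 3 * y / (2 * n)))
        ((1 - 1 / (n : ℝ)) * (x + 3 * y / (2 * n))) ((1 - 1 / (n : ℝ)) ^ 2 * y) +
        w.w x y *
      (D.T (n - 1) ((1 - 1 / (n : ℝ)) * l + (1 - 1 / (n : ℝ)) * (x + 3 * y / (2 * n)))
          ((1 - 1 / (n : ℝ)) * (x + 3 * y / (2 * n))) -
        D.T (n - 1) ((1 - 1 / (n : ℝ)) * l + (1 - 1 / (n : ℝ)) * x)
          ((1 - 1 / (n : ℝ)) * x))) +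
        C * (1 + l) ^ 2 / (n : ℝ) ^ 2 * w.w x y) := by
    refine I2_mono hY.le c0 (cAB.add cC) ?_
    intro x y hx0 hx1 hy0 hy1
    rcases le_or_gt xc x with hx | hx
    · have hw0 : w.w x y = 0 := w.right x y hy0 hx
      simp only [hw0, zero_mul, mul_zero, add_zero, le_refl]
    · have hw0 : 0 ≤ w.w x y := w.nn x y
      have h := mul_le_mul_of_nonneg_left (h1 l x y hl hx0 hx.le hy0 hy1) hw0
      refine h.trans (le_of_eq ?_)
      ring
  rw [I2_add hY.le cAB cC, I2_add hY.le cA cB, I2_const_mul] at key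
  -- first term
  have k1 := h3 (fun x y => D.Zt (n - 1) (l + x) x y)
    (fun x y => D.Zl (n - 1) (l + x) x y + D.Zx (n - 1) (l + x) x y)
    (fun x y => D.Zy (n - 1) (l + x) x y) cZt1 (cZl1.add cZx1) cZy1
    (fun x y => D.dZx (n - 1) l x y hn1) (fun x y => D.dZy (n - 1) (l + x) x y hn1)
    (fun x y hx0 hx1 hy0 hy1 => ⟨D.Znn (n - 1) (l + x) x y hn1 (by linarith) hx0 hy0,
      D.Zle (n - 1) (l + x) x y hn1 (by linarith) hx0 hy0⟩)
  -- second term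
  have k2 := h2 (fun z => D.T (n - 1) ((1 - 1 / (n : ℝ)) * l + z) z)
    (ε (n - 1) * (4 * (1 + l) ^ 2)) cτ (mul_nonneg (hε0 _) (by positivity)) (by
      intro z hz0 hz1
      have hθl : 0 ≤ (1 - 1 / (n : ℝ)) * l := mul_nonneg hθ0 hl
      have hθl' : (1 - 1 / (n : ℝ)) * l ≤ l := by
        have := mul_le_mul_of_nonneg_right hθ1 hl
        linarith
      refine ⟨D.Tnn (n - 1) _ z hn1 (by linarith) hz0, ?_⟩
      refine (D.Tle (n - 1) _ z hn1 (by linarith) hz0 hz1).trans ?_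
      refine mul_le_mul_of_nonneg_left ?_ (hε0 _)
      have hle : 1 + ((1 - 1 / (n : ℝ)) * l + z) ≤ 2 * (1 + l) := by linarith
      have hnn : 0 ≤ 1 + ((1 - 1 / (n : ℝ)) * l + z) := by linarith
      calc (1 + ((1 - 1 / (n : ℝ)) * l + z)) ^ 2 ≤ (2 * (1 + l)) ^ 2 :=
            pow_le_pow_left₀ hnn hle 2
        _ = 4 * (1 + l) ^ 2 := by ring)
  have k3 : C * (1 + l) ^ 2 / (n : ℝ) ^ 2 * I2 Y (fun x y => w.w x y) ≤
      (1 + l) ^ 2 / n * (C * |I2 Y w.w| / (n : ℝ)) := by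
    have e1 : (1 + l) ^ 2 / n * (C * |I2 Y w.w| / (n : ℝ)) =
        C * (1 + l) ^ 2 / (n : ℝ) ^ 2 * |I2 Y w.w| := by
      field_simp
    rw [e1]
    exact mul_le_mul_of_nonneg_left (le_abs_self _) (by positivity)
  have hpos : 0 ≤ (1 + l) ^ 2 / (n : ℝ) := by positivity
  have k3' : (1 + l) ^ 2 / n * (C * |I2 Y w.w| / (n : ℝ)) ≤ (1 + l) ^ 2 / n * (e / 3) :=
    mul_le_mul_of_nonneg_left h5 hpos
  have k2' : L * (ε (n - 1) * (4 * (1 + l) ^ 2)) / n ≤ (1 + l) ^ 2 / n * (e / 3) := by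
    have e1 : L * (ε (n - 1) * (4 * (1 + l) ^ 2)) / n =
        (1 + l) ^ 2 / n * (4 * L * ε (n - 1)) := by ring
    rw [e1]
    exact mul_le_mul_of_nonneg_left h4 hpos
  have k1' : e / 3 / n ≤ (1 + l) ^ 2 / n * (e / 3) := by
    have h1l : 1 ≤ (1 + l) ^ 2 := by nlinarith
    have e1 : (1 + l) ^ 2 / n * (e / 3) = (1 + l) ^ 2 * (e / 3 / n) := by ring
    rw [e1]
    have : 0 ≤ e / 3 / (n : ℝ) := by positivity
    nlinarith
  have efin : e * (1 + l) ^ 2 / n = (1 + l) ^ 2 / n * (e / 3) + (1 + l) ^ 2 / n * (e / 3) +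
      (1 + l) ^ 2 / n * (e / 3) := by ring
  rw [efin]
  linarith [key, k1, k2, k3, k3', k2', k1']

end Pool.Agent.Lib.MP_9cae81_R
end

section

open Finset Filter MeasureTheory
open scoped BigOperators Topology

namespace Pool.Agent.Lib.MP_9cae81_R

private theorem F15_bound {xa xc Y : ℝ} (w : Test xa xc Y) :
    ∃ M : ℝ, 0 ≤ M ∧ ∀ x y, 0 ≤ x → x ≤ 1 → 0 ≤ y → y ≤ Y → w.w x y ≤ M := by
  have hc : IsCompact (Set.Icc (0 : ℝ) 1 ×ˢ Set.Icc (0 : ℝ) Y) := isCompact_Icc.prod isCompact_Icc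
  obtain ⟨C, hC⟩ := hc.exists_bound_of_continuousOn (f := fun p : ℝ × ℝ => w.w p.1 p.2)
    w.cw.continuousOn
  refine ⟨max C 0, le_max_right _ _, fun x y h1 h2 h3 h4 => ?_⟩
  have := hC (x, y) ⟨⟨h1, h2⟩, ⟨h3, h4⟩⟩
  exact le_trans (le_trans (le_abs_self _) this) (le_max_left _ _)

/-- The arithmetic of `one_step`. -/
private theorem F15_arith {e c K M Y C1 en n m l L P Q V G s : ℝ} (he : 0 < e) (hl : 0 ≤ l)
    (hn : 0 < n) (hm : 0 < m) (hc : 0 ≤ c) (hK0 : 0 ≤ K) (hM0 : 0 ≤ M) (hY : 0 < Y)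
    (hC1 : 0 ≤ C1)
    (h1 : L ≤ P + G + e / 4 * (1 + l) ^ 2 / n)
    (h2 : G ≤ Q + (c * (1 + l) - K) / n * P + e / 4 * (1 + l) ^ 3 / n)
    (h3 : P ≤ s + M * ((1 + l) * en))
    (h4 : s ≤ P + M * Y * (C1 * (2 + l) ^ 2 / m))
    (h5 : c * M * en ≤ e / 4) (h6 : 4 * (K * M * Y * C1) / m ≤ e / 4) (hV : V = P + Q) :
    L ≤ V + (c * (1 + l) - K) / n * s + e * (1 + l) ^ 3 / n := by
  have hl1 : 0 < 1 + l := by linarith
  have p2 : (1 + l) ^ 2 ≤ (1 + l) ^ 3 := by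
    have : (1 + l) ^ 2 * 1 ≤ (1 + l) ^ 2 * (1 + l) :=
      mul_le_mul_of_nonneg_left (by linarith) (by positivity)
    nlinarith
  -- first product
  have k1 : c * (1 + l) * P ≤ c * (1 + l) * s + e / 4 * (1 + l) ^ 3 := by
    have a1 : c * (1 + l) * P ≤ c * (1 + l) * (s + M * ((1 + l) * en)) :=
      mul_le_mul_of_nonneg_left h3 (by positivity)
    have a2 : c * (1 + l) * (M * ((1 + l) * en)) = c * M * en * (1 + l) ^ 2 := by ring
    have a3 : c * M * en * (1 + l) ^ 2 ≤ e / 4 * (1 + l) ^ 2 :=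
      mul_le_mul_of_nonneg_right h5 (by positivity)
    have a4 : e / 4 * (1 + l) ^ 2 ≤ e / 4 * (1 + l) ^ 3 :=
      mul_le_mul_of_nonneg_left p2 (by positivity)
    nlinarith
  have k2 : -(K * P) ≤ -(K * s) + e / 4 * (1 + l) ^ 3 := by
    have a1 : K * s ≤ K * (P + M * Y * (C1 * (2 + l) ^ 2 / m)) :=
      mul_le_mul_of_nonneg_left h4 hK0
    have a2 : K * (M * Y * (C1 * (2 + l) ^ 2 / m)) = (K * M * Y * C1) / m * (2 + l) ^ 2 := by
      ring
    have a3 : (2 + l) ^ 2 ≤ 4 * (1 + l) ^ 3 := by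
      have : (2 + l) ^ 2 ≤ 4 * (1 + l) ^ 2 := by nlinarith
      linarith
    have a5 : 0 ≤ (K * M * Y * C1) / m := by positivity
    have a6 : (K * M * Y * C1) / m * (2 + l) ^ 2 ≤ (K * M * Y * C1) / m * (4 * (1 + l) ^ 3) :=
      mul_le_mul_of_nonneg_left a3 a5
    have a7 : (K * M * Y * C1) / m * (4 * (1 + l) ^ 3) =
        4 * (K * M * Y * C1) / m * (1 + l) ^ 3 := by ring
    have a8 : 4 * (K * M * Y * C1) / m * (1 + l) ^ 3 ≤ e / 4 * (1 + l) ^ 3 :=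
      mul_le_mul_of_nonneg_right h6 (by positivity)
    nlinarith
  have k3 : (c * (1 + l) - K) / n * P ≤
      (c * (1 + l) - K) / n * s + (e / 4 * (1 + l) ^ 3 + e / 4 * (1 + l) ^ 3) / n := by
    have : (c * (1 + l) - K) * P ≤
        (c * (1 + l) - K) * s + (e / 4 * (1 + l) ^ 3 + e / 4 * (1 + l) ^ 3) := by nlinarith
    have b : ((c * (1 + l) - K) * P) / n ≤
        ((c * (1 + l) - K) * s + (e / 4 * (1 + l) ^ 3 + e / 4 * (1 + l) ^ 3)) / n :=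
      div_le_div_of_nonneg_right this hn.le
    have b1 : ((c * (1 + l) - K) * P) / n = (c * (1 + l) - K) / n * P := by ring
    have b2 : ((c * (1 + l) - K) * s + (e / 4 * (1 + l) ^ 3 + e / 4 * (1 + l) ^ 3)) / n =
        (c * (1 + l) - K) / n * s + (e / 4 * (1 + l) ^ 3 + e / 4 * (1 + l) ^ 3) / n := by ring
    rw [b1, b2] at b
    exact b
  have k4 : e / 4 * (1 + l) ^ 2 / n ≤ e / 4 * (1 + l) ^ 3 / n :=
    div_le_div_of_nonneg_right (mul_le_mul_of_nonneg_left p2 (by positivity)) hn.le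
  have k5 : e * (1 + l) ^ 3 / n = e / 4 * (1 + l) ^ 3 / n + e / 4 * (1 + l) ^ 3 / n +
      (e / 4 * (1 + l) ^ 3 + e / 4 * (1 + l) ^ 3) / n := by ring
  rw [hV, k5]
  linarith

/-- Combination of `rec_int`, `grad_int` and `Zt_compare` (for `n - 1`).  With
`c = (4 + 8 Cb) C1 (1+l)`: `(c - K)/n * I2 (w Zt (l+x)) ≤ (c/n) (s + M (1+l) ε (n-1)) -
(K/n)(s - M Y C1 (2+l)^2/(n-1))`, `s = I2 (w Zt (n-1) 0)`, for `K ≥ 0`; all errors are at most
`e (1+l)^3/n` for `n` large. -/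
theorem one_step {xb Y C1 : ℝ} {ε : ℕ → ℝ} (D : CorData xb Y C1 ε) (hε : Tendsto ε atTop (𝓝 0))
    (hε0 : ∀ n, 0 ≤ ε n) {xa xc : ℝ} (w : Test xa xc Y) (hxa : 0 < xa) (hxc : xc < xb)
    (hxb : xb < 1) (hY : 0 < Y) (hC1 : 0 ≤ C1) {dφ κ dκ : ℝ → ℝ} (cφ : Continuous dφ)
    (dk : ∀ y, HasDerivAt κ (dκ y) y) (ck : Continuous dκ) {e1 Cb K : ℝ} (he1 : 0 < e1)
    (hCb0 : 0 ≤ Cb) (hK0 : 0 ≤ K)
    (hS : ∀ x y, 0 ≤ y → y ≤ Y → w.w x y ≠ 0 → 0 ≤ 1 - x - e1 ∧ ∀ t : ℝ, 0 ≤ t → t ≤ 1 / 2 →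
      0 ≤ (1 - x - e1) - (3 / 2 * y - x + κ y * dφ y) * t + (2 * y - κ y) * t ^ 2)
    (hCb : ∀ x y, 0 ≤ x → x ≤ 1 → 0 ≤ y → y ≤ Y →
      |3 / 2 * y - x + κ y * dφ y| ≤ Cb ∧ |2 * y - κ y| ≤ Cb)
    (hK : ∀ x y, 0 ≤ x → x ≤ 1 → 0 ≤ y → y ≤ Y →
      κ y * dφ y * w.wx x y + κ y * w.wy x y + dκ y * w.w x y ≤ -K * w.w x y)
    {e : ℝ} (he : 0 < e) :
    ∀ᶠ n : ℕ in atTop, ∀ l : ℝ, 0 ≤ l →
      I2 Y (fun x y => w.w x y * (D.Zt n l x y + D.Zl n l x y)) ≤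
        I2 Y (fun x y => w.w x y *
          (D.Zt (n - 1) (l + x) x y + (1 - x - e1) * D.Zl (n - 1) (l + x) x y)) +
        ((4 + 8 * Cb) * C1 * (1 + l) - K) / n * I2 Y (fun x y => w.w x y * D.Zt (n - 1) 0 x y) +
        e * (1 + l) ^ 3 / n := by
  classical
  obtain ⟨M, hM0, hM⟩ := F15_bound w
  have hc0 : 0 ≤ (4 + 8 * Cb) * C1 := by positivity
  have he4 : 0 < e / 4 := by positivity
  have E1 := rec_int D hε hε0 w hxa hxc hxb hY hC1 he4
  have E2 := grad_int D hε hε0 w hxa hxc hxb hY hC1 cφ dk ck he1 hS hCb hK he4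
  have hpred : Tendsto (fun n : ℕ => n - 1) atTop atTop := tendsto_sub_atTop_nat 1
  have T1 : Tendsto (fun n : ℕ => (4 + 8 * Cb) * C1 * M * ε (n - 1)) atTop (𝓝 0) := by
    have := (hε.comp hpred).const_mul ((4 + 8 * Cb) * C1 * M)
    simpa using this
  have T2 : Tendsto (fun n : ℕ => 4 * (K * M * Y * C1) / ((n - 1 : ℕ) : ℝ)) atTop (𝓝 0) := by
    have h := (tendsto_const_div_atTop_nhds_zero_nat (4 * (K * M * Y * C1))).comp hpred
    exact h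
  have E3 := T1.eventually (ge_mem_nhds he4)
  have E4 := T2.eventually (ge_mem_nhds he4)
  filter_upwards [E1, E2, E3, E4, eventually_ge_atTop 2] with n h1 h2 h3 h4 hn2 l hl
  have hn1 : 1 ≤ n - 1 := by omega
  obtain ⟨z1, z2, -⟩ := Zt_compare D hε0 w hxa hxc hxb hY hC1 hM hM0 hn1 hl
  have hnp : (0 : ℝ) < n := by
    have : 0 < n := by omega
    exact_mod_cast this
  have hmp : (0 : ℝ) < ((n - 1 : ℕ) : ℝ) := by
    have : 0 < n - 1 := by omega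
    exact_mod_cast this
  have cA : CR Y (fun x y => w.w x y * D.Zt (n - 1) (l + x) x y) := by
    refine Continuous.continuousOn (w.cw.mul ?_)
    exact (D.cZt (n - 1)).comp (f := fun p : ℝ × ℝ => (l + p.1, p.1, p.2)) (by fun_prop)
  have cB : CR Y (fun x y => w.w x y * ((1 - x - e1) * D.Zl (n - 1) (l + x) x y)) := by
    refine Continuous.continuousOn (w.cw.mul (Continuous.mul (by fun_prop) ?_))
    exact (D.cZl (n - 1)).comp (f := fun p : ℝ × ℝ => (l + p.1, p.1, p.2)) (by fun_prop)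
  have hV : I2 Y (fun x y => w.w x y *
      (D.Zt (n - 1) (l + x) x y + (1 - x - e1) * D.Zl (n - 1) (l + x) x y)) =
      I2 Y (fun x y => w.w x y * D.Zt (n - 1) (l + x) x y) +
        I2 Y (fun x y => w.w x y * ((1 - x - e1) * D.Zl (n - 1) (l + x) x y)) := by
    rw [← I2_add hY.le cA cB]
    congr 1
    funext x y
    ring
  exact F15_arith he hl hnp hmp hc0 hK0 hM0 hY hC1 (h1 l hl) (h2 l hl) z1 z2 h3 h4 hV

end Pool.Agent.Lib.MP_9cae81_R
end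

section

open Finset Filter MeasureTheory
open scoped BigOperators Topology

namespace Pool.Agent.Lib.MP_9cae81_R

/-- The averaged recursion.  Notation `s n = I2 (w Zt n 0)`, `α n = (1+μ) I2 (w LL μ (A n))`,
`C3 = (4 + 8 Cb) C1 (1 + 1/μ) + C1 (1+μ) (1/μ + 1/μ²)`.

Proof.  Multiply `one_step` by `μ exp(-μ l)` and integrate over `l > 0` (both sides are integrable:
`lam_avg`, `LL_moments`).  Left side: `lam_avg` (i) at `n`.  Right side: `lam_avg` (ii) at `n - 1`,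
`μ LL μ (c (1 + l) - K) = c (1 + 1/μ) - K` with `c = (4+8Cb) C1`, and the error
`e μ LL μ ((1+l)^3)/n`.  So `s n + α n - (1+μ) I2 (w LL μ R0) ≤ s (n-1) + α (n-1) +
((c (1+1/μ) - K)/n) s (n-1) + e' /n`.  By `lam_err` the `R0` term is at most
`(C1 (1+μ)(1/μ+1/μ²)/n) s n + o(1)/n`. -/
theorem avg_rec {xb Y C1 : ℝ} {ε : ℕ → ℝ} (D : CorData xb Y C1 ε) (hε : Tendsto ε atTop (𝓝 0))
    (hε0 : ∀ n, 0 ≤ ε n) {xa xc : ℝ} (w : Test xa xc Y) (hxa : 0 < xa) (hxc : xc < xb)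
    (hxb : xb < 1) (hY : 0 < Y) (hC1 : 0 ≤ C1) {dφ κ dκ : ℝ → ℝ} (cφ : Continuous dφ)
    (dk : ∀ y, HasDerivAt κ (dκ y) y) (ck : Continuous dκ) {e1 Cb K μ : ℝ} (he1 : 0 < e1)
    (hCb0 : 0 ≤ Cb) (hK0 : 0 ≤ K) (hμ : 0 < μ) (hμ1 : μ ≤ 1)
    (hcond : ∀ x : ℝ, 0 ≤ x → 0 ≤ 1 - x - e1 →
      Real.exp (μ * x) * (1 + (1 - x - e1) * μ) ≤ 1 + μ)
    (hS : ∀ x y, 0 ≤ y → y ≤ Y → w.w x y ≠ 0 → 0 ≤ 1 - x - e1 ∧ ∀ t : ℝ, 0 ≤ t → t ≤ 1 / 2 →
      0 ≤ (1 - x - e1) - (3 / 2 * y - x + κ y * dφ y) * t + (2 * y - κ y) * t ^ 2)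
    (hCb : ∀ x y, 0 ≤ x → x ≤ 1 → 0 ≤ y → y ≤ Y →
      |3 / 2 * y - x + κ y * dφ y| ≤ Cb ∧ |2 * y - κ y| ≤ Cb)
    (hK : ∀ x y, 0 ≤ x → x ≤ 1 → 0 ≤ y → y ≤ Y →
      κ y * dφ y * w.wx x y + κ y * w.wy x y + dκ y * w.w x y ≤ -K * w.w x y)
    {e : ℝ} (he : 0 < e) :
    ∀ᶠ n : ℕ in atTop,
      (1 - ((4 + 8 * Cb) * C1 * (1 + 1 / μ) + C1 * (1 + μ) * (1 / μ + 1 / μ ^ 2)) / n) *
          I2 Y (fun x y => w.w x y * D.Zt n 0 x y) +
        (1 + μ) * I2 Y (fun x y => w.w x y * LL μ (fun l => D.A n l x y)) ≤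
      I2 Y (fun x y => w.w x y * D.Zt (n - 1) 0 x y) +
        (1 + μ) * I2 Y (fun x y => w.w x y * LL μ (fun l => D.A (n - 1) l x y)) -
      (K - ((4 + 8 * Cb) * C1 * (1 + 1 / μ) + C1 * (1 + μ) * (1 / μ + 1 / μ ^ 2))) / n *
        I2 Y (fun x y => w.w x y * D.Zt (n - 1) 0 x y) + e / n := by
  obtain ⟨hm1, hm2, hm3, hm4⟩ := LL_moments hμ
  -- bound for `w`
  obtain ⟨M, hM⟩ : ∃ M : ℝ, ∀ x y, 0 ≤ x → x ≤ 1 → 0 ≤ y → y ≤ Y → w.w x y ≤ M := by
    obtain ⟨M, hM⟩ := (isCompact_Icc.prod isCompact_Icc : IsCompact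
      ((Set.Icc (0 : ℝ) 1) ×ˢ (Set.Icc (0 : ℝ) Y))).exists_bound_of_continuousOn
        w.cw.continuousOn
    exact ⟨M, fun x y h1 h2 h3 h4 => (le_abs_self _).trans (hM (x, y) ⟨⟨h1, h2⟩, ⟨h3, h4⟩⟩)⟩
  have hM0 : 0 ≤ M := (w.nn 0 0).trans (hM 0 0 le_rfl zero_le_one le_rfl hY.le)
  set L3 : ℝ := LL μ (fun l => (1 + l) ^ 3) with hL3
  have he' : 0 < e / (2 * (μ * L3 + 1)) := by positivity
  have hone := one_step D hε hε0 w hxa hxc hxb hY hC1 cφ dk ck he1 hCb0 hK0 hS hCb hK he'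
  have hsmall : ∀ᶠ n : ℕ in atTop, (1 + μ) * (2 * C1 * M * ε n * L3) ≤ e / 2 := by
    have h1 : Tendsto (fun n => (1 + μ) * (2 * C1 * M * ε n * L3)) atTop
        (𝓝 ((1 + μ) * (2 * C1 * M * 0 * L3))) :=
      ((hε.const_mul (2 * C1 * M)).mul_const L3).const_mul (1 + μ)
    have h2 : (1 + μ) * (2 * C1 * M * 0 * L3) < e / 2 := by
      have : (1 + μ) * (2 * C1 * M * 0 * L3) = 0 := by ring
      rw [this]; positivity
    exact (h1.eventually (gt_mem_nhds h2)).mono fun n hn => hn.le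
  filter_upwards [hone, hsmall, eventually_ge_atTop 2] with n hn1 hn2 hn3
  have hw : ∀ x y, 0 ≤ y → y ≤ Y → w.w x y ≠ 0 → 0 ≤ 1 - x - e1 := fun x y h1 h2 h3 =>
    (hS x y h1 h2 h3).1
  have hnpos : (0 : ℝ) < n := by exact_mod_cast (by omega : 0 < n)
  obtain ⟨a1, -, a3, -⟩ := lam_avg D w hxa hxc hxb hY he1 hμ hμ1 hw hcond
    (n := n) (by omega)
  obtain ⟨-, b2, -, b4⟩ := lam_avg D w hxa hxc hxb hY he1 hμ hμ1 hw hcond
    (n := n - 1) (by omega)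
  obtain ⟨c1, -, -⟩ := lam_err D hε0 w hxa hxc hxb hY hC1 hM hM0 hμ (n := n) (by omega)
  have hsn : ∀ m : ℕ, 1 ≤ m → 0 ≤ I2 Y (fun x y => w.w x y * D.Zt m 0 x y) := by
    intro m hm
    unfold I2
    exact intervalIntegral.integral_nonneg hY.le fun y hy =>
      intervalIntegral.integral_nonneg zero_le_one fun x hx =>
        mul_nonneg (w.nn x y) (D.Znn m 0 x y hm le_rfl hx.1 hy.1)
  have s1 := hsn n (by omega)
  have s0 := hsn (n - 1) (by omega)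
  set sn : ℝ := I2 Y (fun x y => w.w x y * D.Zt n 0 x y) with hsn'
  set sm : ℝ := I2 Y (fun x y => w.w x y * D.Zt (n - 1) 0 x y) with hsm'
  set αn : ℝ := I2 Y (fun x y => w.w x y * LL μ (fun l => D.A n l x y)) with hαn
  set αm : ℝ := I2 Y (fun x y => w.w x y * LL μ (fun l => D.A (n - 1) l x y)) with hαm
  set ρn : ℝ := I2 Y (fun x y => w.w x y * LL μ (fun l => D.R0 n l x y)) with hρn
  -- integrability of the moments
  have i0 : IntegrableOn (fun l => Real.exp (-(μ * l)) * (1 : ℝ)) (Set.Ioi 0) := by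
    refine Integrable.mono' hm3 (by fun_prop) ?_
    refine (ae_restrict_iff' measurableSet_Ioi).2 (Eventually.of_forall fun l hl => ?_)
    have hl' : (0 : ℝ) < l := hl
    rw [Real.norm_eq_abs, abs_of_nonneg (by positivity)]
    refine mul_le_mul_of_nonneg_left ?_ (Real.exp_pos _).le
    exact one_le_pow₀ (by linarith)
  have i1 : IntegrableOn (fun l => Real.exp (-(μ * l)) * (1 + l)) (Set.Ioi 0) := by
    refine Integrable.mono' hm3 (by fun_prop) ?_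
    refine (ae_restrict_iff' measurableSet_Ioi).2 (Eventually.of_forall fun l hl => ?_)
    have hl' : (0 : ℝ) < l := hl
    rw [Real.norm_eq_abs, abs_of_nonneg (by positivity)]
    refine mul_le_mul_of_nonneg_left ?_ (Real.exp_pos _).le
    nlinarith [sq_nonneg l, mul_pos hl' hl', mul_pos (mul_pos hl' hl') hl']
  -- integrate `one_step`
  have key : LL μ (fun l => I2 Y (fun x y => w.w x y * (D.Zt n l x y + D.Zl n l x y))) ≤
      LL μ (fun l => I2 Y (fun x y => w.w x y *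
          (D.Zt (n - 1) (l + x) x y + (1 - x - e1) * D.Zl (n - 1) (l + x) x y))) +
        ((4 + 8 * Cb) * C1 * sm / n) * LL μ (fun l => 1 + l) - K * sm / n * LL μ (fun _ => 1) +
        (e / (2 * (μ * L3 + 1)) / n) * L3 := by
    have e1' : LL μ (fun l => I2 Y (fun x y => w.w x y *
          (D.Zt (n - 1) (l + x) x y + (1 - x - e1) * D.Zl (n - 1) (l + x) x y))) +
        ((4 + 8 * Cb) * C1 * sm / n) * LL μ (fun l => 1 + l) - K * sm / n * LL μ (fun _ => 1) +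
        (e / (2 * (μ * L3 + 1)) / n) * L3 =
        ∫ l in Set.Ioi (0 : ℝ), (Real.exp (-(μ * l)) * I2 Y (fun x y => w.w x y *
          (D.Zt (n - 1) (l + x) x y + (1 - x - e1) * D.Zl (n - 1) (l + x) x y)) +
        ((4 + 8 * Cb) * C1 * sm / n) * (Real.exp (-(μ * l)) * (1 + l)) -
          K * sm / n * (Real.exp (-(μ * l)) * (1 : ℝ)) +
        (e / (2 * (μ * L3 + 1)) / n) * (Real.exp (-(μ * l)) * (1 + l) ^ 3)) := by
      rw [integral_add, integral_sub, integral_add, integral_const_mul, integral_const_mul,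
        integral_const_mul]
      · rfl
      · exact b4
      · exact i1.const_mul _
      · exact b4.add (i1.const_mul _)
      · exact i0.const_mul _
      · exact (b4.add (i1.const_mul _)).sub (i0.const_mul _)
      · exact hm3.const_mul _
    rw [e1']
    unfold LL
    refine setIntegral_mono_on a3
      (((b4.add (i1.const_mul _)).sub (i0.const_mul _)).add (hm3.const_mul _))
      measurableSet_Ioi fun l hl => ?_
    have hl' : (0 : ℝ) < l := hl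
    have h1 := mul_le_mul_of_nonneg_left (hn1 l hl'.le) (Real.exp_pos (-(μ * l))).le
    refine h1.trans (le_of_eq ?_)
    field_simp
    ring
  have key2 := mul_le_mul_of_nonneg_left key hμ.le
  have hLHS : μ * LL μ (fun l => I2 Y (fun x y => w.w x y * (D.Zt n l x y + D.Zl n l x y))) =
      sn + (1 + μ) * αn - (1 + μ) * ρn := a1
  have hRHS : μ * LL μ (fun l => I2 Y (fun x y => w.w x y *
          (D.Zt (n - 1) (l + x) x y + (1 - x - e1) * D.Zl (n - 1) (l + x) x y))) ≤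
      sm + (1 + μ) * αm := b2
  have e2 : μ * (LL μ (fun l => I2 Y (fun x y => w.w x y *
          (D.Zt (n - 1) (l + x) x y + (1 - x - e1) * D.Zl (n - 1) (l + x) x y))) +
        ((4 + 8 * Cb) * C1 * sm / n) * LL μ (fun l => 1 + l) - K * sm / n * LL μ (fun _ => 1) +
        (e / (2 * (μ * L3 + 1)) / n) * L3) =
      μ * LL μ (fun l => I2 Y (fun x y => w.w x y *
          (D.Zt (n - 1) (l + x) x y + (1 - x - e1) * D.Zl (n - 1) (l + x) x y))) +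
        ((4 + 8 * Cb) * C1 * sm / n) * (μ * LL μ (fun l => 1 + l)) -
          K * sm / n * (μ * LL μ (fun _ => 1)) +
        (e / (2 * (μ * L3 + 1)) * (μ * L3)) / n := by ring
  rw [e2, hLHS, hm1, hm2] at key2
  have e3 : e / (2 * (μ * L3 + 1)) * (μ * L3) ≤ e / 2 := by
    rw [div_mul_eq_mul_div, div_le_div_iff₀ (by positivity) (by norm_num)]
    nlinarith [mul_nonneg he.le (mul_nonneg hμ.le hm4)]
  have e4 : (e / (2 * (μ * L3 + 1)) * (μ * L3)) / n ≤ (e / 2) / n :=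
    div_le_div_of_nonneg_right e3 hnpos.le
  have c2 := mul_le_mul_of_nonneg_left c1 (by linarith : (0 : ℝ) ≤ 1 + μ)
  have e5 : (1 + μ) * (C1 * (1 / μ + 1 / μ ^ 2) / n * sn + 2 * C1 * M * ε n * L3 / n) =
      (C1 * (1 + μ) * (1 / μ + 1 / μ ^ 2)) / n * sn + (1 + μ) * (2 * C1 * M * ε n * L3) / n := by
    ring
  have e6 : (1 + μ) * (2 * C1 * M * ε n * L3) / n ≤ (e / 2) / n :=
    div_le_div_of_nonneg_right hn2 hnpos.le
  rw [e5] at c2
  set c' : ℝ := (4 + 8 * Cb) * C1 * (1 + 1 / μ) with hc'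
  set d : ℝ := C1 * (1 + μ) * (1 / μ + 1 / μ ^ 2) with hd
  have hc0 : 0 ≤ c' := by positivity
  have hd0 : 0 ≤ d := by positivity
  have f1 : 0 ≤ c' / n * sn := by positivity
  have f2 : 0 ≤ d / n * sm := by positivity
  have g1 : (1 - (c' + d) / n) * sn = sn - c' / n * sn - d / n * sn := by ring
  have g2 : (K - (c' + d)) / n * sm = K / n * sm - c' / n * sm - d / n * sm := by ring
  have g3 : (4 + 8 * Cb) * C1 * sm / n * (1 + 1 / μ) = c' / n * sm := by rw [hc']; ring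
  have g4 : K * sm / n * 1 = K / n * sm := by ring
  have g5 : e / n = (e / 2) / n + (e / 2) / n := by ring
  rw [g3, g4] at key2
  rw [g1, g2, g5]
  linarith

end Pool.Agent.Lib.MP_9cae81_R
end

section

open Finset Filter MeasureTheory
open scoped BigOperators Topology

namespace Pool.Agent.Lib.MP_9cae81_R

private theorem F20_I2_pos {Y : ℝ} (hY : 0 < Y) {f : ℝ → ℝ → ℝ} (hf : CR Y f)
    (h0 : ∀ x y, 0 ≤ x → x ≤ 1 → 0 ≤ y → y ≤ Y → 0 ≤ f x y) {x1 y1 : ℝ} (hx0 : 0 ≤ x1)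
    (hx1 : x1 ≤ 1) (hy0 : 0 ≤ y1) (hy1 : y1 ≤ Y) (hp : 0 < f x1 y1) : 0 < I2 Y f := by
  unfold I2
  refine intervalIntegral.integral_pos hY (CR_inner hY.le hf).1 (fun y hy => ?_)
    ⟨y1, ⟨hy0, hy1⟩, ?_⟩
  · exact intervalIntegral.integral_nonneg zero_le_one fun x hx =>
      h0 x y hx.1 hx.2 hy.1.le hy.2
  · refine intervalIntegral.integral_pos zero_lt_one ?_ (fun x hx => ?_) ⟨x1, ⟨hx0, hx1⟩, hp⟩
    · have h1 : ContinuousOn (fun x : ℝ => ((x, y1) : ℝ × ℝ)) (Set.Icc 0 1) :=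
        (Continuous.prodMk continuous_id continuous_const).continuousOn
      exact ContinuousOn.comp hf h1 fun x hx => ⟨hx, ⟨hy0, hy1⟩⟩
    · exact h0 x y1 hx.1.le hx.2 hy0 hy1

private theorem F20_CR {Y : ℝ} {f : ℝ → ℝ → ℝ} (hf : Continuous fun p : ℝ × ℝ => f p.1 p.2) :
    CR Y f := hf.continuousOn

private theorem F20_I2_zero (Y : ℝ) : I2 Y (fun _ _ => 0) = 0 := by
  have h := I2_const_mul (Y := Y) 0 (fun _ _ => 0)
  simpa using h

/-- **The analytic theorem.**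

Proof.  From the slack at `t = 0`: `ε0 ≤ 1 - φ y`.  By compactness `φ ≥ m0 > 0` and
`φ ≤ M0 < xb` on `[0,Y]`.  Put `e1 = ε0/4`, `ρ = min (ε0/4) (min (m0/2) ((xb - M0)/2))`,
`xa = m0/2`, `xc = (M0 + xb)/2`; then `xa ≤ φ - ρ`, `φ + ρ ≤ xc < xb`, `xa > 0`.  If `w x y ≠ 0` then
`|x - φ y| < ρ` and `(1 - x - e1) - (3/2 y - x + κ dφ) t + (2y - κ) t² =
[1 - φ - (3/2 y - φ + κ dφ) t + (2y-κ) t²] + (φ - x)(1 - t) - e1 ≥ ε0 - ρ - e1 ≥ 0`, in particular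
(`t = 0`) `0 ≤ 1 - x - e1`.  Choose `μ` (`mu_exists`), `Cb` (compactness), `C3` as in `avg_rec`,
`K = 2 C3 + 1`, and `w` by `bump`.  `avg_rec` and `seq_lemma` (`c = C3`, `k = K`; `lam_err` for
`α → 0`) give `I2 (w Zt n 0) → 0`; also `I2 (w T n 0 x) ≤ sup w * Y * ε n → 0` (`Tle`, `w = 0` for
`x ≥ xc`).  Given `x0 < φ y0`, `y0 < Y`: by continuity there are `y1 ∈ (y0, Y)` with `x0 < φ y1` and
`x1 ∈ (x0, φ y1)`, `x1 > φ y1 - ρ`, `x1 > 0`, so `w x1 y1 > 0` and there is a closed rectangle around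
`(x1, y1)` inside `{x0 < x < 1, y0 < y < Y}` on which `w ≥ w0 > 0`; by `mono`,
`Zt n 0 x0 y0 + T n 0 x0 ≤ Zt n 0 x y + T n 0 x` there, so
`w0 * area * (Zt n 0 x0 y0 + T n 0 x0) ≤ I2 (w (Zt n 0 + T n 0)) → 0`. -/
theorem cor_main {xb Y C1 : ℝ} {ε : ℕ → ℝ} (D : CorData xb Y C1 ε) (hε : Tendsto ε atTop (𝓝 0))
    (hε0 : ∀ n, 0 ≤ ε n) (hxb0 : 0 < xb) (hxb : xb < 1) (hY : 0 < Y) (hC1 : 0 ≤ C1)
    {φ dφ κ dκ : ℝ → ℝ} (dp : ∀ y, HasDerivAt φ (dφ y) y) (cp' : Continuous dφ)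
    (dk : ∀ y, HasDerivAt κ (dκ y) y) (ck : Continuous dκ)
    (kpos : ∀ y, 0 ≤ y → y ≤ Y → 0 < κ y)
    (range : ∀ y, 0 ≤ y → y ≤ Y → 0 < φ y ∧ φ y < xb) {ε1 : ℝ} (hε1 : 0 < ε1)
    (slack : ∀ y t, 0 ≤ y → y ≤ Y → 0 ≤ t → t ≤ 1 / 2 →
      ε1 ≤ 1 - φ y - (3 / 2 * y - φ y + κ y * dφ y) * t + (2 * y - κ y) * t ^ 2)
    {x0 y0 : ℝ} (hx0 : 0 ≤ x0) (hx : x0 < φ y0) (hy0 : 0 ≤ y0) (hy : y0 < Y) :
    Tendsto (fun n => D.Zt n 0 x0 y0 + D.T n 0 x0) atTop (𝓝 0) := by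
  classical
  have hφc : Continuous φ := continuous_iff_continuousAt.2 fun y => (dp y).continuousAt
  have hκc : Continuous κ := continuous_iff_continuousAt.2 fun y => (dk y).continuousAt
  have hne : (Set.Icc (0 : ℝ) Y).Nonempty := ⟨0, le_rfl, hY.le⟩
  obtain ⟨ym, hym, hmin⟩ := isCompact_Icc.exists_isMinOn hne hφc.continuousOn
  obtain ⟨yM, hyM, hmax⟩ := isCompact_Icc.exists_isMaxOn hne hφc.continuousOn
  have hm0 : 0 < φ ym := (range ym hym.1 hym.2).1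
  have hM0 : φ yM < xb := (range yM hyM.1 hyM.2).2
  have hmin' : ∀ y, 0 ≤ y → y ≤ Y → φ ym ≤ φ y := fun y h1 h2 => hmin ⟨h1, h2⟩
  have hmax' : ∀ y, 0 ≤ y → y ≤ Y → φ y ≤ φ yM := fun y h1 h2 => hmax ⟨h1, h2⟩
  have hsl0 : ∀ y, 0 ≤ y → y ≤ Y → ε1 ≤ 1 - φ y := by
    intro y h1 h2
    have h3 := slack y 0 h1 h2 le_rfl (by norm_num)
    simpa using h3
  set e1 : ℝ := ε1 / 4 with he1
  set ρ : ℝ := min (ε1 / 4) (min (φ ym / 2) ((xb - φ yM) / 2)) with hρd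
  have hρ1 : ρ ≤ ε1 / 4 := min_le_left _ _
  have hρ2 : ρ ≤ φ ym / 2 := (min_le_right _ _).trans (min_le_left _ _)
  have hρ3 : ρ ≤ (xb - φ yM) / 2 := (min_le_right _ _).trans (min_le_right _ _)
  have hρ : 0 < ρ := lt_min (by linarith) (lt_min (by linarith) (by linarith))
  have he1p : 0 < e1 := by rw [he1]; linarith
  have he11 : e1 ≤ 1 := by
    have h1 := hsl0 0 le_rfl hY.le
    have h2 := (range 0 le_rfl hY.le).1
    rw [he1]
    linarith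
  have hxa : 0 < φ ym / 2 := by linarith
  have hxc : (φ yM + xb) / 2 < xb := by linarith
  have hl : ∀ y, 0 ≤ y → y ≤ Y → φ ym / 2 ≤ φ y - ρ := by
    intro y h1 h2
    have := hmin' y h1 h2
    linarith
  have hr : ∀ y, 0 ≤ y → y ≤ Y → φ y + ρ ≤ (φ yM + xb) / 2 := by
    intro y h1 h2
    have := hmax' y h1 h2
    linarith
  obtain ⟨μ, hμ, hμ1, hcond⟩ := mu_exists he1p he11
  obtain ⟨Ca, hCa⟩ := isCompact_Icc.exists_bound_of_continuousOn (s := Set.Icc (0 : ℝ) Y)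
    ((hκc.mul cp').continuousOn)
  obtain ⟨Cc, hCc⟩ := isCompact_Icc.exists_bound_of_continuousOn (s := Set.Icc (0 : ℝ) Y)
    hκc.continuousOn
  have hCa0 : 0 ≤ Ca := (norm_nonneg _).trans (hCa 0 ⟨le_rfl, hY.le⟩)
  have hCc0 : 0 ≤ Cc := (norm_nonneg _).trans (hCc 0 ⟨le_rfl, hY.le⟩)
  set Cb : ℝ := 2 * Y + 1 + Ca + Cc with hCbd
  have hCb0 : 0 ≤ Cb := by rw [hCbd]; linarith
  have hCb : ∀ x y, 0 ≤ x → x ≤ 1 → 0 ≤ y → y ≤ Y →
      |3 / 2 * y - x + κ y * dφ y| ≤ Cb ∧ |2 * y - κ y| ≤ Cb := by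
    intro x y h1 h2 h3 h4
    have h5 := hCa y ⟨h3, h4⟩
    have h6 := hCc y ⟨h3, h4⟩
    rw [Real.norm_eq_abs] at h5 h6
    have h5' := abs_le.1 h5
    have h6' := abs_le.1 h6
    simp only [Pi.mul_apply] at h5'
    rw [hCbd]
    constructor
    · rw [abs_le]
      constructor
      · linarith [h5'.1]
      · linarith [h5'.2]
    · rw [abs_le]
      constructor
      · linarith [h6'.2]
      · linarith [h6'.1]
  set C3 : ℝ := (4 + 8 * Cb) * C1 * (1 + 1 / μ) + C1 * (1 + μ) * (1 / μ + 1 / μ ^ 2) with hC3d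
  have hC30 : 0 ≤ C3 := by
    rw [hC3d]
    have h1 : 0 ≤ 1 / μ := by positivity
    positivity
  obtain ⟨w, hw1, hw2, hw3⟩ := bump (K := 2 * C3 + 1) hY hρ dp cp' dk ck kpos hl hr
  have hS : ∀ x y, 0 ≤ y → y ≤ Y → w.w x y ≠ 0 → 0 ≤ 1 - x - e1 ∧ ∀ t : ℝ, 0 ≤ t → t ≤ 1 / 2 →
      0 ≤ (1 - x - e1) - (3 / 2 * y - x + κ y * dφ y) * t + (2 * y - κ y) * t ^ 2 := by
    intro x y h1 h2 h3
    have h4 := abs_lt.1 (hw1 x y h1 h2 h3)
    have h5 := hsl0 y h1 h2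
    refine ⟨by rw [he1]; linarith [h4.2], fun t ht0 ht1 => ?_⟩
    have h6 := slack y t h1 h2 ht0 ht1
    have h7 : (1 - x - e1) - (3 / 2 * y - x + κ y * dφ y) * t + (2 * y - κ y) * t ^ 2 =
        (1 - φ y - (3 / 2 * y - φ y + κ y * dφ y) * t + (2 * y - κ y) * t ^ 2) +
          (φ y - x) * (1 - t) - e1 := by ring
    rw [h7]
    have h8 : -ρ ≤ (φ y - x) * (1 - t) := by
      have h9 : -ρ ≤ φ y - x := by linarith [h4.2]
      have h10 : 0 ≤ 1 - t := by linarith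
      have h11 : 1 - t ≤ 1 := by linarith
      nlinarith
    rw [he1]
    linarith
  -- the sequences
  have hrec := fun (e : ℝ) (he : 0 < e) => avg_rec D hε hε0 w hxa hxc hxb hY hC1 cp' dk ck he1p
    hCb0 (K := 2 * C3 + 1) (by linarith) hμ hμ1 hcond hS hCb
    (fun x y _ _ h3 h4 => hw3 x y h3 h4) he
  obtain ⟨Mw, hMw⟩ := (isCompact_Icc.prod isCompact_Icc).exists_bound_of_continuousOn
    (s := Set.Icc (0 : ℝ) 1 ×ˢ Set.Icc (0 : ℝ) Y) w.cw.continuousOn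
  have hMw' : ∀ x y, 0 ≤ x → x ≤ 1 → 0 ≤ y → y ≤ Y → w.w x y ≤ Mw := fun x y h1 h2 h3 h4 =>
    (Real.le_norm_self _).trans (hMw (x, y) ⟨⟨h1, h2⟩, ⟨h3, h4⟩⟩)
  have hMw0 : 0 ≤ Mw := (w.nn 0 0).trans (hMw' 0 0 le_rfl zero_le_one le_rfl hY.le)
  have cwZ : ∀ n, Continuous fun p : ℝ × ℝ => w.w p.1 p.2 * D.Zt n 0 p.1 p.2 := fun n =>
    w.cw.mul ((D.cZt n).comp (Continuous.prodMk continuous_const continuous_id))
  have cwT : ∀ n, Continuous fun p : ℝ × ℝ => w.w p.1 p.2 * D.T n 0 p.1 := fun n =>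
    w.cw.mul ((D.cT n).comp (Continuous.prodMk continuous_const continuous_fst))
  have hs : ∀ n, 1 ≤ n → 0 ≤ I2 Y (fun x y => w.w x y * D.Zt n 0 x y) ∧
      I2 Y (fun x y => w.w x y * D.Zt n 0 x y) ≤ I2 Y (fun _ _ => Mw) := by
    intro n hn
    constructor
    · refine (F20_I2_zero Y).symm.le.trans ?_
      refine I2_mono hY.le (F20_CR continuous_const) (F20_CR (cwZ n)) fun x y h1 h2 h3 h4 => ?_
      exact mul_nonneg (w.nn x y) (D.Znn n 0 x y hn le_rfl h1 h3)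
    · refine I2_mono hY.le (F20_CR (cwZ n)) (F20_CR continuous_const) fun x y h1 h2 h3 h4 => ?_
      calc w.w x y * D.Zt n 0 x y ≤ w.w x y * 1 :=
            mul_le_mul_of_nonneg_left (D.Zle n 0 x y hn le_rfl h1 h3) (w.nn x y)
        _ ≤ Mw := by rw [mul_one]; exact hMw' x y h1 h2 h3 h4
  have hα : ∀ n, 1 ≤ n → 0 ≤ (1 + μ) * I2 Y (fun x y => w.w x y * LL μ (fun l => D.A n l x y)) := by
    intro n hn
    have h1 := (lam_err D hε0 w hxa hxc hxb hY hC1 hMw' hMw0 hμ hn).2.1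
    have h2 : 0 ≤ 1 + μ := by linarith
    exact mul_nonneg h2 h1
  have hα0 : Tendsto (fun n => (1 + μ) * I2 Y (fun x y => w.w x y * LL μ (fun l => D.A n l x y)))
      atTop (𝓝 0) := by
    have h1 : Tendsto (fun n => (1 + μ) * (Mw * ε n / μ)) atTop (𝓝 ((1 + μ) * (Mw * 0 / μ))) :=
      ((hε.const_mul Mw).div_const μ).const_mul (1 + μ)
    rw [mul_zero, zero_div, mul_zero] at h1
    refine squeeze_zero' ?_ ?_ h1
    · filter_upwards [eventually_ge_atTop 1] with n hn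
      exact hα n hn
    · filter_upwards [eventually_ge_atTop 1] with n hn
      have h2 := (lam_err D hε0 w hxa hxc hxb hY hC1 hMw' hMw0 hμ hn).2.2
      exact mul_le_mul_of_nonneg_left h2 (by linarith)
  have hlim : Tendsto (fun n => I2 Y (fun x y => w.w x y * D.Zt n 0 x y)) atTop (𝓝 0) :=
    seq_lemma (s := fun n => I2 Y (fun x y => w.w x y * D.Zt n 0 x y))
      (α := fun n => (1 + μ) * I2 Y (fun x y => w.w x y * LL μ (fun l => D.A n l x y)))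
      (c := C3) (k := 2 * C3 + 1) hs hα hα0 hC30 le_rfl hrec
  have hlimT : Tendsto (fun n => I2 Y (fun x y => w.w x y * D.T n 0 x)) atTop (𝓝 0) := by
    have h1 : Tendsto (fun n => (Mw * ε n) * I2 Y (fun _ _ => 1)) atTop
        (𝓝 ((Mw * 0) * I2 Y (fun _ _ => 1))) := (hε.const_mul Mw).mul_const _
    rw [mul_zero, zero_mul] at h1
    refine squeeze_zero' ?_ ?_ h1
    · filter_upwards [eventually_ge_atTop 1] with n hn
      refine (F20_I2_zero Y).symm.le.trans ?_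
      refine I2_mono hY.le (F20_CR continuous_const) (F20_CR (cwT n)) fun x y h1 h2 h3 h4 => ?_
      exact mul_nonneg (w.nn x y) (D.Tnn n 0 x hn le_rfl h1)
    · filter_upwards [eventually_ge_atTop 1] with n hn
      rw [← I2_const_mul]
      refine I2_mono hY.le (F20_CR (cwT n)) (F20_CR continuous_const) fun x y h1 h2 h3 h4 => ?_
      rw [mul_one]
      rcases le_or_gt x xb with h5 | h5
      · have h6 := D.Tle n 0 x hn le_rfl h1 h5
        rw [add_zero, one_pow, mul_one] at h6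
        exact mul_le_mul (hMw' x y h1 h2 h3 h4) h6 (D.Tnn n 0 x hn le_rfl h1) hMw0
      · rw [w.right x y h3 (by linarith), zero_mul]
        exact mul_nonneg hMw0 (hε0 n)
  -- the point
  obtain ⟨y1, hy1a, hy1b, hy1c⟩ : ∃ y1, y0 < y1 ∧ y1 < Y ∧ x0 < φ y1 := by
    have h1 : ∀ᶠ y in 𝓝[>] y0, y0 < y ∧ y < Y ∧ x0 < φ y := by
      filter_upwards [self_mem_nhdsWithin, nhdsWithin_le_nhds (gt_mem_nhds hy),
        nhdsWithin_le_nhds (hφc.continuousAt.eventually (lt_mem_nhds hx))] with y h1 h2 h3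
      exact ⟨h1, h2, h3⟩
    exact h1.exists
  have hy1d : 0 ≤ y1 := hy0.trans hy1a.le
  obtain ⟨x1, hx1a, hx1b, hx1c⟩ : ∃ x1, x0 < x1 ∧ x1 < φ y1 ∧ φ y1 - ρ < x1 := by
    obtain ⟨x1, h1, h2⟩ := exists_between (show max x0 (φ y1 - ρ) < φ y1 from
      max_lt hy1c (by linarith))
    exact ⟨x1, (le_max_left _ _).trans_lt h1, h2, (le_max_right _ _).trans_lt h1⟩
  have hx1d : x1 ≤ 1 := by
    have := (range y1 hy1d hy1b.le).2
    linarith
  have hwp : 0 < w.w x1 y1 := hw2 x1 y1 hy1d hy1b (by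
    rw [abs_lt]
    constructor <;> linarith)
  set η : ℝ → ℝ → ℝ := fun x y => w.w x y * (max 0 (x - x0) * max 0 (y - y0)) with hη
  have cη : Continuous fun p : ℝ × ℝ => η p.1 p.2 := by
    rw [hη]
    have h1 : Continuous fun p : ℝ × ℝ => max 0 (p.1 - x0) :=
      continuous_const.max (continuous_fst.sub continuous_const)
    have h2 : Continuous fun p : ℝ × ℝ => max 0 (p.2 - y0) :=
      continuous_const.max (continuous_snd.sub continuous_const)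
    exact w.cw.mul (h1.mul h2)
  have hηpos : 0 < I2 Y η := by
    refine F20_I2_pos hY (F20_CR cη) (fun x y _ _ _ _ => ?_) (hx0.trans hx1a.le) hx1d hy1d
      hy1b.le ?_
    · exact mul_nonneg (w.nn x y) (mul_nonneg (le_max_left _ _) (le_max_left _ _))
    · refine mul_pos hwp (mul_pos ?_ ?_)
      · exact lt_max_of_lt_right (by linarith)
      · exact lt_max_of_lt_right (by linarith)
  have hfin : Tendsto (fun n => Y / I2 Y η * (I2 Y (fun x y => w.w x y * D.Zt n 0 x y) +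
      I2 Y (fun x y => w.w x y * D.T n 0 x))) atTop (𝓝 (Y / I2 Y η * (0 + 0))) :=
    (hlim.add hlimT).const_mul _
  rw [add_zero, mul_zero] at hfin
  refine squeeze_zero' ?_ ?_ hfin
  · filter_upwards [eventually_ge_atTop 1] with n hn
    exact add_nonneg (D.Znn n 0 x0 y0 hn le_rfl hx0 hy0) (D.Tnn n 0 x0 hn le_rfl hx0)
  · filter_upwards [eventually_ge_atTop 1] with n hn
    set P : ℝ := D.Zt n 0 x0 y0 + D.T n 0 x0 with hP
    have hP0 : 0 ≤ P := add_nonneg (D.Znn n 0 x0 y0 hn le_rfl hx0 hy0) (D.Tnn n 0 x0 hn le_rfl hx0)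
    have h1 : P * I2 Y η ≤ Y * (I2 Y (fun x y => w.w x y * D.Zt n 0 x y) +
        I2 Y (fun x y => w.w x y * D.T n 0 x)) := by
      rw [← I2_add hY.le (F20_CR (cwZ n)) (F20_CR (cwT n)), ← I2_const_mul, ← I2_const_mul]
      refine I2_mono hY.le (F20_CR (continuous_const.mul cη))
        (F20_CR (continuous_const.mul ((cwZ n).add (cwT n)))) fun x y h1 h2 h3 h4 => ?_
      have h5 : 0 ≤ D.Zt n 0 x y := D.Znn n 0 x y hn le_rfl h1 h3
      have h6 : 0 ≤ D.T n 0 x := D.Tnn n 0 x hn le_rfl h1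
      have h7 := w.nn x y
      by_cases h8 : x0 ≤ x ∧ y0 ≤ y
      · have h9 := D.mono n x0 y0 x y hn hx0 hy0 h8.1 h8.2
        have h10 : max 0 (x - x0) ≤ 1 := max_le zero_le_one (by linarith)
        have h11 : max 0 (y - y0) ≤ Y := max_le hY.le (by linarith)
        have h12 : max 0 (x - x0) * max 0 (y - y0) ≤ 1 * Y :=
          mul_le_mul h10 h11 (le_max_left _ _) zero_le_one
        calc P * η x y = w.w x y * ((max 0 (x - x0) * max 0 (y - y0)) * P) := by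
              rw [hη]
              ring
          _ ≤ w.w x y * (1 * Y * (D.Zt n 0 x y + D.T n 0 x)) :=
              mul_le_mul_of_nonneg_left (mul_le_mul h12 h9 hP0 (by linarith)) h7
          _ = Y * (w.w x y * D.Zt n 0 x y + w.w x y * D.T n 0 x) := by ring
      · have h9 : η x y = 0 := by
          rw [hη]
          rcases not_and_or.1 h8 with h | h
          · simp only
            rw [max_eq_left (show x - x0 ≤ 0 by linarith), zero_mul, mul_zero]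
          · simp only
            rw [max_eq_left (show y - y0 ≤ 0 by linarith), mul_zero, mul_zero]
        rw [h9, mul_zero]
        exact mul_nonneg hY.le (add_nonneg (mul_nonneg h7 h5) (mul_nonneg h7 h6))
    rw [div_mul_eq_mul_div, le_div_iff₀ hηpos]
    exact h1

end Pool.Agent.Lib.MP_9cae81_R
end
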